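import Pool.Agent.Work.MP_c51bc2_nt.Interface

/-! # AFE: the approximate functional equation by convolution (helper70) -/

open Finset Complex MeasureTheory

namespace HZS

/-! ## the kernel -/

theorem AFE_int {k : ℝ → ℂ} {ψ : ℝ → ℝ} (hk : IsKer k ψ) :
    Integrable (fun v : ℝ => ‖k v‖ * (1 + |v|) ^ 2) := by
  obtain ⟨C, hC⟩ := hk.dec 4
  have h0 : 0 ≤ C := le_trans (by positivity) (hC 0)
  have hi : Integrable (fun v : ℝ => C * (1 + v ^ 2)⁻¹) :=
    integrable_inv_one_add_sq.const_mul C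
  refine hi.mono' ?_ (Filter.Eventually.of_forall fun v => ?_)
  · exact ((continuous_norm.comp hk.cont).mul (by fun_prop)).aestronglyMeasurable
  · have h1 := hC v
    have h2 : 0 ≤ ‖k v‖ * (1 + |v|) ^ 2 := by positivity
    rw [Real.norm_of_nonneg h2, ← div_eq_mul_inv, le_div_iff₀ (by positivity)]
    refine le_trans ?_ h1
    have h3 : (1 + v ^ 2) ≤ (1 + |v|) ^ 2 := by
      rw [← sq_abs v]
      nlinarith [abs_nonneg v]
    calc ‖k v‖ * (1 + |v|) ^ 2 * (1 + v ^ 2) ≤ ‖k v‖ * (1 + |v|) ^ 2 * (1 + |v|) ^ 2 := by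
          gcongr
      _ = ‖k v‖ * (1 + |v|) ^ 4 := by ring

theorem AFE_int0 {k : ℝ → ℂ} {ψ : ℝ → ℝ} (hk : IsKer k ψ) : Integrable k := by
  refine (AFE_int hk).mono' hk.cont.aestronglyMeasurable (Filter.Eventually.of_forall fun v => ?_)
  have h1 : (1 : ℝ) ≤ (1 + |v|) ^ 2 := by nlinarith [abs_nonneg v]
  nlinarith [norm_nonneg (k v)]

theorem AFE_tail {k : ℝ → ℂ} {ψ : ℝ → ℝ} (hk : IsKer k ψ) (V ξ : ℝ) (hV : 0 < V) :
    ‖(ψ ξ : ℂ) - ∫ v in (-V)..V, k v * cexp (I * ((v * ξ : ℝ) : ℂ))‖ ≤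
      (∫ v : ℝ, ‖k v‖ * (1 + |v|) ^ 2) / V := by
  have hnorm : ∀ v : ℝ, ‖k v * cexp (I * ((v * ξ : ℝ) : ℂ))‖ = ‖k v‖ := by
    intro v
    rw [norm_mul, mul_comm I, Complex.norm_exp_ofReal_mul_I, mul_one]
  have hi : Integrable (fun v : ℝ => k v * cexp (I * ((v * ξ : ℝ) : ℂ))) := by
    refine (AFE_int0 hk).norm.mono' ?_ (Filter.Eventually.of_forall fun v => (hnorm v).le)
    exact (hk.cont.mul (by fun_prop)).aestronglyMeasurable
  rw [hk.four ξ, intervalIntegral.integral_of_le (by linarith),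
    ← integral_add_compl (measurableSet_Ioc (a := -V) (b := V)) hi, add_sub_cancel_left]
  refine (norm_integral_le_integral_norm _).trans ?_
  rw [le_div_iff₀ hV, ← integral_mul_const]
  have h1 : ∫ v in (Set.Ioc (-V) V)ᶜ, ‖k v * cexp (I * ((v * ξ : ℝ) : ℂ))‖ * V ≤
      ∫ v in (Set.Ioc (-V) V)ᶜ, ‖k v‖ * (1 + |v|) ^ 2 := by
    refine setIntegral_mono_on ?_ (AFE_int hk).integrableOn measurableSet_Ioc.compl ?_
    · exact (hi.norm.mul_const V).integrableOn
    · intro v hv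
      rw [hnorm]
      refine mul_le_mul_of_nonneg_left ?_ (norm_nonneg _)
      have h2 : V ≤ |v| := by
        by_contra h3
        push Not at h3
        rw [abs_lt] at h3
        exact hv ⟨h3.1, h3.2.le⟩
      nlinarith [abs_nonneg v]
  refine h1.trans ?_
  exact setIntegral_le_integral (AFE_int hk) (Filter.Eventually.of_forall fun v => by positivity)

/-! ## monomials -/

theorem AFE_norm_mo (n : ℕ) (hn : 1 ≤ n) (t : ℝ) : ‖mo n t‖ = (n : ℝ) ^ (-(1 / 2) : ℝ) := by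
  unfold mo
  rw [Complex.norm_natCast_cpow_of_pos (by omega)]
  congr 1
  simp

theorem AFE_mo_add (n : ℕ) (hn : 1 ≤ n) (t u : ℝ) :
    mo n (t + u) = mo n t * cexp (I * ((-(u * Real.log n) : ℝ) : ℂ)) := by
  unfold mo
  have hn0 : (n : ℂ) ≠ 0 := by exact_mod_cast (by omega : n ≠ 0)
  have h1 : -((1 : ℂ) / 2 + I * ((t + u : ℝ) : ℂ)) = -(1 / 2 + I * t) + -(I * u) := by
    push_cast
    ring
  rw [h1, Complex.cpow_add _ _ hn0]
  congr 1
  rw [Complex.cpow_def_of_ne_zero hn0, ← Complex.natCast_log]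
  congr 1
  push_cast
  ring

theorem AFE_sum_le (N : ℕ) : ∑ n ∈ Icc 1 N, (n : ℝ) ^ (-(1 / 2) : ℝ) ≤ 2 * Real.sqrt N := by
  induction N with
  | zero => simp
  | succ N ih =>
    rw [Finset.sum_Icc_succ_top (by omega)]
    have h1 : ((N + 1 : ℕ) : ℝ) ^ (-(1 / 2) : ℝ) ≤ 2 * (Real.sqrt (N + 1 : ℕ) - Real.sqrt N) := by
      rw [Real.rpow_neg (by positivity), ← Real.sqrt_eq_rpow]
      have hN : (0 : ℝ) ≤ N := Nat.cast_nonneg N
      set a := Real.sqrt (N + 1 : ℕ) with ha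
      set b := Real.sqrt N with hb
      have ha0 : 0 < a := Real.sqrt_pos.2 (by positivity)
      have hb0 : 0 ≤ b := Real.sqrt_nonneg _
      have ha2 : a ^ 2 = N + 1 := by rw [ha, Real.sq_sqrt (by positivity)]; push_cast; ring
      have hb2 : b ^ 2 = N := by rw [hb, Real.sq_sqrt hN]
      rw [inv_le_iff_one_le_mul₀ ha0]
      nlinarith [sq_nonneg (a - b)]
    linarith

theorem AFE_N0 (T : ℝ) (hT : 2 ≤ T) : Real.sqrt (N0 T) ≤ 2 * Real.sqrt T := by
  have h1 : (N0 T : ℝ) ≤ 4 * T := by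
    unfold N0
    push_cast
    have := Nat.ceil_lt_add_one (show (0 : ℝ) ≤ 3 * T by linarith)
    linarith
  calc Real.sqrt (N0 T) ≤ Real.sqrt (4 * T) := Real.sqrt_le_sqrt h1
    _ = 2 * Real.sqrt T := by
      rw [Real.sqrt_mul (by norm_num)]
      congr 1
      rw [show (4 : ℝ) = 2 ^ 2 by norm_num, Real.sqrt_sq (by norm_num)]

theorem AFE_sum_N0 (T : ℝ) (hT : 2 ≤ T) :
    ∑ n ∈ Icc 1 (N0 T), (n : ℝ) ^ (-(1 / 2) : ℝ) ≤ 4 * Real.sqrt T := by
  have h1 := AFE_sum_le (N0 T)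
  have h2 := AFE_N0 T hT
  linarith

/-- the finite sum with the frozen phase -/
noncomputable def AFE_S (T t u : ℝ) : ℂ :=
  ∑ n ∈ Icc 1 (N0 T), mo n t * cexp (I * ((u * (dth t - Real.log n) : ℝ) : ℂ))

theorem AFE_S_cont (T t a b : ℝ) : Continuous fun v : ℝ => AFE_S T t (a + v / b) := by
  unfold AFE_S
  refine continuous_finsetSum _ fun n _ => ?_
  fun_prop

/-- the local approximation -/
theorem AFE_loc (h1 : Stmt_PHS) (h2 : Stmt_RZ) (h3 : Stmt_ZS) : ∃ C T0 : ℝ, 0 < C ∧ 2 ≤ T0 ∧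
    ∀ T t u : ℝ, T0 ≤ T → T ≤ t → t ≤ 2 * T → |u| ≤ t / 2 → T / 2 ≤ t + u → t + u ≤ 3 * T →
      ‖(Z (t + u) : ℂ) - ph t * AFE_S T t u‖ ≤ C * (1 + |u|) ^ 2 / Real.sqrt T := by
  obtain ⟨-, -, hph, C1, hC1, -, hlin⟩ := h1
  obtain ⟨C3, T3, hC3, hT3, hz⟩ := h3
  refine ⟨C3 + 4 * C1, max T3 2, by positivity, le_max_right _ _, ?_⟩
  intro T t u hT htT ht2 hu hlo hhi
  have hT2 : 2 ≤ T := le_trans (le_max_right _ _) hT
  have hT0 : 0 < T := by linarith
  have hs : 0 < Real.sqrt T := Real.sqrt_pos.2 hT0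
  have hss : Real.sqrt T * Real.sqrt T = T := Real.mul_self_sqrt hT0.le
  have hZ : (Z (t + u) : ℂ) = ph (t + u) * riemannZeta (1 / 2 + I * ((t + u : ℝ) : ℂ)) := by
    apply Complex.ext
    · rw [Complex.ofReal_re]; rfl
    · rw [Complex.ofReal_im, h2 (t + u)]
  have hsum : ‖∑ n ∈ Icc 1 (N0 T), mo n (t + u)‖ ≤ 4 * Real.sqrt T := by
    refine (norm_sum_le _ _).trans (le_trans (le_of_eq ?_) (AFE_sum_N0 T hT2))
    refine Finset.sum_congr rfl fun n hn => ?_
    rw [Finset.mem_Icc] at hn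
    exact AFE_norm_mo n hn.1 _
  have hS : ph t * AFE_S T t u = ph t * cexp (I * ((u * dth t : ℝ) : ℂ)) *
      ∑ n ∈ Icc 1 (N0 T), mo n (t + u) := by
    unfold AFE_S
    rw [mul_assoc, Finset.mul_sum (a := cexp (I * ((u * dth t : ℝ) : ℂ)))]
    congr 1
    refine Finset.sum_congr rfl fun n hn => ?_
    rw [Finset.mem_Icc] at hn
    rw [AFE_mo_add n hn.1, mul_left_comm, ← Complex.exp_add]
    congr 2
    push_cast
    ring
  rw [hZ, hS]
  have e : ph (t + u) * riemannZeta (1 / 2 + I * ((t + u : ℝ) : ℂ)) -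
      ph t * cexp (I * ((u * dth t : ℝ) : ℂ)) * ∑ n ∈ Icc 1 (N0 T), mo n (t + u) =
      ph (t + u) * (riemannZeta (1 / 2 + I * ((t + u : ℝ) : ℂ)) -
        ∑ n ∈ Icc 1 (N0 T), mo n (t + u)) +
      (ph (t + u) - ph t * cexp (I * ((u * dth t : ℝ) : ℂ))) *
        ∑ n ∈ Icc 1 (N0 T), mo n (t + u) := by ring
  rw [e]
  refine (norm_add_le _ _).trans ?_
  rw [norm_mul, norm_mul, hph, one_mul]
  have b1 := hz T (t + u) (le_trans (le_max_left _ _) hT) hlo hhi
  have b2 := hlin t u (by linarith) hu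
  have b3 : C1 * u ^ 2 / t ≤ C1 * u ^ 2 / T := by
    gcongr
  have b4 : ‖ph (t + u) - ph t * cexp (I * ((u * dth t : ℝ) : ℂ))‖ *
      ‖∑ n ∈ Icc 1 (N0 T), mo n (t + u)‖ ≤ C1 * u ^ 2 / T * (4 * Real.sqrt T) :=
    mul_le_mul (b2.trans b3) hsum (norm_nonneg _) (by positivity)
  have b5 : C1 * u ^ 2 / T * (4 * Real.sqrt T) = 4 * C1 * u ^ 2 / Real.sqrt T := by
    rw [div_mul_eq_mul_div, div_eq_div_iff hT0.ne' hs.ne']
    calc C1 * u ^ 2 * (4 * Real.sqrt T) * Real.sqrt T =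
        4 * C1 * u ^ 2 * (Real.sqrt T * Real.sqrt T) := by ring
      _ = 4 * C1 * u ^ 2 * T := by rw [hss]
  rw [b5] at b4
  have b6 : (1 : ℝ) ≤ (1 + |u|) ^ 2 := by nlinarith [abs_nonneg u]
  have b7 : u ^ 2 ≤ (1 + |u|) ^ 2 := by
    rw [← sq_abs u]
    nlinarith [abs_nonneg u]
  calc _ ≤ C3 / Real.sqrt T + 4 * C1 * u ^ 2 / Real.sqrt T := add_le_add b1 b4
    _ = (C3 * 1 + 4 * C1 * u ^ 2) / Real.sqrt T := by ring
    _ ≤ (C3 * (1 + |u|) ^ 2 + 4 * C1 * (1 + |u|) ^ 2) / Real.sqrt T := by gcongr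
    _ = _ := by ring

/-- convolution with a truncated kernel -/
theorem AFE_conv (κ : ℝ → ℂ) (φ : ℝ → ℝ) (K1 C T t u L V : ℝ) (hκ : Continuous κ)
    (hZ : Continuous Z) (hi : Integrable (fun v : ℝ => ‖κ v‖ * (1 + |v|) ^ 2))
    (hK1 : ∫ v : ℝ, ‖κ v‖ * (1 + |v|) ^ 2 ≤ K1)
    (htail : ∀ ξ : ℝ, ‖(φ ξ : ℂ) - ∫ v in (-V)..V, κ v * cexp (I * ((v * ξ : ℝ) : ℂ))‖ ≤ K1 / V)
    (hT : 2 ≤ T) (hu0 : 0 ≤ u) (hu1 : u ≤ 1) (hL : 1 ≤ L) (hV : V = L * T / 8) (hC : 0 ≤ C)
    (hph : ‖ph t‖ = 1)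
    (hloc : ∀ w : ℝ, |w| ≤ 1 + T / 8 → -(T / 8) ≤ w →
      ‖(Z (t + w) : ℂ) - ph t * AFE_S T t w‖ ≤ C * (1 + |w|) ^ 2 / Real.sqrt T) :
    ‖(∫ v in (-V)..V, (Z (t + (u + v / L)) : ℂ) * κ v) -
      ph t * ∑ n ∈ Icc 1 (N0 T), mo n t * cexp (I * ((u * (dth t - Real.log n) : ℝ) : ℂ)) *
        (φ ((dth t - Real.log n) / L) : ℂ)‖ ≤ (4 * C + 32) * K1 / Real.sqrt T := by
  have hT0 : 0 < T := by linarith
  have hL0 : 0 < L := by linarith
  have hV0 : 0 < V := by rw [hV]; positivity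
  have hs : 0 < Real.sqrt T := Real.sqrt_pos.2 hT0
  have hss : Real.sqrt T * Real.sqrt T = T := Real.mul_self_sqrt hT0.le
  have hK0 : 0 ≤ K1 := le_trans (integral_nonneg fun v => by positivity) hK1
  have c1 : Continuous fun v : ℝ => (Z (t + (u + v / L)) : ℂ) * κ v := by fun_prop
  have c2 : Continuous fun v : ℝ => ph t * AFE_S T t (u + v / L) * κ v :=
    (continuous_const.mul (AFE_S_cont T t u L)).mul hκ
  -- the main term
  have hB : ∫ v in (-V)..V, ph t * AFE_S T t (u + v / L) * κ v =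
      ph t * ∑ n ∈ Icc 1 (N0 T), mo n t * cexp (I * ((u * (dth t - Real.log n) : ℝ) : ℂ)) *
        ∫ v in (-V)..V, κ v * cexp (I * ((v * ((dth t - Real.log n) / L) : ℝ) : ℂ)) := by
    have e1 : ∀ v : ℝ, ph t * AFE_S T t (u + v / L) * κ v =
        ∑ n ∈ Icc 1 (N0 T), ph t * (mo n t * cexp (I * ((u * (dth t - Real.log n) : ℝ) : ℂ)) *
          (κ v * cexp (I * ((v * ((dth t - Real.log n) / L) : ℝ) : ℂ)))) := by
      intro v
      unfold AFE_S
      rw [Finset.mul_sum, Finset.sum_mul]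
      refine Finset.sum_congr rfl fun n _ => ?_
      have e2 : cexp (I * (((u + v / L) * (dth t - Real.log n) : ℝ) : ℂ)) =
          cexp (I * ((u * (dth t - Real.log n) : ℝ) : ℂ)) *
            cexp (I * ((v * ((dth t - Real.log n) / L) : ℝ) : ℂ)) := by
        rw [← Complex.exp_add]
        congr 1
        push_cast
        ring
      rw [e2]
      ring
    rw [intervalIntegral.integral_congr (fun v _ => e1 v), intervalIntegral.integral_finsetSum,
      Finset.mul_sum]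
    · refine Finset.sum_congr rfl fun n _ => ?_
      rw [intervalIntegral.integral_const_mul, intervalIntegral.integral_const_mul]
    · intro n _
      apply Continuous.intervalIntegrable
      fun_prop
  -- the local error
  have hA : ‖∫ v in (-V)..V, ((Z (t + (u + v / L)) : ℂ) * κ v -
      ph t * AFE_S T t (u + v / L) * κ v)‖ ≤ 4 * C * K1 / Real.sqrt T := by
    have b1 : ‖∫ v in (-V)..V, ((Z (t + (u + v / L)) : ℂ) * κ v -
        ph t * AFE_S T t (u + v / L) * κ v)‖ ≤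
        ∫ v in (-V)..V, 4 * C / Real.sqrt T * (‖κ v‖ * (1 + |v|) ^ 2) := by
      refine intervalIntegral.norm_integral_le_of_norm_le (by linarith)
        (Filter.Eventually.of_forall fun v hv => ?_)
        (Continuous.intervalIntegrable (by fun_prop) _ _)
      rw [← sub_mul, norm_mul]
      have hv1 : |v| ≤ V := abs_le.2 ⟨hv.1.le, hv.2⟩
      have hv2 : |v / L| ≤ T / 8 := by
        rw [abs_div, abs_of_pos hL0, div_le_iff₀ hL0]
        rw [hV] at hv1
        linarith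
      have hv3 : |v / L| ≤ |v| := by
        rw [abs_div, abs_of_pos hL0]
        exact div_le_self (abs_nonneg _) hL
      have h1 : |u + v / L| ≤ 1 + T / 8 := by
        refine (abs_add_le _ _).trans ?_
        rw [abs_of_nonneg hu0]
        linarith
      have h2 : -(T / 8) ≤ u + v / L := by
        have := (abs_le.1 hv2).1
        linarith
      have h3 := hloc (u + v / L) h1 h2
      have h4 : |u + v / L| ≤ 1 + |v| := by
        refine (abs_add_le _ _).trans ?_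
        rw [abs_of_nonneg hu0]
        linarith
      have h5 : (1 + |u + v / L|) ^ 2 ≤ 4 * (1 + |v|) ^ 2 := by
        nlinarith [abs_nonneg (u + v / L), abs_nonneg v]
      have h6 : C * (1 + |u + v / L|) ^ 2 / Real.sqrt T ≤
          C * (4 * (1 + |v|) ^ 2) / Real.sqrt T := by gcongr
      calc ‖(Z (t + (u + v / L)) : ℂ) - ph t * AFE_S T t (u + v / L)‖ * ‖κ v‖ ≤
          C * (4 * (1 + |v|) ^ 2) / Real.sqrt T * ‖κ v‖ :=
            mul_le_mul_of_nonneg_right (h3.trans h6) (norm_nonneg _)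
        _ = _ := by ring
    refine b1.trans ?_
    rw [intervalIntegral.integral_const_mul, intervalIntegral.integral_of_le (by linarith)]
    have b2 : ∫ v in Set.Ioc (-V) V, ‖κ v‖ * (1 + |v|) ^ 2 ≤ K1 :=
      (setIntegral_le_integral hi (Filter.Eventually.of_forall fun v => by positivity)).trans hK1
    calc 4 * C / Real.sqrt T * ∫ v in Set.Ioc (-V) V, ‖κ v‖ * (1 + |v|) ^ 2 ≤
        4 * C / Real.sqrt T * K1 := mul_le_mul_of_nonneg_left b2 (by positivity)
      _ = _ := by ring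
  rw [intervalIntegral.integral_sub (c1.intervalIntegrable _ _) (c2.intervalIntegrable _ _),
    hB] at hA
  -- the tails
  have hD : ‖(ph t * ∑ n ∈ Icc 1 (N0 T), mo n t *
      cexp (I * ((u * (dth t - Real.log n) : ℝ) : ℂ)) *
        ∫ v in (-V)..V, κ v * cexp (I * ((v * ((dth t - Real.log n) / L) : ℝ) : ℂ))) -
      ph t * ∑ n ∈ Icc 1 (N0 T), mo n t * cexp (I * ((u * (dth t - Real.log n) : ℝ) : ℂ)) *
        (φ ((dth t - Real.log n) / L) : ℂ)‖ ≤ 32 * K1 / Real.sqrt T := by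
    rw [← mul_sub, ← Finset.sum_sub_distrib, norm_mul, hph, one_mul]
    have b1 : ∀ n ∈ Icc 1 (N0 T), ‖mo n t * cexp (I * ((u * (dth t - Real.log n) : ℝ) : ℂ)) *
        (∫ v in (-V)..V, κ v * cexp (I * ((v * ((dth t - Real.log n) / L) : ℝ) : ℂ))) -
        mo n t * cexp (I * ((u * (dth t - Real.log n) : ℝ) : ℂ)) *
        (φ ((dth t - Real.log n) / L) : ℂ)‖ ≤ (n : ℝ) ^ (-(1 / 2) : ℝ) * (K1 / V) := by
      intro n hn
      rw [Finset.mem_Icc] at hn
      rw [← mul_sub, norm_mul, norm_mul, mul_comm I, Complex.norm_exp_ofReal_mul_I, mul_one,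
        AFE_norm_mo n hn.1, norm_sub_rev]
      exact mul_le_mul_of_nonneg_left (htail _) (by positivity)
    refine (norm_sum_le _ _).trans ((Finset.sum_le_sum b1).trans ?_)
    rw [← Finset.sum_mul]
    have b2 : K1 / V ≤ 8 * K1 / T := by
      rw [div_le_div_iff₀ hV0 hT0, hV]
      have : K1 * T ≤ K1 * T * L := le_mul_of_one_le_right (by positivity) hL
      nlinarith
    calc (∑ n ∈ Icc 1 (N0 T), (n : ℝ) ^ (-(1 / 2) : ℝ)) * (K1 / V) ≤
        4 * Real.sqrt T * (8 * K1 / T) :=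
          mul_le_mul (AFE_sum_N0 T hT) b2 (by positivity) (by positivity)
      _ = 32 * K1 / Real.sqrt T := by
        rw [eq_div_iff hs.ne', ← mul_div_assoc, div_mul_eq_mul_div, div_eq_iff hT0.ne']
        calc 4 * Real.sqrt T * (8 * K1) * Real.sqrt T =
            32 * K1 * (Real.sqrt T * Real.sqrt T) := by ring
          _ = 32 * K1 * T := by rw [hss]
  calc _ ≤ 4 * C * K1 / Real.sqrt T + 32 * K1 / Real.sqrt T := by
        refine (norm_sub_le_norm_sub_add_norm_sub _ _ _).trans (add_le_add hA hD)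
    _ = _ := by ring

theorem stmt_AFE (h1 : Stmt_PHS) (h2 : Stmt_RZ) (h3 : Stmt_ZS) (h4 : Stmt_ZC) : Stmt_AFE := by
  intro k ψ hk
  obtain ⟨C, T1, hC, hT1, hloc⟩ := AFE_loc h1 h2 h3
  obtain ⟨-, -, hph, Cd, hCd, hdth, -⟩ := h1
  set K1 : ℝ := ∫ v : ℝ, ‖k v‖ * (1 + |v|) ^ 2 with hK1
  have hK0 : 0 ≤ K1 := integral_nonneg fun v => by positivity
  refine ⟨4 * ((4 * C + 32) * K1) + 4 * C, max (max T1 3) (Real.exp (2 * Cd + 4)), by positivity,
    lt_of_lt_of_le (by norm_num) ((le_max_right T1 3).trans (le_max_left _ _)), ?_⟩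
  intro T t u hT htT ht2 hu0 hu1
  have hT1' : T1 ≤ T := (le_max_left T1 3).trans ((le_max_left _ _).trans hT)
  have hT3 : 3 ≤ T := (le_max_right T1 3).trans ((le_max_left _ _).trans hT)
  have hTe : Real.exp (2 * Cd + 4) ≤ T := (le_max_right _ _).trans hT
  have hT0 : 0 < T := by linarith
  set L : ℝ := Real.log T with hLdef
  have hL4 : 2 * Cd + 4 ≤ L := by
    rw [hLdef, Real.le_log_iff_exp_le hT0]
    exact hTe
  have hL1 : 1 ≤ L := by linarith
  have hL0 : 0 < L := by linarith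
  have hs : 0 < Real.sqrt T := Real.sqrt_pos.2 hT0
  set V : ℝ := L * T / 8 with hV
  have hV0 : 0 < V := by positivity
  have hl : ∀ w : ℝ, |w| ≤ 1 + T / 8 → -(T / 8) ≤ w →
      ‖(Z (t + w) : ℂ) - ph t * AFE_S T t w‖ ≤ C * (1 + |w|) ^ 2 / Real.sqrt T := by
    intro w hw1 hw2
    have hw3 := (abs_le.1 hw1).2
    exact hloc T t w hT1' htT ht2 (by linarith) (by linarith) (by linarith)
  have hint := AFE_int hk
  -- the kernel k
  have m1 := AFE_conv k ψ K1 C T t u L V hk.cont h4 hint le_rfl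
    (fun ξ => AFE_tail hk V ξ hV0) (by linarith) hu0 hu1 hL1 hV hC.le (hph t) hl
  -- the reflected kernel
  have hint' : Integrable (fun v : ℝ => ‖k (-v)‖ * (1 + |v|) ^ 2) := by
    have := hint.comp_neg
    simpa only [abs_neg] using this
  have hK1' : ∫ v : ℝ, ‖k (-v)‖ * (1 + |v|) ^ 2 ≤ K1 := by
    have := integral_neg_eq_self (fun v : ℝ => ‖k v‖ * (1 + |v|) ^ 2) volume
    simp only [abs_neg] at this
    rw [this]
  have htail' : ∀ ξ : ℝ, ‖((fun x => ψ (-x)) ξ : ℂ) -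
      ∫ v in (-V)..V, k (-v) * cexp (I * ((v * ξ : ℝ) : ℂ))‖ ≤ K1 / V := by
    intro ξ
    have h5 := AFE_tail hk V (-ξ) hV0
    have h6 : ∫ v in (-V)..V, k (-v) * cexp (I * ((v * ξ : ℝ) : ℂ)) =
        ∫ v in (-V)..V, k v * cexp (I * ((v * (-ξ) : ℝ) : ℂ)) := by
      have h7 := intervalIntegral.integral_comp_neg (a := -V) (b := V)
        (fun v : ℝ => k v * cexp (I * ((v * (-ξ) : ℝ) : ℂ)))
      rw [neg_neg] at h7
      rw [← h7]
      refine intervalIntegral.integral_congr fun v _ => ?_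
      show k (-v) * cexp (I * ((v * ξ : ℝ) : ℂ)) = k (-v) * cexp (I * ((-v * -ξ : ℝ) : ℂ))
      rw [neg_mul_neg]
    rw [h6]
    exact h5
  have m2 := AFE_conv (fun v => k (-v)) (fun x => ψ (-x)) K1 C T t u L V
    (hk.cont.comp continuous_neg) h4 hint' hK1' htail' (by linarith) hu0 hu1 hL1 hV hC.le
    (hph t) hl
  -- conjugation
  set Iv : ℂ := ∫ v in (-V)..V, (Z (t + (u + v / L)) : ℂ) * k v with hIv
  have hconj : ∫ v in (-V)..V, (Z (t + (u + v / L)) : ℂ) * k (-v) = (starRingEnd ℂ) Iv := by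
    rw [hIv, intervalIntegral.integral_of_le (by linarith),
      intervalIntegral.integral_of_le (by linarith), ← integral_conj]
    refine integral_congr_ae (Filter.Eventually.of_forall fun v => ?_)
    show (Z (t + (u + v / L)) : ℂ) * k (-v) = (starRingEnd ℂ) ((Z (t + (u + v / L)) : ℂ) * k v)
    rw [map_mul, Complex.conj_ofReal, hk.conj]
  rw [hconj] at m2
  -- the value at v = 0
  have m3 := hl u (by rw [abs_of_nonneg hu0]; linarith) (by linarith)
  have m3' : ‖(Z (t + u) : ℂ) - ph t * AFE_S T t u‖ ≤ 4 * C / Real.sqrt T := by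
    refine m3.trans ?_
    have : (1 + |u|) ^ 2 ≤ 4 := by
      rw [abs_of_nonneg hu0]
      nlinarith
    have h8 : C * (1 + |u|) ^ 2 ≤ 4 * C := by nlinarith
    gcongr
  -- psi(xi) + psi(-xi) = 1
  set A : ℂ := ph t * ∑ n ∈ Icc 1 (N0 T), mo n t *
      cexp (I * ((u * (dth t - Real.log n) : ℝ) : ℂ)) * (ψ ((dth t - Real.log n) / L) : ℂ) with hA
  set A' : ℂ := ph t * ∑ n ∈ Icc 1 (N0 T), mo n t *
      cexp (I * ((u * (dth t - Real.log n) : ℝ) : ℂ)) *
        ((fun x => ψ (-x)) ((dth t - Real.log n) / L) : ℂ) with hA'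
  have hAA : A + A' = ph t * AFE_S T t u := by
    rw [hA, hA', ← mul_add, ← Finset.sum_add_distrib]
    unfold AFE_S
    congr 1
    refine Finset.sum_congr rfl fun n hn => ?_
    rw [Finset.mem_Icc] at hn
    rw [← mul_add]
    have hn0 : (0 : ℝ) < n := by exact_mod_cast (by omega : 0 < n)
    have hxi : |(dth t - Real.log n) / L| ≤ 1 := by
      rw [abs_div, abs_of_pos hL0, div_le_one hL0, abs_le]
      have hd := abs_le.1 (hdth t (by linarith))
      have hlt1 : L ≤ Real.log t := Real.log_le_log hT0 htT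
      have hlt2 : Real.log t ≤ Real.log 2 + L := by
        rw [hLdef, ← Real.log_mul (by norm_num) hT0.ne']
        exact Real.log_le_log (by linarith) ht2
      have hl2 : Real.log 2 ≤ 1 := by
        have := Real.log_two_lt_d9
        linarith
      have hn1 : 0 ≤ Real.log n := Real.log_nonneg (by exact_mod_cast hn.1)
      have hn2 : Real.log n ≤ 2 * Real.log 2 + L := by
        have h9 : (n : ℝ) ≤ 4 * T := by
          have h10 : (n : ℝ) ≤ N0 T := by exact_mod_cast hn.2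
          have h11 : (N0 T : ℝ) ≤ 4 * T := by
            unfold N0
            push_cast
            have := Nat.ceil_lt_add_one (show (0 : ℝ) ≤ 3 * T by linarith)
            linarith
          linarith
        have h12 : Real.log (4 * T) = 2 * Real.log 2 + L := by
          rw [Real.log_mul (by norm_num) hT0.ne', show (4 : ℝ) = 2 ^ 2 by norm_num, Real.log_pow]
          push_cast
          ring
        rw [← h12]
        exact Real.log_le_log hn0 h9
      constructor <;> linarith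
    have h13 := hk.one _ hxi
    have h14 : (ψ ((dth t - Real.log n) / L) : ℂ) +
        ((fun x => ψ (-x)) ((dth t - Real.log n) / L) : ℂ) = 1 := by
      have : ((ψ ((dth t - Real.log n) / L) + ψ (-((dth t - Real.log n) / L)) : ℝ) : ℂ) = 1 := by
        rw [h13]; simp
      push_cast at this
      exact this
    rw [h14, mul_one]
  -- end
  have e1 : (Z (t + u) : ℝ) - 2 * A.re = ((Z (t + u) : ℂ) - ph t * AFE_S T t u -
      ((Iv - A) + ((starRingEnd ℂ) Iv - A')) + (2 * (Iv - A) : ℂ)).re := by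
    have h15 : (Z (t + u) : ℂ) - ph t * AFE_S T t u -
        ((Iv - A) + ((starRingEnd ℂ) Iv - A')) + (2 * (Iv - A) : ℂ) =
        (Z (t + u) : ℂ) - 2 * A + (Iv - (starRingEnd ℂ) Iv) := by
      rw [← hAA]
      ring
    rw [h15]
    simp
  have e2 : |(Z (t + u) : ℝ) - 2 * A.re| ≤ 4 * C / Real.sqrt T +
      ((4 * C + 32) * K1 / Real.sqrt T + (4 * C + 32) * K1 / Real.sqrt T) +
        2 * ((4 * C + 32) * K1 / Real.sqrt T) := by
    rw [e1]
    refine (Complex.abs_re_le_norm _).trans ((norm_add_le _ _).trans (add_le_add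
      ((norm_sub_le _ _).trans (add_le_add m3' ((norm_add_le _ _).trans (add_le_add m1 m2)))) ?_))
    rw [norm_mul, Complex.norm_ofNat]
    exact mul_le_mul_of_nonneg_left m1 (by norm_num)
  refine e2.trans ?_
  have e3 : 4 * C / Real.sqrt T +
      ((4 * C + 32) * K1 / Real.sqrt T + (4 * C + 32) * K1 / Real.sqrt T) +
        2 * ((4 * C + 32) * K1 / Real.sqrt T) =
      (4 * ((4 * C + 32) * K1) + 4 * C) / Real.sqrt T := by ring
  rw [e3]

end HZS
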