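import Pool.Agent.Work.MP_c51bc2_nt.Interface

/-!
# Block CM: the diagonal sum of the twisted second moment
-/

open Finset Complex MeasureTheory

namespace HZS

namespace CMx

/-- weighted Cauchy-Schwarz -/
lemma cs_weight (κ g : ℝ → ℝ) (hκ : ∀ s, 0 ≤ κ s) (i0 : Integrable κ)
    (i1 : Integrable fun s => κ s * g s) (i2 : Integrable fun s => κ s * g s ^ 2) :
    (∫ s, κ s * g s) ^ 2 ≤ (∫ s, κ s) * ∫ s, κ s * g s ^ 2 := by
  have h : ∀ t : ℝ, 0 ≤ (∫ s, κ s) * (t * t) + (-2 * ∫ s, κ s * g s) * t + ∫ s, κ s * g s ^ 2 := by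
    intro t
    have h1 : 0 ≤ ∫ s, κ s * (t - g s) ^ 2 :=
      integral_nonneg fun s => mul_nonneg (hκ s) (sq_nonneg _)
    have h2 : (∫ s, κ s * (t - g s) ^ 2) =
        (∫ s, (t * t) * κ s) + (∫ s, (-2 * t) * (κ s * g s)) + ∫ s, κ s * g s ^ 2 := by
      have e1 : Integrable (fun s => (t * t) * κ s) := i0.const_mul _
      have e2 : Integrable (fun s => (-2 * t) * (κ s * g s)) := i1.const_mul _
      have e3 : Integrable (fun s => (t * t) * κ s + (-2 * t) * (κ s * g s)) := e1.add e2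
      rw [← integral_add e1 e2, ← integral_add e3 i2]
      congr 1
      funext s
      ring
    rw [h2, integral_const_mul, integral_const_mul] at h1
    linarith
  have h3 := discrim_le_zero h
  unfold discrim at h3
  nlinarith

lemma ker_int {k : ℝ → ℂ} {ψ : ℝ → ℝ} (hk : IsKer k ψ) (n : ℕ) :
    Integrable (fun s : ℝ => ‖k s‖ * (3 + |s|) ^ n) := by
  obtain ⟨C, hC⟩ := hk.dec (n + 2)
  refine Integrable.mono' (g := fun s : ℝ => (3 ^ n * C) * (1 + s ^ 2)⁻¹)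
    (integrable_inv_one_add_sq.const_mul _) ?_ ?_
  · exact ((hk.cont.norm).mul (by fun_prop)).aestronglyMeasurable
  · refine Filter.Eventually.of_forall fun s => ?_
    have h0 : 0 ≤ |s| := abs_nonneg s
    have h1 : (3 + |s|) ^ n ≤ 3 ^ n * (1 + |s|) ^ n := by
      rw [← mul_pow]
      exact pow_le_pow_left₀ (by positivity) (by linarith) n
    have h2 := hC s
    have h3 : 1 + s ^ 2 ≤ (1 + |s|) ^ 2 := by
      have : s ^ 2 = |s| ^ 2 := (sq_abs s).symm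
      rw [this]
      nlinarith
    have h4 : 0 < 1 + s ^ 2 := by positivity
    rw [Real.norm_of_nonneg (by positivity), ← div_eq_mul_inv, le_div_iff₀ h4]
    calc ‖k s‖ * (3 + |s|) ^ n * (1 + s ^ 2)
        ≤ ‖k s‖ * (3 ^ n * (1 + |s|) ^ n) * (1 + |s|) ^ 2 := by
          gcongr
      _ = 3 ^ n * (‖k s‖ * (1 + |s|) ^ (n + 2)) := by ring
      _ ≤ 3 ^ n * C := by gcongr

lemma hasDerivAt_B (b : ℕ → ℂ) (m : ℕ) (v : ℂ) :
    HasDerivAt (fun v => B b v m) (B' b v m) v := by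
  unfold B B'
  refine HasDerivAt.fun_sum fun d hd => ?_
  have hd0 : (d : ℂ) ≠ 0 := by
    have := Nat.pos_of_mem_divisors hd
    exact_mod_cast this.ne'
  have h1 : HasDerivAt (fun v : ℂ => I * v) I v := by
    simpa using (hasDerivAt_id v).const_mul I
  have h2 := (h1.const_cpow (c := (d : ℂ)) (Or.inl hd0)).const_mul (b d)
  have h3 : Complex.log (d : ℂ) = ((Real.log d : ℝ) : ℂ) := by
    rw [Complex.natCast_log]
  refine h2.congr_deriv ?_
  rw [h3]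
  ring

lemma continuous_B (b : ℕ → ℂ) (m : ℕ) : Continuous fun v => B b v m :=
  continuous_iff_continuousAt.2 fun v => (hasDerivAt_B b m v).continuousAt

lemma continuous_B' (b : ℕ → ℂ) (m : ℕ) : Continuous fun v => B' b v m := by
  unfold B'
  refine continuous_finsetSum _ fun d hd => ?_
  have hd0 : (d : ℂ) ≠ 0 := by
    have := Nat.pos_of_mem_divisors hd
    exact_mod_cast this.ne'
  exact continuous_const.mul ((continuous_const.mul continuous_id).const_cpow (Or.inl hd0))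

lemma hasDerivAt_Br (b : ℕ → ℂ) (m : ℕ) (c u : ℝ) :
    HasDerivAt (fun u : ℝ => B b ((u + c : ℝ) : ℂ) m) (B' b ((u + c : ℝ) : ℂ) m) u := by
  have h1 : HasDerivAt (fun u : ℝ => B b ((u : ℝ) : ℂ) m) (B' b ((u + c : ℝ) : ℂ) m) (u + c) :=
    (hasDerivAt_B b m ((u + c : ℝ) : ℂ)).comp_ofReal
  exact HasDerivAt.comp_add_const u c h1

/-- averaging over a circle -/
lemma avg (s : Finset ℕ) (ω : ℕ → ℝ) (hω : ∀ m, 0 ≤ ω m) (a : ℕ → ℝ) (g : ℕ → ℝ → ℝ)
    (hg : ∀ m, Continuous (g m)) (c K : ℝ) (hc : 0 ≤ c)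
    (ha : ∀ m ∈ s, a m ≤ c * (1 / (2 * Real.pi) * ∫ φ in (0 : ℝ)..(2 * Real.pi), g m φ))
    (hK : ∀ φ, ∑ m ∈ s, ω m * g m φ ≤ K) : ∑ m ∈ s, ω m * a m ≤ c * K := by
  have hpi := Real.pi_pos
  have h1 : ∑ m ∈ s, ω m * a m ≤
      ∑ m ∈ s, ω m * (c * (1 / (2 * Real.pi) * ∫ φ in (0 : ℝ)..(2 * Real.pi), g m φ)) :=
    Finset.sum_le_sum fun m hm => mul_le_mul_of_nonneg_left (ha m hm) (hω m)
  have h2 : ∑ m ∈ s, ω m * (c * (1 / (2 * Real.pi) * ∫ φ in (0 : ℝ)..(2 * Real.pi), g m φ)) =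
      c * (1 / (2 * Real.pi)) * ∫ φ in (0 : ℝ)..(2 * Real.pi), ∑ m ∈ s, ω m * g m φ := by
    rw [intervalIntegral.integral_finsetSum
      (fun m _ => ((hg m).const_mul (ω m) |>.intervalIntegrable _ _)), Finset.mul_sum]
    refine Finset.sum_congr rfl fun m _ => ?_
    rw [intervalIntegral.integral_const_mul]
    ring
  have h3 : (∫ φ in (0 : ℝ)..(2 * Real.pi), ∑ m ∈ s, ω m * g m φ) ≤
      ∫ φ in (0 : ℝ)..(2 * Real.pi), K := by
    refine intervalIntegral.integral_mono_on (by positivity) ?_ ?_ fun φ _ => hK φ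
    · exact (continuous_finsetSum _ fun m _ => (hg m).const_mul (ω m)).intervalIntegrable _ _
    · exact continuous_const.intervalIntegrable _ _
  rw [intervalIntegral.integral_const] at h3
  calc ∑ m ∈ s, ω m * a m ≤ _ := h1
    _ = _ := h2
    _ ≤ c * (1 / (2 * Real.pi)) * ((2 * Real.pi - 0) • K) :=
        mul_le_mul_of_nonneg_left h3 (by positivity)
    _ = c * K := by
        rw [smul_eq_mul]
        field_simp
        ring

lemma chain_ge {L : ℝ} {R : ℕ} {X lam : ℕ → ℝ} (h : IsChain L R X lam) :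
    ∀ j ≤ R, 100 ≤ X j := by
  intro j
  induction j with
  | zero => intro _; exact h.x0.ge
  | succ j ih =>
    intro hj
    have h1 := ih (by omega)
    have h2 := h.mono j (by omega)
    linarith

lemma sum_int_le (s : Finset ℕ) (ω : ℕ → ℝ) (g : ℕ → ℝ → ℝ) (hg : ∀ m ∈ s, Continuous (g m))
    (h K : ℝ) (hh : 0 ≤ h) (hK : ∀ u ∈ Set.Icc 0 h, ∑ m ∈ s, ω m * g m u ≤ K) :
    ∑ m ∈ s, ω m * (∫ u in (0 : ℝ)..h, g m u) ≤ h * K := by
  have h2 : ∑ m ∈ s, ω m * (∫ u in (0 : ℝ)..h, g m u) =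
      ∫ u in (0 : ℝ)..h, ∑ m ∈ s, ω m * g m u := by
    rw [intervalIntegral.integral_finsetSum
      (fun m hm => ((hg m hm).const_mul (ω m) |>.intervalIntegrable _ _))]
    refine Finset.sum_congr rfl fun m _ => ?_
    rw [intervalIntegral.integral_const_mul]
  have h3 : (∫ u in (0 : ℝ)..h, ∑ m ∈ s, ω m * g m u) ≤ ∫ u in (0 : ℝ)..h, K := by
    refine intervalIntegral.integral_mono_on hh ?_ ?_ hK
    · exact (continuous_finsetSum _ fun m hm => (hg m hm).const_mul (ω m)).intervalIntegrable _ _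
    · exact continuous_const.intervalIntegrable _ _
  rw [intervalIntegral.integral_const, smul_eq_mul, sub_zero] at h3
  rw [h2]
  exact h3

/-- the weight -/
noncomputable def om (h y : ℝ) (m : ℕ) : ℝ := 1 / ((m : ℝ) * (1 + h ^ 2 * (y - Real.log m) ^ 2))

lemma om_nonneg (h y : ℝ) (m : ℕ) : 0 ≤ om h y m := by
  unfold om
  positivity

lemma main_s (hDB : Stmt_DB) (hHP : Stmt_HP) {b : ℕ → ℂ} {X L h y β CW : ℝ} {M : ℕ} (s : ℝ)
    (q : ℝ → ℂ) (q' : ℂ) (hL : 1 ≤ L) (hX : 100 ≤ X) (hXL : Real.log X ≤ L / 8) (hh : 1 / L ≤ h)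
    (hh1 : h ≤ 1) (hhX : h * Real.log X ≤ 1) (hq : ∀ v, HasDerivAt q q' v)
    (hq1 : ∀ v, ‖q v‖ ≤ 1 + |v|) (hq2 : ‖q'‖ ≤ 1) (hCW : 0 < CW)
    (hW : ∀ (a : ℕ → ℝ) (β' : ℝ), (∀ m, 0 ≤ a m) → 0 ≤ β' →
      (∀ z, X ≤ z → ∑ m ∈ Icc 1 ⌊z⌋₊, a m ≤ β' * z) →
      (∑ m ∈ Icc 1 ⌊X⌋₊, a m / (m : ℝ) ≤ β' * Real.log X) →
      ∑ m ∈ Icc 1 M, a m / ((m : ℝ) * (1 + h ^ 2 * (y - Real.log m) ^ 2)) ≤ CW * β' / h)
    (hβ : 0 ≤ β)
    (hB1 : ∀ v : ℂ, |v.im| ≤ 1 / Real.log X → |v.re| * Real.log X ≤ 2 + |s| → ∀ z, X ≤ z →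
      ∑ m ∈ Icc 1 ⌊z⌋₊, ‖B b v m‖ ^ 2 ≤ β * z)
    (hB2 : ∀ v : ℂ, |v.im| ≤ 1 / Real.log X → |v.re| * Real.log X ≤ 2 + |s| →
      ∑ m ∈ Icc 1 ⌊X⌋₊, ‖B b v m‖ ^ 2 / (m : ℝ) ≤ β * Real.log X) :
    ∑ m ∈ Icc 1 M, ‖∫ u in (0 : ℝ)..h, cexp (I * ((u * (y - Real.log m) : ℝ) : ℂ)) *
      (q (u + s / L) * B b ((u + s / L : ℝ) : ℂ) m)‖ ^ 2 / (m : ℝ) ≤
        19 * CW * β * (3 + |s|) ^ 2 * h := by
  have hL0 : 0 < L := by linarith
  have hh0 : 0 < h := lt_of_lt_of_le (by positivity) hh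
  have hl : 0 < Real.log X := Real.log_pos (by linarith)
  set ℓ := Real.log X with hℓ
  have hs0 : 0 ≤ |s| := abs_nonneg s
  -- sums of `B` at a real point
  have W1 : ∀ v : ℝ, |v| * ℓ ≤ 1 + |s| →
      ∑ m ∈ Icc 1 M, om h y m * ‖B b (v : ℂ) m‖ ^ 2 ≤ CW * β / h := by
    intro v hv
    have h1 := hW (fun m => ‖B b (v : ℂ) m‖ ^ 2) β (fun m => by positivity) hβ
      (hB1 v (by simp; positivity) (by simpa using by linarith))
      (hB2 v (by simp; positivity) (by simpa using by linarith))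
    refine le_trans (le_of_eq ?_) h1
    refine Finset.sum_congr rfl fun m _ => ?_
    unfold om
    ring
  have W2 : ∀ v : ℝ, |v| * ℓ ≤ 1 + |s| →
      ∑ m ∈ Icc 1 M, om h y m * ‖B' b (v : ℂ) m‖ ^ 2 ≤ CW * (ℓ ^ 2 * β) / h := by
    intro v hv
    have hr : 0 < 1 / ℓ := by positivity
    have key : ∀ φ : ℝ, |((v : ℂ) + ((1 / ℓ : ℝ) : ℂ) * cexp (I * φ)).im| ≤ 1 / ℓ ∧
        |((v : ℂ) + ((1 / ℓ : ℝ) : ℂ) * cexp (I * φ)).re| * ℓ ≤ 2 + |s| := by
      intro φ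
      have e1 : ‖((1 / ℓ : ℝ) : ℂ) * cexp (I * φ)‖ = 1 / ℓ := by
        rw [norm_mul, mul_comm I, Complex.norm_exp_ofReal_mul_I, mul_one, Complex.norm_real,
          Real.norm_of_nonneg hr.le]
      have e2 := Complex.abs_im_le_norm (((1 / ℓ : ℝ) : ℂ) * cexp (I * φ))
      have e3 := Complex.abs_re_le_norm (((1 / ℓ : ℝ) : ℂ) * cexp (I * φ))
      rw [e1] at e2 e3
      refine ⟨by rw [Complex.add_im, Complex.ofReal_im, zero_add]; exact e2, ?_⟩
      rw [Complex.add_re, Complex.ofReal_re]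
      have e4 : |v + (((1 / ℓ : ℝ) : ℂ) * cexp (I * φ)).re| ≤ |v| + 1 / ℓ :=
        (abs_add_le _ _).trans (by linarith)
      have e5 : 1 / ℓ * ℓ = 1 := by field_simp
      calc |v + (((1 / ℓ : ℝ) : ℂ) * cexp (I * φ)).re| * ℓ ≤ (|v| + 1 / ℓ) * ℓ := by gcongr
        _ = |v| * ℓ + 1 := by rw [add_mul, e5]
        _ ≤ 2 + |s| := by linarith
    have hcont : ∀ m : ℕ, Continuous fun φ : ℝ =>
        ‖B b ((v : ℂ) + ((1 / ℓ : ℝ) : ℂ) * cexp (I * φ)) m‖ ^ 2 := by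
      intro m
      have := (continuous_B b m).comp
        (show Continuous fun φ : ℝ => (v : ℂ) + ((1 / ℓ : ℝ) : ℂ) * cexp (I * φ) by fun_prop)
      exact this.norm.pow 2
    have hdb : ∀ m : ℕ, ‖B' b (v : ℂ) m‖ ^ 2 ≤ ℓ ^ 2 * (1 / (2 * Real.pi) *
        ∫ φ in (0 : ℝ)..(2 * Real.pi),
          ‖B b ((v : ℂ) + ((1 / ℓ : ℝ) : ℂ) * cexp (I * φ)) m‖ ^ 2) := by
      intro m
      have := hDB b v m (1 / ℓ) hr
      have e : 1 / (1 / ℓ) ^ 2 = ℓ ^ 2 := by field_simp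
      rwa [e] at this
    have h1 := hW (fun m => ‖B' b (v : ℂ) m‖ ^ 2) (ℓ ^ 2 * β) (fun m => by positivity)
      (by positivity) ?_ ?_
    · refine le_trans (le_of_eq ?_) h1
      refine Finset.sum_congr rfl fun m _ => ?_
      unfold om
      ring
    · intro z hz
      have := avg (Icc 1 ⌊z⌋₊) (fun _ => 1) (fun _ => zero_le_one)
        (fun m => ‖B' b (v : ℂ) m‖ ^ 2)
        (fun m φ => ‖B b ((v : ℂ) + ((1 / ℓ : ℝ) : ℂ) * cexp (I * φ)) m‖ ^ 2) hcont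
        (ℓ ^ 2) (β * z) (by positivity) (fun m _ => hdb m)
        (fun φ => by simpa using hB1 _ (key φ).1 (key φ).2 z hz)
      simp only [one_mul] at this
      linarith
    · have := avg (Icc 1 ⌊X⌋₊) (fun m => 1 / (m : ℝ)) (fun m => by positivity)
        (fun m => ‖B' b (v : ℂ) m‖ ^ 2)
        (fun m φ => ‖B b ((v : ℂ) + ((1 / ℓ : ℝ) : ℂ) * cexp (I * φ)) m‖ ^ 2) hcont
        (ℓ ^ 2) (β * ℓ) (by positivity) (fun m _ => hdb m) (fun φ => by
          refine le_trans (le_of_eq ?_) (hB2 _ (key φ).1 (key φ).2)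
          refine Finset.sum_congr rfl fun m _ => ?_
          ring)
      refine le_trans (le_of_eq ?_) (this.trans (le_of_eq ?_))
      · refine Finset.sum_congr rfl fun m _ => ?_
        ring
      · ring
  -- the points
  have hv1 : ∀ u ∈ Set.Icc 0 h, |u + s / L| * ℓ ≤ 1 + |s| := by
    intro u hu
    have h1 : |u + s / L| ≤ h + |s| / L := by
      refine (abs_add_le _ _).trans ?_
      rw [abs_of_nonneg hu.1, abs_div, abs_of_pos hL0]
      have := hu.2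
      linarith
    have h2 : |s| / L * ℓ ≤ |s| := by
      rw [div_mul_eq_mul_div, div_le_iff₀ hL0]
      have : ℓ ≤ L := by linarith
      exact mul_le_mul_of_nonneg_left this hs0
    calc |u + s / L| * ℓ ≤ (h + |s| / L) * ℓ := by gcongr
      _ = h * ℓ + |s| / L * ℓ := by ring
      _ ≤ 1 + |s| := by linarith
  have hv2 : ∀ u ∈ Set.Icc 0 h, ‖q (u + s / L)‖ ≤ 3 + |s| := by
    intro u hu
    have h1 : |u + s / L| ≤ h + |s| / L := by
      refine (abs_add_le _ _).trans ?_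
      rw [abs_of_nonneg hu.1, abs_div, abs_of_pos hL0]
      have := hu.2
      linarith
    have h2 : |s| / L ≤ |s| := div_le_self hs0 hL
    have := hq1 (u + s / L)
    linarith
  set S := 3 + |s| with hS
  have hS0 : 3 ≤ S := by linarith
  -- the functions
  set F : ℕ → ℝ → ℂ := fun m u => q (u + s / L) * B b ((u + s / L : ℝ) : ℂ) m with hF
  set F' : ℕ → ℝ → ℂ := fun m u => q' * B b ((u + s / L : ℝ) : ℂ) m +
    q (u + s / L) * B' b ((u + s / L : ℝ) : ℂ) m with hF'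
  have hqc : Continuous q := continuous_iff_continuousAt.2 fun v => (hq v).continuousAt
  have dF : ∀ m u, HasDerivAt (F m) (F' m u) u := by
    intro m u
    have h1 : HasDerivAt (fun u : ℝ => q (u + s / L)) q' u :=
      HasDerivAt.comp_add_const u (s / L) (hq (u + s / L))
    exact h1.mul (hasDerivAt_Br b m (s / L) u)
  have cF' : ∀ m, Continuous (F' m) := by
    intro m
    have c1 : Continuous fun u : ℝ => B b ((u + s / L : ℝ) : ℂ) m :=
      (continuous_B b m).comp (by fun_prop)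
    have c2 : Continuous fun u : ℝ => B' b ((u + s / L : ℝ) : ℂ) m :=
      (continuous_B' b m).comp (by fun_prop)
    have c3 : Continuous fun u : ℝ => q (u + s / L) := hqc.comp (by fun_prop)
    exact (continuous_const.mul c1).add (c3.mul c2)
  have cF : ∀ m, Continuous (F m) := fun m =>
    continuous_iff_continuousAt.2 fun u => (dF m u).continuousAt
  have SF : ∀ u ∈ Set.Icc 0 h, ∑ m ∈ Icc 1 M, om h y m * ‖F m u‖ ^ 2 ≤
      S ^ 2 * (CW * β / h) := by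
    intro u hu
    have h1 := W1 (u + s / L) (hv1 u hu)
    calc ∑ m ∈ Icc 1 M, om h y m * ‖F m u‖ ^ 2
        ≤ ∑ m ∈ Icc 1 M, S ^ 2 * (om h y m * ‖B b ((u + s / L : ℝ) : ℂ) m‖ ^ 2) := by
          refine Finset.sum_le_sum fun m _ => ?_
          have h2 : ‖F m u‖ ^ 2 ≤ S ^ 2 * ‖B b ((u + s / L : ℝ) : ℂ) m‖ ^ 2 := by
            simp only [hF]
            rw [norm_mul, mul_pow]
            have := hv2 u hu
            gcongr
          have h3 := om_nonneg h y m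
          nlinarith [mul_le_mul_of_nonneg_left h2 h3]
      _ = S ^ 2 * ∑ m ∈ Icc 1 M, (om h y m * ‖B b ((u + s / L : ℝ) : ℂ) m‖ ^ 2) := by
          rw [Finset.mul_sum]
      _ ≤ S ^ 2 * (CW * β / h) := by gcongr
  have SF' : ∀ u ∈ Set.Icc 0 h, ∑ m ∈ Icc 1 M, om h y m * ‖F' m u‖ ^ 2 ≤
      2 * (CW * β / h) + 2 * S ^ 2 * (CW * (ℓ ^ 2 * β) / h) := by
    intro u hu
    have h1 := W1 (u + s / L) (hv1 u hu)
    have h1' := W2 (u + s / L) (hv1 u hu)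
    calc ∑ m ∈ Icc 1 M, om h y m * ‖F' m u‖ ^ 2
        ≤ ∑ m ∈ Icc 1 M, (2 * (om h y m * ‖B b ((u + s / L : ℝ) : ℂ) m‖ ^ 2) +
            2 * S ^ 2 * (om h y m * ‖B' b ((u + s / L : ℝ) : ℂ) m‖ ^ 2)) := by
          refine Finset.sum_le_sum fun m _ => ?_
          have h2 : ‖F' m u‖ ^ 2 ≤ 2 * ‖B b ((u + s / L : ℝ) : ℂ) m‖ ^ 2 +
              2 * S ^ 2 * ‖B' b ((u + s / L : ℝ) : ℂ) m‖ ^ 2 := by
            simp only [hF']
            have g1 : ‖q' * B b ((u + s / L : ℝ) : ℂ) m +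
                q (u + s / L) * B' b ((u + s / L : ℝ) : ℂ) m‖ ≤
                ‖B b ((u + s / L : ℝ) : ℂ) m‖ + S * ‖B' b ((u + s / L : ℝ) : ℂ) m‖ := by
              refine (norm_add_le _ _).trans ?_
              rw [norm_mul, norm_mul]
              have := hv2 u hu
              have g2 : ‖q'‖ * ‖B b ((u + s / L : ℝ) : ℂ) m‖ ≤
                  1 * ‖B b ((u + s / L : ℝ) : ℂ) m‖ := by gcongr
              have g3 : ‖q (u + s / L)‖ * ‖B' b ((u + s / L : ℝ) : ℂ) m‖ ≤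
                  S * ‖B' b ((u + s / L : ℝ) : ℂ) m‖ := by gcongr
              linarith
            have g4 := pow_le_pow_left₀ (norm_nonneg _) g1 2
            nlinarith [sq_nonneg (‖B b ((u + s / L : ℝ) : ℂ) m‖ -
              S * ‖B' b ((u + s / L : ℝ) : ℂ) m‖)]
          have h3 := om_nonneg h y m
          nlinarith [mul_le_mul_of_nonneg_left h2 h3]
      _ = 2 * ∑ m ∈ Icc 1 M, (om h y m * ‖B b ((u + s / L : ℝ) : ℂ) m‖ ^ 2) +
          2 * S ^ 2 * ∑ m ∈ Icc 1 M, (om h y m * ‖B' b ((u + s / L : ℝ) : ℂ) m‖ ^ 2) := by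
          rw [Finset.sum_add_distrib, Finset.mul_sum, Finset.mul_sum]
      _ ≤ 2 * (CW * β / h) + 2 * S ^ 2 * (CW * (ℓ ^ 2 * β) / h) := by gcongr
  have I1 := sum_int_le (Icc 1 M) (om h y) (fun m u => ‖F m u‖ ^ 2)
    (fun m _ => (cF m).norm.pow 2) h _ hh0.le SF
  have I2 := sum_int_le (Icc 1 M) (om h y) (fun m u => ‖F' m u‖ ^ 2)
    (fun m _ => (cF' m).norm.pow 2) h _ hh0.le SF'
  have I3 := SF 0 ⟨le_rfl, hh0.le⟩
  have I4 := SF h ⟨hh0.le, le_rfl⟩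
  calc ∑ m ∈ Icc 1 M, ‖∫ u in (0 : ℝ)..h, cexp (I * ((u * (y - Real.log m) : ℝ) : ℂ)) *
        F m u‖ ^ 2 / (m : ℝ)
      ≤ ∑ m ∈ Icc 1 M, (h * (om h y m * (∫ u in (0 : ℝ)..h, ‖F m u‖ ^ 2)) +
          3 * h ^ 2 * (om h y m * ‖F m 0‖ ^ 2 + om h y m * ‖F m h‖ ^ 2 +
            h * (om h y m * ∫ u in (0 : ℝ)..h, ‖F' m u‖ ^ 2))) := by
        refine Finset.sum_le_sum fun m hm => ?_
        have hm0 : (0 : ℝ) < m := by
          have := (Finset.mem_Icc.1 hm).1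
          exact_mod_cast this
        have h1 := hHP (F m) (F' m) h (y - Real.log m) (dF m) (cF' m) hh0
        have h2 : 0 < 1 + h ^ 2 * (y - Real.log m) ^ 2 := by positivity
        have h3 : om h y m * (m : ℝ) * (1 + h ^ 2 * (y - Real.log m) ^ 2) = 1 := by
          unfold om
          field_simp
        have h4 := mul_le_mul_of_nonneg_left h1 (om_nonneg h y m)
        have h5 : ‖∫ u in (0 : ℝ)..h, cexp (I * ((u * (y - Real.log m) : ℝ) : ℂ)) *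
            F m u‖ ^ 2 / (m : ℝ) = om h y m * ((1 + h ^ 2 * (y - Real.log m) ^ 2) *
            ‖∫ u in (0 : ℝ)..h, cexp (I * ((u * (y - Real.log m) : ℝ) : ℂ)) * F m u‖ ^ 2) := by
          rw [div_eq_iff hm0.ne']
          linear_combination (-‖∫ u in (0 : ℝ)..h,
            cexp (I * ((u * (y - Real.log m) : ℝ) : ℂ)) * F m u‖ ^ 2) * h3
        rw [h5]
        refine h4.trans (le_of_eq ?_)
        ring
    _ = h * ∑ m ∈ Icc 1 M, (om h y m * (∫ u in (0 : ℝ)..h, ‖F m u‖ ^ 2)) +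
          3 * h ^ 2 * (∑ m ∈ Icc 1 M, om h y m * ‖F m 0‖ ^ 2 +
            ∑ m ∈ Icc 1 M, om h y m * ‖F m h‖ ^ 2 +
            h * ∑ m ∈ Icc 1 M, (om h y m * ∫ u in (0 : ℝ)..h, ‖F' m u‖ ^ 2)) := by
        simp only [Finset.sum_add_distrib, Finset.mul_sum, mul_add]
    _ ≤ h * (h * (S ^ 2 * (CW * β / h))) + 3 * h ^ 2 * (S ^ 2 * (CW * β / h) +
          S ^ 2 * (CW * β / h) +
          h * (h * (2 * (CW * β / h) + 2 * S ^ 2 * (CW * (ℓ ^ 2 * β) / h)))) := by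
        gcongr
    _ = CW * β * h * (7 * S ^ 2 + 6 * h ^ 2 + 6 * S ^ 2 * (h * ℓ) ^ 2) := by
        field_simp
        ring
    _ ≤ CW * β * h * (7 * S ^ 2 + 6 * S ^ 2 + 6 * S ^ 2 * 1) := by
        have e1 : h ^ 2 ≤ S ^ 2 := by nlinarith
        have e2 : (h * ℓ) ^ 2 ≤ 1 := by
          have : 0 ≤ h * ℓ := by positivity
          nlinarith
        gcongr
    _ = 19 * CW * β * S ^ 2 * h := by ring

/-- the inner integral -/
noncomputable def Hs (L h : ℝ) (b : ℕ → ℂ) (q : ℝ → ℂ) (y : ℝ) (m : ℕ) (s : ℝ) : ℂ :=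
  ∫ u in (0 : ℝ)..h, cexp (I * ((u * (y - Real.log m) : ℝ) : ℂ)) *
      (q (u + s / L) * B b ((u + s / L : ℝ) : ℂ) m)

lemma Hs_cont (L h : ℝ) (b : ℕ → ℂ) (q : ℝ → ℂ) (hq : Continuous q) (y : ℝ) (m : ℕ) :
    Continuous (Hs L h b q y m) := by
  unfold Hs
  refine intervalIntegral.continuous_parametric_intervalIntegral_of_continuous' ?_ _ _
  have c1 : Continuous fun p : ℝ × ℝ => B b ((p.2 + p.1 / L : ℝ) : ℂ) m :=
    (continuous_B b m).comp (by fun_prop)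
  have c2 : Continuous fun p : ℝ × ℝ => q (p.2 + p.1 / L) := hq.comp (by fun_prop)
  have c3 : Continuous fun p : ℝ × ℝ => cexp (I * ((p.2 * (y - Real.log m) : ℝ) : ℂ)) := by
    fun_prop
  exact c3.mul (c2.mul c1)

lemma cc_le (k : ℝ → ℂ) (L h : ℝ) (b : ℕ → ℂ) (q : ℝ → ℂ) (y : ℝ) (m : ℕ) :
    ‖cc k L h b q y m‖ ≤ ∫ s, ‖k s‖ * ‖Hs L h b q y m s‖ := by
  unfold cc
  refine (norm_integral_le_integral_norm _).trans (le_of_eq ?_)
  congr 1
  funext s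
  have h1 : (∫ u in (0 : ℝ)..h, q (u + s / L) *
      cexp (I * (((u + s / L) * (y - Real.log m) : ℝ) : ℂ)) * B b ((u + s / L : ℝ) : ℂ) m) =
      cexp (I * ((s / L * (y - Real.log m) : ℝ) : ℂ)) * Hs L h b q y m s := by
    unfold Hs
    rw [← intervalIntegral.integral_const_mul]
    refine intervalIntegral.integral_congr fun u _ => ?_
    have : cexp (I * (((u + s / L) * (y - Real.log m) : ℝ) : ℂ)) =
        cexp (I * ((s / L * (y - Real.log m) : ℝ) : ℂ)) *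
          cexp (I * ((u * (y - Real.log m) : ℝ) : ℂ)) := by
      rw [← Complex.exp_add]
      congr 1
      push_cast
      ring
    rw [this]
    ring
  rw [h1, norm_mul, norm_mul, mul_comm I, Complex.norm_exp_ofReal_mul_I, one_mul]

lemma final_sum {k : ℝ → ℂ} {ψ : ℝ → ℝ} (hk : IsKer k ψ) (L h : ℝ) (b : ℕ → ℂ) (q : ℝ → ℂ)
    (hq : Continuous q) (y : ℝ) (M : ℕ) (Q : ℝ)
    (hmain : ∀ s : ℝ, ∑ m ∈ Icc 1 M, ‖Hs L h b q y m s‖ ^ 2 / (m : ℝ) ≤ Q * (3 + |s|) ^ 8) :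
    ∑ m ∈ Icc 1 M, ‖cc k L h b q y m‖ ^ 2 / (m : ℝ) ≤
      (∫ s, ‖k s‖) * ((∫ s, ‖k s‖ * (3 + |s|) ^ 8) * Q) := by
  have i0 : Integrable fun s => ‖k s‖ := by simpa using ker_int hk 0
  have i8 := ker_int hk 8
  have hpt : ∀ m ∈ Icc 1 M, ∀ s, ‖Hs L h b q y m s‖ ^ 2 / (m : ℝ) ≤ Q * (3 + |s|) ^ 8 := by
    intro m hm s
    refine le_trans ?_ (hmain s)
    exact Finset.single_le_sum (f := fun m : ℕ => ‖Hs L h b q y m s‖ ^ 2 / (m : ℝ))
      (fun i _ => by positivity) hm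
  have i2 : ∀ m ∈ Icc 1 M, Integrable fun s => ‖k s‖ * ‖Hs L h b q y m s‖ ^ 2 := by
    intro m hm
    have hm0 : (0 : ℝ) < m := by
      have := (Finset.mem_Icc.1 hm).1
      exact_mod_cast this
    refine Integrable.mono' (g := fun s => (m * Q) * (‖k s‖ * (3 + |s|) ^ 8))
      (i8.const_mul _) ?_ ?_
    · exact (hk.cont.norm.mul ((Hs_cont L h b q hq y m).norm.pow 2)).aestronglyMeasurable
    · refine Filter.Eventually.of_forall fun s => ?_
      rw [Real.norm_of_nonneg (by positivity)]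
      have h1 := hpt m hm s
      rw [div_le_iff₀ hm0] at h1
      have h2 := mul_le_mul_of_nonneg_left h1 (norm_nonneg (k s))
      linarith
  have i1 : ∀ m ∈ Icc 1 M, Integrable fun s => ‖k s‖ * ‖Hs L h b q y m s‖ := by
    intro m hm
    refine Integrable.mono' (g := fun s => ‖k s‖ + ‖k s‖ * ‖Hs L h b q y m s‖ ^ 2)
      (i0.add (i2 m hm)) ?_ ?_
    · exact (hk.cont.norm.mul (Hs_cont L h b q hq y m).norm).aestronglyMeasurable
    · refine Filter.Eventually.of_forall fun s => ?_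
      rw [Real.norm_of_nonneg (by positivity)]
      have h3 : ‖Hs L h b q y m s‖ ≤ 1 + ‖Hs L h b q y m s‖ ^ 2 := by
        nlinarith [sq_nonneg (‖Hs L h b q y m s‖ - 1), norm_nonneg (Hs L h b q y m s)]
      have h4 := mul_le_mul_of_nonneg_left h3 (norm_nonneg (k s))
      linarith
  have hk0 : 0 ≤ ∫ s, ‖k s‖ := integral_nonneg fun s => norm_nonneg _
  calc ∑ m ∈ Icc 1 M, ‖cc k L h b q y m‖ ^ 2 / (m : ℝ)
      ≤ ∑ m ∈ Icc 1 M, (∫ s, ‖k s‖) * (∫ s, ‖k s‖ * (‖Hs L h b q y m s‖ ^ 2 / (m : ℝ))) := by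
        refine Finset.sum_le_sum fun m hm => ?_
        have hm0 : (0 : ℝ) < m := by
          have := (Finset.mem_Icc.1 hm).1
          exact_mod_cast this
        have h1 := pow_le_pow_left₀ (norm_nonneg _) (cc_le k L h b q y m) 2
        have h2 := cs_weight (fun s => ‖k s‖) (fun s => ‖Hs L h b q y m s‖)
          (fun s => norm_nonneg _) i0 (i1 m hm) (i2 m hm)
        have h3 : (∫ s, ‖k s‖ * (‖Hs L h b q y m s‖ ^ 2 / (m : ℝ))) =
            (∫ s, ‖k s‖ * ‖Hs L h b q y m s‖ ^ 2) / (m : ℝ) := by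
          rw [← integral_div]
          congr 1
          funext s
          ring
        rw [h3, ← mul_div_assoc]
        exact div_le_div_of_nonneg_right (h1.trans h2) hm0.le
    _ = (∫ s, ‖k s‖) * ∫ s, ∑ m ∈ Icc 1 M, ‖k s‖ * (‖Hs L h b q y m s‖ ^ 2 / (m : ℝ)) := by
        rw [← Finset.mul_sum, integral_finsetSum]
        intro m hm
        have := (i2 m hm).div_const (m : ℝ)
        refine this.congr (Filter.Eventually.of_forall fun s => ?_)
        simp only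
        ring
    _ ≤ (∫ s, ‖k s‖) * ∫ s, (‖k s‖ * (3 + |s|) ^ 8) * Q := by
        refine mul_le_mul_of_nonneg_left ?_ hk0
        refine integral_mono ?_ (i8.mul_const _) fun s => ?_
        · refine integrable_finsetSum _ fun m hm => ?_
          have := (i2 m hm).div_const (m : ℝ)
          refine this.congr (Filter.Eventually.of_forall fun s => ?_)
          simp only
          ring
        · simp only
          rw [← Finset.mul_sum]
          have := mul_le_mul_of_nonneg_left (hmain s) (norm_nonneg (k s))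
          linarith
    _ = (∫ s, ‖k s‖) * ((∫ s, ‖k s‖ * (3 + |s|) ^ 8) * Q) := by
        rw [integral_mul_const]

lemma core (hDB : Stmt_DB) (hHP : Stmt_HP) {k : ℝ → ℂ} {ψ : ℝ → ℝ} (hk : IsKer k ψ)
    {b : ℕ → ℂ} {X L h y C CW : ℝ} {M : ℕ} (q : ℝ → ℂ) (q' : ℂ) (hL : 1 ≤ L) (hX : 100 ≤ X)
    (hXL : Real.log X ≤ L / 8) (hh : 1 / L ≤ h) (hh1 : h ≤ 1) (hhX : h * Real.log X ≤ 1)
    (hq : ∀ v, HasDerivAt q q' v) (hq1 : ∀ v, ‖q v‖ ≤ 1 + |v|) (hq2 : ‖q'‖ ≤ 1) (hCW : 0 < CW)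
    (hC : 0 < C)
    (hW : ∀ (a : ℕ → ℝ) (β' : ℝ), (∀ m, 0 ≤ a m) → 0 ≤ β' →
      (∀ z, X ≤ z → ∑ m ∈ Icc 1 ⌊z⌋₊, a m ≤ β' * z) →
      (∑ m ∈ Icc 1 ⌊X⌋₊, a m / (m : ℝ) ≤ β' * Real.log X) →
      ∑ m ∈ Icc 1 M, a m / ((m : ℝ) * (1 + h ^ 2 * (y - Real.log m) ^ 2)) ≤ CW * β' / h)
    (hB : ∀ v : ℂ, |v.im| ≤ 1 / Real.log X →
      (∀ z : ℝ, X ≤ z → ∑ m ∈ Icc 1 ⌊z⌋₊, ‖B b v m‖ ^ 2 ≤
        C * z * Real.log X ^ (-(3 / 4) : ℝ) * (1 + |v.re| * Real.log X) ^ 6) ∧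
      ∑ m ∈ Icc 1 ⌊X⌋₊, ‖B b v m‖ ^ 2 / (m : ℝ) ≤
        C * Real.log X ^ (1 / 4 : ℝ) * (1 + |v.re| * Real.log X) ^ 6) :
    ∑ m ∈ Icc 1 M, ‖cc k L h b q y m‖ ^ 2 / (m : ℝ) ≤
      (∫ s, ‖k s‖) * ((∫ s, ‖k s‖ * (3 + |s|) ^ 8) *
        (19 * CW * C * h * Real.log X ^ (-(3 / 4) : ℝ))) := by
  have hL0 : 0 < L := by linarith
  have hh0 : 0 < h := lt_of_lt_of_le (by positivity) hh
  have hl : 0 < Real.log X := Real.log_pos (by linarith)
  have hlp : 0 < Real.log X ^ (-(3 / 4) : ℝ) := Real.rpow_pos_of_pos hl _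
  have hlq : Real.log X ^ (1 / 4 : ℝ) = Real.log X ^ (-(3 / 4) : ℝ) * Real.log X := by
    rw [← Real.rpow_add_one hl.ne']
    norm_num
  have hqc : Continuous q := continuous_iff_continuousAt.2 fun v => (hq v).continuousAt
  refine final_sum hk L h b q hqc y M _ fun s => ?_
  have hs0 : 0 ≤ |s| := abs_nonneg s
  have h1 := main_s hDB hHP (b := b) (β := C * Real.log X ^ (-(3 / 4) : ℝ) * (3 + |s|) ^ 6)
    s q q' hL hX hXL hh hh1 hhX hq hq1 hq2 hCW hW (by positivity) ?_ ?_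
  · refine le_trans (le_of_eq ?_) (h1.trans (le_of_eq ?_))
    · rfl
    · ring
  · intro v hv1 hv2 z hz
    refine ((hB v hv1).1 z hz).trans ?_
    have hz0 : 0 < z := by linarith
    have e1 : 1 + |v.re| * Real.log X ≤ 3 + |s| := by linarith
    have e2 : 0 ≤ 1 + |v.re| * Real.log X := by positivity
    calc C * z * Real.log X ^ (-(3 / 4) : ℝ) * (1 + |v.re| * Real.log X) ^ 6
        ≤ C * z * Real.log X ^ (-(3 / 4) : ℝ) * (3 + |s|) ^ 6 := by gcongr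
      _ = C * Real.log X ^ (-(3 / 4) : ℝ) * (3 + |s|) ^ 6 * z := by ring
  · intro v hv1 hv2
    refine ((hB v hv1).2).trans ?_
    have e1 : 1 + |v.re| * Real.log X ≤ 3 + |s| := by linarith
    have e2 : 0 ≤ 1 + |v.re| * Real.log X := by positivity
    calc C * Real.log X ^ (1 / 4 : ℝ) * (1 + |v.re| * Real.log X) ^ 6
        ≤ C * Real.log X ^ (1 / 4 : ℝ) * (3 + |s|) ^ 6 := by gcongr
      _ = C * Real.log X ^ (-(3 / 4) : ℝ) * (3 + |s|) ^ 6 * Real.log X := by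
        rw [hlq]
        ring

end CMx

theorem stmt_CM (hMSB : Stmt_MSB) (hDB : Stmt_DB) (hWT : Stmt_WT) (hHP : Stmt_HP) :
    Stmt_CM := by
  intro k ψ hk
  obtain ⟨C, hC, hM⟩ := hMSB
  obtain ⟨CW, hCW, hWt⟩ := hWT
  have hk0 : 0 ≤ ∫ s, ‖k s‖ := integral_nonneg fun s => norm_nonneg _
  have hk8 : 0 ≤ ∫ s, ‖k s‖ * (3 + |s|) ^ 8 := integral_nonneg fun s => by positivity
  refine ⟨(∫ s, ‖k s‖) * ((∫ s, ‖k s‖ * (3 + |s|) ^ 8) * (19 * CW * C)) + 1, by positivity, ?_⟩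
  intro L R X lam hL hch j hj h y M hh hh1 hhX hXL hy
  have hX := CMx.chain_ge hch j hj
  have hL0 : 0 < L := by linarith
  have hh0 : 0 < h := lt_of_lt_of_le (by positivity) hh
  have hl : 0 < Real.log (X j) := Real.log_pos (by linarith)
  have hlp : 0 < Real.log (X j) ^ (-(3 / 4) : ℝ) := Real.rpow_pos_of_pos hl _
  have hW : ∀ (a : ℕ → ℝ) (β' : ℝ), (∀ m, 0 ≤ a m) → 0 ≤ β' →
      (∀ z, X j ≤ z → ∑ m ∈ Icc 1 ⌊z⌋₊, a m ≤ β' * z) →
      (∑ m ∈ Icc 1 ⌊X j⌋₊, a m / (m : ℝ) ≤ β' * Real.log (X j)) →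
      ∑ m ∈ Icc 1 M, a m / ((m : ℝ) * (1 + h ^ 2 * (y - Real.log m) ^ 2)) ≤ CW * β' / h :=
    fun a β' ha hβ h1 h2 => hWt a β' (X j) L h y M ha hβ hX hXL hh hh1 hy h1 h2
  have fin : ∀ (q : ℝ → ℂ) (q' : ℂ), (∀ v, HasDerivAt q q' v) → (∀ v, ‖q v‖ ≤ 1 + |v|) →
      ‖q'‖ ≤ 1 →
      ∑ m ∈ Icc 1 M, ‖cc k L h (cM X lam (range j)) q y m‖ ^ 2 / (m : ℝ) ≤
        ((∫ s, ‖k s‖) * ((∫ s, ‖k s‖ * (3 + |s|) ^ 8) * (19 * CW * C)) + 1) * h *
          Real.log (X j) ^ (-(3 / 4) : ℝ) := by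
    intro q q' h1 h2 h3
    refine (CMx.core hDB hHP hk q q' hL hX hXL hh hh1 hhX h1 h2 h3 hCW hC hW
      (fun v hv => hM L R X lam hch j hj v hv)).trans ?_
    have : 0 ≤ h * Real.log (X j) ^ (-(3 / 4) : ℝ) := by positivity
    nlinarith
  constructor
  · refine fin (fun _ => 1) 0 (fun v => hasDerivAt_const v 1) (fun v => ?_) (by simp)
    simp
  · refine fin (fun v => I * (v : ℂ)) I (fun v => ?_) (fun v => ?_) (by simp)
    · simpa using ((hasDerivAt_id v).ofReal_comp).const_mul I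
    · rw [norm_mul, Complex.norm_I, one_mul, Complex.norm_real, Real.norm_eq_abs]
      linarith

end HZS
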