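import Pool.Agent.Work.MP_c51bc2_nt.Interface

/-! # Block CM0: the diagonal sum for `Z` itself (helper58) -/

open Finset Complex MeasureTheory

namespace HZS

noncomputable section

/-- weighted Cauchy-Schwarz -/
theorem CM0_cs (w g : ℝ → ℝ) (hw : ∀ s, 0 ≤ w s) (h0 : Integrable w)
    (h1 : Integrable fun s => w s * g s) (h2 : Integrable fun s => w s * g s ^ 2) :
    (∫ s, w s * g s) ^ 2 ≤ (∫ s, w s) * ∫ s, w s * g s ^ 2 := by
  have key : ∀ x : ℝ, 0 ≤ (∫ s, w s) * (x * x) + (-2 * ∫ s, w s * g s) * x +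
      ∫ s, w s * g s ^ 2 := by
    intro x
    have e : ∫ s, w s * (x - g s) ^ 2 = (∫ s, w s) * (x * x) + (-2 * ∫ s, w s * g s) * x +
        ∫ s, w s * g s ^ 2 := by
      have e1 : (fun s => w s * (x - g s) ^ 2) =
          fun s => (w s * (x * x) + (w s * g s) * (-2 * x)) + w s * g s ^ 2 := by
        funext s; ring
      have hi : Integrable fun s => w s * (x * x) + (w s * g s) * (-2 * x) :=
        (h0.mul_const _).add (h1.mul_const _)
      rw [e1, integral_add hi h2,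
        integral_add (h0.mul_const _) (h1.mul_const _), integral_mul_const, integral_mul_const]
      ring
    rw [← e]
    exact integral_nonneg fun s => mul_nonneg (hw s) (sq_nonneg _)
  have hd := discrim_le_zero key
  unfold discrim at hd
  nlinarith

/-- integrability of the kernel against powers -/
theorem CM0_int (k : ℝ → ℂ) (hc : Continuous k)
    (hd : ∀ A : ℕ, ∃ C : ℝ, ∀ v : ℝ, ‖k v‖ * (1 + |v|) ^ A ≤ C) (A : ℕ) :
    Integrable fun s : ℝ => ‖k s‖ * (1 + |s|) ^ A := by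
  obtain ⟨C, hC⟩ := hd (A + 2)
  refine (integrable_inv_one_add_sq.const_mul C).mono' ?_ ?_
  · exact (hc.norm.mul ((continuous_const.add continuous_abs).pow A)).aestronglyMeasurable
  · refine Filter.Eventually.of_forall fun s => ?_
    have hp : (0 : ℝ) < 1 + s ^ 2 := by positivity
    have hq : 1 + s ^ 2 ≤ (1 + |s|) ^ 2 := by
      have := abs_nonneg s
      nlinarith [sq_abs s]
    rw [Real.norm_of_nonneg (by positivity), ← div_eq_mul_inv, le_div_iff₀ hp]
    calc ‖k s‖ * (1 + |s|) ^ A * (1 + s ^ 2) ≤ ‖k s‖ * (1 + |s|) ^ A * (1 + |s|) ^ 2 := by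
          apply mul_le_mul_of_nonneg_left hq (by positivity)
      _ = ‖k s‖ * (1 + |s|) ^ (A + 2) := by rw [pow_add]; ring
      _ ≤ C := hC s

/-- summation by parts -/
theorem CM0_sum (b : ℕ → ℝ) (hb : ∀ m, 0 ≤ b m) (β A X : ℝ) (hX : 1 ≤ X)
    (h1 : ∀ z : ℝ, X ≤ z → ∑ m ∈ Icc 1 ⌊z⌋₊, b m ≤ β * z)
    (h2 : ∑ m ∈ Icc 1 ⌊X⌋₊, b m / (m : ℝ) ≤ β * A) (M : ℕ) :
    ∑ m ∈ Icc 1 M, b m / (m : ℝ) ≤ β * (A + 2 + 2 * Real.log M) := by
  set N := ⌊X⌋₊ with hN
  have hN1 : 1 ≤ N := Nat.le_floor (by simpa using hX)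
  have hβ : 0 ≤ β := by
    have h := h1 X le_rfl
    have h3 : 0 ≤ ∑ m ∈ Icc 1 ⌊X⌋₊, b m := sum_nonneg fun m _ => hb m
    by_contra hc
    rw [not_le] at hc
    have : β * X < 0 := mul_neg_of_neg_of_pos hc (by linarith)
    linarith
  have hS : ∀ n : ℕ, N ≤ n → ∑ m ∈ Icc 1 n, b m ≤ 2 * β * n := by
    intro n hn
    have hn1 : (1 : ℝ) ≤ n := by exact_mod_cast hN1.trans hn
    by_cases hc : X ≤ n
    · have := h1 n hc
      rw [Nat.floor_natCast] at this
      nlinarith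
    · rw [not_le] at hc
      have hnN : n = N := by
        apply le_antisymm _ hn
        exact Nat.le_floor hc.le
      have h3 := h1 X le_rfl
      rw [← hN, ← hnN] at h3
      have h4 : X < n + 1 := by
        have := Nat.lt_floor_add_one X
        rw [← hN, ← hnN] at this
        exact this
      nlinarith
  have hind : ∀ n : ℕ, N ≤ n → ∑ m ∈ Icc 1 n, b m / (m : ℝ) ≤
      β * A + (∑ m ∈ Icc 1 n, b m) / n + 2 * β * Real.log n := by
    intro n hn
    induction n, hn using Nat.le_induction with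
    | base =>
      have h3 : 0 ≤ (∑ m ∈ Icc 1 N, b m) / N :=
        div_nonneg (sum_nonneg fun m _ => hb m) (Nat.cast_nonneg _)
      have h4 : 0 ≤ 2 * β * Real.log N := mul_nonneg (by linarith) (Real.log_natCast_nonneg _)
      linarith
    | succ n hn ih =>
      have hn1 : 1 ≤ n := hN1.trans hn
      have hnr : (1 : ℝ) ≤ n := by exact_mod_cast hn1
      have hn0 : (0 : ℝ) < n := by linarith
      rw [sum_Icc_succ_top (by omega), sum_Icc_succ_top (by omega)]
      push_cast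
      have hs := hS n hn
      set S := ∑ m ∈ Icc 1 n, b m with hSd
      have hlog : 1 / ((n : ℝ) + 1) ≤ Real.log ((n : ℝ) + 1) - Real.log n := by
        rw [← Real.log_div (by positivity) (by positivity)]
        have h5 := Real.one_sub_inv_le_log_of_pos (x := ((n : ℝ) + 1) / n) (by positivity)
        have h6 : 1 - (((n : ℝ) + 1) / n)⁻¹ = 1 / ((n : ℝ) + 1) := by
          field_simp
          ring
        linarith
      have h7 : S / n - S / (n + 1) ≤ 2 * β * (1 / ((n : ℝ) + 1)) := by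
        have e : S / n - S / (n + 1) = (S / n) * (1 / ((n : ℝ) + 1)) := by
          field_simp
          ring
        rw [e]
        apply mul_le_mul_of_nonneg_right _ (by positivity)
        rw [div_le_iff₀ hn0]
        exact hs
      have h8 : 2 * β * (1 / ((n : ℝ) + 1)) ≤ 2 * β * (Real.log ((n : ℝ) + 1) - Real.log n) :=
        mul_le_mul_of_nonneg_left hlog (by linarith)
      have h9 : (S + b (n + 1)) / ((n : ℝ) + 1) = S / (n + 1) + b (n + 1) / (n + 1) := by
        rw [add_div]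
      rw [h9]
      linarith
  by_cases hc : N ≤ M
  · have h := hind M hc
    have hM1 : (1 : ℝ) ≤ M := by exact_mod_cast hN1.trans hc
    have h3 : (∑ m ∈ Icc 1 M, b m) / M ≤ 2 * β := by
      rw [div_le_iff₀ (by linarith)]
      exact hS M hc
    calc _ ≤ β * A + (∑ m ∈ Icc 1 M, b m) / M + 2 * β * Real.log M := h
      _ ≤ β * A + 2 * β + 2 * β * Real.log M := by linarith
      _ = _ := by ring
  · rw [not_le] at hc
    have h3 : ∑ m ∈ Icc 1 M, b m / (m : ℝ) ≤ ∑ m ∈ Icc 1 N, b m / (m : ℝ) := by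
      apply sum_le_sum_of_subset_of_nonneg
      · exact Icc_subset_Icc_right hc.le
      · intro m _ _
        exact div_nonneg (hb m) (Nat.cast_nonneg _)
    have h4 : 0 ≤ Real.log M := Real.log_natCast_nonneg _
    nlinarith [mul_nonneg hβ h4]

theorem CM0_Bcont (b : ℕ → ℂ) (L : ℝ) (m : ℕ) : Continuous fun s : ℝ => B b ((s / L : ℝ) : ℂ) m := by
  unfold B
  refine continuous_finsetSum _ fun d hd => ?_
  refine continuous_const.mul ?_
  have hd0 : (d : ℂ) ≠ 0 := by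
    have := Nat.pos_of_mem_divisors hd
    exact_mod_cast this.ne'
  refine Continuous.const_cpow ?_ (Or.inl hd0)
  exact continuous_const.mul (Complex.continuous_ofReal.comp (continuous_id.div_const L))

theorem CM0_Bbd (b : ℕ → ℂ) (v : ℝ) (m : ℕ) : ‖B b (v : ℂ) m‖ ≤ ∑ d ∈ m.divisors, ‖b d‖ := by
  unfold B
  refine (norm_sum_le _ _).trans (sum_le_sum fun d hd => ?_)
  rw [norm_mul]
  have hd0 : 0 < d := Nat.pos_of_mem_divisors hd
  have : ‖(d : ℂ) ^ (I * (v : ℂ))‖ = 1 := by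
    rw [Complex.norm_natCast_cpow_of_pos hd0]
    simp
  rw [this, mul_one]

/-- one coefficient function -/
theorem CM0_main (k : ℝ → ℂ) (ψ : ℝ → ℝ) (hk : IsKer k ψ) (L : ℝ) (hL : 1 ≤ L) (b : ℕ → ℂ)
    (q : ℝ → ℂ) (hqc : Continuous q) (hqb : ∀ s : ℝ, ‖q (s / L)‖ ≤ 1 + |s|) (y : ℝ) (M : ℕ)
    (β : ℝ) (hβ : ∀ s : ℝ, ∑ m ∈ Icc 1 M, ‖B b ((s / L : ℝ) : ℂ) m‖ ^ 2 / (m : ℝ) ≤
      β * (1 + |s|) ^ 6) :
    ∑ m ∈ Icc 1 M, ‖cc0 k L b q y m‖ ^ 2 / (m : ℝ) ≤
      β * ((∫ s, ‖k s‖) * ∫ s, ‖k s‖ * (1 + |s|) ^ 8) := by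
  have hI : ∀ A : ℕ, Integrable fun s : ℝ => ‖k s‖ * (1 + |s|) ^ A :=
    CM0_int k hk.cont hk.dec
  have hI0 : Integrable fun s : ℝ => ‖k s‖ := by simpa using hI 0
  let g : ℕ → ℝ → ℝ := fun m s => ‖q (s / L)‖ * ‖B b ((s / L : ℝ) : ℂ) m‖
  have hgc : ∀ m, Continuous (g m) := fun m =>
    ((hqc.comp (continuous_id.div_const L)).norm).mul (CM0_Bcont b L m).norm
  have hgn : ∀ m s, 0 ≤ g m s := fun m s => mul_nonneg (norm_nonneg _) (norm_nonneg _)
  have hgb : ∀ m s, g m s ≤ (∑ d ∈ m.divisors, ‖b d‖) * (1 + |s|) := by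
    intro m s
    have h1 := hqb s
    have h2 := CM0_Bbd b (s / L) m
    calc g m s ≤ (1 + |s|) * ∑ d ∈ m.divisors, ‖b d‖ :=
          mul_le_mul h1 h2 (norm_nonneg _) (by positivity)
      _ = _ := mul_comm _ _
  have hi1 : ∀ m, Integrable fun s => ‖k s‖ * g m s := by
    intro m
    refine ((hI 1).const_mul (∑ d ∈ m.divisors, ‖b d‖)).mono' ?_ ?_
    · exact (hk.cont.norm.mul (hgc m)).aestronglyMeasurable
    · refine Filter.Eventually.of_forall fun s => ?_
      rw [Real.norm_of_nonneg (mul_nonneg (norm_nonneg _) (hgn m s))]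
      calc ‖k s‖ * g m s ≤ ‖k s‖ * ((∑ d ∈ m.divisors, ‖b d‖) * (1 + |s|)) :=
            mul_le_mul_of_nonneg_left (hgb m s) (norm_nonneg _)
        _ = _ := by ring
  have hi2 : ∀ m, Integrable fun s => ‖k s‖ * g m s ^ 2 := by
    intro m
    refine ((hI 2).const_mul ((∑ d ∈ m.divisors, ‖b d‖) ^ 2)).mono' ?_ ?_
    · exact (hk.cont.norm.mul ((hgc m).pow 2)).aestronglyMeasurable
    · refine Filter.Eventually.of_forall fun s => ?_
      rw [Real.norm_of_nonneg (by positivity)]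
      calc ‖k s‖ * g m s ^ 2 ≤ ‖k s‖ * ((∑ d ∈ m.divisors, ‖b d‖) * (1 + |s|)) ^ 2 :=
            mul_le_mul_of_nonneg_left (pow_le_pow_left₀ (hgn m s) (hgb m s) 2) (norm_nonneg _)
        _ = _ := by ring
  have hone : ∀ m, ‖cc0 k L b q y m‖ ^ 2 ≤ (∫ s, ‖k s‖) * ∫ s, ‖k s‖ * g m s ^ 2 := by
    intro m
    have h1 : ‖cc0 k L b q y m‖ ≤ ∫ s, ‖k s‖ * g m s := by
      unfold cc0
      refine (norm_integral_le_integral_norm _).trans (le_of_eq ?_)
      congr 1
      funext s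
      rw [norm_mul, norm_mul, norm_mul]
      have : ‖cexp (I * ((s / L * (y - Real.log m) : ℝ) : ℂ))‖ = 1 := by
        rw [mul_comm, Complex.norm_exp_ofReal_mul_I]
      rw [this]
      ring
    calc ‖cc0 k L b q y m‖ ^ 2 ≤ (∫ s, ‖k s‖ * g m s) ^ 2 :=
          pow_le_pow_left₀ (norm_nonneg _) h1 2
      _ ≤ _ := CM0_cs _ _ (fun s => norm_nonneg _) hI0 (hi1 m) (hi2 m)
  have ha : 0 ≤ ∫ s, ‖k s‖ := integral_nonneg fun s => norm_nonneg _
  calc ∑ m ∈ Icc 1 M, ‖cc0 k L b q y m‖ ^ 2 / (m : ℝ)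
      ≤ ∑ m ∈ Icc 1 M, (∫ s, ‖k s‖) * ∫ s, ‖k s‖ * g m s ^ 2 / (m : ℝ) := by
        refine sum_le_sum fun m _ => ?_
        have e : ∫ s, ‖k s‖ * g m s ^ 2 / (m : ℝ) = (∫ s, ‖k s‖ * g m s ^ 2) / m :=
          integral_div _ _
        rw [e, ← mul_div_assoc]
        exact div_le_div_of_nonneg_right (hone m) (Nat.cast_nonneg _)
    _ = (∫ s, ‖k s‖) * ∫ s, ∑ m ∈ Icc 1 M, ‖k s‖ * g m s ^ 2 / (m : ℝ) := by
        rw [← mul_sum, integral_finsetSum _ fun m _ => (hi2 m).div_const _]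
    _ ≤ (∫ s, ‖k s‖) * ∫ s, β * (‖k s‖ * (1 + |s|) ^ 8) := by
        apply mul_le_mul_of_nonneg_left _ ha
        apply integral_mono
        · exact integrable_finsetSum _ fun m _ => (hi2 m).div_const _
        · exact (hI 8).const_mul β
        · intro s
          have h3 : ∑ m ∈ Icc 1 M, ‖k s‖ * g m s ^ 2 / (m : ℝ) =
              ‖k s‖ * ‖q (s / L)‖ ^ 2 *
                ∑ m ∈ Icc 1 M, ‖B b ((s / L : ℝ) : ℂ) m‖ ^ 2 / (m : ℝ) := by
            rw [mul_sum]
            refine sum_congr rfl fun m _ => ?_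
            change ‖k s‖ * (‖q (s / L)‖ * ‖B b ((s / L : ℝ) : ℂ) m‖) ^ 2 / (m : ℝ) = _
            ring
          change ∑ m ∈ Icc 1 M, ‖k s‖ * g m s ^ 2 / (m : ℝ) ≤ β * (‖k s‖ * (1 + |s|) ^ 8)
          rw [h3]
          have hs := hβ s
          have hs0 : 0 ≤ ∑ m ∈ Icc 1 M, ‖B b ((s / L : ℝ) : ℂ) m‖ ^ 2 / (m : ℝ) :=
            sum_nonneg fun m _ => by positivity
          have h4 : ‖k s‖ * ‖q (s / L)‖ ^ 2 ≤ ‖k s‖ * (1 + |s|) ^ 2 :=
            mul_le_mul_of_nonneg_left (pow_le_pow_left₀ (norm_nonneg _) (hqb s) 2) (norm_nonneg _)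
          calc ‖k s‖ * ‖q (s / L)‖ ^ 2 *
                ∑ m ∈ Icc 1 M, ‖B b ((s / L : ℝ) : ℂ) m‖ ^ 2 / (m : ℝ)
              ≤ (‖k s‖ * (1 + |s|) ^ 2) * (β * (1 + |s|) ^ 6) :=
                mul_le_mul h4 hs hs0 (by positivity)
            _ = β * (‖k s‖ * (1 + |s|) ^ 8) := by ring
    _ = β * ((∫ s, ‖k s‖) * ∫ s, ‖k s‖ * (1 + |s|) ^ 8) := by
        rw [integral_const_mul]; ring

theorem stmt_CM0 (hM : Stmt_MSB) : Stmt_CM0 := by
  obtain ⟨C, hC, hmsb⟩ := hM
  intro k ψ hk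
  set a0 : ℝ := ∫ s, ‖k s‖ with ha0
  set a8 : ℝ := ∫ s, ‖k s‖ * (1 + |s|) ^ 8 with ha8
  have h0 : 0 ≤ a0 := integral_nonneg fun s => norm_nonneg _
  have h8 : 0 ≤ a8 := integral_nonneg fun s => by positivity
  refine ⟨5 * C * (a0 * a8) + 1, by positivity, ?_⟩
  intro L R X lam hL hch j hj y M hXL hML
  -- X j is at least 100
  have hX100 : ∀ i, i ≤ R → 100 ≤ X i := by
    intro i
    induction i with
    | zero => intro _; rw [hch.x0]
    | succ i ih =>
      intro hi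
      exact (ih (by omega)).trans (hch.mono i (by omega)).le
  have hXj := hX100 j hj
  have hlog : 0 < Real.log (X j) := Real.log_pos (by linarith)
  set A := Real.log (X j) with hA
  have hβ : ∀ s : ℝ, ∑ m ∈ Icc 1 M, ‖B (cM X lam (range j)) ((s / L : ℝ) : ℂ) m‖ ^ 2 / (m : ℝ) ≤
      (5 * C * L * A ^ (-(3 / 4) : ℝ)) * (1 + |s|) ^ 6 := by
    intro s
    have hv := hmsb L R X lam hch j hj ((s / L : ℝ) : ℂ) (by
      rw [Complex.ofReal_im, abs_zero]; positivity)
    obtain ⟨hv1, hv2⟩ := hv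
    rw [Complex.ofReal_re] at hv1 hv2
    have hpow : (1 + |s / L| * A) ^ 6 ≤ (1 + |s|) ^ 6 := by
      have : |s / L| * A ≤ |s| := by
        rw [abs_div, abs_of_pos (by linarith : (0 : ℝ) < L), div_mul_eq_mul_div,
          div_le_iff₀ (by linarith)]
        exact mul_le_mul_of_nonneg_left hXL (abs_nonneg s)
      have h3 : 0 ≤ |s / L| * A := by positivity
      apply pow_le_pow_left₀ (by linarith)
      linarith
    set E := A ^ (-(3 / 4) : ℝ) with hE
    have hE0 : 0 < E := Real.rpow_pos_of_pos hlog _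
    set P := (1 + |s / L| * A) ^ 6 with hP
    have hP0 : 0 ≤ P := by positivity
    have hsum := CM0_sum (fun m => ‖B (cM X lam (range j)) ((s / L : ℝ) : ℂ) m‖ ^ 2)
      (fun m => by positivity) (C * E * P) A (X j) (by linarith)
      (fun z hz => by
        have := hv1 z hz
        calc _ ≤ C * z * A ^ (-(3 / 4) : ℝ) * (1 + |s / L| * A) ^ 6 := this
          _ = C * E * P * z := by rw [← hE, ← hP]; ring)
      (by
        have e : A ^ (1 / 4 : ℝ) = E * A := by
          rw [hE]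
          conv_rhs => rw [← Real.rpow_one A, ← Real.rpow_mul hlog.le]
          rw [← Real.rpow_add hlog]
          norm_num
        calc _ ≤ C * A ^ (1 / 4 : ℝ) * (1 + |s / L| * A) ^ 6 := hv2
          _ = C * E * P * A := by rw [e, ← hP]; ring) M
    have hfac : A + 2 + 2 * Real.log M ≤ 5 * L := by linarith
    calc _ ≤ C * E * P * (A + 2 + 2 * Real.log M) := hsum
      _ ≤ C * E * P * (5 * L) := by
          apply mul_le_mul_of_nonneg_left hfac (by positivity)
      _ ≤ C * E * (1 + |s|) ^ 6 * (5 * L) := by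
          apply mul_le_mul_of_nonneg_right _ (by linarith)
          apply mul_le_mul_of_nonneg_left hpow (by positivity)
      _ = _ := by ring
  have hfin : (5 * C * L * A ^ (-(3 / 4) : ℝ)) * (a0 * a8) ≤
      (5 * C * (a0 * a8) + 1) * L * A ^ (-(3 / 4) : ℝ) := by
    have hE0 : 0 < A ^ (-(3 / 4) : ℝ) := Real.rpow_pos_of_pos hlog _
    nlinarith [mul_pos (by linarith : (0 : ℝ) < L) hE0]
  constructor
  · refine (CM0_main k ψ hk L hL (cM X lam (range j)) (fun _ => 1) continuous_const ?_ y M _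
      hβ).trans hfin
    intro s
    rw [norm_one]
    linarith [abs_nonneg s]
  · refine (CM0_main k ψ hk L hL (cM X lam (range j)) (fun v => I * (v : ℂ)) ?_ ?_ y M _
      hβ).trans hfin
    · exact continuous_const.mul Complex.continuous_ofReal
    · intro s
      rw [norm_mul, Complex.norm_I, one_mul, Complex.norm_real, Real.norm_eq_abs, abs_div,
        abs_of_pos (by linarith : (0 : ℝ) < L)]
      have : |s| / L ≤ |s| := div_le_self (abs_nonneg s) hL
      linarith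

end

end HZS
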