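import Pool.Agent.Work.MP_c51bc2_nt.B_LOC1

/-!
# Block CO: `M` and `N` are Dirichlet polynomials with coefficients `cM`, `cN`
-/

open Finset Complex MeasureTheory

namespace HZS

namespace COx

lemma chain_ge {L : ℝ} {R : ℕ} {X lam : ℕ → ℝ} (h : IsChain L R X lam) :
    ∀ j ≤ R, 100 ≤ X j := by
  intro j
  induction j with
  | zero => intro _; exact h.x0.ge
  | succ j ih =>
    intro hj
    have h1 := ih (by omega)
    have h2 := h.mono j (by omega)
    linarith

lemma mem_PB_le {L : ℝ} {R : ℕ} {X lam : ℕ → ℝ} (h : IsChain L R X lam) {i : ℕ} (hi : i < R)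
    {p : ℕ} (hp : p ∈ PB X i) : p.Prime ∧ (p : ℝ) ≤ X (i + 1) := by
  unfold PB at hp
  rw [Finset.mem_filter, Finset.mem_Icc] at hp
  refine ⟨hp.2.1, ?_⟩
  have h0 : 0 ≤ X (i + 1) := by
    have := chain_ge h (i + 1) (by omega)
    linarith
  exact (Nat.le_floor_iff h0).1 hp.1.2

lemma Okd_le {L : ℝ} {R : ℕ} {X lam : ℕ → ℝ} (h : IsChain L R X lam) {S : Finset ℕ}
    (hS : S ⊆ range R) {d : ℕ} (hd : Okd X lam S d) :
    (d : ℝ) ≤ Real.exp (∑ i ∈ S, (KK lam i : ℝ) * Real.log (X (i + 1))) := by
  obtain ⟨hd0, hd1, hd2⟩ := hd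
  have hdp : (0 : ℝ) < d := by
    have := Nat.pos_of_ne_zero hd0
    exact_mod_cast this
  rw [← Real.log_le_iff_le_exp hdp, Real.log_nat_eq_sum_factorization, Finsupp.sum]
  have hlog : ∀ p : ℕ, 0 ≤ (d.factorization p : ℝ) * Real.log p := fun p =>
    mul_nonneg (Nat.cast_nonneg _) (Real.log_natCast_nonneg p)
  calc ∑ p ∈ d.factorization.support, (d.factorization p : ℝ) * Real.log p
      ≤ ∑ p ∈ d.factorization.support, ∑ i ∈ S,
          (if p ∈ PB X i then (d.factorization p : ℝ) * Real.log p else 0) := by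
        refine Finset.sum_le_sum fun p hp => ?_
        obtain ⟨i, hi, hpi⟩ := hd1 p (by rwa [Nat.support_factorization] at hp)
        calc (d.factorization p : ℝ) * Real.log p
            = (if p ∈ PB X i then (d.factorization p : ℝ) * Real.log p else 0) := by
              rw [if_pos hpi]
          _ ≤ _ := Finset.single_le_sum
              (f := fun i => if p ∈ PB X i then (d.factorization p : ℝ) * Real.log p else 0)
              (fun j _ => by
                split_ifs
                · exact hlog p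
                · exact le_rfl) hi
    _ = ∑ i ∈ S, ∑ p ∈ d.factorization.support,
          (if p ∈ PB X i then (d.factorization p : ℝ) * Real.log p else 0) := Finset.sum_comm
    _ ≤ ∑ i ∈ S, (KK lam i : ℝ) * Real.log (X (i + 1)) := by
        refine Finset.sum_le_sum fun i hi => ?_
        rw [Finset.sum_ite_mem]
        have hiR := Finset.mem_range.1 (hS hi)
        have hX : 100 ≤ X (i + 1) := chain_ge h (i + 1) (by omega)
        have hlX : 0 ≤ Real.log (X (i + 1)) := Real.log_nonneg (by linarith)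
        calc ∑ p ∈ d.factorization.support ∩ PB X i, (d.factorization p : ℝ) * Real.log p
            ≤ ∑ p ∈ PB X i, (d.factorization p : ℝ) * Real.log p :=
              Finset.sum_le_sum_of_subset_of_nonneg Finset.inter_subset_right
                fun p _ _ => hlog p
          _ ≤ ∑ p ∈ PB X i, (d.factorization p : ℝ) * Real.log (X (i + 1)) := by
              refine Finset.sum_le_sum fun p hp => ?_
              obtain ⟨h1, h2⟩ := mem_PB_le h hiR hp
              have h3 : (0 : ℝ) < p := by exact_mod_cast h1.pos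
              exact mul_le_mul_of_nonneg_left (Real.log_le_log h3 h2) (Nat.cast_nonneg _)
          _ = ((∑ p ∈ PB X i, d.factorization p : ℕ) : ℝ) * Real.log (X (i + 1)) := by
              rw [← Finset.sum_mul]
              push_cast
              rfl
          _ ≤ (KK lam i : ℝ) * Real.log (X (i + 1)) := by
              refine mul_le_mul_of_nonneg_right ?_ hlX
              exact_mod_cast hd2 i hi

lemma mem_SK {P : Finset ℕ} (hP : ∀ p ∈ P, p.Prime) {K d : ℕ} (hd0 : d ≠ 0)
    (h1 : ∀ p ∈ d.primeFactors, p ∈ P) (h2 : ∑ p ∈ P, d.factorization p ≤ K) :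
    d ∈ SK P K := by
  unfold SK
  rw [Finset.mem_filter, Finset.mem_Icc]
  refine ⟨⟨Nat.pos_of_ne_zero hd0, ?_⟩, h1, h2⟩
  refine Nat.le_of_dvd (Finset.prod_pos fun p hp => pow_pos (hP p hp).pos K) ?_
  have e : ∏ p ∈ d.primeFactors, p ^ d.factorization p = d := by
    have := Nat.prod_factorization_pow_eq_self hd0
    rwa [Finsupp.prod, Nat.support_factorization] at this
  rw [← e]
  refine (Finset.prod_dvd_prod_of_dvd _ (fun p => p ^ K) fun p hp => ?_).trans
    (Finset.prod_dvd_prod_of_subset _ _ _ fun p hp => h1 p hp)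
  refine pow_dvd_pow p (le_trans ?_ h2)
  exact Finset.single_le_sum (f := fun p => d.factorization p) (fun _ _ => Nat.zero_le _)
    (h1 p hp)

lemma disj' {L : ℝ} {R : ℕ} {X lam : ℕ → ℝ} (hc : IsChain L R X lam) {i j : ℕ} (hij : i ≠ j)
    (hi : i < R) (hj : j < R) {p : ℕ} (hp : p ∈ PB X i) : p ∉ PB X j := by
  rcases lt_or_gt_of_ne hij with h | h
  · exact LOC1_disj hc h hj hp
  · intro hq
    exact LOC1_disj hc h hi hq hp

lemma mo_mul (a b : ℕ) (t : ℝ) : mo (a * b) t = mo a t * mo b t := by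
  unfold mo
  rw [Nat.cast_mul, Complex.natCast_mul_natCast_cpow]

open Classical in
lemma step {L : ℝ} {R : ℕ} {X lam : ℕ → ℝ} (hc : IsChain L R X lam) {S : Finset ℕ}
    (hS : S ⊆ range R) {j : ℕ} (hj : j < R) (hjS : j ∉ S) (s t : ℝ) (N : ℕ)
    (hN1 : ∀ d, Okd X lam S d → d ≤ N) (hN2 : ∀ d, Okd X lam (insert j S) d → d ≤ N) :
    (∑ d ∈ (Icc 1 N).filter (fun d => Okd X lam S d), (cf s d : ℂ) * mo d t) *
      (∑ d ∈ SK (PB X j) (KK lam j), (cf s d : ℂ) * mo d t) =
    ∑ d ∈ (Icc 1 N).filter (fun d => Okd X lam (insert j S) d), (cf s d : ℂ) * mo d t := by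
  have hPj : ∀ p ∈ PB X j, p.Prime := fun p hp => (mem_PB_le hc hj hp).1
  have hne : ∀ i ∈ S, i ≠ j := fun i hi h => hjS (h ▸ hi)
  have hlt : ∀ i ∈ S, i < R := fun i hi => Finset.mem_range.1 (hS hi)
  rw [Finset.sum_mul_sum, ← Finset.sum_product']
  refine Finset.sum_bij (fun x _ => x.1 * x.2) ?_ ?_ ?_ ?_
  · rintro ⟨a, b⟩ hab
    simp only [Finset.mem_product, Finset.mem_filter, SK, Finset.mem_Icc] at hab
    obtain ⟨⟨-, ha0, ha1, ha2⟩, ⟨hb, -⟩, hb1, hb2⟩ := hab
    have hb0 : b ≠ 0 := by omega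
    have hcop : Nat.Coprime a b := by
      apply LOC1_coprime
      intro p hp hpa hpb
      obtain ⟨i, hi, hpi⟩ := ha1 p (Nat.mem_primeFactors.2 ⟨hp, hpa, ha0⟩)
      exact disj' hc (hne i hi) (hlt i hi) hj hpi (hb1 p (Nat.mem_primeFactors.2 ⟨hp, hpb, hb0⟩))
    have hok : Okd X lam (insert j S) (a * b) := by
      refine ⟨mul_ne_zero ha0 hb0, ?_, ?_⟩
      · intro p hp
        rw [hcop.primeFactors_mul, Finset.mem_union] at hp
        rcases hp with hp | hp
        · obtain ⟨i, hi, hpi⟩ := ha1 p hp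
          exact ⟨i, Finset.mem_insert_of_mem hi, hpi⟩
        · exact ⟨j, Finset.mem_insert_self _ _, hb1 p hp⟩
      · intro i hi
        rw [Nat.factorization_mul_of_coprime hcop]
        simp only [Finsupp.add_apply, Finset.sum_add_distrib]
        rcases Finset.mem_insert.1 hi with rfl | hi'
        · have h0 : ∑ p ∈ PB X i, a.factorization p = 0 := by
            refine Finset.sum_eq_zero (fun p hp => ?_)
            by_contra hne'
            have hpa : p ∈ a.primeFactors := by
              rw [← Nat.support_factorization, Finsupp.mem_support_iff]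
              exact hne'
            obtain ⟨k, hk, hpk⟩ := ha1 p hpa
            exact disj' hc (hne k hk) (hlt k hk) hj hpk hp
          rw [h0, zero_add]
          exact hb2
        · have h0 : ∑ p ∈ PB X i, b.factorization p = 0 := by
            refine Finset.sum_eq_zero (fun p hp => ?_)
            by_contra hne'
            have hpb : p ∈ b.primeFactors := by
              rw [← Nat.support_factorization, Finsupp.mem_support_iff]
              exact hne'
            exact disj' hc (hne i hi') (hlt i hi') hj hp (hb1 p hpb)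
          rw [h0, add_zero]
          exact ha2 i hi'
    simp only [Finset.mem_filter, Finset.mem_Icc]
    exact ⟨⟨Nat.pos_of_ne_zero hok.1, hN2 _ hok⟩, hok⟩
  · rintro ⟨a, b⟩ hab ⟨a', b'⟩ hab' heq
    simp only [Finset.mem_product, Finset.mem_filter, SK, Finset.mem_Icc] at hab hab'
    obtain ⟨⟨-, ha0, ha1, ha2⟩, ⟨hb, -⟩, hb1, hb2⟩ := hab
    obtain ⟨⟨-, ha0', ha1', ha2'⟩, ⟨hb', -⟩, hb1', hb2'⟩ := hab'
    have hb0 : b ≠ 0 := by omega
    have hb0' : b' ≠ 0 := by omega
    have heq' : a * b = a' * b' := heq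
    have c1 : Nat.Coprime a b' := by
      apply LOC1_coprime
      intro p hp hpa hpb
      obtain ⟨i, hi, hpi⟩ := ha1 p (Nat.mem_primeFactors.2 ⟨hp, hpa, ha0⟩)
      exact disj' hc (hne i hi) (hlt i hi) hj hpi
        (hb1' p (Nat.mem_primeFactors.2 ⟨hp, hpb, hb0'⟩))
    have c2 : Nat.Coprime a' b := by
      apply LOC1_coprime
      intro p hp hpa hpb
      obtain ⟨i, hi, hpi⟩ := ha1' p (Nat.mem_primeFactors.2 ⟨hp, hpa, ha0'⟩)
      exact disj' hc (hne i hi) (hlt i hi) hj hpi
        (hb1 p (Nat.mem_primeFactors.2 ⟨hp, hpb, hb0⟩))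
    have d1 : a ∣ a' := c1.dvd_of_dvd_mul_right (by rw [← heq']; exact Dvd.intro _ rfl)
    have d2 : a' ∣ a := c2.dvd_of_dvd_mul_right (by rw [heq']; exact Dvd.intro _ rfl)
    have h1 : a = a' := Nat.dvd_antisymm d1 d2
    subst h1
    have h2 : b = b' := Nat.eq_of_mul_eq_mul_left (Nat.pos_of_ne_zero ha0) heq'
    rw [h2]
  · intro d hd
    simp only [Finset.mem_filter, Finset.mem_Icc] at hd
    obtain ⟨-, hd0, hd1, hd2⟩ := hd
    set f := d.factorization with hf
    have hprime : ∀ p ∈ f.support, p.Prime := fun p hp => Nat.prime_of_mem_primeFactors hp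
    set g1 := f.filter (fun p => p ∉ PB X j) with hg1
    set g2 := f.filter (fun p => p ∈ PB X j) with hg2
    set a := g1.prod (fun p k => p ^ k) with ha
    set b := g2.prod (fun p k => p ^ k) with hb
    have hab : a * b = d := by
      have h1 : g2.prod (fun p k => p ^ k) * g1.prod (fun p k => p ^ k) =
          f.prod (fun p k => p ^ k) :=
        Finsupp.prod_filter_mul_prod_filter_not _ _ _
      rw [ha, hb, mul_comm, h1]
      exact Nat.prod_factorization_pow_eq_self hd0
    have fa : a.factorization = g1 := Nat.prod_pow_factorization_eq_self (fun p hp => by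
      apply hprime
      rw [hg1, Finsupp.support_filter] at hp
      exact (Finset.mem_filter.1 hp).1)
    have fb : b.factorization = g2 := Nat.prod_pow_factorization_eq_self (fun p hp => by
      apply hprime
      rw [hg2, Finsupp.support_filter] at hp
      exact (Finset.mem_filter.1 hp).1)
    have ha0 : a ≠ 0 := fun h => hd0 (by rw [← hab, h, zero_mul])
    have hb0 : b ≠ 0 := fun h => hd0 (by rw [← hab, h, mul_zero])
    refine ⟨(a, b), ?_, hab⟩
    have hsa : ∀ p ∈ a.primeFactors, p ∈ d.primeFactors ∧ p ∉ PB X j := by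
      intro p hp
      rw [← Nat.support_factorization, fa, hg1, Finsupp.support_filter] at hp
      exact Finset.mem_filter.1 hp
    have hsb : ∀ p ∈ b.primeFactors, p ∈ d.primeFactors ∧ p ∈ PB X j := by
      intro p hp
      rw [← Nat.support_factorization, fb, hg2, Finsupp.support_filter] at hp
      exact Finset.mem_filter.1 hp
    have hoka : Okd X lam S a := by
      refine ⟨ha0, ?_, ?_⟩
      · intro p hp
        obtain ⟨h1, h2⟩ := hsa p hp
        obtain ⟨i, hi, hpi⟩ := hd1 p h1
        refine ⟨i, ?_, hpi⟩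
        rcases Finset.mem_insert.1 hi with rfl | hi'
        · exact absurd hpi h2
        · exact hi'
      · intro i hi
        refine (Finset.sum_le_sum (fun p _ => ?_)).trans (hd2 i (Finset.mem_insert_of_mem hi))
        rw [fa, hg1, Finsupp.filter_apply]
        split_ifs <;> first | exact le_rfl | exact Nat.zero_le _
    rw [Finset.mem_product]
    refine ⟨Finset.mem_filter.2 ⟨Finset.mem_Icc.2 ⟨Nat.pos_of_ne_zero ha0, hN1 _ hoka⟩, hoka⟩,
      mem_SK hPj hb0 (fun p hp => (hsb p hp).2) ?_⟩
    refine (Finset.sum_le_sum (fun p _ => ?_)).trans (hd2 j (Finset.mem_insert_self _ _))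
    simp only
    rw [fb, hg2, Finsupp.filter_apply]
    split_ifs <;> first | exact le_rfl | exact Nat.zero_le _
  · rintro ⟨a, b⟩ hab
    simp only [Finset.mem_product, Finset.mem_filter, SK, Finset.mem_Icc] at hab
    obtain ⟨⟨-, ha0, ha1, ha2⟩, ⟨hb, -⟩, hb1, hb2⟩ := hab
    have hb0 : b ≠ 0 := by omega
    have hcop : Nat.Coprime a b := by
      apply LOC1_coprime
      intro p hp hpa hpb
      obtain ⟨i, hi, hpi⟩ := ha1 p (Nat.mem_primeFactors.2 ⟨hp, hpa, ha0⟩)
      exact disj' hc (hne i hi) (hlt i hi) hj hpi (hb1 p (Nat.mem_primeFactors.2 ⟨hp, hpb, hb0⟩))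
    show (cf s a : ℂ) * mo a t * ((cf s b : ℂ) * mo b t) = (cf s (a * b) : ℂ) * mo (a * b) t
    rw [LOC1_cf_mul hcop, mo_mul]
    push_cast
    ring

lemma Okd_empty {X lam : ℕ → ℝ} {d : ℕ} : Okd X lam ∅ d ↔ d = 1 := by
  constructor
  · rintro ⟨h0, h2, -⟩
    by_contra hne
    obtain ⟨p, hp, hpd⟩ := Nat.exists_prime_and_dvd hne
    obtain ⟨i, hi, -⟩ := h2 p (Nat.mem_primeFactors.2 ⟨hp, hpd, h0⟩)
    simp at hi
  · rintro rfl
    exact ⟨one_ne_zero, by simp, by simp⟩

open Classical in
lemma prod_eq (hCO1 : Stmt_CO1) {L : ℝ} {R : ℕ} {X lam : ℕ → ℝ} (hc : IsChain L R X lam)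
    {S : Finset ℕ} (hS : S ⊆ range R) (s t : ℝ) (N : ℕ)
    (hN : ∀ T ⊆ S, ∀ d, Okd X lam T d → d ≤ N) :
    ∏ i ∈ S, EP (KK lam i) ((s : ℂ) * PP X i t) =
      ∑ d ∈ (Icc 1 N).filter (fun d => Okd X lam S d), (cf s d : ℂ) * mo d t := by
  induction S using Finset.induction_on with
  | empty =>
    rw [Finset.prod_empty]
    have h1 : (Icc 1 N).filter (fun d => Okd X lam ∅ d) = {1} := by
      ext d
      rw [Finset.mem_filter, Finset.mem_Icc, Finset.mem_singleton, Okd_empty]
      constructor
      · exact fun h => h.2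
      · rintro rfl
        exact ⟨⟨le_rfl, hN ∅ (Finset.Subset.refl _) 1 (Okd_empty.2 rfl)⟩, rfl⟩
    rw [h1, Finset.sum_singleton]
    simp [cf, mo]
  | insert a S ha ih =>
    have hS' : S ⊆ range R := (Finset.subset_insert a S).trans hS
    have haR : a < R := Finset.mem_range.1 (hS (Finset.mem_insert_self a S))
    rw [Finset.prod_insert ha, ih hS' (fun T hT => hN T (hT.trans (Finset.subset_insert a S))),
      mul_comm]
    have hP : ∀ p ∈ PB X a, p.Prime := fun p hp => (mem_PB_le hc haR hp).1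
    have h1 : EP (KK lam a) ((s : ℂ) * PP X a t) =
        ∑ d ∈ SK (PB X a) (KK lam a), (cf s d : ℂ) * mo d t := hCO1 (PB X a) hP (KK lam a) s t
    rw [h1]
    exact step hc hS' haR ha s t N (hN S (Finset.subset_insert a S))
      (hN _ (Finset.Subset.refl _))

end COx

theorem stmt_CO (hCO1 : Stmt_CO1) : Stmt_CO := by
  classical
  intro L R X lam hc S hS Y hY
  have hN : ∀ T ⊆ S, ∀ d, Okd X lam T d → d ≤ Y := by
    intro T hT d hd
    have h1 := COx.Okd_le hc (hT.trans hS) hd
    have h2 : Real.exp (∑ i ∈ T, (KK lam i : ℝ) * Real.log (X (i + 1))) ≤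
        Real.exp (∑ i ∈ S, (KK lam i : ℝ) * Real.log (X (i + 1))) := by
      apply Real.exp_le_exp.2
      refine Finset.sum_le_sum_of_subset_of_nonneg hT fun i hi _ => ?_
      have := COx.chain_ge hc (i + 1) (by have := Finset.mem_range.1 (hS hi); omega)
      exact mul_nonneg (Nat.cast_nonneg _) (Real.log_nonneg (by linarith))
    exact_mod_cast h1.trans (h2.trans hY)
  refine ⟨fun t => ?_, fun t => ?_, fun d hd => ?_, fun d hd => ?_⟩
  · have h1 := COx.prod_eq hCO1 hc hS (-1 / 2) t Y hN
    have h2 : MM X lam S t = ∏ i ∈ S, EP (KK lam i) (((-1 / 2 : ℝ) : ℂ) * PP X i t) := by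
      unfold MM
      refine Finset.prod_congr rfl fun i _ => ?_
      congr 1
      push_cast
      ring
    rw [h2, h1, Finset.sum_filter]
    unfold D
    refine Finset.sum_congr rfl fun d _ => ?_
    unfold cM
    split_ifs <;> simp
  · have h1 := COx.prod_eq hCO1 hc hS (1 / 2) t Y hN
    have h2 : NN X lam S t = ∏ i ∈ S, EP (KK lam i) (((1 / 2 : ℝ) : ℂ) * PP X i t) := by
      unfold NN
      refine Finset.prod_congr rfl fun i _ => ?_
      congr 1
      push_cast
      ring
    rw [h2, h1, Finset.sum_filter]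
    unfold D
    refine Finset.sum_congr rfl fun d _ => ?_
    unfold cN
    split_ifs <;> simp
  · unfold cM
    rw [if_neg]
    intro h
    have := hN S (Finset.Subset.refl _) d h
    omega
  · unfold cN
    rw [if_neg]
    intro h
    have := hN S (Finset.Subset.refl _) d h
    omega

end HZS
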