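import Pool.Agent.Work.MP_c51bc2_nt.Multi

/-!
# CO1: the truncated exponential of a sum over primes
-/

open Finset Complex MeasureTheory

namespace HZS

noncomputable section

theorem stmt_CO1 (hPWR : Stmt_PWR) : Stmt_CO1 := by
  intro P hP K s t
  rw [Multi.sum_SK hP]
  unfold EP
  refine Finset.sum_congr rfl fun k _ => ?_
  rw [mul_pow, hPWR P hP k t, Finset.mul_sum, Finset.sum_div]
  refine Finset.sum_congr rfl fun e he => ?_
  obtain ⟨h1, h2, h3⟩ := (Multi.mem_SE hP).1 he
  rw [Multi.cf_pow h2 s, h3]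
  have hk : ((k.factorial : ℕ) : ℂ) ≠ 0 := by exact_mod_cast Nat.factorial_ne_zero k
  push_cast
  field_simp

end

end HZS
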