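import Mathlib

/-!
# MP_c51bc2_nt: the first moment of short integrals of Hardy's function

`∫_T^{2T} |∫_t^{t+h} Z(u) du| dt ≤ C T h^{3/4}` for `W0 / log T ≤ h ≤ 1/5`.

Everything is stated with `L = log T`; `R, X, lam` is a chain of blocks of primes.
-/

open Finset Complex MeasureTheory

namespace HZS

noncomputable section

/-! ## Hardy's function -/

/-- `e^{iθ(t)}` -/
def ph (t : ℝ) : ℂ :=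
  (Real.pi : ℂ) ^ (-(I * t / 2)) * Complex.Gamma (1 / 4 + I * t / 2) /
    (‖Complex.Gamma (1 / 4 + I * t / 2)‖ : ℂ)

/-- Hardy's function `Z(t) = e^{iθ(t)} ζ(1/2+it)` (it is real, see `Stmt_RZ`) -/
def Z (t : ℝ) : ℝ := (ph t * riemannZeta (1 / 2 + I * t)).re

/-- `θ'(t)` -/
def dth (t : ℝ) : ℝ :=
  -(Real.log Real.pi) / 2 + (Complex.digamma (1 / 4 + I * t / 2)).re / 2

/-- the monomial `n^{-1/2-it}` -/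
def mo (n : ℕ) (t : ℝ) : ℂ := (n : ℂ) ^ (-(1 / 2 + I * t))

/-- the length of the partial sum of `ζ` -/
def N0 (T : ℝ) : ℕ := ⌈3 * T⌉₊ + 1

/-- the short integral -/
def J (h t : ℝ) : ℝ := ∫ u in t..(t + h), Z u

/-! ## The kernel -/

/-- `k` is a rapidly decreasing function with real Fourier transform `ψ`, where `ψ(ξ) = 0` for
`ξ ≤ -1/20` and `ψ(ξ) + ψ(-ξ) = 1` for `|ξ| ≤ 1`. -/
structure IsKer (k : ℝ → ℂ) (ψ : ℝ → ℝ) : Prop where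
  cont : Continuous k
  dec : ∀ A : ℕ, ∃ C : ℝ, ∀ v : ℝ, ‖k v‖ * (1 + |v|) ^ A ≤ C
  four : ∀ ξ : ℝ, (ψ ξ : ℂ) = ∫ v : ℝ, k v * cexp (I * ((v * ξ : ℝ) : ℂ))
  conj : ∀ v : ℝ, k (-v) = (starRingEnd ℂ) (k v)
  zero : ∀ ξ : ℝ, ξ ≤ -(1 / 20) → ψ ξ = 0
  one : ∀ ξ : ℝ, |ξ| ≤ 1 → ψ ξ + ψ (-ξ) = 1

/-- `G(y) = ψ(y/L) ∫_0^h e^{iuy} du` -/
def GG (ψ : ℝ → ℝ) (L h y : ℝ) : ℂ :=
  (ψ (y / L) : ℂ) * ∫ u in (0 : ℝ)..h, cexp (I * ((u * y : ℝ) : ℂ))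

/-! ## Dirichlet polynomials -/

/-- `∑_{d ≤ Y} b(d) d^{-1/2-it}` -/
def D (b : ℕ → ℂ) (Y : ℕ) (t : ℝ) : ℂ := ∑ d ∈ Icc 1 Y, b d * mo d t

/-- `B_v(m) = ∑_{d ∣ m} b(d) d^{iv}`, `v` complex -/
def B (b : ℕ → ℂ) (v : ℂ) (m : ℕ) : ℂ := ∑ d ∈ m.divisors, b d * (d : ℂ) ^ (I * v)

/-- the derivative of `B_v(m)` with respect to `v` -/
def B' (b : ℕ → ℂ) (v : ℂ) (m : ℕ) : ℂ :=
  ∑ d ∈ m.divisors, b d * (I * (Real.log d : ℂ)) * (d : ℂ) ^ (I * v)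

/-- the coefficient `∫ k(s) ∫_0^h q(u+s/L) e^{i(u+s/L)(y - log m)} B_{u+s/L}(m) du ds` -/
def cc (k : ℝ → ℂ) (L h : ℝ) (b : ℕ → ℂ) (q : ℝ → ℂ) (y : ℝ) (m : ℕ) : ℂ :=
  ∫ s : ℝ, k s * ∫ u in (0 : ℝ)..h,
    q (u + s / L) * cexp (I * (((u + s / L) * (y - Real.log m) : ℝ) : ℂ)) *
      B b ((u + s / L : ℝ) : ℂ) m

/-- the same without the short integral -/
def cc0 (k : ℝ → ℂ) (L : ℝ) (b : ℕ → ℂ) (q : ℝ → ℂ) (y : ℝ) (m : ℕ) : ℂ :=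
  ∫ s : ℝ, k s * (q (s / L) * cexp (I * ((s / L * (y - Real.log m) : ℝ) : ℂ)) *
    B b ((s / L : ℝ) : ℂ) m)

/-! ## The chain of blocks of primes -/

/-- the primes of block `j`: `X j < p ≤ X (j+1)` -/
def PB (X : ℕ → ℝ) (j : ℕ) : Finset ℕ :=
  (Finset.Icc 1 ⌊X (j + 1)⌋₊).filter (fun p => p.Prime ∧ X j < (p : ℝ))

/-- all primes in `(100, x]` -/
def PA (x : ℝ) : Finset ℕ := (Finset.Icc 1 ⌊x⌋₊).filter (fun p => p.Prime ∧ (100 : ℝ) < p)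

structure IsChain (L : ℝ) (R : ℕ) (X lam : ℕ → ℝ) : Prop where
  x0 : X 0 = 100
  mono : ∀ j < R, X j < X (j + 1)
  lam1 : ∀ j < R, 1 ≤ lam j
  sig : ∀ j < R, ∑ p ∈ PB X j, (1 / (p : ℝ)) ≤ lam j
  top : ∀ j < R, Real.log (X R) ≤ Real.exp (lam j) * Real.log (X j)
  sum : ∑ j ∈ range R, Real.exp (-lam j) ≤ 1 / 8
  len : ∑ j ∈ range R, lam j * Real.log (X (j + 1)) ≤ L / 2000

/-- the number of terms of the truncated exponential of block `j` -/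
def KK (lam : ℕ → ℝ) (j : ℕ) : ℕ := ⌈50 * lam j⌉₊

/-- the moment used on the exceptional set of block `j` -/
def mm (lam : ℕ → ℝ) (j : ℕ) : ℕ := ⌈lam j⌉₊

/-- the truncated exponential -/
def EP (K : ℕ) (z : ℂ) : ℂ := ∑ k ∈ range (K + 1), z ^ k / (k.factorial : ℂ)

/-- `P_j(t) = ∑_{p in block j} p^{-1/2-it}` -/
def PP (X : ℕ → ℝ) (j : ℕ) (t : ℝ) : ℂ := ∑ p ∈ PB X j, mo p t

/-- `M_S(t)`, an approximation to `exp(-P/2)`; `S` is a set of blocks -/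
def MM (X lam : ℕ → ℝ) (S : Finset ℕ) (t : ℝ) : ℂ := ∏ i ∈ S, EP (KK lam i) (-(PP X i t) / 2)

/-- `N_S(t)`, an approximation to `exp(P/2)` -/
def NN (X lam : ℕ → ℝ) (S : Finset ℕ) (t : ℝ) : ℂ := ∏ i ∈ S, EP (KK lam i) (PP X i t / 2)

/-- the integers occurring in `M_S` and `N_S` -/
def Okd (X lam : ℕ → ℝ) (S : Finset ℕ) (d : ℕ) : Prop :=
  d ≠ 0 ∧ (∀ p ∈ d.primeFactors, ∃ i ∈ S, p ∈ PB X i) ∧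
    ∀ i ∈ S, ∑ p ∈ PB X i, d.factorization p ≤ KK lam i

/-- integers composed of the primes of `P` with at most `K` prime factors -/
def SK (P : Finset ℕ) (K : ℕ) : Finset ℕ :=
  (Icc 1 (∏ p ∈ P, p ^ K)).filter
    (fun d => (∀ p ∈ d.primeFactors, p ∈ P) ∧ ∑ p ∈ P, d.factorization p ≤ K)

/-- integers composed of the primes of `P` with exactly `K` prime factors -/
def SE (P : Finset ℕ) (K : ℕ) : Finset ℕ :=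
  (Icc 1 (∏ p ∈ P, p ^ K)).filter
    (fun d => (∀ p ∈ d.primeFactors, p ∈ P) ∧ ∑ p ∈ P, d.factorization p = K)

/-- `s^{Ω(d)} / ∏ v_p(d)!` -/
def cf (s : ℝ) (d : ℕ) : ℝ :=
  ∏ p ∈ d.primeFactors, s ^ (d.factorization p) / ((d.factorization p).factorial : ℝ)

open Classical in
/-- the coefficients of `M_S` -/
def cM (X lam : ℕ → ℝ) (S : Finset ℕ) (d : ℕ) : ℂ :=
  if Okd X lam S d then (cf (-1 / 2) d : ℂ) else 0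

open Classical in
/-- the coefficients of `N_S` -/
def cN (X lam : ℕ → ℝ) (S : Finset ℕ) (d : ℕ) : ℂ :=
  if Okd X lam S d then (cf (1 / 2) d : ℂ) else 0

/-- the local factor of the complete exponential -/
def FF (X : ℕ → ℝ) (i : ℕ) (v : ℂ) (m : ℕ) : ℝ :=
  ∏ p ∈ m.primeFactors.filter (fun p => p ∈ PB X i),
    ‖EP (m.factorization p) (-((p : ℂ) ^ (I * v)) / 2)‖ ^ 2

/-- the majorant used for the truncation -/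
def HH (X : ℕ → ℝ) (i : ℕ) (m : ℕ) : ℝ :=
  ∏ p ∈ m.primeFactors.filter (fun p => p ∈ PB X i), 16 * Real.exp (m.factorization p)

/-- the block factor of `B_v(m)` -/
def Bt (X : ℕ → ℝ) (K i : ℕ) (v : ℂ) (m : ℕ) : ℂ :=
  ∑ d ∈ m.divisors.filter (fun d => (∀ p ∈ d.primeFactors, p ∈ PB X i) ∧
    ∑ p ∈ PB X i, d.factorization p ≤ K), (cf (-1 / 2) d : ℂ) * (d : ℂ) ^ (I * v)

/-! ## Blocks: analysis -/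

/-- PHS: the phase is locally linear. -/
def Stmt_PHS : Prop := Continuous ph ∧ Continuous dth ∧ (∀ t : ℝ, ‖ph t‖ = 1) ∧ ∃ C : ℝ, 0 < C ∧
  (∀ t : ℝ, 1 ≤ t → |dth t - Real.log t / 2| ≤ C) ∧
  (∀ t u : ℝ, 2 ≤ t → |u| ≤ t / 2 →
    ‖ph (t + u) - ph t * cexp (I * ((u * dth t : ℝ) : ℂ))‖ ≤ C * u ^ 2 / t)

/-- RZ: `e^{iθ(t)} ζ(1/2+it)` is real. -/
def Stmt_RZ : Prop := ∀ t : ℝ, (ph t * riemannZeta (1 / 2 + I * t)).im = 0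

/-- ZS: `ζ` is a finite sum on the window. -/
def Stmt_ZS : Prop := ∃ C T0 : ℝ, 0 < C ∧ 1 < T0 ∧ ∀ T t : ℝ, T0 ≤ T → T / 2 ≤ t → t ≤ 3 * T →
  ‖riemannZeta (1 / 2 + I * t) - ∑ n ∈ Icc 1 (N0 T), mo n t‖ ≤ C / Real.sqrt T

/-- KER: the kernel exists. -/
def Stmt_KER : Prop := ∃ (k : ℝ → ℂ) (ψ : ℝ → ℝ), IsKer k ψ

/-- AFE: the approximate functional equation by convolution. -/
def Stmt_AFE : Prop := ∀ (k : ℝ → ℂ) (ψ : ℝ → ℝ), IsKer k ψ → ∃ C T0 : ℝ, 0 < C ∧ 1 < T0 ∧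
  ∀ T t u : ℝ, T0 ≤ T → T ≤ t → t ≤ 2 * T → 0 ≤ u → u ≤ 1 →
    |Z (t + u) - 2 * (ph t * ∑ n ∈ Icc 1 (N0 T), mo n t *
      cexp (I * ((u * (dth t - Real.log n) : ℝ) : ℂ)) *
        (ψ ((dth t - Real.log n) / Real.log T) : ℂ)).re| ≤ C / Real.sqrt T

/-- ZC: `Z` is continuous. -/
def Stmt_ZC : Prop := Continuous Z

/-- JF: the formula for the short integral. -/
def Stmt_JF : Prop := ∀ (k : ℝ → ℂ) (ψ : ℝ → ℝ), IsKer k ψ → ∃ C T0 : ℝ, 0 < C ∧ 1 < T0 ∧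
  ∀ T t h : ℝ, T0 ≤ T → T ≤ t → t ≤ 2 * T → 0 ≤ h → h ≤ 1 →
    |J h t| ≤ 2 * ‖∑ n ∈ Icc 1 (N0 T), mo n t * GG ψ (Real.log T) h (dth t - Real.log n)‖ +
      C / Real.sqrt T

/-- FRZ: freezing `θ'(t)` and the mean value theorem. -/
def Stmt_FRZ : Prop := ∃ C T0 : ℝ, 0 < C ∧ 1 < T0 ∧
  ∀ (T Q : ℝ) (b : ℕ → ℂ) (Y : ℕ) (G G' : ℝ → ℂ), T0 ≤ T → 0 ≤ Q →
    (Y : ℝ) ≤ T ^ (1 / 20 : ℝ) → (∀ d, Y < d → b d = 0) →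
    (∀ y, HasDerivAt G (G' y) y) → Continuous G' →
    (∀ y : ℝ, y ≤ -(Real.log T / 20) → G y = 0) →
    (∀ y : ℝ, |y - Real.log T / 2| ≤ Real.log T / 100 →
      ∑ m ∈ Icc 1 ⌊T ^ (7 / 10 : ℝ)⌋₊,
        ‖∑ d ∈ m.divisors, b d * G (y - Real.log m + Real.log d)‖ ^ 2 / (m : ℝ) ≤ Q ∧
      ∑ m ∈ Icc 1 ⌊T ^ (7 / 10 : ℝ)⌋₊,
        ‖∑ d ∈ m.divisors, b d * G' (y - Real.log m + Real.log d)‖ ^ 2 / (m : ℝ) ≤ Q) →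
    ∫ t in T..(2 * T), ‖∑ n ∈ Icc 1 (N0 T), mo n t * G (dth t - Real.log n)‖ ^ 2 *
      ‖D b Y t‖ ^ 2 ≤ C * T * Q

/-- KF: the Fourier representation of the coefficients, for `G = GG ψ L h`. -/
def Stmt_KF : Prop := ∀ (k : ℝ → ℂ) (ψ : ℝ → ℝ), IsKer k ψ → ∀ L h : ℝ, 0 < L → 0 ≤ h →
  ∃ G' : ℝ → ℂ, (∀ y, HasDerivAt (GG ψ L h) (G' y) y) ∧ Continuous G' ∧
    (∀ y : ℝ, y ≤ -(L / 20) → GG ψ L h y = 0) ∧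
    ∀ (b : ℕ → ℂ) (y : ℝ) (m : ℕ), 1 ≤ m →
      ∑ d ∈ m.divisors, b d * GG ψ L h (y - Real.log m + Real.log d) =
        cc k L h b (fun _ => 1) y m ∧
      ∑ d ∈ m.divisors, b d * G' (y - Real.log m + Real.log d) =
        cc k L h b (fun v => I * (v : ℂ)) y m

/-- KF0: the same for `G(y) = ψ(y/L)`. -/
def Stmt_KF0 : Prop := ∀ (k : ℝ → ℂ) (ψ : ℝ → ℝ), IsKer k ψ → ∀ L : ℝ, 0 < L →
  ∃ G' : ℝ → ℂ, (∀ y : ℝ, HasDerivAt (fun y : ℝ => (ψ (y / L) : ℂ)) (G' y) y) ∧ Continuous G' ∧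
    ∀ (b : ℕ → ℂ) (y : ℝ) (m : ℕ), 1 ≤ m →
      ∑ d ∈ m.divisors, b d * (ψ ((y - Real.log m + Real.log d) / L) : ℂ) =
        cc0 k L b (fun _ => 1) y m ∧
      ∑ d ∈ m.divisors, b d * G' (y - Real.log m + Real.log d) =
        cc0 k L b (fun v => I * (v : ℂ)) y m

/-! ## Blocks: arithmetic -/

/-- PWR: the multinomial theorem. -/
def Stmt_PWR : Prop := ∀ (P : Finset ℕ), (∀ p ∈ P, p.Prime) → ∀ (m : ℕ) (t : ℝ),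
  (∑ p ∈ P, mo p t) ^ m = ∑ e ∈ SE P m, (((m.factorial : ℝ) * cf 1 e : ℝ) : ℂ) * mo e t

/-- CO1: the truncated exponential of a sum over primes. -/
def Stmt_CO1 : Prop := ∀ (P : Finset ℕ), (∀ p ∈ P, p.Prime) → ∀ (K : ℕ) (s t : ℝ),
  EP K ((s : ℂ) * ∑ p ∈ P, mo p t) = ∑ d ∈ SK P K, (cf s d : ℂ) * mo d t

/-- SKE: the diagonal sum. -/
def Stmt_SKE : Prop := ∀ (P : Finset ℕ), (∀ p ∈ P, p.Prime) → ∀ (K : ℕ) (r : ℝ), 0 ≤ r →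
  ∑ d ∈ SK P K, cf r d / (d : ℝ) ≤ Real.exp (r * ∑ p ∈ P, (1 / (p : ℝ)))

/-- MVP: the mean value of a product with unique factorisation. -/
def Stmt_MVP : Prop := ∀ (T : ℝ) (Y : ℕ) (A E : Finset ℕ) (a e : ℕ → ℂ), 0 < T → 1 ≤ Y →
  (∀ x ∈ A, ∀ y ∈ E, 1 ≤ x * y ∧ x * y ≤ Y) →
  (∀ x ∈ A, ∀ y ∈ E, ∀ x' ∈ A, ∀ y' ∈ E, x * y = x' * y' → x = x' ∧ y = y') →
  4 * (Y : ℝ) * (1 + Real.log Y) ≤ T →
    ∫ t in T..(2 * T), ‖∑ x ∈ A, a x * mo x t‖ ^ 2 * ‖∑ y ∈ E, e y * mo y t‖ ^ 2 ≤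
      2 * T * ((∑ x ∈ A, ‖a x‖ ^ 2 / (x : ℝ)) * ∑ y ∈ E, ‖e y‖ ^ 2 / (y : ℝ))

/-- CO: `M` and `N` are Dirichlet polynomials with coefficients `cM`, `cN`. -/
def Stmt_CO : Prop := ∀ (L : ℝ) (R : ℕ) (X lam : ℕ → ℝ), IsChain L R X lam →
  ∀ S ⊆ range R, ∀ Y : ℕ,
  Real.exp (∑ i ∈ S, (KK lam i : ℝ) * Real.log (X (i + 1))) ≤ Y →
    (∀ t, MM X lam S t = D (cM X lam S) Y t) ∧ (∀ t, NN X lam S t = D (cN X lam S) Y t) ∧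
      (∀ d, Y < d → cM X lam S d = 0) ∧ (∀ d, Y < d → cN X lam S d = 0)

/-- LOC1: the factorisation of `B_v(m)` over the blocks. -/
def Stmt_LOC1 : Prop := ∀ (L : ℝ) (R : ℕ) (X lam : ℕ → ℝ), IsChain L R X lam → ∀ j ≤ R,
  ∀ v : ℂ, ∀ m : ℕ, 1 ≤ m →
    B (cM X lam (range j)) v m = ∏ i ∈ range j, Bt X (KK lam i) i v m

/-- LOC2: the local majorant of one factor. -/
def Stmt_LOC2 : Prop := ∀ (X : ℕ → ℝ) (K i : ℕ) (v : ℂ) (m : ℕ) (x : ℝ), 1 < x → X (i + 1) ≤ x →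
  |v.im| ≤ 1 / Real.log x → 1 ≤ m →
    ‖Bt X K i v m‖ ^ 2 ≤ FF X i v m + Real.exp (-(K : ℝ)) * HH X i m

/-- LFP: the weight of the prime powers. -/
def Stmt_LFP : Prop := ∃ C : ℝ, 0 < C ∧ ∀ φ : ℕ → ℕ → ℝ, (∀ p a, 0 ≤ φ p a) →
  (∀ p a, φ p a ≤ 16 * Real.exp a) → (∀ p ≤ 100, ∀ a, φ p a ≤ 1) → ∀ w : ℝ, 1 ≤ w →
    ∑ p ∈ (Icc 1 ⌊w⌋₊).filter Nat.Prime, ∑ a ∈ (Icc 1 ⌊w⌋₊).filter (fun a => (p : ℝ) ^ a ≤ w),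
      φ p a * ((a : ℝ) * Real.log p) ≤ C * w

/-- LFE: the Euler product bound. -/
def Stmt_LFE : Prop := ∃ C : ℝ, 0 < C ∧ ∀ φ : ℕ → ℕ → ℝ, (∀ p a, 0 ≤ φ p a) →
  (∀ p a, φ p a ≤ 16 * Real.exp a) → (∀ p ≤ 100, ∀ a, φ p a ≤ 1) → ∀ z : ℝ, 2 ≤ z →
    ∑ m ∈ Icc 1 ⌊z⌋₊, (∏ p ∈ m.primeFactors, φ p (m.factorization p)) / (m : ℝ) ≤
      C * Real.exp (∑ p ∈ (Icc 1 ⌊z⌋₊).filter Nat.Prime, φ p 1 / (p : ℝ))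

/-- LF: upper bounds for sums of multiplicative functions. -/
def Stmt_LF : Prop := ∃ C : ℝ, 0 < C ∧ ∀ φ : ℕ → ℕ → ℝ, (∀ p a, 0 ≤ φ p a) →
  (∀ p a, φ p a ≤ 16 * Real.exp a) → (∀ p ≤ 100, ∀ a, φ p a ≤ 1) → ∀ z : ℝ, 2 ≤ z →
    (∑ m ∈ Icc 1 ⌊z⌋₊, ∏ p ∈ m.primeFactors, φ p (m.factorization p) ≤
      C * (z / Real.log z) *
        Real.exp (∑ p ∈ (Icc 1 ⌊z⌋₊).filter Nat.Prime, φ p 1 / (p : ℝ))) ∧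
    ∑ m ∈ Icc 1 ⌊z⌋₊, (∏ p ∈ m.primeFactors, φ p (m.factorization p)) / (m : ℝ) ≤
      C * Real.exp (∑ p ∈ (Icc 1 ⌊z⌋₊).filter Nat.Prime, φ p 1 / (p : ℝ))

/-- MER: Mertens upper bound. -/
def Stmt_MER : Prop := ∃ C : ℝ, ∀ z : ℝ, 2 ≤ z →
  ∑ p ∈ (Icc 1 ⌊z⌋₊).filter Nat.Prime, (1 / (p : ℝ)) ≤ Real.log (Real.log z) + C

/-- MERL: Mertens lower bound. -/
def Stmt_MERL : Prop := ∃ C : ℝ, ∀ z : ℝ, 2 ≤ z →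
  Real.log (Real.log z) - C ≤ ∑ p ∈ (Icc 1 ⌊z⌋₊).filter Nat.Prime, (1 / (p : ℝ))

/-- MER2: Mertens on an interval. -/
def Stmt_MER2 : Prop := ∃ C : ℝ, 0 < C ∧ ∀ z w : ℝ, 2 ≤ z → z ≤ w →
  ∑ p ∈ (Icc 1 ⌊w⌋₊).filter (fun p : ℕ => p.Prime ∧ z < (p : ℝ)), (1 / (p : ℝ)) ≤
    Real.log (Real.log w / Real.log z) + C

/-- MER1: Mertens' first theorem, upper bound. -/
def Stmt_MER1 : Prop := ∃ C : ℝ, ∀ z : ℝ, 1 ≤ z →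
  ∑ p ∈ (Icc 1 ⌊z⌋₊).filter Nat.Prime, (Real.log p / (p : ℝ)) ≤ Real.log z + C

/-- FV: the sum over the primes. -/
def Stmt_FV : Prop := ∃ C : ℝ, 0 < C ∧ ∀ X : ℝ, 100 ≤ X → ∀ v : ℂ, |v.im| ≤ 1 / Real.log X →
  ∑ p ∈ PA X, (‖1 - (p : ℂ) ^ (I * v) / 2‖ ^ 2 - 1) / (p : ℝ) ≤
    -(3 / 4) * Real.log (Real.log X) + 6 * Real.log (1 + |v.re| * Real.log X) + C

/-- MSB: the mean square of `B_v(m)`. -/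
def Stmt_MSB : Prop := ∃ C : ℝ, 0 < C ∧ ∀ (L : ℝ) (R : ℕ) (X lam : ℕ → ℝ), IsChain L R X lam →
  ∀ j ≤ R, ∀ v : ℂ, |v.im| ≤ 1 / Real.log (X j) →
    (∀ z : ℝ, X j ≤ z → ∑ m ∈ Icc 1 ⌊z⌋₊, ‖B (cM X lam (range j)) v m‖ ^ 2 ≤
      C * z * Real.log (X j) ^ (-(3 / 4) : ℝ) * (1 + |v.re| * Real.log (X j)) ^ 6) ∧
    ∑ m ∈ Icc 1 ⌊X j⌋₊, ‖B (cM X lam (range j)) v m‖ ^ 2 / (m : ℝ) ≤
      C * Real.log (X j) ^ (1 / 4 : ℝ) * (1 + |v.re| * Real.log (X j)) ^ 6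

/-- DB: the derivative by Cauchy's formula. -/
def Stmt_DB : Prop := ∀ (b : ℕ → ℂ) (v : ℂ) (m : ℕ) (r : ℝ), 0 < r →
  ‖B' b v m‖ ^ 2 ≤ 1 / r ^ 2 * (1 / (2 * Real.pi) *
    ∫ φ in (0 : ℝ)..(2 * Real.pi), ‖B b (v + r * cexp (I * φ)) m‖ ^ 2)

/-- WT: the weighted sum. -/
def Stmt_WT : Prop := ∃ C : ℝ, 0 < C ∧ ∀ (b : ℕ → ℝ) (β X L h x : ℝ) (M : ℕ), (∀ m, 0 ≤ b m) →
  0 ≤ β → 100 ≤ X → Real.log X ≤ L / 8 → 1 / L ≤ h → h ≤ 1 → |x - L / 2| ≤ L / 100 →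
  (∀ z : ℝ, X ≤ z → ∑ m ∈ Icc 1 ⌊z⌋₊, b m ≤ β * z) →
  (∑ m ∈ Icc 1 ⌊X⌋₊, b m / (m : ℝ) ≤ β * Real.log X) →
  ∑ m ∈ Icc 1 M, b m / ((m : ℝ) * (1 + h ^ 2 * (x - Real.log m) ^ 2)) ≤ C * β / h

/-- HP: the pointwise bound for an oscillating integral. -/
def Stmt_HP : Prop := ∀ (f f' : ℝ → ℂ) (h w : ℝ), (∀ u, HasDerivAt f (f' u) u) → Continuous f' →
  0 < h → (1 + h ^ 2 * w ^ 2) * ‖∫ u in (0 : ℝ)..h, cexp (I * ((u * w : ℝ) : ℂ)) * f u‖ ^ 2 ≤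
    h * (∫ u in (0 : ℝ)..h, ‖f u‖ ^ 2) +
      3 * h ^ 2 * (‖f 0‖ ^ 2 + ‖f h‖ ^ 2 + h * ∫ u in (0 : ℝ)..h, ‖f' u‖ ^ 2)

/-- CM: the diagonal sum of the twisted second moment. -/
def Stmt_CM : Prop := ∀ (k : ℝ → ℂ) (ψ : ℝ → ℝ), IsKer k ψ → ∃ C : ℝ, 0 < C ∧
  ∀ (L : ℝ) (R : ℕ) (X lam : ℕ → ℝ), 1 ≤ L → IsChain L R X lam → ∀ j ≤ R, ∀ h y : ℝ, ∀ M : ℕ,
    1 / L ≤ h → h ≤ 1 → h * Real.log (X j) ≤ 1 → Real.log (X j) ≤ L / 8 →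
    |y - L / 2| ≤ L / 100 →
      ∑ m ∈ Icc 1 M, ‖cc k L h (cM X lam (range j)) (fun _ => 1) y m‖ ^ 2 / (m : ℝ) ≤
        C * h * Real.log (X j) ^ (-(3 / 4) : ℝ) ∧
      ∑ m ∈ Icc 1 M, ‖cc k L h (cM X lam (range j)) (fun v => I * (v : ℂ)) y m‖ ^ 2 / (m : ℝ) ≤
        C * h * Real.log (X j) ^ (-(3 / 4) : ℝ)

/-- TW: the twisted second moment of the short integral. -/
def Stmt_TW : Prop := ∃ C T0 : ℝ, 0 < C ∧ 1 < T0 ∧ ∀ (T : ℝ) (R : ℕ) (X lam : ℕ → ℝ), T0 ≤ T →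
  IsChain (Real.log T) R X lam → ∀ j ≤ R, ∀ h : ℝ, 1 / Real.log T ≤ h → h ≤ 1 →
    h * Real.log (X j) ≤ 1 → Real.log (X j) ≤ Real.log T / 8 →
      ∫ t in T..(2 * T), |J h t| ^ 2 * ‖MM X lam (range j) t‖ ^ 2 ≤
        C * T * h * Real.log (X j) ^ (-(3 / 4) : ℝ)

/-- MO: the moments of `N` and `P`. -/
def Stmt_MO : Prop := ∃ C T0 : ℝ, 0 < C ∧ 1 < T0 ∧ ∀ (T : ℝ) (R : ℕ) (X lam : ℕ → ℝ), T0 ≤ T →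
  IsChain (Real.log T) R X lam → ∀ j ≤ R,
    (∫ t in T..(2 * T), ‖NN X lam (range j) t‖ ^ 2 ≤ C * T * Real.log (X j) ^ (1 / 4 : ℝ)) ∧
    (j < R → ∫ t in T..(2 * T), ‖NN X lam (range j) t‖ ^ 2 * ‖PP X j t‖ ^ (2 * mm lam j) ≤
      C * T * Real.log (X j) ^ (1 / 4 : ℝ) *
        (((mm lam j).factorial : ℝ) * lam j ^ (mm lam j)))

/-! ## Blocks: the chain and the end -/

/-- TR: truncated exponentials. -/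
def Stmt_TR : Prop := ∀ (K : ℕ) (z : ℂ), 1 ≤ K → ‖z‖ ≤ K / 10 →
  (1 - Real.exp (-(K : ℝ))) ^ 2 ≤ ‖EP K (-z)‖ * ‖EP K z‖

/-- TEL: the pointwise inequality. -/
def Stmt_TEL : Prop := ∀ (L : ℝ) (R : ℕ) (X lam : ℕ → ℝ), IsChain L R X lam → ∀ t : ℝ,
  1 ≤ 2 * (‖MM X lam (range R) t‖ * ‖NN X lam (range R) t‖) + 2 * ∑ j ∈ range R,
    ‖MM X lam (range j) t‖ * ‖NN X lam (range j) t‖ * (5 * ‖PP X j t‖ / (KK lam j : ℝ)) ^ (mm lam j)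

/-- MAIN: the main inequality for a chain with top `exp(1/h)`. -/
def Stmt_MAIN : Prop := ∃ C T0 : ℝ, 0 < C ∧ 1 < T0 ∧
  ∀ (T h : ℝ) (R : ℕ) (X lam : ℕ → ℝ), T0 ≤ T → IsChain (Real.log T) R X lam →
    X R = Real.exp (1 / h) → 1 / Real.log T ≤ h → h ≤ 1 → 1 / h ≤ Real.log T / 8 →
      ∫ t in T..(2 * T), |J h t| ≤ C * T * h ^ (3 / 4 : ℝ)

/-- PAR: the chain exists. -/
def Stmt_PAR : Prop := ∃ W0 L0 : ℝ, 8 ≤ W0 ∧ 1 < L0 ∧ ∀ L W : ℝ, L0 ≤ L → W0 ≤ W → W ≤ L / 5 →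
  ∃ (R : ℕ) (X lam : ℕ → ℝ), IsChain L R X lam ∧ X R = Real.exp (L / W) ∧
    ∑ j ∈ range R, Real.exp (-lam j) ≤ 1 / W

/-! ## Blocks: the lower bound for `∫ |Z|` -/

/-- CM0: the diagonal sum for `Z` itself. -/
def Stmt_CM0 : Prop := ∀ (k : ℝ → ℂ) (ψ : ℝ → ℝ), IsKer k ψ → ∃ C : ℝ, 0 < C ∧
  ∀ (L : ℝ) (R : ℕ) (X lam : ℕ → ℝ), 1 ≤ L → IsChain L R X lam → ∀ j ≤ R, ∀ y : ℝ, ∀ M : ℕ,
    Real.log (X j) ≤ L → Real.log M ≤ L →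
      ∑ m ∈ Icc 1 M, ‖cc0 k L (cM X lam (range j)) (fun _ => 1) y m‖ ^ 2 / (m : ℝ) ≤
        C * L * Real.log (X j) ^ (-(3 / 4) : ℝ) ∧
      ∑ m ∈ Icc 1 M, ‖cc0 k L (cM X lam (range j)) (fun v => I * (v : ℂ)) y m‖ ^ 2 / (m : ℝ) ≤
        C * L * Real.log (X j) ^ (-(3 / 4) : ℝ)

/-- TW0: the twisted second moment of `Z`. -/
def Stmt_TW0 : Prop := ∃ C T0 : ℝ, 0 < C ∧ 1 < T0 ∧ ∀ (T : ℝ) (R : ℕ) (X lam : ℕ → ℝ), T0 ≤ T →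
  IsChain (Real.log T) R X lam → ∀ j ≤ R, Real.log (X j) ≤ Real.log T / 8 →
      ∫ t in T..(2 * T), |Z t| ^ 2 * ‖MM X lam (range j) t‖ ^ 2 ≤
        C * T * Real.log T * Real.log (X j) ^ (-(3 / 4) : ℝ)

/-- MO2: the moments of `N_R` and `P_j`. -/
def Stmt_MO2 : Prop := ∃ C T0 : ℝ, 0 < C ∧ 1 < T0 ∧ ∀ (T : ℝ) (R : ℕ) (X lam : ℕ → ℝ), T0 ≤ T →
  IsChain (Real.log T) R X lam → ∀ j < R,
    ∫ t in T..(2 * T), ‖NN X lam (range R) t‖ ^ 2 * ‖PP X j t‖ ^ (2 * mm lam j) ≤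
      C * T * Real.log (X R) ^ (1 / 4 : ℝ) * Real.exp (lam j / 2) *
        (((mm lam j).factorial : ℝ) * (2 * lam j) ^ (mm lam j))

/-- TF: the twisted first moment. -/
def Stmt_TF : Prop := ∃ C T0 : ℝ, 0 < C ∧ 1 < T0 ∧ ∀ (T : ℝ) (R : ℕ) (X lam : ℕ → ℝ), T0 ≤ T →
  IsChain (Real.log T) R X lam → ∀ Y : ℕ, T ^ (1 / 30 : ℝ) ≤ Y → (Y : ℝ) ≤ T ^ (1 / 20 : ℝ) →
    ‖(∫ t in T..(2 * T), riemannZeta (1 / 2 + I * t) * MM X lam (range R) t *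
        (starRingEnd ℂ) (NN X lam (range R) t)) -
      T * ∑ n ∈ Icc 1 Y, cN X lam (range R) n * B (cM X lam (range R)) 0 n / (n : ℂ)‖ ≤ C * T ^ (9 / 10 : ℝ)

/-- DL: the diagonal of the twisted first moment. -/
def Stmt_DL : Prop := ∃ c : ℝ, 0 < c ∧ ∀ (L : ℝ) (R : ℕ) (X lam : ℕ → ℝ), IsChain L R X lam →
  ∀ Y : ℕ, Real.exp (∑ i ∈ range R, (KK lam i : ℝ) * Real.log (X (i + 1))) ≤ Y →
    c * Real.log (X R) ^ (1 / 4 : ℝ) ≤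
      (∑ n ∈ Icc 1 Y, cN X lam (range R) n * B (cM X lam (range R)) 0 n / (n : ℂ)).re

/-- TU: the pointwise upper bound. -/
def Stmt_TU : Prop := ∀ (L : ℝ) (R : ℕ) (X lam : ℕ → ℝ), IsChain L R X lam → ∀ t : ℝ,
  ‖MM X lam (range R) t‖ * ‖NN X lam (range R) t‖ ≤ 2 + ∑ j ∈ range R,
    ‖MM X lam (range R) t‖ * ‖NN X lam (range R) t‖ * (5 * ‖PP X j t‖ / (KK lam j : ℝ)) ^ (mm lam j)

/-- LBF: the lower bound for the first moment. -/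
def Stmt_LBF : Prop := ∃ c T0 : ℝ, 0 < c ∧ 1 < T0 ∧ ∀ T : ℝ, T0 ≤ T →
  c * T * Real.log T ^ (1 / 4 : ℝ) ≤ ∫ t in T..(2 * T), |Z t|

/-! ## The final statements -/

/-- FINA: the first moment of short integrals. -/
def Stmt_FINA : Prop := ∃ C T0 W0 : ℝ, 0 < C ∧ 1 < T0 ∧ 0 < W0 ∧
  ∀ T h : ℝ, T0 ≤ T → W0 / Real.log T ≤ h → h ≤ 1 / 5 →
    ∫ t in T..(2 * T), |J h t| ≤ C * T * h ^ (3 / 4 : ℝ)

/-- points at distance at least `h` from every sign change -/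
def Far (h u : ℝ) : Prop :=
  (∀ x : ℝ, |x - u| < h → 0 ≤ Z x) ∨ (∀ x : ℝ, |x - u| < h → Z x ≤ 0)

/-- FINB: the points far from the sign changes. -/
def Stmt_FINB : Prop := ∃ C T0 W0 : ℝ, 0 < C ∧ 1 < T0 ∧ 0 < W0 ∧
  ∀ T h : ℝ, T0 ≤ T → W0 / Real.log T ≤ h → h ≤ 1 / 5 →
    ∫ t in {u | u ∈ Set.Icc T (2 * T) ∧ Far h u}, |Z t| ≤ C * T * h ^ (-(1 / 4) : ℝ)

/-- `I_+(t,h)`: the integral of `Z` over the part of `[t,t+h]` where `Z > 0` -/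
def Ip (t h : ℝ) : ℝ := ∫ u in t..(t + h), max (Z u) 0

/-- `I_-(t,h)`: the integral of `Z` over the part of `[t,t+h]` where `Z < 0` -/
def Im (t h : ℝ) : ℝ := ∫ u in t..(t + h), min (Z u) 0

/-- FINC: balance of the positive and the negative part in short windows. -/
def Stmt_FINC : Prop := ∃ C T0 W0 : ℝ, 0 < C ∧ 1 < T0 ∧ 0 < W0 ∧
  ∀ T h : ℝ, T0 ≤ T → W0 / Real.log T ≤ h → h ≤ 1 / 5 →
    ∫ t in T..(2 * T), |Ip t h + Im t h| ≤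
      C * (h * Real.log T) ^ (-(1 / 4) : ℝ) * ∫ t in T..(2 * T), (Ip t h - Im t h)

/-- FIND: the points far from the sign changes carry little mass. -/
def Stmt_FIND : Prop := ∃ C T0 W0 : ℝ, 0 < C ∧ 1 < T0 ∧ 0 < W0 ∧
  ∀ T h : ℝ, T0 ≤ T → W0 / Real.log T ≤ h → h ≤ 1 / 5 →
    ∫ t in {u | u ∈ Set.Icc T (2 * T) ∧ Far h u}, |Z t| ≤
      C * (h * Real.log T) ^ (-(1 / 4) : ℝ) * ∫ t in T..(2 * T), |Z t|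

end

end HZS
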