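import Mathlib
import Pool.Agent.Work.MP_c51bc2_nt.Interface

open Finset Complex MeasureTheory

namespace HZS

lemma DB_hasDeriv (b : ℕ → ℂ) (v : ℂ) (m : ℕ) :
    HasDerivAt (fun w : ℂ => B b w m) (B' b v m) v := by
  unfold B B'
  refine HasDerivAt.fun_sum (fun d hd => ?_)
  have hd0 : d ≠ 0 := (Nat.pos_of_mem_divisors hd).ne'
  have hdc : (d : ℂ) ≠ 0 := by exact_mod_cast hd0
  have h1 : HasDerivAt (fun w : ℂ => I * w) I v := by
    simpa using (hasDerivAt_id v).const_mul I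
  have h2 := (h1.const_cpow (c := (d : ℂ)) (Or.inl hdc)).const_mul (b d)
  have h3 : b d * (I * (Real.log d : ℂ)) * (d : ℂ) ^ (I * v) =
      b d * ((d : ℂ) ^ (I * v) * Complex.log d * I) := by
    rw [Complex.ofReal_log (by positivity), Complex.ofReal_natCast]
    ring
  rw [h3]
  exact h2

lemma DB_cs (g : ℝ → ℝ) (hg : Continuous g) :
    (∫ x in (0 : ℝ)..(2 * Real.pi), g x) ^ 2 ≤
      2 * Real.pi * ∫ x in (0 : ℝ)..(2 * Real.pi), g x ^ 2 := by
  have hpi := Real.pi_pos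
  set c : ℝ := (∫ x in (0 : ℝ)..(2 * Real.pi), g x) / (2 * Real.pi) with hc
  have h0 : 0 ≤ ∫ x in (0 : ℝ)..(2 * Real.pi), (g x - c) ^ 2 :=
    intervalIntegral.integral_nonneg (by positivity) (fun x _ => sq_nonneg _)
  have h1 : ∫ x in (0 : ℝ)..(2 * Real.pi), (g x - c) ^ 2 =
      (∫ x in (0 : ℝ)..(2 * Real.pi), g x ^ 2) -
        2 * c * (∫ x in (0 : ℝ)..(2 * Real.pi), g x) + 2 * Real.pi * c ^ 2 := by
    have e1 : ∀ x, (g x - c) ^ 2 = (g x ^ 2 - 2 * c * g x) + c ^ 2 := fun x => by ring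
    simp only [e1]
    rw [intervalIntegral.integral_add, intervalIntegral.integral_sub,
      intervalIntegral.integral_const_mul, intervalIntegral.integral_const]
    · simp
    · exact (hg.pow 2).intervalIntegrable _ _
    · exact (continuous_const.mul hg).intervalIntegrable _ _
    · exact ((hg.pow 2).sub (continuous_const.mul hg)).intervalIntegrable _ _
    · exact continuous_const.intervalIntegrable _ _
  rw [h1] at h0
  have h2 : ∫ x in (0 : ℝ)..(2 * Real.pi), g x = 2 * Real.pi * c := by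
    rw [hc]; field_simp
  rw [h2] at h0 ⊢
  nlinarith

theorem stmt_DB : Stmt_DB := by
  intro b v m r hr
  have hpi := Real.pi_pos
  have hdiff : Differentiable ℂ (fun w : ℂ => B b w m) :=
    fun w => (DB_hasDeriv b w m).differentiableAt
  have h1 : cderiv r (fun w : ℂ => B b w m) v = B' b v m := by
    rw [cderiv_eq_deriv isOpen_univ hdiff.differentiableOn hr (Set.subset_univ _)]
    exact (DB_hasDeriv b v m).deriv
  have hcirc : ∀ φ : ℝ, circleMap v r φ = v + r * cexp (I * φ) := by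
    intro φ
    rw [circleMap, mul_comm (φ : ℂ) I]
  have hcont : Continuous (fun φ : ℝ => ‖B b (v + r * cexp (I * φ)) m‖) := by
    refine (hdiff.continuous.comp ?_).norm
    fun_prop
  have h2 : ‖B' b v m‖ ≤ 1 / (2 * Real.pi * r) *
      ∫ φ in (0 : ℝ)..(2 * Real.pi), ‖B b (v + r * cexp (I * φ)) m‖ := by
    rw [← h1, cderiv, norm_smul]
    have e1 : ‖(2 * Real.pi * I : ℂ)⁻¹‖ = 1 / (2 * Real.pi) := by
      rw [norm_inv]
      simp [abs_of_pos hpi]
    rw [e1, circleIntegral]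
    have e2 : ‖∫ θ in (0 : ℝ)..(2 * Real.pi), deriv (circleMap v r) θ •
        (((circleMap v r θ - v) ^ 2)⁻¹ • B b (circleMap v r θ) m)‖ ≤
        ∫ θ in (0 : ℝ)..(2 * Real.pi), 1 / r * ‖B b (v + r * cexp (I * θ)) m‖ := by
      refine (intervalIntegral.norm_integral_le_integral_norm (by positivity)).trans ?_
      refine le_of_eq (intervalIntegral.integral_congr (fun θ _ => ?_))
      show ‖deriv (circleMap v r) θ • (((circleMap v r θ - v) ^ 2)⁻¹ •
        B b (circleMap v r θ) m)‖ = 1 / r * ‖B b (v + r * cexp (I * θ)) m‖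
      rw [norm_smul, norm_smul, deriv_circleMap, norm_mul, norm_circleMap_zero, norm_I, mul_one,
        norm_inv, norm_pow, circleMap_sub_center, norm_circleMap_zero, abs_of_pos hr, hcirc]
      field_simp
    rw [intervalIntegral.integral_const_mul] at e2
    calc 1 / (2 * Real.pi) * ‖∫ θ in (0 : ℝ)..(2 * Real.pi), deriv (circleMap v r) θ •
        (((circleMap v r θ - v) ^ 2)⁻¹ • B b (circleMap v r θ) m)‖ ≤
        1 / (2 * Real.pi) * (1 / r *
          ∫ φ in (0 : ℝ)..(2 * Real.pi), ‖B b (v + r * cexp (I * φ)) m‖) :=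
          mul_le_mul_of_nonneg_left e2 (by positivity)
      _ = 1 / (2 * Real.pi * r) *
          ∫ φ in (0 : ℝ)..(2 * Real.pi), ‖B b (v + r * cexp (I * φ)) m‖ := by
          field_simp
  have h3 := DB_cs _ hcont
  have h4 : 0 ≤ ∫ φ in (0 : ℝ)..(2 * Real.pi), ‖B b (v + r * cexp (I * φ)) m‖ :=
    intervalIntegral.integral_nonneg (by positivity) (fun x _ => norm_nonneg _)
  calc ‖B' b v m‖ ^ 2 ≤ (1 / (2 * Real.pi * r) *
      ∫ φ in (0 : ℝ)..(2 * Real.pi), ‖B b (v + r * cexp (I * φ)) m‖) ^ 2 :=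
        pow_le_pow_left₀ (norm_nonneg _) h2 2
    _ = (1 / (2 * Real.pi * r)) ^ 2 *
      (∫ φ in (0 : ℝ)..(2 * Real.pi), ‖B b (v + r * cexp (I * φ)) m‖) ^ 2 := by ring
    _ ≤ (1 / (2 * Real.pi * r)) ^ 2 * (2 * Real.pi *
      ∫ φ in (0 : ℝ)..(2 * Real.pi), ‖B b (v + r * cexp (I * φ)) m‖ ^ 2) :=
        mul_le_mul_of_nonneg_left h3 (by positivity)
    _ = 1 / r ^ 2 * (1 / (2 * Real.pi) *
      ∫ φ in (0 : ℝ)..(2 * Real.pi), ‖B b (v + r * cexp (I * φ)) m‖ ^ 2) := by
        field_simp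

end HZS
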