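import Pool.Agent.Work.MP_c51bc2_nt.Interface

/-!
# Block DL (MP_c51bc2_nt): the diagonal of the twisted first moment

Written by helper55.
-/

open Finset Complex MeasureTheory

namespace HZS

/-! ### The divisor sum -/

/-- the partial sums of the exponential series -/
noncomputable def DL_e (s : ℝ) (k : ℕ) : ℝ := ∑ a ∈ range (k + 1), s ^ a / (a.factorial : ℝ)

lemma DL_cf (s : ℝ) (n : ℕ) :
    cf s n = n.factorization.prod (fun _ a => s ^ a / (a.factorial : ℝ)) := rfl

/-- `cf` as an arithmetic function -/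
noncomputable def DL_F (s : ℝ) : ArithmeticFunction ℝ :=
  ⟨fun n => if n = 0 then 0 else cf s n, by simp⟩

lemma DL_F_apply (s : ℝ) {n : ℕ} (hn : n ≠ 0) : DL_F s n = cf s n := by
  change (if n = 0 then 0 else cf s n) = cf s n
  rw [if_neg hn]

lemma DL_F_mul (s : ℝ) : (DL_F s).IsMultiplicative := by
  rw [ArithmeticFunction.IsMultiplicative.iff_ne_zero]
  refine ⟨?_, ?_⟩
  · rw [DL_F_apply s one_ne_zero]
    simp [cf]
  · intro m n hm hn hmn
    rw [DL_F_apply s (mul_ne_zero hm hn), DL_F_apply s hm, DL_F_apply s hn, DL_cf, DL_cf, DL_cf,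
      Nat.factorization_mul_of_coprime hmn]
    apply Finsupp.prod_add_index_of_disjoint
    rw [Nat.support_factorization, Nat.support_factorization]
    exact hmn.disjoint_primeFactors

lemma DL_F_pow (s : ℝ) {p : ℕ} (hp : p.Prime) (k : ℕ) :
    DL_F s (p ^ k) = s ^ k / (k.factorial : ℝ) := by
  rw [DL_F_apply s (pow_ne_zero _ hp.ne_zero), DL_cf, hp.factorization_pow,
    Finsupp.prod_single_index (by simp)]

lemma DL_div (s : ℝ) {n : ℕ} (hn : n ≠ 0) :
    ∑ d ∈ n.divisors, cf s d = ∏ p ∈ n.primeFactors, DL_e s (n.factorization p) := by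
  have h1 : ((DL_F s * (ArithmeticFunction.zeta : ArithmeticFunction ℝ)) n) =
      ∑ d ∈ n.divisors, cf s d := by
    rw [ArithmeticFunction.coe_mul_zeta_apply]
    apply Finset.sum_congr rfl
    intro d hd
    exact DL_F_apply s (Nat.pos_of_mem_divisors hd).ne'
  have h2 : (DL_F s * (ArithmeticFunction.zeta : ArithmeticFunction ℝ)).IsMultiplicative :=
    (DL_F_mul s).mul ArithmeticFunction.isMultiplicative_zeta.natCast
  rw [← h1, h2.multiplicative_factorization _ hn, Finsupp.prod, Nat.support_factorization]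
  apply Finset.prod_congr rfl
  intro p hp
  have hpp := Nat.prime_of_mem_primeFactors hp
  rw [ArithmeticFunction.coe_mul_zeta_apply, Nat.sum_divisors_prime_pow hpp]
  unfold DL_e
  apply Finset.sum_congr rfl
  intro a _
  exact DL_F_pow s hpp a

lemma DL_e_nonneg (k : ℕ) : 0 ≤ DL_e (-1 / 2) k := by
  have h1 : ∀ k : ℕ, 1 / 4 + (1 / 2 : ℝ) ^ (k + 2) ≤ DL_e (-1 / 2) (k + 1) := by
    intro k
    induction k with
    | zero =>
      unfold DL_e
      norm_num [Finset.sum_range_succ]
    | succ k ih =>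
      have h2 : DL_e (-1 / 2) (k + 1 + 1) =
          DL_e (-1 / 2) (k + 1) + (-1 / 2 : ℝ) ^ (k + 2) / ((k + 2).factorial : ℝ) := by
        unfold DL_e
        rw [Finset.sum_range_succ]
      rw [h2]
      have h3 : -((1 / 2 : ℝ) ^ (k + 2) / 2) ≤ (-1 / 2 : ℝ) ^ (k + 2) / ((k + 2).factorial : ℝ) := by
        have h4 : |(-1 / 2 : ℝ) ^ (k + 2) / ((k + 2).factorial : ℝ)| ≤ (1 / 2 : ℝ) ^ (k + 2) / 2 := by
          rw [abs_div, abs_pow, Nat.abs_cast]
          have h5 : |(-1 / 2 : ℝ)| = 1 / 2 := by norm_num [abs_div]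
          rw [h5]
          have h6 : (2 : ℝ) ≤ ((k + 2).factorial : ℝ) := by
            have : 2 ≤ (k + 2).factorial := by
              calc 2 ≤ k + 2 := by omega
                _ ≤ (k + 2).factorial := Nat.self_le_factorial _
            exact_mod_cast this
          gcongr
        exact (abs_le.1 h4).1
      have h7 : (1 / 2 : ℝ) ^ (k + 1 + 2) = (1 / 2 : ℝ) ^ (k + 2) / 2 := by ring
      rw [h7]
      linarith
  cases k with
  | zero =>
    unfold DL_e
    norm_num
  | succ k =>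
    have h2 := h1 k
    have h3 : (0 : ℝ) ≤ (1 / 2 : ℝ) ^ (k + 2) := by positivity
    linarith

lemma DL_Okd_dvd {X lam : ℕ → ℝ} {S : Finset ℕ} {n d : ℕ} (hn : Okd X lam S n) (hd : d ∣ n) :
    Okd X lam S d := by
  obtain ⟨h0, h1, h2⟩ := hn
  have hd0 : d ≠ 0 := fun h => h0 (by rw [h] at hd; exact Nat.eq_zero_of_zero_dvd hd)
  refine ⟨hd0, ?_, ?_⟩
  · intro p hp
    exact h1 p (Nat.primeFactors_mono hd h0 hp)
  · intro i hi
    refine le_trans ?_ (h2 i hi)
    apply Finset.sum_le_sum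
    intro p _
    exact (Nat.factorization_le_iff_dvd hd0 h0).2 hd p

lemma DL_B {X lam : ℕ → ℝ} {S : Finset ℕ} {n : ℕ} (hn : Okd X lam S n) :
    B (cM X lam S) 0 n =
      ((∏ p ∈ n.primeFactors, DL_e (-1 / 2) (n.factorization p) : ℝ) : ℂ) := by
  rw [← DL_div (-1 / 2) hn.1]
  unfold B
  push_cast
  apply Finset.sum_congr rfl
  intro d hd
  rw [mul_zero, Complex.cpow_zero, mul_one]
  unfold cM
  rw [if_pos (DL_Okd_dvd hn (Nat.dvd_of_mem_divisors hd))]

/-- the real term -/
noncomputable def DL_g (n : ℕ) : ℝ :=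
  cf (1 / 2) n * (∏ p ∈ n.primeFactors, DL_e (-1 / 2) (n.factorization p)) / n

lemma DL_g_nonneg (n : ℕ) : 0 ≤ DL_g n := by
  unfold DL_g
  have h1 : 0 ≤ cf (1 / 2) n := by
    unfold cf
    apply Finset.prod_nonneg
    intro p _
    positivity
  have h2 : 0 ≤ ∏ p ∈ n.primeFactors, DL_e (-1 / 2) (n.factorization p) :=
    Finset.prod_nonneg fun p _ => DL_e_nonneg _
  positivity

lemma DL_term {X lam : ℕ → ℝ} {S : Finset ℕ} {n : ℕ} (hn : Okd X lam S n) :
    (cN X lam S n * B (cM X lam S) 0 n / (n : ℂ)).re = DL_g n := by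
  rw [DL_B hn]
  unfold cN
  rw [if_pos hn]
  unfold DL_g
  rw [← Complex.ofReal_mul, ← Complex.ofReal_natCast, ← Complex.ofReal_div, Complex.ofReal_re]

lemma DL_term' {X lam : ℕ → ℝ} {S : Finset ℕ} {n : ℕ} (hn : ¬ Okd X lam S n) :
    (cN X lam S n * B (cM X lam S) 0 n / (n : ℂ)).re = 0 := by
  unfold cN
  rw [if_neg hn]
  simp

lemma DL_g_prod {T : Finset ℕ} (hT : ∀ p ∈ T, p.Prime) :
    DL_g (∏ p ∈ T, p) = ∏ p ∈ T, (1 / (4 * (p : ℝ))) := by
  have h1 : (∏ p ∈ T, p).primeFactors = T := Nat.primeFactors_prod hT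
  have h2 : ∀ p ∈ T, (∏ p ∈ T, p).factorization p = 1 := by
    intro p hp
    rw [Nat.factorization_prod_apply (fun q hq => (hT q hq).ne_zero)]
    rw [Finset.sum_eq_single p]
    · exact (hT p hp).factorization_self
    · intro q hq hqp
      rw [(hT q hq).factorization]
      exact Finsupp.single_eq_of_ne (Ne.symm hqp)
    · intro h
      exact absurd hp h
  unfold DL_g cf
  rw [h1]
  have h3 : ∏ p ∈ T, (1 / 2 : ℝ) ^ ((∏ p ∈ T, p).factorization p) /
      (((∏ p ∈ T, p).factorization p).factorial : ℝ) = ∏ p ∈ T, (1 / 2 : ℝ) := by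
    apply Finset.prod_congr rfl
    intro p hp
    rw [h2 p hp]
    norm_num
  have h4 : ∏ p ∈ T, DL_e (-1 / 2) ((∏ p ∈ T, p).factorization p) = ∏ p ∈ T, (1 / 2 : ℝ) := by
    apply Finset.prod_congr rfl
    intro p hp
    rw [h2 p hp]
    unfold DL_e
    norm_num [Finset.sum_range_succ]
  rw [h3, h4]
  push_cast
  rw [← Finset.prod_mul_distrib, ← Finset.prod_div_distrib]
  apply Finset.prod_congr rfl
  intro p hp
  have : (p : ℝ) ≠ 0 := by exact_mod_cast (hT p hp).ne_zero
  field_simp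
  norm_num

/-! ### The combinatorial inequality -/

lemma DL_comb (P : Finset ℕ) (x : ℕ → ℝ) (hx : ∀ p, 0 ≤ x p) (R : ℕ) (Bk : ℕ → Finset ℕ)
    (K : ℕ → ℕ) (lam : ℕ → ℝ) (hs : ∀ i ∈ range R, ∑ p ∈ Bk i, x p ≤ lam i / 4)
    (hK : ∀ i ∈ range R, 50 * lam i ≤ K i) (hl : ∀ i ∈ range R, 0 ≤ lam i)
    (hsum : ∑ i ∈ range R, Real.exp (-lam i) ≤ 1 / 8) :
    7 / 8 * ∏ p ∈ P, (1 + x p) ≤
      ∑ T ∈ P.powerset.filter (fun T => ∀ i ∈ range R, (T ∩ Bk i).card ≤ K i),
        ∏ p ∈ T, x p := by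
  set A : ℝ := ∏ p ∈ P, (1 + x p) with hA
  have hA0 : 0 ≤ A := Finset.prod_nonneg fun p _ => by linarith [hx p]
  have hAeq : A = ∑ T ∈ P.powerset, ∏ p ∈ T, x p := by
    rw [hA, Finset.prod_one_add]
  have hxT : ∀ T : Finset ℕ, 0 ≤ ∏ p ∈ T, x p := fun T => Finset.prod_nonneg fun p _ => hx p
  rw [← Finset.sum_filter_add_sum_filter_not P.powerset
    (fun T => ∀ i ∈ range R, (T ∩ Bk i).card ≤ K i)] at hAeq
  -- one block
  have hblock : ∀ i ∈ range R, ∑ T ∈ P.powerset,
      Real.exp (((T ∩ Bk i).card : ℝ) - K i) * ∏ p ∈ T, x p ≤ Real.exp (-lam i) * A := by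
    intro i hi
    have h1 : ∀ T ∈ P.powerset, Real.exp (((T ∩ Bk i).card : ℝ) - K i) * ∏ p ∈ T, x p =
        Real.exp (-(K i : ℝ)) * ∏ p ∈ T, ((if p ∈ Bk i then Real.exp 1 else 1) * x p) := by
      intro T _
      rw [Finset.prod_mul_distrib, Finset.prod_ite_mem, Finset.prod_const, ← Real.exp_nat_mul,
        mul_one, sub_eq_add_neg, Real.exp_add]
      ring
    rw [Finset.sum_congr rfl h1, ← Finset.mul_sum, ← Finset.prod_one_add]
    have h2 : ∏ p ∈ P, (1 + (if p ∈ Bk i then Real.exp 1 else 1) * x p) ≤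
        A * Real.exp (lam i) := by
      calc ∏ p ∈ P, (1 + (if p ∈ Bk i then Real.exp 1 else 1) * x p)
          ≤ ∏ p ∈ P, ((1 + x p) * (if p ∈ Bk i then Real.exp (Real.exp 1 * x p) else 1)) := by
            apply Finset.prod_le_prod
            · intro p _
              have := hx p
              split_ifs
              · have := Real.exp_pos 1
                positivity
              · linarith
            · intro p _
              have h0 := hx p
              split_ifs
              · have h3 : 1 + Real.exp 1 * x p ≤ Real.exp (Real.exp 1 * x p) := by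
                  have := Real.add_one_le_exp (Real.exp 1 * x p)
                  linarith
                have h4 : 0 ≤ Real.exp (Real.exp 1 * x p) := (Real.exp_pos _).le
                nlinarith
              · linarith
        _ = A * ∏ p ∈ P ∩ Bk i, Real.exp (Real.exp 1 * x p) := by
            rw [Finset.prod_mul_distrib, Finset.prod_ite_mem]
        _ ≤ A * Real.exp (lam i) := by
            apply mul_le_mul_of_nonneg_left _ hA0
            rw [← Real.exp_sum, ← Finset.mul_sum]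
            apply Real.exp_le_exp.2
            have h5 : ∑ p ∈ P ∩ Bk i, x p ≤ ∑ p ∈ Bk i, x p :=
              Finset.sum_le_sum_of_subset_of_nonneg Finset.inter_subset_right fun p _ _ => hx p
            have h6 := hs i hi
            have h7 := hl i hi
            have h8 : Real.exp 1 < 2.7182818286 := Real.exp_one_lt_d9
            have h9 : 0 ≤ ∑ p ∈ P ∩ Bk i, x p := Finset.sum_nonneg fun p _ => hx p
            calc Real.exp 1 * ∑ p ∈ P ∩ Bk i, x p ≤ 4 * (lam i / 4) := by
                  apply mul_le_mul (by linarith) (h5.trans h6) h9 (by norm_num)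
              _ = lam i := by ring
    calc Real.exp (-(K i : ℝ)) * ∏ p ∈ P, (1 + (if p ∈ Bk i then Real.exp 1 else 1) * x p)
        ≤ Real.exp (-(K i : ℝ)) * (A * Real.exp (lam i)) := by gcongr
      _ = Real.exp (-(K i : ℝ) + lam i) * A := by
          rw [Real.exp_add]
          ring
      _ ≤ Real.exp (-lam i) * A := by
          apply mul_le_mul_of_nonneg_right _ hA0
          apply Real.exp_le_exp.2
          have := hK i hi
          have := hl i hi
          linarith
  -- the bad sets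
  have hbad : ∑ T ∈ P.powerset.filter (fun T => ¬ ∀ i ∈ range R, (T ∩ Bk i).card ≤ K i),
      ∏ p ∈ T, x p ≤ 1 / 8 * A := by
    calc ∑ T ∈ P.powerset.filter (fun T => ¬ ∀ i ∈ range R, (T ∩ Bk i).card ≤ K i),
          ∏ p ∈ T, x p
        ≤ ∑ T ∈ P.powerset.filter (fun T => ¬ ∀ i ∈ range R, (T ∩ Bk i).card ≤ K i),
          ∑ i ∈ range R, Real.exp (((T ∩ Bk i).card : ℝ) - K i) * ∏ p ∈ T, x p := by
          apply Finset.sum_le_sum
          intro T hT
          have h1 := (Finset.mem_filter.1 hT).2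
          push Not at h1
          obtain ⟨i, hi, hlt⟩ := h1
          have h2 : (1 : ℝ) ≤ Real.exp (((T ∩ Bk i).card : ℝ) - K i) := by
            apply Real.one_le_exp
            have : (K i : ℝ) ≤ ((T ∩ Bk i).card : ℝ) := by exact_mod_cast hlt.le
            linarith
          calc ∏ p ∈ T, x p ≤ Real.exp (((T ∩ Bk i).card : ℝ) - K i) * ∏ p ∈ T, x p := by
                have := hxT T
                nlinarith
            _ ≤ ∑ i ∈ range R, Real.exp (((T ∩ Bk i).card : ℝ) - K i) * ∏ p ∈ T, x p :=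
                Finset.single_le_sum (f := fun i => Real.exp (((T ∩ Bk i).card : ℝ) - K i) *
                  ∏ p ∈ T, x p) (fun j _ => mul_nonneg (Real.exp_pos _).le (hxT T)) hi
      _ ≤ ∑ T ∈ P.powerset,
          ∑ i ∈ range R, Real.exp (((T ∩ Bk i).card : ℝ) - K i) * ∏ p ∈ T, x p := by
          apply Finset.sum_le_sum_of_subset_of_nonneg (Finset.filter_subset _ _)
          intro T _ _
          exact Finset.sum_nonneg fun j _ => mul_nonneg (Real.exp_pos _).le (hxT T)
      _ = ∑ i ∈ range R, ∑ T ∈ P.powerset,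
          Real.exp (((T ∩ Bk i).card : ℝ) - K i) * ∏ p ∈ T, x p := Finset.sum_comm
      _ ≤ ∑ i ∈ range R, Real.exp (-lam i) * A := Finset.sum_le_sum hblock
      _ = (∑ i ∈ range R, Real.exp (-lam i)) * A := by rw [Finset.sum_mul]
      _ ≤ 1 / 8 * A := mul_le_mul_of_nonneg_right hsum hA0
  linarith

/-! ### The product -/

lemma DL_chain_ge {L : ℝ} {R : ℕ} {X lam : ℕ → ℝ} (h : IsChain L R X lam) :
    ∀ j ≤ R, 100 ≤ X j := by
  intro j
  induction j with
  | zero =>
    intro _
    rw [h.x0]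
  | succ j ih =>
    intro hj
    have h1 := ih (by omega)
    have h2 := h.mono j (by omega)
    linarith

lemma DL_cover {L : ℝ} {R : ℕ} {X lam : ℕ → ℝ} (h : IsChain L R X lam) :
    PA (X R) ⊆ (range R).biUnion (PB X) := by
  have key : ∀ j ≤ R, PA (X j) ⊆ (range j).biUnion (PB X) := by
    intro j
    induction j with
    | zero =>
      intro _ p hp
      exfalso
      unfold PA at hp
      rw [Finset.mem_filter, Finset.mem_Icc, h.x0] at hp
      have h1 : (p : ℝ) ≤ 100 := by
        have h2 := hp.1.2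
        have h3 : p ≤ 100 := by
          refine h2.trans ?_
          norm_num
        exact_mod_cast h3
      linarith [hp.2.2]
    | succ j ih =>
      intro hj p hp
      have ih' := ih (by omega)
      unfold PA at hp
      rw [Finset.mem_filter, Finset.mem_Icc] at hp
      obtain ⟨⟨hp1, hp2⟩, hp3, hp4⟩ := hp
      rw [Finset.mem_biUnion]
      by_cases h1 : (p : ℝ) ≤ X j
      · have h2 : p ∈ PA (X j) := by
          unfold PA
          rw [Finset.mem_filter, Finset.mem_Icc]
          exact ⟨⟨hp1, Nat.le_floor h1⟩, hp3, hp4⟩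
        have h3 := ih' h2
        rw [Finset.mem_biUnion] at h3
        obtain ⟨i, hi, hi2⟩ := h3
        exact ⟨i, Finset.mem_range.2 (by have := Finset.mem_range.1 hi; omega), hi2⟩
      · refine ⟨j, Finset.mem_range.2 (by omega), ?_⟩
        unfold PB
        rw [Finset.mem_filter, Finset.mem_Icc]
        exact ⟨⟨hp1, hp2⟩, hp3, not_le.1 h1⟩
  exact key R le_rfl

lemma DL_prod (C : ℝ) (z : ℝ) (hz : 100 ≤ z)
    (hC : Real.log (Real.log z) - C ≤
      ∑ p ∈ (Icc 1 ⌊z⌋₊).filter Nat.Prime, (1 / (p : ℝ))) :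
    Real.exp (-(C + 100) / 4 - 1 / 16) * Real.log z ^ (1 / 4 : ℝ) ≤
      ∏ p ∈ PA z, (1 + 1 / (4 * (p : ℝ))) := by
  have hl1 : 0 < Real.log z := Real.log_pos (by linarith)
  -- the sum over the primes above 100
  have h1 : Real.log (Real.log z) - C - 100 ≤ ∑ p ∈ PA z, (1 / (p : ℝ)) := by
    have h2 : ∑ p ∈ (Icc 1 ⌊z⌋₊).filter Nat.Prime, (1 / (p : ℝ)) ≤
        ∑ p ∈ PA z, (1 / (p : ℝ)) + ∑ p ∈ Icc 1 100, (1 / ((p : ℕ) : ℝ)) := by
      have h3 : (Icc 1 ⌊z⌋₊).filter Nat.Prime ⊆ PA z ∪ Icc 1 100 := by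
        intro p hp
        rw [Finset.mem_filter, Finset.mem_Icc] at hp
        rw [Finset.mem_union]
        by_cases h4 : p ≤ 100
        · right
          rw [Finset.mem_Icc]
          exact ⟨hp.1.1, h4⟩
        · left
          unfold PA
          rw [Finset.mem_filter, Finset.mem_Icc]
          refine ⟨hp.1, hp.2, ?_⟩
          exact_mod_cast (by omega : 100 < p)
      refine (Finset.sum_le_sum_of_subset_of_nonneg h3 fun p _ _ => by positivity).trans ?_
      rw [← Finset.sum_union_inter]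
      have : 0 ≤ ∑ p ∈ PA z ∩ Icc 1 100, (1 / ((p : ℕ) : ℝ)) :=
        Finset.sum_nonneg fun p _ => by positivity
      linarith
    have h5 : ∑ p ∈ Icc 1 100, (1 / ((p : ℕ) : ℝ)) ≤ 100 := by
      calc ∑ p ∈ Icc 1 100, (1 / ((p : ℕ) : ℝ)) ≤ ∑ _p ∈ Icc 1 100, (1 : ℝ) := by
            apply Finset.sum_le_sum
            intro p hp
            rw [Finset.mem_Icc] at hp
            have : (1 : ℝ) ≤ p := by exact_mod_cast hp.1
            rw [div_le_one (by linarith)]
            exact this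
        _ = 100 := by simp
    linarith
  have h2 : ∑ p ∈ PA z, (1 / (p : ℝ) ^ 2) ≤ 1 := by
    have h3 : PA z ⊆ Ioc 1 (max ⌊z⌋₊ 1) := by
      intro p hp
      unfold PA at hp
      rw [Finset.mem_filter, Finset.mem_Icc] at hp
      rw [Finset.mem_Ioc]
      exact ⟨hp.2.1.one_lt, hp.1.2.trans (le_max_left _ _)⟩
    calc ∑ p ∈ PA z, (1 / (p : ℝ) ^ 2) ≤ ∑ p ∈ Ioc 1 (max ⌊z⌋₊ 1), (1 / (p : ℝ) ^ 2) :=
          Finset.sum_le_sum_of_subset_of_nonneg h3 fun p _ _ => by positivity
      _ = ∑ p ∈ Ioc 1 (max ⌊z⌋₊ 1), ((p : ℝ) ^ 2)⁻¹ := by simp only [one_div]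
      _ ≤ ((1 : ℕ) : ℝ)⁻¹ - ((max ⌊z⌋₊ 1 : ℕ) : ℝ)⁻¹ :=
          sum_Ioc_inv_sq_le_sub one_ne_zero (le_max_right _ _)
      _ ≤ 1 := by
          have : 0 ≤ ((max ⌊z⌋₊ 1 : ℕ) : ℝ)⁻¹ := by positivity
          rw [Nat.cast_one, inv_one]
          linarith
  have h3 : ∀ p ∈ PA z, Real.exp (1 / 4 * (1 / (p : ℝ)) - 1 / 16 * (1 / (p : ℝ) ^ 2)) ≤
      1 + 1 / (4 * (p : ℝ)) := by
    intro p hp
    unfold PA at hp
    rw [Finset.mem_filter, Finset.mem_Icc] at hp
    have hp0 : (0 : ℝ) < p := by linarith [hp.2.2]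
    set x : ℝ := 1 / (4 * (p : ℝ)) with hx
    have hx0 : 0 < x := by positivity
    have h4 := Real.le_log_one_add_of_nonneg hx0.le
    have h5 : x - x ^ 2 ≤ 2 * x / (x + 2) := by
      rw [le_div_iff₀ (by linarith)]
      nlinarith [pow_pos hx0 2, pow_pos hx0 3]
    have h6 : 1 / 4 * (1 / (p : ℝ)) - 1 / 16 * (1 / (p : ℝ) ^ 2) = x - x ^ 2 := by
      rw [hx]
      field_simp
      ring
    rw [h6]
    calc Real.exp (x - x ^ 2) ≤ Real.exp (Real.log (1 + x)) :=
          Real.exp_le_exp.2 (h5.trans h4)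
      _ = 1 + x := Real.exp_log (by linarith)
  calc Real.exp (-(C + 100) / 4 - 1 / 16) * Real.log z ^ (1 / 4 : ℝ)
      = Real.exp (1 / 4 * (Real.log (Real.log z) - C - 100) - 1 / 16 * 1) := by
        rw [Real.rpow_def_of_pos hl1, ← Real.exp_add]
        congr 1
        ring
    _ ≤ Real.exp (1 / 4 * ∑ p ∈ PA z, (1 / (p : ℝ)) - 1 / 16 * ∑ p ∈ PA z, (1 / (p : ℝ) ^ 2)) := by
        apply Real.exp_le_exp.2
        linarith
    _ = ∏ p ∈ PA z, Real.exp (1 / 4 * (1 / (p : ℝ)) - 1 / 16 * (1 / (p : ℝ) ^ 2)) := by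
        rw [← Real.exp_sum, Finset.sum_sub_distrib, Finset.mul_sum, Finset.mul_sum]
    _ ≤ ∏ p ∈ PA z, (1 + 1 / (4 * (p : ℝ))) :=
        Finset.prod_le_prod (fun p _ => (Real.exp_pos _).le) h3

/-! ### The size of the members -/

lemma DL_log_le {L : ℝ} {R : ℕ} {X lam : ℕ → ℝ} (h : IsChain L R X lam) (T : Finset ℕ)
    (hT : T ⊆ (range R).biUnion (PB X)) (hc : ∀ i ∈ range R, (T ∩ PB X i).card ≤ KK lam i) :
    ((∏ p ∈ T, p : ℕ) : ℝ) ≤
      Real.exp (∑ i ∈ range R, (KK lam i : ℝ) * Real.log (X (i + 1))) := by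
  have hprime : ∀ p ∈ T, (1 : ℝ) < p := by
    intro p hp
    have h1 := hT hp
    rw [Finset.mem_biUnion] at h1
    obtain ⟨i, _, hi⟩ := h1
    unfold PB at hi
    rw [Finset.mem_filter] at hi
    exact_mod_cast hi.2.1.one_lt
  have h1 : ((∏ p ∈ T, p : ℕ) : ℝ) = Real.exp (∑ p ∈ T, Real.log p) := by
    rw [Real.exp_sum]
    push_cast
    apply Finset.prod_congr rfl
    intro p hp
    rw [Real.exp_log (by linarith [hprime p hp])]
  rw [h1]
  apply Real.exp_le_exp.2
  calc ∑ p ∈ T, Real.log p ≤ ∑ p ∈ T, ∑ i ∈ range R, (if p ∈ PB X i then Real.log p else 0) := by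
        apply Finset.sum_le_sum
        intro p hp
        have h2 := hT hp
        rw [Finset.mem_biUnion] at h2
        obtain ⟨i, hi, hip⟩ := h2
        have hlog : 0 ≤ Real.log (p : ℝ) := Real.log_nonneg (hprime p hp).le
        calc Real.log (p : ℝ) = (if p ∈ PB X i then Real.log (p : ℝ) else 0) := by rw [if_pos hip]
          _ ≤ ∑ i ∈ range R, (if p ∈ PB X i then Real.log (p : ℝ) else 0) :=
            Finset.single_le_sum (f := fun i => if p ∈ PB X i then Real.log (p : ℝ) else 0)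
              (fun j _ => by split_ifs <;> linarith) hi
    _ = ∑ i ∈ range R, ∑ p ∈ T, (if p ∈ PB X i then Real.log (p : ℝ) else 0) := Finset.sum_comm
    _ ≤ ∑ i ∈ range R, (KK lam i : ℝ) * Real.log (X (i + 1)) := by
        apply Finset.sum_le_sum
        intro i hi
        rw [Finset.sum_ite_mem]
        have hX : 100 ≤ X (i + 1) :=
          DL_chain_ge h (i + 1) (by have := Finset.mem_range.1 hi; omega)
        have hlX : 0 ≤ Real.log (X (i + 1)) := Real.log_nonneg (by linarith)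
        calc ∑ p ∈ T ∩ PB X i, Real.log (p : ℝ) ≤ ∑ _p ∈ T ∩ PB X i, Real.log (X (i + 1)) := by
              apply Finset.sum_le_sum
              intro p hp
              rw [Finset.mem_inter] at hp
              have h3 := hp.2
              unfold PB at h3
              rw [Finset.mem_filter, Finset.mem_Icc] at h3
              have h4 : (p : ℝ) ≤ X (i + 1) := by
                calc (p : ℝ) ≤ (⌊X (i + 1)⌋₊ : ℝ) := by exact_mod_cast h3.1.2
                  _ ≤ X (i + 1) := Nat.floor_le (by linarith)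
              exact Real.log_le_log (by linarith [hprime p hp.1]) h4
          _ = ((T ∩ PB X i).card : ℝ) * Real.log (X (i + 1)) := by
              rw [Finset.sum_const, nsmul_eq_mul]
          _ ≤ (KK lam i : ℝ) * Real.log (X (i + 1)) := by
              apply mul_le_mul_of_nonneg_right _ hlX
              exact_mod_cast hc i hi

theorem stmt_DL (hMERL : Stmt_MERL) : Stmt_DL := by
  obtain ⟨C, hC⟩ := hMERL
  refine ⟨7 / 8 * Real.exp (-(C + 100) / 4 - 1 / 16), by positivity, ?_⟩
  intro L R X lam hch Y hY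
  set P : Finset ℕ := (range R).biUnion (PB X) with hP
  set W : Finset (Finset ℕ) := P.powerset.filter
    (fun T => ∀ i ∈ range R, (T ∩ PB X i).card ≤ KK lam i) with hW
  have hPprime : ∀ p ∈ P, p.Prime := by
    intro p hp
    rw [hP, Finset.mem_biUnion] at hp
    obtain ⟨i, _, hi⟩ := hp
    unfold PB at hi
    rw [Finset.mem_filter] at hi
    exact hi.2.1
  have hWP : ∀ T ∈ W, T ⊆ P ∧ ∀ i ∈ range R, (T ∩ PB X i).card ≤ KK lam i := by
    intro T hT
    rw [hW, Finset.mem_filter, Finset.mem_powerset] at hT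
    exact hT
  have hWprime : ∀ T ∈ W, ∀ p ∈ T, p.Prime := fun T hT p hp => hPprime p ((hWP T hT).1 hp)
  -- the members
  have hmem : ∀ T ∈ W, ∏ p ∈ T, p ∈ Icc 1 Y := by
    intro T hT
    rw [Finset.mem_Icc]
    refine ⟨Finset.prod_pos fun p hp => (hWprime T hT p hp).pos, ?_⟩
    have h1 := (DL_log_le hch T (hWP T hT).1 (hWP T hT).2).trans hY
    exact_mod_cast h1
  have hOk : ∀ T ∈ W, Okd X lam (range R) (∏ p ∈ T, p) := by
    intro T hT
    have hpf : (∏ p ∈ T, p).primeFactors = T := Nat.primeFactors_prod (hWprime T hT)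
    refine ⟨(Finset.prod_pos fun p hp => (hWprime T hT p hp).pos).ne', ?_, ?_⟩
    · intro p hp
      rw [hpf] at hp
      have h1 := (hWP T hT).1 hp
      rw [hP, Finset.mem_biUnion] at h1
      exact h1
    · intro i hi
      refine le_trans ?_ ((hWP T hT).2 i hi)
      have h2 : ∀ p ∈ PB X i, (∏ p ∈ T, p).factorization p ≤ if p ∈ T then 1 else 0 := by
        intro p _
        by_cases hpT : p ∈ T
        · rw [if_pos hpT]
          rw [Nat.factorization_prod_apply (fun q hq => (hWprime T hT q hq).ne_zero),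
            Finset.sum_eq_single p]
          · rw [(hWprime T hT p hpT).factorization_self]
          · intro q hq hqp
            rw [(hWprime T hT q hq).factorization]
            exact Finsupp.single_eq_of_ne (Ne.symm hqp)
          · intro h
            exact absurd hpT h
        · rw [if_neg hpT]
          have h3 : p ∉ (∏ p ∈ T, p).primeFactors := by rwa [hpf]
          rw [← Nat.support_factorization, Finsupp.notMem_support_iff] at h3
          rw [h3]
      calc ∑ p ∈ PB X i, (∏ p ∈ T, p).factorization p ≤ ∑ p ∈ PB X i, (if p ∈ T then 1 else 0) :=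
            Finset.sum_le_sum h2
        _ = (PB X i ∩ T).card := by
            rw [Finset.sum_ite_mem, Finset.sum_const, smul_eq_mul, mul_one]
        _ = (T ∩ PB X i).card := by rw [Finset.inter_comm]
  have hinj : Set.InjOn (fun T : Finset ℕ => ∏ p ∈ T, p) (W : Set (Finset ℕ)) := by
    intro T hT T' hT' h
    rw [← Nat.primeFactors_prod (hWprime T hT), ← Nat.primeFactors_prod (hWprime T' hT')]
    exact congrArg Nat.primeFactors h
  -- the sum
  have hre : (∑ n ∈ Icc 1 Y, cN X lam (range R) n * B (cM X lam (range R)) 0 n / (n : ℂ)).re =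
      ∑ n ∈ Icc 1 Y, (cN X lam (range R) n * B (cM X lam (range R)) 0 n / (n : ℂ)).re :=
    Complex.re_sum _ _
  rw [hre]
  have hnn : ∀ n, 0 ≤ (cN X lam (range R) n * B (cM X lam (range R)) 0 n / (n : ℂ)).re := by
    intro n
    by_cases hn : Okd X lam (range R) n
    · rw [DL_term hn]
      exact DL_g_nonneg n
    · rw [DL_term' hn]
  have hcomb := DL_comb P (fun p => 1 / (4 * (p : ℝ))) (fun p => by positivity) R (PB X) (KK lam) lam
    (by
      intro i hi
      have h1 := hch.sig i (Finset.mem_range.1 hi)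
      have h2 : ∑ p ∈ PB X i, (1 / (4 * (p : ℝ))) = 1 / 4 * ∑ p ∈ PB X i, (1 / (p : ℝ)) := by
        rw [Finset.mul_sum]
        apply Finset.sum_congr rfl
        intro p _
        rw [one_div_mul_one_div]
      rw [h2]
      linarith)
    (fun i _ => Nat.le_ceil _)
    (fun i hi => by linarith [hch.lam1 i (Finset.mem_range.1 hi)])
    hch.sum
  have hprod := DL_prod C (X R) (DL_chain_ge hch R le_rfl)
    (hC (X R) (by linarith [DL_chain_ge hch R le_rfl]))
  have hsub : ∏ p ∈ PA (X R), (1 + 1 / (4 * (p : ℝ))) ≤ ∏ p ∈ P, (1 + 1 / (4 * (p : ℝ))) := by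
    rw [← Finset.prod_sdiff (DL_cover hch)]
    have h1 : ∀ Q : Finset ℕ, 1 ≤ ∏ p ∈ Q, (1 + 1 / (4 * (p : ℝ))) := by
      intro Q
      calc (1 : ℝ) = ∏ _p ∈ Q, (1 : ℝ) := by rw [Finset.prod_const_one]
        _ ≤ ∏ p ∈ Q, (1 + 1 / (4 * (p : ℝ))) := by
          apply Finset.prod_le_prod (fun _ _ => zero_le_one)
          intro p _
          have : 0 ≤ 1 / (4 * (p : ℝ)) := by positivity
          linarith
    have h2 := h1 (PA (X R))
    have h3 := h1 ((range R).biUnion (PB X) \ PA (X R))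
    nlinarith
  calc 7 / 8 * Real.exp (-(C + 100) / 4 - 1 / 16) * Real.log (X R) ^ (1 / 4 : ℝ)
      = 7 / 8 * (Real.exp (-(C + 100) / 4 - 1 / 16) * Real.log (X R) ^ (1 / 4 : ℝ)) := by ring
    _ ≤ 7 / 8 * ∏ p ∈ P, (1 + 1 / (4 * (p : ℝ))) := by
        have := hprod.trans hsub
        linarith
    _ ≤ ∑ T ∈ W, ∏ p ∈ T, (1 / (4 * (p : ℝ))) := hcomb
    _ = ∑ T ∈ W, (cN X lam (range R) (∏ p ∈ T, p) *
          B (cM X lam (range R)) 0 (∏ p ∈ T, p) / ((∏ p ∈ T, p : ℕ) : ℂ)).re := by
        apply Finset.sum_congr rfl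
        intro T hT
        rw [DL_term (hOk T hT), DL_g_prod (hWprime T hT)]
    _ = ∑ n ∈ W.image (fun T : Finset ℕ => ∏ p ∈ T, p),
          (cN X lam (range R) n * B (cM X lam (range R)) 0 n / (n : ℂ)).re := by
        rw [Finset.sum_image hinj]
    _ ≤ ∑ n ∈ Icc 1 Y, (cN X lam (range R) n * B (cM X lam (range R)) 0 n / (n : ℂ)).re := by
        apply Finset.sum_le_sum_of_subset_of_nonneg
        · intro n hn
          obtain ⟨T, hT, rfl⟩ := Finset.mem_image.1 hn
          exact hmem T hT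
        · intro n _ _
          exact hnn n

end HZS
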