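import Pool.Agent.Work.MP_c51bc2_nt.Interface

open Finset Complex MeasureTheory

namespace HZS

theorem stmt_FINA (hMAIN : Stmt_MAIN) (hPAR : Stmt_PAR) : Stmt_FINA := by
  obtain ⟨C, T1, hC, hT1, h1⟩ := hMAIN
  obtain ⟨W0, L0, hW0, hL0, h2⟩ := hPAR
  refine ⟨C, max T1 (Real.exp L0), W0, hC, lt_max_of_lt_left hT1, by linarith, ?_⟩
  intro T h hT hW hh
  have hT1' : T1 ≤ T := le_trans (le_max_left _ _) hT
  have hT2' : Real.exp L0 ≤ T := le_trans (le_max_right _ _) hT
  have hTpos : 0 < T := by linarith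
  have hlog : 0 < Real.log T := Real.log_pos (by linarith)
  have hL : L0 ≤ Real.log T := by
    rw [Real.le_log_iff_exp_le hTpos]; exact hT2'
  have hh0 : 0 < h := lt_of_lt_of_le (div_pos (by linarith) hlog) hW
  have hWh : W0 ≤ h * Real.log T := by
    rwa [div_le_iff₀ hlog] at hW
  obtain ⟨R, X, lam, hc, hX, -⟩ := h2 (Real.log T) (h * Real.log T) hL hWh (by nlinarith)
  have e1 : Real.log T / (h * Real.log T) = 1 / h := by field_simp
  rw [e1] at hX
  refine h1 T h R X lam hT1' hc hX ?_ (by linarith) ?_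
  · rw [div_le_iff₀ hlog]; linarith
  · rw [div_le_div_iff₀ hh0 (by norm_num)]; linarith

end HZS
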