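import Pool.Agent.Work.MP_c51bc2_nt.Interface

set_option autoImplicit false

open Finset Complex MeasureTheory
open scoped ENNReal

namespace HZS

theorem finb_contJ (hZ : Stmt_ZC) (h : ℝ) : Continuous (J h) := by
  have hZc : Continuous Z := hZ
  have hi : ∀ a b : ℝ, IntervalIntegrable Z volume a b := fun a b => hZc.intervalIntegrable a b
  have h1 : J h = fun t => (∫ u in (0 : ℝ)..(t + h), Z u) - ∫ u in (0 : ℝ)..t, Z u := by
    funext t
    unfold J
    rw [intervalIntegral.integral_interval_sub_left (hi _ _) (hi _ _)]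
  rw [h1]
  have hP := intervalIntegral.continuous_primitive hi 0
  exact (hP.comp (continuous_id.add continuous_const)).sub hP

theorem finb_closed (h : ℝ) : IsClosed {u : ℝ | Far h u} := by
  have key : ∀ q : ℝ → Prop, IsClosed {u : ℝ | ∀ x : ℝ, |x - u| < h → q x} := by
    intro q
    have : {u : ℝ | ∀ x : ℝ, |x - u| < h → q x} = ⋂ x ∈ {x | ¬ q x}, {u : ℝ | h ≤ |x - u|} := by
      ext u
      simp only [Set.mem_setOf_eq, Set.mem_iInter]
      constructor
      · intro hu x hx
        by_contra hc
        exact hx (hu x (not_le.mp hc))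
      · intro hu x hx
        by_contra hc
        exact absurd hx (not_lt.mpr (hu x hc))
    rw [this]
    apply isClosed_biInter
    intro x _
    exact isClosed_le continuous_const ((continuous_const.sub continuous_id).abs)
  exact (key _).union (key _)

theorem finb_sign (h t u : ℝ) (h1 : t < u) (h2 : u < t + h) (hf : Far h u) :
    |J h t| = ∫ x in t..(t + h), |Z x| := by
  have hh : 0 < h := by linarith
  have hle : t ≤ t + h := by linarith
  have habs : ∀ x ∈ Set.uIcc t (t + h), |x - u| < h := by
    intro x hx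
    rw [Set.uIcc_of_le hle] at hx
    rw [abs_lt]
    constructor <;> linarith [hx.1, hx.2]
  have hnn : 0 ≤ ∫ x in t..(t + h), |Z x| :=
    intervalIntegral.integral_nonneg hle fun x _ => abs_nonneg _
  rcases hf with hf | hf
  · have e1 : ∫ x in t..(t + h), |Z x| = J h t := by
      unfold J
      apply intervalIntegral.integral_congr
      intro x hx
      exact abs_of_nonneg (hf x (habs x hx))
    rw [e1] at hnn
    rw [e1, abs_of_nonneg hnn]
  · have e1 : ∫ x in t..(t + h), |Z x| = -(J h t) := by
      unfold J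
      rw [← intervalIntegral.integral_neg]
      apply intervalIntegral.integral_congr
      intro x hx
      exact abs_of_nonpos (hf x (habs x hx))
    rw [e1] at hnn
    rw [e1, abs_of_nonpos (by linarith)]

theorem finb_fubini (hZ : Stmt_ZC) (T h : ℝ) (hh : 0 < h) (hT : 0 < T) :
    h * ∫ t in {u | u ∈ Set.Icc T (2 * T) ∧ Far h u}, |Z t| ≤
      ∫ t in (T - h)..(2 * T), |J h t| := by
  have hZc : Continuous Z := hZ
  have hJc := finb_contJ hZ h
  set S : Set ℝ := {u | u ∈ Set.Icc T (2 * T) ∧ Far h u} with hS
  have hSm : MeasurableSet S := (isClosed_Icc.inter (finb_closed h)).measurableSet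
  set f : ℝ → ℝ≥0∞ := S.indicator (fun u => ENNReal.ofReal |Z u|) with hf
  have hfm : Measurable f := (hZc.abs.measurable.ennreal_ofReal).indicator hSm
  have e1 : ENNReal.ofReal (∫ t in S, |Z t|) = ∫⁻ u, f u := by
    rw [hf, lintegral_indicator hSm]
    rw [ofReal_integral_eq_lintegral_ofReal]
    · have h1 : IntegrableOn (fun t => |Z t|) (Set.Icc T (2 * T)) volume :=
        hZc.abs.continuousOn.integrableOn_compact isCompact_Icc
      exact h1.mono_set fun u hu => hu.1
    · exact Filter.Eventually.of_forall fun t => abs_nonneg _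
  have e2 : ∫⁻ t, ∫⁻ s in Set.Ioo 0 h, f (t + s) = ENNReal.ofReal h * ∫⁻ u, f u := by
    rw [lintegral_lintegral_swap]
    · have : ∀ s : ℝ, ∫⁻ t, f (t + s) = ∫⁻ u, f u := fun s => lintegral_add_right_eq_self f s
      simp_rw [this]
      rw [lintegral_const, Measure.restrict_apply MeasurableSet.univ, Set.univ_inter,
        Real.volume_Ioo, sub_zero, mul_comm]
    · exact (hfm.comp (measurable_fst.add measurable_snd)).aemeasurable
  have e3 : ∀ t, ∫⁻ s in Set.Ioo 0 h, f (t + s) ≤
      (Set.Icc (T - h) (2 * T)).indicator (fun t => ENNReal.ofReal |J h t|) t := by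
    intro t
    by_cases hex : ∃ s ∈ Set.Ioo 0 h, t + s ∈ S
    · obtain ⟨s, hs, hsS⟩ := hex
      have ht : t ∈ Set.Icc (T - h) (2 * T) := by
        have h1 := hsS.1.1
        have h2 := hsS.1.2
        constructor <;> linarith [hs.1, hs.2]
      rw [Set.indicator_of_mem ht, finb_sign h t (t + s) (by linarith [hs.1])
        (by linarith [hs.2]) hsS.2]
      have h2 : ∫ x in t..(t + h), |Z x| = ∫ s in Set.Ioo 0 h, |Z (t + s)| := by
        have := intervalIntegral.integral_comp_add_left (f := fun x => |Z x|) (a := 0) (b := h) t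
        rw [add_zero] at this
        rw [← this, intervalIntegral.integral_of_le hh.le, integral_Ioc_eq_integral_Ioo]
      rw [h2, ofReal_integral_eq_lintegral_ofReal]
      · apply lintegral_mono
        intro s
        exact Set.indicator_le_self' (fun _ _ => zero_le) _
      · have h1 : IntegrableOn (fun s => |Z (t + s)|) (Set.Icc 0 h) volume :=
          ((hZc.comp (continuous_const.add continuous_id)).abs).continuousOn.integrableOn_compact
            isCompact_Icc
        exact h1.mono_set Set.Ioo_subset_Icc_self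
      · exact Filter.Eventually.of_forall fun t => abs_nonneg _
    · have h0 : ∫⁻ s in Set.Ioo 0 h, f (t + s) = 0 := by
        rw [setLIntegral_congr_fun measurableSet_Ioo (g := fun _ => 0)]
        · simp
        · intro s hs
          apply Set.indicator_of_notMem
          intro hm
          exact hex ⟨s, hs, hm⟩
      rw [h0]
      exact zero_le
  have e4 : ∫⁻ t, (Set.Icc (T - h) (2 * T)).indicator (fun t => ENNReal.ofReal |J h t|) t =
      ENNReal.ofReal (∫ t in (T - h)..(2 * T), |J h t|) := by
    rw [lintegral_indicator measurableSet_Icc, intervalIntegral.integral_of_le (by linarith),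
      ← integral_Icc_eq_integral_Ioc, ofReal_integral_eq_lintegral_ofReal]
    · exact hJc.abs.continuousOn.integrableOn_compact isCompact_Icc
    · exact Filter.Eventually.of_forall fun t => abs_nonneg _
  have e5 : ENNReal.ofReal (h * ∫ t in S, |Z t|) ≤
      ENNReal.ofReal (∫ t in (T - h)..(2 * T), |J h t|) := by
    rw [ENNReal.ofReal_mul hh.le, e1, ← e2, ← e4]
    exact lintegral_mono e3
  have hnn : 0 ≤ ∫ t in (T - h)..(2 * T), |J h t| :=
    intervalIntegral.integral_nonneg (by linarith) fun x _ => abs_nonneg _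
  exact (ENNReal.ofReal_le_ofReal_iff hnn).mp e5

theorem stmt_FINB (hA : Stmt_FINA) (hZ : Stmt_ZC) : Stmt_FINB := by
  obtain ⟨C, T0, W0, hC, hT0, hW0, hA⟩ := hA
  refine ⟨3 / 2 * C, max (2 * T0) 4, 2 * W0, by positivity, ?_, by positivity,
    fun T h hT hh1 hh2 => ?_⟩
  · exact lt_max_of_lt_right (by norm_num)
  have hT2 : 2 * T0 ≤ T := (le_max_left _ _).trans hT
  have hT4 : 4 ≤ T := (le_max_right _ _).trans hT
  have hTpos : 0 < T := by linarith
  have hl4 : Real.log 4 = 2 * Real.log 2 := by
    have : (4 : ℝ) = 2 ^ 2 := by norm_num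
    rw [this, Real.log_pow]
    norm_num
  have hl2 : 0 < Real.log 2 := Real.log_pos (by norm_num)
  have hlT : 2 * Real.log 2 ≤ Real.log T := by
    rw [← hl4]; exact Real.log_le_log (by norm_num) hT4
  have hlT0 : 0 < Real.log T := by linarith
  have hlhalf : Real.log T / 2 ≤ Real.log (T / 2) := by
    rw [Real.log_div (by positivity) (by norm_num)]
    linarith
  have hhpos : 0 < h := lt_of_lt_of_le (by positivity) hh1
  have hha : W0 / Real.log T ≤ h := by
    refine le_trans ?_ hh1
    gcongr
    linarith
  have hhb : W0 / Real.log (T / 2) ≤ h := by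
    refine le_trans ?_ hh1
    rw [div_le_div_iff₀ (by linarith) hlT0]
    nlinarith
  have i1 := hA (T / 2) h (by linarith) hhb hh2
  have i2 := hA T h (by linarith) hha hh2
  have hJc := finb_contJ hZ h
  have hI : ∀ a b : ℝ, IntervalIntegrable (fun t => |J h t|) volume a b :=
    fun a b => hJc.abs.intervalIntegrable a b
  have hfub := finb_fubini hZ T h hhpos hTpos
  have h3 : ∫ t in (T - h)..(2 * T), |J h t| ≤ ∫ t in (T / 2)..(2 * T), |J h t| := by
    apply intervalIntegral.integral_mono_interval (by linarith) (by linarith) le_rfl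
    · exact Filter.Eventually.of_forall fun t => abs_nonneg _
    · exact hI _ _
  have h4 : ∫ t in (T / 2)..(2 * T), |J h t| =
      (∫ t in (T / 2)..T, |J h t|) + ∫ t in T..(2 * T), |J h t| :=
    (intervalIntegral.integral_add_adjacent_intervals (hI _ _) (hI _ _)).symm
  have h5 : 2 * (T / 2) = T := by ring
  rw [h5] at i1
  have h6 : h * ∫ t in {u | u ∈ Set.Icc T (2 * T) ∧ Far h u}, |Z t| ≤
      3 / 2 * C * T * h ^ (3 / 4 : ℝ) := by
    linarith
  have h7 : h ^ (3 / 4 : ℝ) = h * h ^ (-(1 / 4) : ℝ) := by
    have : (3 / 4 : ℝ) = 1 + (-(1 / 4)) := by norm_num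
    rw [this, Real.rpow_add hhpos, Real.rpow_one]
  rw [h7] at h6
  have h8 : h * ∫ t in {u | u ∈ Set.Icc T (2 * T) ∧ Far h u}, |Z t| ≤
      h * (3 / 2 * C * T * h ^ (-(1 / 4) : ℝ)) := by
    linarith
  exact le_of_mul_le_mul_left h8 hhpos

end HZS
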