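import Pool.Agent.Work.MP_c51bc2_nt.Interface
import Pool.Agent.Work.MP_e9b29d_nt.Sob

/-! # FRZ: freezing `θ'(t)` and the mean value theorem -/

set_option autoImplicit false

open Finset Complex MeasureTheory

namespace HZS

noncomputable section

open Pool.Agent.Work.MP_e9b29d_nt (ES continuous_ES mean_value_log sob1)

theorem FRZ_mo_mul (n d : ℕ) (t : ℝ) : mo (n * d) t = mo n t * mo d t := by
  unfold mo
  rw [Nat.cast_mul, Complex.natCast_mul_natCast_cpow]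

theorem FRZ_mo_eq {n : ℕ} (hn : 1 ≤ n) (t : ℝ) :
    mo n t = (n : ℂ) ^ (-(1 / 2) : ℂ) * cexp (((-Real.log n * t : ℝ) : ℂ) * I) := by
  have hn0 : (n : ℂ) ≠ 0 := by exact_mod_cast (by omega : n ≠ 0)
  unfold mo
  rw [Complex.cpow_def_of_ne_zero hn0, Complex.cpow_def_of_ne_zero hn0, ← Complex.exp_add]
  congr 1
  rw [← Complex.natCast_log]
  push_cast
  ring

theorem FRZ_norm_sq {n : ℕ} (hn : 1 ≤ n) : ‖(n : ℂ) ^ (-(1 / 2) : ℂ)‖ ^ 2 = 1 / (n : ℝ) := by
  have hn0 : (0 : ℝ) < n := by exact_mod_cast hn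
  have h1 : ‖(n : ℂ) ^ (-(1 / 2) : ℂ)‖ = (n : ℝ) ^ (-(1 / 2) : ℝ) := by
    rw [Complex.norm_natCast_cpow_of_pos hn]
    norm_num
  rw [h1, ← Real.rpow_natCast, ← Real.rpow_mul hn0.le]
  norm_num
  rw [Real.rpow_neg_one]

theorem FRZ_mo_cont {n : ℕ} (hn : 1 ≤ n) : Continuous (mo n) := by
  have h : mo n = fun t : ℝ =>
      (n : ℂ) ^ (-(1 / 2) : ℂ) * cexp (((-Real.log n * t : ℝ) : ℂ) * I) :=
    funext fun t => FRZ_mo_eq hn t
  rw [h]
  fun_prop

theorem FRZ_D_cont (b : ℕ → ℂ) (Y : ℕ) : Continuous (D b Y) := by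
  unfold D
  refine continuous_finsetSum _ fun d hd => ?_
  exact continuous_const.mul (FRZ_mo_cont (Finset.mem_Icc.1 hd).1)

/-- the product as a Dirichlet polynomial -/
theorem FRZ_id (G : ℝ → ℂ) (b : ℕ → ℂ) (Y M A N : ℕ) (t y : ℝ)
    (hG : ∀ n : ℕ, A < n → G (y - Real.log n) = 0) (hb : ∀ d, Y < d → b d = 0) (hAN : A ≤ N)
    (hAY : A * Y ≤ M) :
    (∑ n ∈ Icc 1 N, mo n t * G (y - Real.log n)) * D b Y t =
      ∑ m ∈ Icc 1 M, mo m t * ∑ d ∈ m.divisors, b d * G (y - Real.log m + Real.log d) := by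
  set g : ℕ × ℕ → ℂ := fun x => mo x.1 t * mo x.2 t * (b x.2 * G (y - Real.log x.1)) with hg
  have hL : (∑ n ∈ Icc 1 N, mo n t * G (y - Real.log n)) * D b Y t =
      ∑ x ∈ Icc 1 N ×ˢ Icc 1 Y, g x := by
    unfold D
    rw [Finset.sum_mul_sum, Finset.sum_product]
    refine Finset.sum_congr rfl fun n _ => Finset.sum_congr rfl fun d _ => ?_
    rw [hg]
    ring
  have hR : ∑ m ∈ Icc 1 M, mo m t * ∑ d ∈ m.divisors, b d * G (y - Real.log m + Real.log d) =
      ∑ x ∈ (Icc 1 M ×ˢ Icc 1 M).filter (fun x => x.1 * x.2 ≤ M), g x := by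
    rw [← Finset.sum_fiberwise_of_maps_to (s := (Icc 1 M ×ˢ Icc 1 M).filter
      (fun x => x.1 * x.2 ≤ M)) (t := Icc 1 M) (g := fun x : ℕ × ℕ => x.1 * x.2)]
    · refine Finset.sum_congr rfl fun m hm => ?_
      have hm1 := Finset.mem_Icc.1 hm
      have hfib : ((Icc 1 M ×ˢ Icc 1 M).filter (fun x => x.1 * x.2 ≤ M)).filter
          (fun x : ℕ × ℕ => x.1 * x.2 = m) = m.divisorsAntidiagonal := by
        ext x
        rw [Finset.mem_filter, Finset.mem_filter, Finset.mem_product, Finset.mem_Icc,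
          Finset.mem_Icc, Nat.mem_divisorsAntidiagonal]
        constructor
        · rintro ⟨_, h⟩
          exact ⟨h, by omega⟩
        · rintro ⟨h, _⟩
          have h1 : 1 ≤ x.1 := Nat.one_le_iff_ne_zero.2 (by
            intro h0
            rw [h0, zero_mul] at h
            omega)
          have h2 : 1 ≤ x.2 := Nat.one_le_iff_ne_zero.2 (by
            intro h0
            rw [h0, mul_zero] at h
            omega)
          have h3 : x.1 ≤ x.1 * x.2 := Nat.le_mul_of_pos_right _ h2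
          have h4 : x.2 ≤ x.1 * x.2 := Nat.le_mul_of_pos_left _ h1
          exact ⟨⟨⟨⟨h1, by omega⟩, ⟨h2, by omega⟩⟩, by omega⟩, h⟩
      rw [hfib]
      have h1 := Nat.sum_divisorsAntidiagonal' (n := m) (f := fun n d => g (n, d))
      have h2 : ∑ x ∈ m.divisorsAntidiagonal, g x = ∑ i ∈ m.divisorsAntidiagonal, g (i.1, i.2) :=
        rfl
      rw [h2, h1, Finset.mul_sum]
      refine Finset.sum_congr rfl fun d hd => ?_
      obtain ⟨e, he⟩ := Nat.dvd_of_mem_divisors hd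
      have hd0 : d ≠ 0 := by
        rintro rfl
        omega
      have he0 : e ≠ 0 := by
        rintro rfl
        omega
      have hdiv : m / d = e := by
        rw [he]
        exact Nat.mul_div_cancel_left e (Nat.pos_of_ne_zero hd0)
      have hlog : Real.log m = Real.log d + Real.log e := by
        rw [he]
        push_cast
        exact Real.log_mul (by exact_mod_cast hd0) (by exact_mod_cast he0)
      have hmo : mo m t = mo e t * mo d t := by
        rw [he, mul_comm, FRZ_mo_mul]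
      show mo m t * (b d * G (y - Real.log m + Real.log d)) =
        mo (m / d) t * mo d t * (b d * G (y - Real.log ((m / d : ℕ) : ℝ)))
      rw [hdiv, hmo, hlog]
      congr 3
      ring
    · intro x hx
      rw [Finset.mem_filter, Finset.mem_product, Finset.mem_Icc, Finset.mem_Icc] at hx
      rw [Finset.mem_Icc]
      exact ⟨Nat.one_le_iff_ne_zero.2 (Nat.mul_ne_zero (by omega) (by omega)), hx.2⟩
  rw [hL, hR]
  have e1 : ∑ x ∈ Icc 1 A ×ˢ Icc 1 Y, g x = ∑ x ∈ Icc 1 N ×ˢ Icc 1 Y, g x := by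
    refine Finset.sum_subset ?_ ?_
    · intro x hx
      rw [Finset.mem_product, Finset.mem_Icc, Finset.mem_Icc] at hx ⊢
      exact ⟨⟨hx.1.1, hx.1.2.trans hAN⟩, hx.2⟩
    · intro x hx hx'
      rw [Finset.mem_product, Finset.mem_Icc, Finset.mem_Icc] at hx hx'
      have h1 : A < x.1 := by
        by_contra h
        exact hx' ⟨⟨hx.1.1, by omega⟩, hx.2⟩
      rw [hg]
      simp only
      rw [hG _ h1, mul_zero, mul_zero]
  have e2 : ∑ x ∈ Icc 1 A ×ˢ Icc 1 Y, g x =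
      ∑ x ∈ (Icc 1 M ×ˢ Icc 1 M).filter (fun x => x.1 * x.2 ≤ M), g x := by
    refine Finset.sum_subset ?_ ?_
    · intro x hx
      rw [Finset.mem_product, Finset.mem_Icc, Finset.mem_Icc] at hx
      rw [Finset.mem_filter, Finset.mem_product, Finset.mem_Icc, Finset.mem_Icc]
      have h3 : x.1 ≤ x.1 * x.2 := Nat.le_mul_of_pos_right _ hx.2.1
      have h4 : x.2 ≤ x.1 * x.2 := Nat.le_mul_of_pos_left _ hx.1.1
      have h5 : x.1 * x.2 ≤ A * Y := Nat.mul_le_mul hx.1.2 hx.2.2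
      exact ⟨⟨⟨hx.1.1, by omega⟩, ⟨hx.2.1, by omega⟩⟩, by omega⟩
    · intro x hx hx'
      rw [Finset.mem_filter, Finset.mem_product, Finset.mem_Icc, Finset.mem_Icc] at hx
      rw [Finset.mem_product, Finset.mem_Icc, Finset.mem_Icc] at hx'
      rw [hg]
      simp only
      by_cases h1 : A < x.1
      · rw [hG _ h1, mul_zero, mul_zero]
      · by_cases h2 : Y < x.2
        · rw [hb _ h2, zero_mul, mul_zero]
        · exact absurd ⟨⟨hx.1.1.1, by omega⟩, ⟨hx.1.2.1, by omega⟩⟩ hx'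
  rw [← e1, e2]

/-- the mean value theorem -/
theorem FRZ_mv {M : ℕ} (hM : 1 ≤ M) (c : ℕ → ℂ) {T Q : ℝ} (hT : 0 ≤ T)
    (hMT : 4 * (M : ℝ) * (1 + Real.log M) ≤ T)
    (hQ : ∑ m ∈ Icc 1 M, ‖c m‖ ^ 2 / (m : ℝ) ≤ Q) :
    ∫ t in T..(2 * T), ‖∑ m ∈ Icc 1 M, mo m t * c m‖ ^ 2 ≤ 2 * T * Q := by
  have h1 := mean_value_log hM (Finset.Subset.refl (Icc 1 M))
    (fun m => (m : ℂ) ^ (-(1 / 2) : ℂ) * c m) (a := T) (b := 2 * T) (by linarith)
  have h2 : ∀ t : ℝ, ∑ m ∈ Icc 1 M, mo m t * c m =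
      ES (Icc 1 M) (fun m => (m : ℂ) ^ (-(1 / 2) : ℂ) * c m) (fun n => -Real.log n) t := by
    intro t
    unfold ES
    refine Finset.sum_congr rfl fun m hm => ?_
    rw [FRZ_mo_eq (Finset.mem_Icc.1 hm).1]
    ring
  simp only [h2]
  refine h1.trans ?_
  have h3 : ∑ j ∈ Icc 1 M, ‖(j : ℂ) ^ (-(1 / 2) : ℂ) * c j‖ ^ 2 =
      ∑ m ∈ Icc 1 M, ‖c m‖ ^ 2 / (m : ℝ) := by
    refine Finset.sum_congr rfl fun m hm => ?_
    rw [norm_mul, mul_pow, FRZ_norm_sq (Finset.mem_Icc.1 hm).1]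
    ring
  rw [h3]
  have h4 : 0 ≤ ∑ m ∈ Icc 1 M, ‖c m‖ ^ 2 / (m : ℝ) := Finset.sum_nonneg fun m _ => by positivity
  calc (2 * T - T + 4 * M * (1 + Real.log M)) * ∑ m ∈ Icc 1 M, ‖c m‖ ^ 2 / (m : ℝ)
      ≤ (2 * T) * ∑ m ∈ Icc 1 M, ‖c m‖ ^ 2 / (m : ℝ) :=
        mul_le_mul_of_nonneg_right (by linarith) h4
    _ ≤ 2 * T * Q := mul_le_mul_of_nonneg_left hQ (by linarith)

/-- The core: one rectangle. -/
theorem FRZ_core (b : ℕ → ℂ) (Y M A N : ℕ) (G G' : ℝ → ℂ) (T Q a₁ b₁ : ℝ) (hT : 0 ≤ T)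
    (hdth : Continuous dth) (hab : a₁ < b₁)
    (hin : ∀ t ∈ Set.Icc T (2 * T), dth t ∈ Set.Icc a₁ b₁)
    (hGd : ∀ y, HasDerivAt G (G' y) y) (hG'c : Continuous G')
    (hG : ∀ y ∈ Set.Icc a₁ b₁, ∀ n : ℕ, A < n → G (y - Real.log n) = 0)
    (hG' : ∀ y ∈ Set.Icc a₁ b₁, ∀ n : ℕ, A < n → G' (y - Real.log n) = 0)
    (hb : ∀ d, Y < d → b d = 0) (hAN : A ≤ N) (hAY : A * Y ≤ M) (hM : 1 ≤ M)
    (hMT : 4 * (M : ℝ) * (1 + Real.log M) ≤ T)
    (hQ1 : ∀ y ∈ Set.Icc a₁ b₁, ∑ m ∈ Icc 1 M,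
        ‖∑ d ∈ m.divisors, b d * G (y - Real.log m + Real.log d)‖ ^ 2 / (m : ℝ) ≤ Q)
    (hQ2 : ∀ y ∈ Set.Icc a₁ b₁, ∑ m ∈ Icc 1 M,
        ‖∑ d ∈ m.divisors, b d * G' (y - Real.log m + Real.log d)‖ ^ 2 / (m : ℝ) ≤ Q) :
    ∫ t in T..(2 * T), ‖∑ n ∈ Icc 1 N, mo n t * G (dth t - Real.log n)‖ ^ 2 *
      ‖D b Y t‖ ^ 2 ≤ (2 + 4 * (b₁ - a₁)) * T * Q := by
  have hGc : Continuous G := continuous_iff_continuousAt.2 fun x => (hGd x).continuousAt
  set F : ℝ → ℝ → ℂ := fun t y => (∑ n ∈ Icc 1 N, mo n t * G (y - Real.log n)) * D b Y t with hF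
  set F' : ℝ → ℝ → ℂ := fun t y => (∑ n ∈ Icc 1 N, mo n t * G' (y - Real.log n)) * D b Y t
    with hF'
  have hcont : ∀ g : ℝ → ℂ, Continuous g → Continuous (fun p : ℝ × ℝ =>
      (∑ n ∈ Icc 1 N, mo n p.1 * g (p.2 - Real.log n)) * D b Y p.1) := by
    intro g hg
    refine Continuous.mul ?_ ((FRZ_D_cont b Y).comp continuous_fst)
    refine continuous_finsetSum _ fun n hn => ?_
    refine Continuous.mul ((FRZ_mo_cont (Finset.mem_Icc.1 hn).1).comp continuous_fst) ?_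
    exact hg.comp (continuous_snd.sub continuous_const)
  have hFc : Continuous (Function.uncurry fun t y : ℝ => ‖F t y‖ ^ 2) := ((hcont G hGc).norm).pow 2
  have hFc' : Continuous (Function.uncurry fun t y : ℝ => ‖F' t y‖ ^ 2) :=
    ((hcont G' hG'c).norm).pow 2
  -- pointwise Sobolev inequality
  have hsob : ∀ t ∈ Set.Icc T (2 * T),
      ‖∑ n ∈ Icc 1 N, mo n t * G (dth t - Real.log n)‖ ^ 2 * ‖D b Y t‖ ^ 2 ≤
        (1 / (b₁ - a₁) + 1) * (∫ y in a₁..b₁, ‖F t y‖ ^ 2) + ∫ y in a₁..b₁, ‖F' t y‖ ^ 2 := by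
    intro t ht
    have hd : ∀ y, HasDerivAt (F t) (F' t y) y := by
      intro y
      rw [hF, hF']
      simp only
      refine HasDerivAt.mul_const ?_ _
      refine HasDerivAt.fun_sum fun n _ => ?_
      refine HasDerivAt.const_mul _ ?_
      exact (hGd (y - Real.log n)).comp_sub_const y (Real.log n)
    have hc : Continuous (F' t) := by
      have := (hcont G' hG'c).comp (by fun_prop : Continuous (fun y : ℝ => (t, y)))
      exact this
    have h1 := sob1 hd hc hab (hin t ht)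
    have h2 : ‖F t (dth t)‖ ^ 2 =
        ‖∑ n ∈ Icc 1 N, mo n t * G (dth t - Real.log n)‖ ^ 2 * ‖D b Y t‖ ^ 2 := by
      rw [hF]
      simp only
      rw [norm_mul, mul_pow]
    rw [← h2]
    exact h1
  have hcI : Continuous (fun t => ∫ y in a₁..b₁, ‖F t y‖ ^ 2) :=
    intervalIntegral.continuous_parametric_intervalIntegral_of_continuous' hFc a₁ b₁
  have hcI' : Continuous (fun t => ∫ y in a₁..b₁, ‖F' t y‖ ^ 2) :=
    intervalIntegral.continuous_parametric_intervalIntegral_of_continuous' hFc' a₁ b₁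
  have hL : Continuous (fun t => ‖∑ n ∈ Icc 1 N, mo n t * G (dth t - Real.log n)‖ ^ 2 *
      ‖D b Y t‖ ^ 2) := by
    refine Continuous.mul (Continuous.pow (Continuous.norm ?_) 2) ((FRZ_D_cont b Y).norm.pow 2)
    refine continuous_finsetSum _ fun n hn => ?_
    exact (FRZ_mo_cont (Finset.mem_Icc.1 hn).1).mul (hGc.comp (hdth.sub continuous_const))
  have hmono : ∫ t in T..(2 * T), ‖∑ n ∈ Icc 1 N, mo n t * G (dth t - Real.log n)‖ ^ 2 *
      ‖D b Y t‖ ^ 2 ≤ ∫ t in T..(2 * T), ((1 / (b₁ - a₁) + 1) * (∫ y in a₁..b₁, ‖F t y‖ ^ 2) +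
        ∫ y in a₁..b₁, ‖F' t y‖ ^ 2) := by
    refine intervalIntegral.integral_mono_on (by linarith) (hL.intervalIntegrable _ _)
      (((continuous_const.mul hcI).add hcI').intervalIntegrable _ _) hsob
  have hadd : ∫ t in T..(2 * T), ((1 / (b₁ - a₁) + 1) * (∫ y in a₁..b₁, ‖F t y‖ ^ 2) +
      ∫ y in a₁..b₁, ‖F' t y‖ ^ 2) =
      (1 / (b₁ - a₁) + 1) * (∫ t in T..(2 * T), ∫ y in a₁..b₁, ‖F t y‖ ^ 2) +
        ∫ t in T..(2 * T), ∫ y in a₁..b₁, ‖F' t y‖ ^ 2 := by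
    rw [← intervalIntegral.integral_const_mul]
    exact intervalIntegral.integral_add
      ((continuous_const.mul hcI).intervalIntegrable _ _) (hcI'.intervalIntegrable _ _)
  rw [hadd] at hmono
  -- Fubini
  have hswap : ∀ g : ℝ → ℝ → ℝ, Continuous (Function.uncurry g) →
      ∫ t in T..(2 * T), ∫ y in a₁..b₁, g t y = ∫ y in a₁..b₁, ∫ t in T..(2 * T), g t y := by
    intro g hg
    rw [intervalIntegral_intervalIntegral_swap]
    have hcc : IsCompact (Set.uIcc T (2 * T) ×ˢ Set.uIcc a₁ b₁) :=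
      isCompact_uIcc.prod isCompact_uIcc
    exact (hg.continuousOn.integrableOn_compact hcc).mono_set
      (Set.prod_mono Set.uIoc_subset_uIcc Set.uIoc_subset_uIcc)
  have hbound : ∀ (g : ℝ → ℂ), Continuous g →
      (∀ y ∈ Set.Icc a₁ b₁, ∀ n : ℕ, A < n → g (y - Real.log n) = 0) →
      (∀ y ∈ Set.Icc a₁ b₁, ∑ m ∈ Icc 1 M,
        ‖∑ d ∈ m.divisors, b d * g (y - Real.log m + Real.log d)‖ ^ 2 / (m : ℝ) ≤ Q) →
      ∫ y in a₁..b₁, ∫ t in T..(2 * T),
        ‖(∑ n ∈ Icc 1 N, mo n t * g (y - Real.log n)) * D b Y t‖ ^ 2 ≤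
          (b₁ - a₁) * (2 * T * Q) := by
    intro g hgc hg0 hgQ
    have hc2 : Continuous (Function.uncurry fun y t : ℝ =>
        ‖(∑ n ∈ Icc 1 N, mo n t * g (y - Real.log n)) * D b Y t‖ ^ 2) := by
      have := (hcont g hgc).comp (continuous_swap : Continuous (Prod.swap : ℝ × ℝ → ℝ × ℝ))
      exact (this.norm).pow 2
    have h1 : ∫ y in a₁..b₁, ∫ t in T..(2 * T),
        ‖(∑ n ∈ Icc 1 N, mo n t * g (y - Real.log n)) * D b Y t‖ ^ 2 ≤
          ∫ _y in a₁..b₁, 2 * T * Q := by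
      refine intervalIntegral.integral_mono_on hab.le ?_ intervalIntegrable_const ?_
      · exact (intervalIntegral.continuous_parametric_intervalIntegral_of_continuous' hc2 _
          _).intervalIntegrable _ _
      · intro y hy
        have h2 : ∀ t : ℝ, (∑ n ∈ Icc 1 N, mo n t * g (y - Real.log n)) * D b Y t =
            ∑ m ∈ Icc 1 M, mo m t * ∑ d ∈ m.divisors, b d * g (y - Real.log m + Real.log d) :=
          fun t => FRZ_id g b Y M A N t y (hg0 y hy) hb hAN hAY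
        simp only [h2]
        exact FRZ_mv hM _ hT hMT (hgQ y hy)
    refine h1.trans (le_of_eq ?_)
    rw [intervalIntegral.integral_const, smul_eq_mul]
  have hb1 := hbound G hGc hG hQ1
  have hb2 := hbound G' hG'c hG' hQ2
  have hs1 := hswap (fun t y => ‖F t y‖ ^ 2) hFc
  have hs2 := hswap (fun t y => ‖F' t y‖ ^ 2) hFc'
  rw [hs1, hs2] at hmono
  have hba : 0 < b₁ - a₁ := by linarith
  have hK : (1 / (b₁ - a₁) + 1) * ((b₁ - a₁) * (2 * T * Q)) = (1 + (b₁ - a₁)) * (2 * T * Q) := by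
    field_simp
  have h3 : (1 / (b₁ - a₁) + 1) * ∫ y in a₁..b₁, ∫ t in T..(2 * T), ‖F t y‖ ^ 2 ≤
      (1 / (b₁ - a₁) + 1) * ((b₁ - a₁) * (2 * T * Q)) :=
    mul_le_mul_of_nonneg_left hb1 (by positivity)
  rw [hK] at h3
  calc _ ≤ _ := hmono
    _ ≤ (1 + (b₁ - a₁)) * (2 * T * Q) + (b₁ - a₁) * (2 * T * Q) := add_le_add h3 hb2
    _ = (2 + 4 * (b₁ - a₁)) * T * Q := by ring

theorem stmt_FRZ (hPHS : Stmt_PHS) : Stmt_FRZ := by
  obtain ⟨_, hdth, _, C0, hC0, hd, _⟩ := hPHS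
  set C1 : ℝ := C0 + 1 with hC1
  -- `T` large
  have hlo : ∀ᶠ T : ℝ in Filter.atTop, 4 * (1 + Real.log T) ≤ T ^ (3 / 10 : ℝ) := by
    have h1 := (isLittleO_log_rpow_atTop (r := (3 / 10 : ℝ)) (by norm_num)).bound
      (c := 1 / 8) (by norm_num)
    have h2 := (tendsto_rpow_atTop (y := (3 / 10 : ℝ)) (by norm_num)).eventually_ge_atTop 8
    filter_upwards [h1, h2, Filter.eventually_ge_atTop (1 : ℝ)] with T h3 h4 h5
    rw [Real.norm_of_nonneg (Real.log_nonneg h5), Real.norm_of_nonneg (by positivity)] at h3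
    linarith
  have hlog : ∀ᶠ T : ℝ in Filter.atTop, 100 * C1 ≤ Real.log T :=
    Real.tendsto_log_atTop.eventually_ge_atTop _
  obtain ⟨T1, hT1⟩ := Filter.eventually_atTop.1 (hlo.and hlog)
  refine ⟨2 + 4 * (2 * C1), max T1 2, by positivity, lt_of_lt_of_le (by norm_num)
    (le_max_right _ _), ?_⟩
  intro T Q b Y G G' hT hQ hY hb hGd hG'c hG0 hsum
  have hT2 : 2 ≤ T := (le_max_right _ _).trans hT
  obtain ⟨hT3, hT4⟩ := hT1 T ((le_max_left _ _).trans hT)
  have hT0 : 0 < T := by linarith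
  have hT1' : 1 ≤ T := by linarith
  set L : ℝ := Real.log T with hL
  have hC1p : 0 < C1 := by linarith
  have hLp : 0 < L := by linarith
  have hG'0 : ∀ y : ℝ, y < -(L / 20) → G' y = 0 := by
    intro y hy
    have h1 : HasDerivAt G 0 y := by
      have h2 : G =ᶠ[nhds y] fun _ => (0 : ℂ) := by
        filter_upwards [Iio_mem_nhds hy] with x hx
        exact hG0 x (le_of_lt hx)
      exact (hasDerivAt_const y (0 : ℂ)).congr_of_eventuallyEq h2
    exact (hGd y).unique h1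
  set A : ℕ := ⌊T ^ (6 / 10 : ℝ)⌋₊ with hA
  set M : ℕ := ⌊T ^ (7 / 10 : ℝ)⌋₊ with hM
  have hA1 : (A : ℝ) ≤ T ^ (6 / 10 : ℝ) := Nat.floor_le (by positivity)
  have hM1 : (M : ℝ) ≤ T ^ (7 / 10 : ℝ) := Nat.floor_le (by positivity)
  have hM2 : 1 ≤ M := Nat.le_floor (by
    rw [Nat.cast_one]
    exact Real.one_le_rpow hT1' (by norm_num))
  have hshift : ∀ y ∈ Set.Icc (L / 2 - C1) (L / 2 + C1), ∀ n : ℕ, A < n →
      y - Real.log n < -(L / 20) := by
    intro y hy n hn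
    have h1 : T ^ (6 / 10 : ℝ) < n := by
      have h2 : T ^ (6 / 10 : ℝ) < (A : ℝ) + 1 := Nat.lt_floor_add_one _
      have h3 : (A : ℝ) + 1 ≤ n := by exact_mod_cast hn
      linarith
    have h2 : 6 / 10 * L < Real.log n := by
      rw [hL, ← Real.log_rpow hT0]
      exact Real.log_lt_log (by positivity) h1
    have h3 := hy.2
    linarith
  have hcore := FRZ_core b Y M A (N0 T) G G' T Q (L / 2 - C1) (L / 2 + C1) hT0.le hdth
    (by linarith) ?_ hGd hG'c (fun y hy n hn => hG0 _ (hshift y hy n hn).le)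
    (fun y hy n hn => hG'0 _ (hshift y hy n hn)) hb ?_ ?_ hM2 ?_ ?_ ?_
  · refine hcore.trans (le_of_eq ?_)
    ring
  · -- `dth t` in the range
    intro t ht
    have h1 := hd t (by linarith [ht.1])
    have h2 : L ≤ Real.log t := Real.log_le_log hT0 ht.1
    have h3 : Real.log t ≤ L + 1 := by
      have h4 : Real.log t ≤ Real.log (2 * T) := Real.log_le_log (by linarith [ht.1]) ht.2
      rw [Real.log_mul (by norm_num) hT0.ne'] at h4
      have h5 : Real.log 2 ≤ 1 := by linarith [Real.log_two_lt_d9]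
      linarith
    rw [abs_le] at h1
    constructor
    · linarith [h1.1]
    · linarith [h1.2]
  · -- `A ≤ N0 T`
    have h1 : T ^ (6 / 10 : ℝ) ≤ T := by
      calc T ^ (6 / 10 : ℝ) ≤ T ^ (1 : ℝ) := Real.rpow_le_rpow_of_exponent_le hT1' (by norm_num)
        _ = T := Real.rpow_one T
    have h2 : (A : ℝ) ≤ (⌈3 * T⌉₊ : ℝ) := by
      have h3 : 3 * T ≤ (⌈3 * T⌉₊ : ℝ) := Nat.le_ceil _
      linarith
    have h3 : A ≤ ⌈3 * T⌉₊ := by exact_mod_cast h2
    unfold N0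
    omega
  · -- `A * Y ≤ M`
    refine Nat.le_floor ?_
    push_cast
    calc (A : ℝ) * Y ≤ T ^ (6 / 10 : ℝ) * T ^ (1 / 20 : ℝ) :=
          mul_le_mul hA1 hY (by positivity) (by positivity)
      _ = T ^ (13 / 20 : ℝ) := by
          rw [← Real.rpow_add hT0]
          norm_num
      _ ≤ T ^ (7 / 10 : ℝ) := Real.rpow_le_rpow_of_exponent_le hT1' (by norm_num)
  · -- `4 M (1 + log M) ≤ T`
    have hM0 : (0 : ℝ) < M := by exact_mod_cast hM2
    have h1 : Real.log M ≤ L := by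
      refine Real.log_le_log hM0 (hM1.trans ?_)
      calc T ^ (7 / 10 : ℝ) ≤ T ^ (1 : ℝ) := Real.rpow_le_rpow_of_exponent_le hT1' (by norm_num)
        _ = T := Real.rpow_one T
    calc 4 * (M : ℝ) * (1 + Real.log M) = (M : ℝ) * (4 * (1 + Real.log M)) := by ring
      _ ≤ T ^ (7 / 10 : ℝ) * T ^ (3 / 10 : ℝ) := by
          refine mul_le_mul hM1 ?_ ?_ (by positivity)
          · linarith
          · have : 0 ≤ Real.log M := Real.log_nonneg (by exact_mod_cast hM2)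
            positivity
      _ = T := by
          rw [← Real.rpow_add hT0]
          norm_num
  · intro y hy
    refine (hsum y ?_).1
    rw [abs_le]
    constructor
    · linarith [hy.1]
    · linarith [hy.2]
  · intro y hy
    refine (hsum y ?_).2
    rw [abs_le]
    constructor
    · linarith [hy.1]
    · linarith [hy.2]

end

end HZS
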