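import Pool.Agent.Work.MP_c51bc2_nt.Interface

set_option autoImplicit false

open Finset Complex

namespace HZS

theorem fv_norm (p : ℕ) (hp : 1 ≤ p) (v : ℂ) :
    ‖1 - (p : ℂ) ^ (I * v) / 2‖ ^ 2 = 1 - Real.exp (-(v.im * Real.log p)) *
      Real.cos (v.re * Real.log p) + Real.exp (-(v.im * Real.log p)) ^ 2 / 4 := by
  have hp0 : (p : ℂ) ≠ 0 := by exact_mod_cast (by omega : p ≠ 0)
  rw [cpow_def_of_ne_zero hp0, Complex.natCast_log.symm]
  set l : ℝ := Real.log p with hl
  rw [← Complex.normSq_eq_norm_sq, Complex.normSq_apply]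
  have h1 : (cexp ((l : ℂ) * (I * v))).re = Real.exp (-(v.im * l)) * Real.cos (v.re * l) := by
    rw [Complex.exp_re]
    congr 2
    · simp; ring
    · simp; ring
  have h2 : (cexp ((l : ℂ) * (I * v))).im = Real.exp (-(v.im * l)) * Real.sin (v.re * l) := by
    rw [Complex.exp_im]
    congr 2
    · simp; ring
    · simp; ring
  have h3 : (1 - cexp ((l : ℂ) * (I * v)) / 2).re =
      1 - Real.exp (-(v.im * l)) * Real.cos (v.re * l) / 2 := by
    rw [Complex.sub_re, Complex.div_ofNat_re, h1, Complex.one_re]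
  have h4 : (1 - cexp ((l : ℂ) * (I * v)) / 2).im =
      - (Real.exp (-(v.im * l)) * Real.sin (v.re * l) / 2) := by
    rw [Complex.sub_im, Complex.div_ofNat_im, h2, Complex.one_im]
    ring
  rw [h3, h4]
  have h5 := Real.sin_sq_add_cos_sq (v.re * l)
  linear_combination (Real.exp (-(v.im * l)) ^ 2 / 4) * h5

theorem fv_term (p : ℕ) (hp : 1 ≤ p) (v : ℂ) (hb : |v.im| * Real.log p ≤ 1) :
    ‖1 - (p : ℂ) ^ (I * v) / 2‖ ^ 2 - 1 ≤ -(3 / 4) + 4 * (|v.im| * Real.log p) +
      Real.exp 1 * (1 - Real.cos (v.re * Real.log p)) := by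
  rw [fv_norm p hp v]
  have hl : 0 ≤ Real.log p := Real.log_natCast_nonneg p
  set l : ℝ := Real.log p with hl'
  set r : ℝ := Real.exp (-(v.im * l)) with hr
  set θ : ℝ := Real.cos (v.re * l) with hθ
  have habs : |-(v.im * l)| = |v.im| * l := by rw [abs_neg, abs_mul, abs_of_nonneg hl]
  have h1 : |r - 1| ≤ 2 * (|v.im| * l) := by
    rw [← habs]
    apply Real.abs_exp_sub_one_le
    rw [habs]; exact hb
  have hr0 : 0 ≤ r := (Real.exp_pos _).le
  have hre : r ≤ Real.exp 1 := by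
    apply Real.exp_le_exp.mpr
    have := le_abs_self (-(v.im * l))
    linarith
  have hθ1 : θ ≤ 1 := Real.cos_le_one _
  have he3 : Real.exp 1 ≤ 3 := by
    have := Real.exp_one_lt_d9
    linarith
  have h2 := abs_le.mp h1
  have h3 : r * (1 - θ) ≤ Real.exp 1 * (1 - θ) := by
    apply mul_le_mul_of_nonneg_right hre
    linarith
  have h4 : r ^ 2 - 1 ≤ 8 * (|v.im| * l) := by
    have e1 : r ^ 2 - 1 = (r - 1) * (r + 1) := by ring
    rw [e1]
    have e2 : (r - 1) * (r + 1) ≤ (2 * (|v.im| * l)) * (r + 1) := by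
      apply mul_le_mul_of_nonneg_right h2.2
      linarith
    have e3 : (2 * (|v.im| * l)) * (r + 1) ≤ (2 * (|v.im| * l)) * 4 := by
      apply mul_le_mul_of_nonneg_left _ (by positivity)
      linarith
    linarith
  nlinarith

/-- `∑ (1 - cos(a log p)) / p` -/
theorem fv_cos (hM : Stmt_MER) (hM1 : Stmt_MER1) (hM2 : Stmt_MER2) : ∃ C : ℝ, 0 ≤ C ∧
    ∀ X : ℝ, 100 ≤ X → ∀ a : ℝ,
      ∑ p ∈ PA X, (1 - Real.cos (a * Real.log p)) / (p : ℝ) ≤
        2 * Real.log (1 + |a| * Real.log X) + C := by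
  obtain ⟨C0, h0⟩ := hM
  obtain ⟨C1, h1⟩ := hM1
  obtain ⟨C2, hC2, h2⟩ := hM2
  refine ⟨2 * |C0| + 1 + |C1| + 2 * C2, by positivity, fun X hX a => ?_⟩
  have hX0 : 0 < X := by linarith
  have hlX : 1 ≤ Real.log X := by
    rw [← Real.log_exp 1]
    apply Real.log_le_log (Real.exp_pos _)
    have := Real.exp_one_lt_d9
    linarith
  have hPA : PA X ⊆ (Icc 1 ⌊X⌋₊).filter Nat.Prime := by
    intro p hp
    unfold PA at hp
    rw [Finset.mem_filter] at hp ⊢
    exact ⟨hp.1, hp.2.1⟩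
  -- the small part
  have small : ∀ z : ℝ, 1 ≤ z → |a| * Real.log z ≤ 1 → |a| ≤ 1 →
      ∑ p ∈ (Icc 1 ⌊z⌋₊).filter Nat.Prime, (1 - Real.cos (a * Real.log p)) / (p : ℝ) ≤
        1 + |C1| := by
    intro z hz haz ha1
    calc ∑ p ∈ (Icc 1 ⌊z⌋₊).filter Nat.Prime, (1 - Real.cos (a * Real.log p)) / (p : ℝ)
        ≤ ∑ p ∈ (Icc 1 ⌊z⌋₊).filter Nat.Prime, |a| * (Real.log p / (p : ℝ)) := by
          apply Finset.sum_le_sum
          intro p hp
          rw [Finset.mem_filter, Finset.mem_Icc] at hp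
          have hp1 : (1 : ℝ) ≤ p := by exact_mod_cast hp.1.1
          have hpz : (p : ℝ) ≤ z := (Nat.le_floor_iff (by linarith)).mp hp.1.2
          have hl : 0 ≤ Real.log p := Real.log_nonneg hp1
          have hlz : Real.log p ≤ Real.log z := Real.log_le_log (by linarith) hpz
          have e1 := Real.one_sub_sq_div_two_le_cos (x := a * Real.log p)
          have e2 : (a * Real.log p) ^ 2 = (|a| * Real.log p) * (|a| * Real.log p) := by
            rw [mul_pow, ← sq_abs a]; ring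
          have e3 : |a| * Real.log p ≤ 1 :=
            (mul_le_mul_of_nonneg_left hlz (abs_nonneg a)).trans haz
          have e4 : 0 ≤ |a| * Real.log p := by positivity
          have e5 : 1 - Real.cos (a * Real.log p) ≤ |a| * Real.log p := by
            rw [e2] at e1
            nlinarith
          rw [← mul_div_assoc]
          apply div_le_div_of_nonneg_right e5 (by linarith)
      _ = |a| * ∑ p ∈ (Icc 1 ⌊z⌋₊).filter Nat.Prime, (Real.log p / (p : ℝ)) := by
          rw [Finset.mul_sum]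
      _ ≤ |a| * (Real.log z + |C1|) := by
          apply mul_le_mul_of_nonneg_left _ (abs_nonneg a)
          have := h1 z hz
          have := le_abs_self C1
          linarith
      _ ≤ 1 + |C1| := by
          rw [mul_add]
          have := mul_le_mul_of_nonneg_right ha1 (abs_nonneg C1)
          linarith
  have hnn : ∀ p : ℕ, 0 ≤ (1 - Real.cos (a * Real.log p)) / (p : ℝ) := by
    intro p
    have := Real.cos_le_one (a * Real.log p)
    apply div_nonneg (by linarith) (by positivity)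
  have hle2 : ∀ p : ℕ, (1 - Real.cos (a * Real.log p)) / (p : ℝ) ≤ 2 * (1 / (p : ℝ)) := by
    intro p
    have := Real.neg_one_le_cos (a * Real.log p)
    rw [mul_one_div]
    apply div_le_div_of_nonneg_right (by linarith) (by positivity)
  have ha0 : 0 ≤ |a| * Real.log X := by positivity
  have hlog0 : 0 ≤ Real.log (1 + |a| * Real.log X) := Real.log_nonneg (by linarith)
  rcases le_or_gt (|a| * Real.log X) 1 with hc1 | hc1
  · have ha1 : |a| ≤ 1 := by nlinarith [abs_nonneg a]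
    have := small X (by linarith) hc1 ha1
    have h3 : ∑ p ∈ PA X, (1 - Real.cos (a * Real.log p)) / (p : ℝ) ≤
        ∑ p ∈ (Icc 1 ⌊X⌋₊).filter Nat.Prime, (1 - Real.cos (a * Real.log p)) / (p : ℝ) :=
      Finset.sum_le_sum_of_subset_of_nonneg hPA fun p _ _ => hnn p
    have := abs_nonneg C0
    linarith
  rcases lt_or_ge 1 |a| with hc2 | hc2
  · have h3 : ∑ p ∈ PA X, (1 - Real.cos (a * Real.log p)) / (p : ℝ) ≤
        2 * ∑ p ∈ (Icc 1 ⌊X⌋₊).filter Nat.Prime, (1 / (p : ℝ)) := by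
      rw [Finset.mul_sum]
      calc ∑ p ∈ PA X, (1 - Real.cos (a * Real.log p)) / (p : ℝ)
          ≤ ∑ p ∈ PA X, 2 * (1 / (p : ℝ)) := Finset.sum_le_sum fun p _ => hle2 p
        _ ≤ _ := Finset.sum_le_sum_of_subset_of_nonneg hPA fun p _ _ => by positivity
    have h4 := h0 X (by linarith)
    have h5 : Real.log (Real.log X) ≤ Real.log (1 + |a| * Real.log X) := by
      apply Real.log_le_log (by linarith)
      nlinarith
    have := le_abs_self C0
    have := abs_nonneg C1
    linarith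
  · -- middle case
    have hapos : 0 < |a| := by
      by_contra h
      have : |a| = 0 := le_antisymm (not_lt.mp h) (abs_nonneg a)
      rw [this] at hc1
      linarith
    set z : ℝ := Real.exp (1 / |a|) with hz
    have hlz : Real.log z = 1 / |a| := Real.log_exp _
    have hinv : 1 ≤ 1 / |a| := by
      rw [le_div_iff₀ hapos]; linarith
    have hz2 : 2 ≤ z := by
      have h1 : Real.exp 1 ≤ z := Real.exp_le_exp.mpr hinv
      have h2 := Real.exp_one_gt_d9
      linarith
    have hzX : z ≤ X := by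
      rw [← Real.exp_log hX0]
      apply Real.exp_le_exp.mpr
      rw [div_le_iff₀ hapos]
      linarith
    have hs := small z (by linarith) (by rw [hlz]; field_simp; exact le_rfl) hc2
    have hb := h2 z X hz2 hzX
    rw [hlz] at hb
    have hq : Real.log X / (1 / |a|) = |a| * Real.log X := by field_simp
    rw [hq] at hb
    have hsub : PA X ⊆ ((Icc 1 ⌊z⌋₊).filter Nat.Prime) ∪
        ((Icc 1 ⌊X⌋₊).filter (fun p : ℕ => p.Prime ∧ z < (p : ℝ))) := by
      intro p hp
      have := hPA hp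
      rw [Finset.mem_filter, Finset.mem_Icc] at this
      rw [Finset.mem_union, Finset.mem_filter, Finset.mem_filter, Finset.mem_Icc, Finset.mem_Icc]
      rcases le_or_gt (p : ℝ) z with h | h
      · exact Or.inl ⟨⟨this.1.1, Nat.le_floor h⟩, this.2⟩
      · exact Or.inr ⟨this.1, this.2, h⟩
    have h3 : ∑ p ∈ PA X, (1 - Real.cos (a * Real.log p)) / (p : ℝ) ≤
        ∑ p ∈ (Icc 1 ⌊z⌋₊).filter Nat.Prime, (1 - Real.cos (a * Real.log p)) / (p : ℝ) +
        ∑ p ∈ (Icc 1 ⌊X⌋₊).filter (fun p : ℕ => p.Prime ∧ z < (p : ℝ)),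
          (1 - Real.cos (a * Real.log p)) / (p : ℝ) := by
      refine (Finset.sum_le_sum_of_subset_of_nonneg hsub fun p _ _ => hnn p).trans ?_
      rw [← Finset.sum_union_inter]
      have : 0 ≤ ∑ p ∈ ((Icc 1 ⌊z⌋₊).filter Nat.Prime) ∩
        ((Icc 1 ⌊X⌋₊).filter (fun p : ℕ => p.Prime ∧ z < (p : ℝ))),
          (1 - Real.cos (a * Real.log p)) / (p : ℝ) := Finset.sum_nonneg fun p _ => hnn p
      linarith
    have h4 : ∑ p ∈ (Icc 1 ⌊X⌋₊).filter (fun p : ℕ => p.Prime ∧ z < (p : ℝ)),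
          (1 - Real.cos (a * Real.log p)) / (p : ℝ) ≤
        2 * ∑ p ∈ (Icc 1 ⌊X⌋₊).filter (fun p : ℕ => p.Prime ∧ z < (p : ℝ)), (1 / (p : ℝ)) := by
      rw [Finset.mul_sum]
      exact Finset.sum_le_sum fun p _ => hle2 p
    have h5 : Real.log (|a| * Real.log X) ≤ Real.log (1 + |a| * Real.log X) :=
      Real.log_le_log (by linarith) (by linarith)
    have := abs_nonneg C0
    linarith

theorem stmt_FV (hM : Stmt_MER) (hML : Stmt_MERL) (hM1 : Stmt_MER1) (hM2 : Stmt_MER2) :
    Stmt_FV := by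
  obtain ⟨C, hC, hcos⟩ := fv_cos hM hM1 hM2
  obtain ⟨CL, hL⟩ := hML
  obtain ⟨C1, h1⟩ := hM1
  refine ⟨3 / 4 * (|CL| + 100) + 4 * (1 + |C1|) + 3 * C + 1, by positivity, fun X hX v hv => ?_⟩
  have hX0 : 0 < X := by linarith
  have hlX : 1 ≤ Real.log X := by
    rw [← Real.log_exp 1]
    apply Real.log_le_log (Real.exp_pos _)
    have := Real.exp_one_lt_d9
    linarith
  have hvl : |v.im| * Real.log X ≤ 1 := by
    rw [le_div_iff₀ (by linarith)] at hv
    exact hv
  have hv1 : |v.im| ≤ 1 := hv.trans (by rw [div_le_one (by linarith)]; exact hlX)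
  have hPA : ∀ p ∈ PA X, 1 ≤ p ∧ (p : ℝ) ≤ X ∧ p.Prime ∧ 100 < (p : ℝ) := by
    intro p hp
    unfold PA at hp
    rw [Finset.mem_filter, Finset.mem_Icc] at hp
    exact ⟨hp.1.1, (Nat.le_floor_iff hX0.le).mp hp.1.2, hp.2.1, hp.2.2⟩
  have hterm : ∑ p ∈ PA X, (‖1 - (p : ℂ) ^ (I * v) / 2‖ ^ 2 - 1) / (p : ℝ) ≤
      -(3 / 4) * ∑ p ∈ PA X, (1 / (p : ℝ)) + 4 * |v.im| * ∑ p ∈ PA X, (Real.log p / (p : ℝ)) +
        Real.exp 1 * ∑ p ∈ PA X, (1 - Real.cos (v.re * Real.log p)) / (p : ℝ) := by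
    rw [Finset.mul_sum, Finset.mul_sum, Finset.mul_sum, ← Finset.sum_add_distrib,
      ← Finset.sum_add_distrib]
    apply Finset.sum_le_sum
    intro p hp
    obtain ⟨p1, p2, p3, p4⟩ := hPA p hp
    have hp0 : (0 : ℝ) < p := by linarith
    have hl : Real.log p ≤ Real.log X := Real.log_le_log hp0 p2
    have hb : |v.im| * Real.log p ≤ 1 :=
      (mul_le_mul_of_nonneg_left hl (abs_nonneg _)).trans hvl
    have ht := fv_term p p1 v hb
    rw [div_le_iff₀ hp0]
    have : (-(3 / 4) * (1 / (p : ℝ)) + 4 * |v.im| * (Real.log p / (p : ℝ)) +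
        Real.exp 1 * ((1 - Real.cos (v.re * Real.log p)) / (p : ℝ))) * (p : ℝ) =
        -(3 / 4) + 4 * (|v.im| * Real.log p) +
          Real.exp 1 * (1 - Real.cos (v.re * Real.log p)) := by
      field_simp
    rw [this]
    exact ht
  have hA : Real.log (Real.log X) - |CL| - 100 ≤ ∑ p ∈ PA X, (1 / (p : ℝ)) := by
    have h2 := hL X (by linarith)
    have hsub : (Icc 1 ⌊X⌋₊).filter Nat.Prime ⊆ Icc 1 100 ∪ PA X := by
      intro p hp
      rw [Finset.mem_filter] at hp
      rw [Finset.mem_union]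
      rcases le_or_gt p 100 with h | h
      · exact Or.inl (Finset.mem_Icc.mpr ⟨(Finset.mem_Icc.mp hp.1).1, h⟩)
      · refine Or.inr ?_
        unfold PA
        rw [Finset.mem_filter]
        exact ⟨hp.1, hp.2, by exact_mod_cast h⟩
    have h3 : ∑ p ∈ (Icc 1 ⌊X⌋₊).filter Nat.Prime, (1 / (p : ℝ)) ≤
        ∑ p ∈ (Icc 1 100 : Finset ℕ), (1 / (p : ℝ)) + ∑ p ∈ PA X, (1 / (p : ℝ)) := by
      refine (Finset.sum_le_sum_of_subset_of_nonneg hsub fun p _ _ => by positivity).trans ?_
      rw [← Finset.sum_union_inter]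
      have : 0 ≤ ∑ p ∈ (Icc 1 100 : Finset ℕ) ∩ PA X, (1 / (p : ℝ)) :=
        Finset.sum_nonneg fun p _ => by positivity
      linarith
    have h4 : ∑ p ∈ (Icc 1 100 : Finset ℕ), (1 / (p : ℝ)) ≤ 100 := by
      calc ∑ p ∈ (Icc 1 100 : Finset ℕ), (1 / (p : ℝ)) ≤ ∑ p ∈ (Icc 1 100 : Finset ℕ), (1 : ℝ) := by
            apply Finset.sum_le_sum
            intro p hp
            rw [Finset.mem_Icc] at hp
            have : (1 : ℝ) ≤ p := by exact_mod_cast hp.1
            rw [div_le_one (by linarith)]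
            exact this
        _ = 100 := by simp
    have := le_abs_self CL
    linarith
  have hB : |v.im| * ∑ p ∈ PA X, (Real.log p / (p : ℝ)) ≤ 1 + |C1| := by
    have h2 := h1 X (by linarith)
    have h3 : ∑ p ∈ PA X, (Real.log p / (p : ℝ)) ≤
        ∑ p ∈ (Icc 1 ⌊X⌋₊).filter Nat.Prime, (Real.log p / (p : ℝ)) := by
      apply Finset.sum_le_sum_of_subset_of_nonneg
      · intro p hp
        unfold PA at hp
        rw [Finset.mem_filter] at hp ⊢
        exact ⟨hp.1, hp.2.1⟩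
      · intro p _ _
        have := Real.log_natCast_nonneg p
        positivity
    calc |v.im| * ∑ p ∈ PA X, (Real.log p / (p : ℝ)) ≤ |v.im| * (Real.log X + |C1|) := by
          apply mul_le_mul_of_nonneg_left _ (abs_nonneg _)
          have := le_abs_self C1
          linarith
      _ ≤ 1 + |C1| := by
          rw [mul_add]
          have := mul_le_mul_of_nonneg_right hv1 (abs_nonneg C1)
          linarith
  have hD := hcos X hX v.re
  have he3 : Real.exp 1 ≤ 3 := by
    have := Real.exp_one_lt_d9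
    linarith
  have he0 := Real.exp_pos 1
  have ha0 : 0 ≤ |v.re| * Real.log X := by positivity
  have hlog0 : 0 ≤ Real.log (1 + |v.re| * Real.log X) := Real.log_nonneg (by linarith)
  have hE : Real.exp 1 * ∑ p ∈ PA X, (1 - Real.cos (v.re * Real.log p)) / (p : ℝ) ≤
      6 * Real.log (1 + |v.re| * Real.log X) + 3 * C := by
    calc Real.exp 1 * ∑ p ∈ PA X, (1 - Real.cos (v.re * Real.log p)) / (p : ℝ)
        ≤ Real.exp 1 * (2 * Real.log (1 + |v.re| * Real.log X) + C) :=
          mul_le_mul_of_nonneg_left hD he0.le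
      _ ≤ 3 * (2 * Real.log (1 + |v.re| * Real.log X) + C) :=
          mul_le_mul_of_nonneg_right he3 (by positivity)
      _ = _ := by ring
  nlinarith

end HZS
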