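import Pool.Agent.Work.MP_c51bc2_nt.Interface

/-! Block HP of MP_c51bc2_nt: the pointwise bound for an oscillating integral. -/

open Finset Complex MeasureTheory

namespace HZS

theorem hp_cs (g : ℝ → ℂ) (hg : Continuous g) (h : ℝ) (hh : 0 < h) :
    ‖∫ u in (0 : ℝ)..h, g u‖ ^ 2 ≤ h * ∫ u in (0 : ℝ)..h, ‖g u‖ ^ 2 := by
  set A : ℝ := ∫ u in (0 : ℝ)..h, ‖g u‖ with hA
  have h1 : ‖∫ u in (0 : ℝ)..h, g u‖ ≤ A :=
    intervalIntegral.norm_integral_le_integral_norm hh.le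
  have hi1 : IntervalIntegrable (fun u => ‖g u‖) volume 0 h := hg.norm.intervalIntegrable 0 h
  have hi2 : IntervalIntegrable (fun u => ‖g u‖ ^ 2) volume 0 h :=
    (hg.norm.pow 2).intervalIntegrable 0 h
  have h2 : 0 ≤ ∫ u in (0 : ℝ)..h, (‖g u‖ - A / h) ^ 2 :=
    intervalIntegral.integral_nonneg hh.le fun u _ => sq_nonneg _
  have h3 : ∫ u in (0 : ℝ)..h, (‖g u‖ - A / h) ^ 2 =
      (∫ u in (0 : ℝ)..h, ‖g u‖ ^ 2) - 2 * (A / h) * A + h * (A / h) ^ 2 := by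
    have e : (fun u : ℝ => (‖g u‖ - A / h) ^ 2) =
        fun u : ℝ => (‖g u‖ ^ 2 - 2 * (A / h) * ‖g u‖) + (A / h) ^ 2 := by
      funext u; ring
    rw [e, intervalIntegral.integral_add (hi2.sub (hi1.const_mul _))
        (intervalIntegrable_const), intervalIntegral.integral_sub hi2 (hi1.const_mul _),
      intervalIntegral.integral_const_mul, intervalIntegral.integral_const]
    simp only [sub_zero, smul_eq_mul]
    rw [hA]
  have h4 : A ^ 2 ≤ h * ∫ u in (0 : ℝ)..h, ‖g u‖ ^ 2 := by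
    rw [h3] at h2
    have e2 : h * ((∫ u in (0 : ℝ)..h, ‖g u‖ ^ 2) - 2 * (A / h) * A + h * (A / h) ^ 2) =
        h * (∫ u in (0 : ℝ)..h, ‖g u‖ ^ 2) - A ^ 2 := by
      field_simp
      ring
    have e3 := mul_nonneg hh.le h2
    rw [e2] at e3
    linarith
  have h5 : ‖∫ u in (0 : ℝ)..h, g u‖ ^ 2 ≤ A ^ 2 :=
    pow_le_pow_left₀ (norm_nonneg _) h1 2
  linarith

theorem hp_exp (w u : ℝ) : ‖cexp (I * ((u * w : ℝ) : ℂ))‖ = 1 := by
  rw [mul_comm, Complex.norm_exp_ofReal_mul_I]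

theorem stmt_HP : Stmt_HP := by
  intro f f' h w hf hf' hh
  have hfc : Continuous f := continuous_iff_continuousAt.2 fun u => (hf u).continuousAt
  have hEc : Continuous (fun u : ℝ => cexp (I * ((u * w : ℝ) : ℂ))) := by fun_prop
  set H : ℂ := ∫ u in (0 : ℝ)..h, cexp (I * ((u * w : ℝ) : ℂ)) * f u with hH
  have h1 : ‖H‖ ^ 2 ≤ h * ∫ u in (0 : ℝ)..h, ‖f u‖ ^ 2 := by
    have := hp_cs (fun u => cexp (I * ((u * w : ℝ) : ℂ)) * f u) (hEc.mul hfc) h hh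
    simpa only [norm_mul, hp_exp, one_mul] using this
  have h2 : ‖∫ u in (0 : ℝ)..h, cexp (I * ((u * w : ℝ) : ℂ)) * f' u‖ ^ 2 ≤
      h * ∫ u in (0 : ℝ)..h, ‖f' u‖ ^ 2 := by
    have := hp_cs (fun u => cexp (I * ((u * w : ℝ) : ℂ)) * f' u) (hEc.mul hf') h hh
    simpa only [norm_mul, hp_exp, one_mul] using this
  set K : ℂ := ∫ u in (0 : ℝ)..h, cexp (I * ((u * w : ℝ) : ℂ)) * f' u with hK
  have hd : ∀ u : ℝ, HasDerivAt (fun u : ℝ => cexp (I * ((u * w : ℝ) : ℂ)) * f u)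
      (I * w * (cexp (I * ((u * w : ℝ) : ℂ)) * f u) + cexp (I * ((u * w : ℝ) : ℂ)) * f' u) u := by
    intro u
    have e1 : HasDerivAt (fun u : ℝ => ((u * w : ℝ) : ℂ)) ((w : ℂ)) u := by
      have : HasDerivAt (fun u : ℝ => u * w) w u := by
        simpa using (hasDerivAt_id u).mul_const w
      exact this.ofReal_comp
    have e2 : HasDerivAt (fun u : ℝ => I * ((u * w : ℝ) : ℂ)) (I * w) u := e1.const_mul I
    have e3 := e2.cexp
    have e4 := e3.mul (hf u)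
    refine e4.congr_deriv ?_
    ring
  have hint : ∫ u in (0 : ℝ)..h, (I * w * (cexp (I * ((u * w : ℝ) : ℂ)) * f u) +
      cexp (I * ((u * w : ℝ) : ℂ)) * f' u) =
      cexp (I * ((h * w : ℝ) : ℂ)) * f h - cexp (I * ((0 * w : ℝ) : ℂ)) * f 0 := by
    refine intervalIntegral.integral_eq_sub_of_hasDerivAt (fun u _ => hd u) ?_
    exact (((hEc.mul hfc).const_mul _).add (hEc.mul hf')).intervalIntegrable _ _
  have hc1 : Continuous (fun u : ℝ => I * w * (cexp (I * ((u * w : ℝ) : ℂ)) * f u)) :=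
    continuous_const.mul (hEc.mul hfc)
  have hc2 : Continuous (fun u : ℝ => cexp (I * ((u * w : ℝ) : ℂ)) * f' u) := hEc.mul hf'
  have hsplit : ∫ u in (0 : ℝ)..h, (I * w * (cexp (I * ((u * w : ℝ) : ℂ)) * f u) +
      cexp (I * ((u * w : ℝ) : ℂ)) * f' u) = I * w * H + K := by
    rw [intervalIntegral.integral_add (hc1.intervalIntegrable _ _)
      (hc2.intervalIntegrable _ _), intervalIntegral.integral_const_mul]
  have h3 : I * w * H = cexp (I * ((h * w : ℝ) : ℂ)) * f h - f 0 - K := by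
    have e : cexp (I * ((0 * w : ℝ) : ℂ)) = 1 := by simp
    rw [hsplit, e, one_mul] at hint
    linear_combination hint
  have h4 : |w| * ‖H‖ ≤ ‖f h‖ + ‖f 0‖ + ‖K‖ := by
    have e : ‖I * w * H‖ = |w| * ‖H‖ := by
      rw [norm_mul, norm_mul, Complex.norm_I, one_mul, Complex.norm_real, Real.norm_eq_abs]
    rw [← e, h3]
    refine (norm_sub_le _ _).trans ?_
    refine add_le_add_left ?_ _ |>.trans le_rfl
    refine (norm_sub_le _ _).trans ?_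
    rw [norm_mul, hp_exp, one_mul]
  have h5 : w ^ 2 * ‖H‖ ^ 2 ≤ 3 * (‖f 0‖ ^ 2 + ‖f h‖ ^ 2 + ‖K‖ ^ 2) := by
    have e : w ^ 2 * ‖H‖ ^ 2 = (|w| * ‖H‖) ^ 2 := by rw [mul_pow, sq_abs]
    rw [e]
    have e2 : (|w| * ‖H‖) ^ 2 ≤ (‖f h‖ + ‖f 0‖ + ‖K‖) ^ 2 :=
      pow_le_pow_left₀ (by positivity) h4 2
    nlinarith [sq_nonneg (‖f h‖ - ‖f 0‖), sq_nonneg (‖f h‖ - ‖K‖), sq_nonneg (‖f 0‖ - ‖K‖)]
  have h6 : h ^ 2 * (w ^ 2 * ‖H‖ ^ 2) ≤
      h ^ 2 * (3 * (‖f 0‖ ^ 2 + ‖f h‖ ^ 2 + h * ∫ u in (0 : ℝ)..h, ‖f' u‖ ^ 2)) := by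
    refine mul_le_mul_of_nonneg_left ?_ (sq_nonneg h)
    linarith
  nlinarith [h1, h6]

end HZS
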