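import Pool.Agent.Work.MP_c51bc2_nt.Interface

/-!
# MP_c51bc2_nt, block JF: the formula for the short integral (helper46)
-/

open Finset Complex MeasureTheory

namespace HZS

noncomputable section

theorem JF_cont (a y : ℝ) (z : ℂ) :
    Continuous (fun u : ℝ => z * cexp (I * ((u * y : ℝ) : ℂ)) * (a : ℂ)) := by
  fun_prop

theorem JF_int (t h L : ℝ) (ψ : ℝ → ℝ) (N : ℕ) :
    ∫ u in (0 : ℝ)..h, 2 * (ph t * ∑ n ∈ Icc 1 N, mo n t *
      cexp (I * ((u * (dth t - Real.log n) : ℝ) : ℂ)) *
        (ψ ((dth t - Real.log n) / L) : ℂ)).re =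
    2 * (ph t * ∑ n ∈ Icc 1 N, mo n t * GG ψ L h (dth t - Real.log n)).re := by
  rw [intervalIntegral.integral_const_mul]
  congr 1
  have hc : Continuous (fun u : ℝ => ph t * ∑ n ∈ Icc 1 N, mo n t *
      cexp (I * ((u * (dth t - Real.log n) : ℝ) : ℂ)) *
        (ψ ((dth t - Real.log n) / L) : ℂ)) := by
    refine continuous_const.mul (continuous_finsetSum _ fun n _ => ?_)
    exact JF_cont _ _ _
  have h1 := Complex.reCLM.intervalIntegral_comp_comm (hc.intervalIntegrable (μ := volume) 0 h)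
  simp only [Complex.reCLM_apply] at h1
  rw [h1]
  congr 1
  rw [intervalIntegral.integral_const_mul]
  congr 1
  rw [intervalIntegral.integral_finsetSum
    (fun n _ => (JF_cont _ _ _).intervalIntegrable (μ := volume) 0 h)]
  refine Finset.sum_congr rfl fun n _ => ?_
  rw [intervalIntegral.integral_mul_const, intervalIntegral.integral_const_mul]
  unfold GG
  ring

theorem stmt_JF (h1 : Stmt_AFE) (h2 : Stmt_ZC) (h3 : Stmt_PHS) : Stmt_JF := by
  intro k ψ hk
  obtain ⟨C, T0, hC, hT0, hA⟩ := h1 k ψ hk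
  obtain ⟨-, -, hph, -⟩ := h3
  refine ⟨C, T0, hC, hT0, ?_⟩
  intro T t h hT ht ht2 hh hh1
  set f : ℝ → ℝ := fun u => 2 * (ph t * ∑ n ∈ Icc 1 (N0 T), mo n t *
      cexp (I * ((u * (dth t - Real.log n) : ℝ) : ℂ)) *
        (ψ ((dth t - Real.log n) / Real.log T) : ℂ)).re with hf
  have hfc : Continuous f := by
    rw [hf]
    refine continuous_const.mul (Complex.continuous_re.comp ?_)
    refine continuous_const.mul (continuous_finsetSum _ fun n _ => ?_)
    exact JF_cont _ _ _
  have hZc : Continuous (fun u => Z (t + u)) := h2.comp (continuous_const.add continuous_id)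
  have hJ : J h t = ∫ u in (0 : ℝ)..h, Z (t + u) := by
    unfold J
    rw [intervalIntegral.integral_comp_add_left, add_zero]
  have hbound : ‖∫ u in (0 : ℝ)..h, (Z (t + u) - f u)‖ ≤ C / Real.sqrt T * |h - 0| := by
    refine intervalIntegral.norm_integral_le_of_norm_le_const fun u hu => ?_
    rw [Set.uIoc_of_le hh] at hu
    rw [Real.norm_eq_abs]
    exact hA T t u hT ht ht2 hu.1.le (hu.2.trans hh1)
  rw [intervalIntegral.integral_sub (hZc.intervalIntegrable _ _) (hfc.intervalIntegrable _ _),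
    ← hJ, hf, JF_int, sub_zero, abs_of_nonneg hh, Real.norm_eq_abs] at hbound
  have hCT : 0 ≤ C / Real.sqrt T := by positivity
  have hb2 : C / Real.sqrt T * h ≤ C / Real.sqrt T := mul_le_of_le_one_right hCT hh1
  set S := ∑ n ∈ Icc 1 (N0 T), mo n t * GG ψ (Real.log T) h (dth t - Real.log n) with hS
  have h4 : |(ph t * S).re| ≤ ‖S‖ := by
    refine (Complex.abs_re_le_norm _).trans ?_
    rw [norm_mul, hph, one_mul]
  have h5 : |J h t| ≤ |J h t - 2 * (ph t * S).re| + |2 * (ph t * S).re| := by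
    have := abs_add_le (J h t - 2 * (ph t * S).re) (2 * (ph t * S).re)
    simpa using this
  rw [abs_mul, abs_two] at h5
  linarith

end

end HZS
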