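import Pool.Agent.Work.MP_c51bc2_nt.Interface

/-! # Block KF: the Fourier representation of the coefficients -/

open Finset Complex MeasureTheory

namespace HZS

noncomputable section

/-- the exponential `e^{ix}` -/
def KF_e (x : ℝ) : ℂ := cexp (I * (x : ℂ))

theorem KF_e_add (x y : ℝ) : KF_e (x + y) = KF_e x * KF_e y := by
  unfold KF_e
  rw [← Complex.exp_add]
  congr 1
  push_cast
  ring

theorem KF_e_norm (x : ℝ) : ‖KF_e x‖ = 1 := by
  unfold KF_e
  rw [mul_comm]
  exact Complex.norm_exp_ofReal_mul_I x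

theorem KF_e_cont : Continuous KF_e := by
  unfold KF_e
  fun_prop

theorem KF_e_der (c w : ℝ) :
    HasDerivAt (fun w : ℝ => KF_e (c * w)) (I * (c : ℂ) * KF_e (c * w)) w := by
  have h1 : HasDerivAt (fun w : ℝ => ((c * w : ℝ) : ℂ)) ((c * 1 : ℝ) : ℂ) w :=
    ((hasDerivAt_id w).const_mul c).ofReal_comp
  have h2 := (h1.const_mul I).cexp
  unfold KF_e
  convert h2 using 1
  push_cast
  ring

/-- integrability of continuous functions with decay -/
theorem KF_int (f : ℝ → ℂ) (hf : Continuous f) (K : ℝ) (hK : ∀ s, ‖f s‖ * (1 + |s|) ^ 2 ≤ K) :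
    Integrable f := by
  refine Integrable.mono' ((integrable_inv_one_add_sq).const_mul K) hf.aestronglyMeasurable
    (Filter.Eventually.of_forall fun s => ?_)
  have h1 := hK s
  have h2 : 0 < 1 + s ^ 2 := by positivity
  have h3 : 1 + s ^ 2 ≤ (1 + |s|) ^ 2 := by
    have := abs_nonneg s
    nlinarith [sq_abs s]
  rw [← div_eq_mul_inv, le_div_iff₀ h2]
  exact (mul_le_mul_of_nonneg_left h3 (norm_nonneg _)).trans h1

theorem KF_A (g : ℝ → ℂ) (hg : Continuous g) (C : ℝ) (hC : ∀ s, ‖g s‖ * (1 + |s|) ^ 3 ≤ C)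
    (L w : ℝ) :
    HasDerivAt (fun w => ∫ s, g s * KF_e (s / L * w))
      (∫ s, g s * (I * ((s / L : ℝ) : ℂ)) * KF_e (s / L * w)) w := by
  have hbd : ∀ s : ℝ, ‖g s * (I * ((s / L : ℝ) : ℂ))‖ * (1 + |s|) ^ 2 ≤ C / |L| := by
    intro s
    rw [norm_mul, norm_mul, Complex.norm_I, one_mul, Complex.norm_real, Real.norm_eq_abs, abs_div]
    have h1 := hC s
    have h2 : ‖g s‖ * (|s| * (1 + |s|) ^ 2) ≤ C := by
      refine le_trans (mul_le_mul_of_nonneg_left ?_ (norm_nonneg _)) h1
      have := abs_nonneg s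
      nlinarith [sq_nonneg (1 + |s|)]
    calc ‖g s‖ * (|s| / |L|) * (1 + |s|) ^ 2 = ‖g s‖ * (|s| * (1 + |s|) ^ 2) / |L| := by ring
      _ ≤ C / |L| := div_le_div_of_nonneg_right h2 (abs_nonneg _)
  have hcF : ∀ w : ℝ, Continuous (fun s : ℝ => g s * KF_e (s / L * w)) := fun w =>
    hg.mul (KF_e_cont.comp (by fun_prop))
  have hcF' : Continuous (fun s : ℝ => g s * (I * ((s / L : ℝ) : ℂ)) * KF_e (s / L * w)) :=
    (hg.mul (by fun_prop)).mul (KF_e_cont.comp (by fun_prop))
  refine (hasDerivAt_integral_of_dominated_loc_of_deriv_le (s := Set.univ)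
    (F' := fun w s => g s * (I * ((s / L : ℝ) : ℂ)) * KF_e (s / L * w))
    (bound := fun s => C / |L| * (1 + s ^ 2)⁻¹) Filter.univ_mem ?_ ?_ ?_ ?_ ?_ ?_).2
  · exact Filter.Eventually.of_forall fun w => (hcF w).aestronglyMeasurable
  · refine KF_int _ (hcF w) C fun s => ?_
    rw [norm_mul, KF_e_norm, mul_one]
    refine le_trans (mul_le_mul_of_nonneg_left ?_ (norm_nonneg _)) (hC s)
    have := abs_nonneg s
    nlinarith [sq_nonneg (1 + |s|)]
  · exact hcF'.aestronglyMeasurable
  · refine Filter.Eventually.of_forall fun s w' _ => ?_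
    rw [norm_mul, KF_e_norm, mul_one]
    have h1 := hbd s
    have h2 : 0 < 1 + s ^ 2 := by positivity
    have h3 : 1 + s ^ 2 ≤ (1 + |s|) ^ 2 := by
      have := abs_nonneg s
      nlinarith [sq_abs s]
    rw [← div_eq_mul_inv, le_div_iff₀ h2]
    exact (mul_le_mul_of_nonneg_left h3 (norm_nonneg _)).trans h1
  · exact (integrable_inv_one_add_sq).const_mul _
  · refine Filter.Eventually.of_forall fun s w' _ => ?_
    exact ((KF_e_der (s / L) w').const_mul (g s)).congr_deriv (by ring)

theorem KF_E (g : ℝ → ℂ) (hg : Continuous g) (h w : ℝ) :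
    HasDerivAt (fun w => ∫ u in (0 : ℝ)..h, g u * KF_e (u * w))
      (∫ u in (0 : ℝ)..h, g u * (I * (u : ℂ)) * KF_e (u * w)) w := by
  have hcF : ∀ w : ℝ, Continuous (fun s : ℝ => g s * KF_e (s * w)) := fun w =>
    hg.mul (KF_e_cont.comp (by fun_prop))
  have hcF' : Continuous (fun s : ℝ => g s * (I * (s : ℂ)) * KF_e (s * w)) :=
    (hg.mul (by fun_prop)).mul (KF_e_cont.comp (by fun_prop))
  refine (intervalIntegral.hasDerivAt_integral_of_dominated_loc_of_deriv_le (s := Set.univ)
    (F' := fun w s => g s * (I * (s : ℂ)) * KF_e (s * w))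
    (bound := fun s => ‖g s * (I * (s : ℂ))‖) Filter.univ_mem ?_ ?_ ?_ ?_ ?_ ?_).2
  · exact Filter.Eventually.of_forall fun w => (hcF w).aestronglyMeasurable
  · exact (hcF w).intervalIntegrable _ _
  · exact hcF'.aestronglyMeasurable
  · refine Filter.Eventually.of_forall fun s _ w' _ => ?_
    rw [norm_mul _ (KF_e _), KF_e_norm, mul_one]
  · apply Continuous.intervalIntegrable
    exact (hg.mul (by fun_prop)).norm
  · refine Filter.Eventually.of_forall fun s _ w' _ => ?_
    exact ((KF_e_der s w').const_mul (g s)).congr_deriv (by ring)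

/-- the inner integral -/
def KF_H (q : ℝ → ℂ) (L h w s : ℝ) : ℂ :=
  ∫ u in (0 : ℝ)..h, q (u + s / L) * KF_e ((u + s / L) * w)

theorem KF_cc (k : ℝ → ℂ) (L h : ℝ) (b : ℕ → ℂ) (q Φ : ℝ → ℂ) (hq : Continuous q)
    (hΦ : ∀ w, Integrable (fun s => k s * KF_H q L h w s) ∧
      ∫ s, k s * KF_H q L h w s = Φ w) (y : ℝ) (m : ℕ) :
    ∑ d ∈ m.divisors, b d * Φ (y - Real.log m + Real.log d) = cc k L h b q y m := by
  unfold cc
  have h1 : ∀ s : ℝ, k s * ∫ u in (0 : ℝ)..h,
      q (u + s / L) * cexp (I * (((u + s / L) * (y - Real.log m) : ℝ) : ℂ)) *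
        B b ((u + s / L : ℝ) : ℂ) m =
      ∑ d ∈ m.divisors, b d * (k s * KF_H q L h (y - Real.log m + Real.log d) s) := by
    intro s
    have h2 : ∀ u : ℝ, q (u + s / L) * cexp (I * (((u + s / L) * (y - Real.log m) : ℝ) : ℂ)) *
        B b ((u + s / L : ℝ) : ℂ) m =
        ∑ d ∈ m.divisors, b d * (q (u + s / L) *
          KF_e ((u + s / L) * (y - Real.log m + Real.log d))) := by
      intro u
      unfold B
      rw [Finset.mul_sum]
      apply Finset.sum_congr rfl
      intro d hd
      have hd0 : (d : ℂ) ≠ 0 := by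
        exact_mod_cast (Nat.pos_of_mem_divisors hd).ne'
      have h3 : (d : ℂ) ^ (I * ((u + s / L : ℝ) : ℂ)) = KF_e ((u + s / L) * Real.log d) := by
        rw [Complex.cpow_def_of_ne_zero hd0, ← Complex.natCast_log]
        unfold KF_e
        congr 1
        push_cast
        ring
      have h4 : cexp (I * (((u + s / L) * (y - Real.log m) : ℝ) : ℂ)) =
          KF_e ((u + s / L) * (y - Real.log m)) := rfl
      rw [h3, h4, mul_add (u + s / L) (y - Real.log m), KF_e_add]
      ring
    have h5 : ∫ u in (0 : ℝ)..h, q (u + s / L) *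
        cexp (I * (((u + s / L) * (y - Real.log m) : ℝ) : ℂ)) * B b ((u + s / L : ℝ) : ℂ) m =
        ∑ d ∈ m.divisors, b d * KF_H q L h (y - Real.log m + Real.log d) s := by
      simp_rw [h2]
      rw [intervalIntegral.integral_finsetSum]
      · apply Finset.sum_congr rfl
        intro d _
        rw [intervalIntegral.integral_const_mul]
        rfl
      · intro d _
        apply Continuous.intervalIntegrable
        refine continuous_const.mul ((hq.comp (by fun_prop)).mul (KF_e_cont.comp (by fun_prop)))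
    rw [h5, Finset.mul_sum]
    apply Finset.sum_congr rfl
    intro d _
    ring
  simp_rw [h1]
  rw [integral_finsetSum]
  · apply Finset.sum_congr rfl
    intro d _
    rw [integral_const_mul, (hΦ _).2]
  · intro d _
    exact (hΦ _).1.const_mul _

theorem stmt_KF : Stmt_KF := by
  intro k ψ hk L h hL hh
  obtain ⟨C4, hC4⟩ := hk.dec 4
  have hC4' : ∀ s, ‖k s‖ * (1 + |s|) ^ 3 ≤ C4 := by
    intro s
    refine le_trans (mul_le_mul_of_nonneg_left ?_ (norm_nonneg _)) (hC4 s)
    exact pow_le_pow_right₀ (by have := abs_nonneg s; linarith) (by norm_num)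
  have hC4'' : ∀ s, ‖k s‖ * (1 + |s|) ^ 2 ≤ C4 := by
    intro s
    refine le_trans (mul_le_mul_of_nonneg_left ?_ (norm_nonneg _)) (hC4 s)
    exact pow_le_pow_right₀ (by have := abs_nonneg s; linarith) (by norm_num)
  set g1 : ℝ → ℂ := fun s => k s * (I * ((s / L : ℝ) : ℂ)) with hg1
  have hg1c : Continuous g1 := hk.cont.mul (by fun_prop)
  have hg1b : ∀ s, ‖g1 s‖ * (1 + |s|) ^ 3 ≤ C4 / L := by
    intro s
    rw [hg1]
    simp only
    rw [norm_mul, norm_mul, Complex.norm_I, one_mul, Complex.norm_real, Real.norm_eq_abs, abs_div,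
      abs_of_pos hL]
    have h2 : ‖k s‖ * (|s| * (1 + |s|) ^ 3) ≤ C4 := by
      refine le_trans (mul_le_mul_of_nonneg_left ?_ (norm_nonneg _)) (hC4 s)
      have h3 := abs_nonneg s
      have h4 : (1 + |s|) ^ 4 = (1 + |s|) * (1 + |s|) ^ 3 := by ring
      rw [h4]
      exact mul_le_mul_of_nonneg_right (by linarith) (by positivity)
    calc ‖k s‖ * (|s| / L) * (1 + |s|) ^ 3 = ‖k s‖ * (|s| * (1 + |s|) ^ 3) / L := by ring
      _ ≤ C4 / L := div_le_div_of_nonneg_right h2 hL.le
  set A : ℝ → ℂ := fun w => ∫ s, k s * KF_e (s / L * w) with hA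
  set A' : ℝ → ℂ := fun w => ∫ s, g1 s * KF_e (s / L * w) with hA'
  set E : ℝ → ℂ := fun w => ∫ u in (0 : ℝ)..h, (fun _ => (1 : ℂ)) u * KF_e (u * w) with hE
  set E' : ℝ → ℂ := fun w => ∫ u in (0 : ℝ)..h, (fun u : ℝ => (1 : ℂ) * (I * (u : ℂ))) u *
    KF_e (u * w) with hE'
  have hdA : ∀ w, HasDerivAt A (A' w) w := fun w => KF_A k hk.cont C4 hC4' L w
  have hdA' : ∀ w, DifferentiableAt ℝ A' w := fun w =>
    (KF_A g1 hg1c _ hg1b L w).differentiableAt
  have hdE : ∀ w, HasDerivAt E (E' w) w := fun w => KF_E (fun _ => (1 : ℂ)) continuous_const h w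
  have hdE' : ∀ w, DifferentiableAt ℝ E' w := fun w =>
    (KF_E (fun u : ℝ => (1 : ℂ) * (I * (u : ℂ))) (by fun_prop) h w).differentiableAt
  have hcA : Continuous A := continuous_iff_continuousAt.2 fun w => (hdA w).continuousAt
  have hcA' : Continuous A' := continuous_iff_continuousAt.2 fun w => (hdA' w).continuousAt
  have hcE : Continuous E := continuous_iff_continuousAt.2 fun w => (hdE w).continuousAt
  have hcE' : Continuous E' := continuous_iff_continuousAt.2 fun w => (hdE' w).continuousAt
  have hGG : GG ψ L h = fun w => A w * E w := by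
    funext w
    unfold GG
    rw [hk.four]
    congr 1
    · rw [hA]
      simp only
      apply integral_congr_ae
      refine Filter.Eventually.of_forall fun s => ?_
      simp only
      unfold KF_e
      congr 3
      push_cast
      ring
    · rw [hE]
      simp only [one_mul]
      rfl
  refine ⟨fun w => A' w * E w + A w * E' w, ?_, ?_, ?_, ?_⟩
  · intro w
    rw [hGG]
    exact (hdA w).mul (hdE w)
  · exact (hcA'.mul hcE).add (hcA.mul hcE')
  · intro y hy
    unfold GG
    rw [hk.zero (y / L)]
    · simp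
    · rw [div_le_iff₀ hL]
      linarith
  · intro b y m _
    have hI0 : ∀ w, Integrable (fun s => k s * KF_e (s / L * w)) := fun w =>
      KF_int _ (hk.cont.mul (KF_e_cont.comp (by fun_prop))) C4 fun s => by
        rw [norm_mul, KF_e_norm, mul_one]
        exact hC4'' s
    have hI1 : ∀ w, Integrable (fun s => g1 s * KF_e (s / L * w)) := fun w =>
      KF_int _ (hg1c.mul (KF_e_cont.comp (by fun_prop))) (C4 / L) fun s => by
        rw [norm_mul, KF_e_norm, mul_one]
        refine le_trans (mul_le_mul_of_nonneg_left ?_ (norm_nonneg _)) (hg1b s)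
        exact pow_le_pow_right₀ (by have := abs_nonneg s; linarith) (by norm_num)
    constructor
    · rw [hGG]
      apply KF_cc k L h b (fun _ => 1) (fun w => A w * E w) continuous_const
      intro w
      have h1 : ∀ s, k s * KF_H (fun _ => 1) L h w s = k s * KF_e (s / L * w) * E w := by
        intro s
        unfold KF_H
        rw [hE]
        simp only [one_mul]
        have h2 : ∀ u : ℝ, KF_e ((u + s / L) * w) = KF_e (s / L * w) * KF_e (u * w) := by
          intro u
          rw [← KF_e_add]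
          congr 1
          ring
        simp_rw [h2]
        rw [intervalIntegral.integral_const_mul]
        ring
      simp_rw [h1]
      exact ⟨(hI0 w).mul_const _, integral_mul_const _ _⟩
    · apply KF_cc k L h b (fun v => I * (v : ℂ)) (fun w => A' w * E w + A w * E' w)
        (by fun_prop)
      intro w
      have h1 : ∀ s, k s * KF_H (fun v => I * (v : ℂ)) L h w s =
          g1 s * KF_e (s / L * w) * E w + k s * KF_e (s / L * w) * E' w := by
        intro s
        unfold KF_H
        have h2 : ∀ u : ℝ, I * ((u + s / L : ℝ) : ℂ) * KF_e ((u + s / L) * w) =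
            KF_e (s / L * w) * (((1 : ℂ) * (I * (u : ℂ))) * KF_e (u * w)) +
              KF_e (s / L * w) * (I * ((s / L : ℝ) : ℂ)) * ((1 : ℂ) * KF_e (u * w)) := by
          intro u
          have h3 : KF_e ((u + s / L) * w) = KF_e (s / L * w) * KF_e (u * w) := by
            rw [← KF_e_add]
            congr 1
            ring
          rw [h3]
          push_cast
          ring
        simp_rw [h2]
        rw [intervalIntegral.integral_add, intervalIntegral.integral_const_mul,
          intervalIntegral.integral_const_mul]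
        · rw [hE, hE', hg1]
          simp only
          ring
        · apply Continuous.intervalIntegrable
          exact continuous_const.mul ((by fun_prop : Continuous fun u : ℝ =>
            (1 : ℂ) * (I * (u : ℂ))).mul (KF_e_cont.comp (by fun_prop)))
        · apply Continuous.intervalIntegrable
          exact continuous_const.mul (continuous_const.mul (KF_e_cont.comp (by fun_prop)))
      simp_rw [h1]
      constructor
      · exact ((hI1 w).mul_const _).add ((hI0 w).mul_const _)
      · rw [integral_add ((hI1 w).mul_const _) ((hI0 w).mul_const _), integral_mul_const,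
          integral_mul_const]

end

end HZS
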