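import Pool.Agent.Work.MP_c51bc2_nt.B_KF

/-! # Block KF0: the Fourier representation of the coefficients, without the short integral -/

open Finset Complex MeasureTheory

namespace HZS

noncomputable section

theorem KF0_cc (k : ℝ → ℂ) (L : ℝ) (b : ℕ → ℂ) (q Φ : ℝ → ℂ)
    (hΦ : ∀ w, Integrable (fun s => k s * (q (s / L) * KF_e (s / L * w))) ∧
      ∫ s, k s * (q (s / L) * KF_e (s / L * w)) = Φ w) (y : ℝ) (m : ℕ) :
    ∑ d ∈ m.divisors, b d * Φ (y - Real.log m + Real.log d) = cc0 k L b q y m := by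
  unfold cc0
  have h1 : ∀ s : ℝ, k s * (q (s / L) * cexp (I * ((s / L * (y - Real.log m) : ℝ) : ℂ)) *
        B b ((s / L : ℝ) : ℂ) m) =
      ∑ d ∈ m.divisors, b d * (k s * (q (s / L) *
        KF_e (s / L * (y - Real.log m + Real.log d)))) := by
    intro s
    unfold B
    rw [Finset.mul_sum, Finset.mul_sum]
    apply Finset.sum_congr rfl
    intro d hd
    have hd0 : (d : ℂ) ≠ 0 := by
      exact_mod_cast (Nat.pos_of_mem_divisors hd).ne'
    have h3 : (d : ℂ) ^ (I * ((s / L : ℝ) : ℂ)) = KF_e (s / L * Real.log d) := by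
      rw [Complex.cpow_def_of_ne_zero hd0, ← Complex.natCast_log]
      unfold KF_e
      congr 1
      push_cast
      ring
    have h4 : cexp (I * ((s / L * (y - Real.log m) : ℝ) : ℂ)) =
        KF_e (s / L * (y - Real.log m)) := rfl
    rw [h3, h4, mul_add (s / L) (y - Real.log m), KF_e_add]
    ring
  simp_rw [h1]
  rw [integral_finsetSum]
  · apply Finset.sum_congr rfl
    intro d _
    rw [integral_const_mul, (hΦ _).2]
  · intro d _
    exact (hΦ _).1.const_mul _

theorem stmt_KF0 : Stmt_KF0 := by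
  intro k ψ hk L hL
  obtain ⟨C4, hC4⟩ := hk.dec 4
  have hC4' : ∀ s, ‖k s‖ * (1 + |s|) ^ 3 ≤ C4 := by
    intro s
    refine le_trans (mul_le_mul_of_nonneg_left ?_ (norm_nonneg _)) (hC4 s)
    exact pow_le_pow_right₀ (by have := abs_nonneg s; linarith) (by norm_num)
  have hC4'' : ∀ s, ‖k s‖ * (1 + |s|) ^ 2 ≤ C4 := by
    intro s
    refine le_trans (mul_le_mul_of_nonneg_left ?_ (norm_nonneg _)) (hC4 s)
    exact pow_le_pow_right₀ (by have := abs_nonneg s; linarith) (by norm_num)
  set g1 : ℝ → ℂ := fun s => k s * (I * ((s / L : ℝ) : ℂ)) with hg1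
  have hg1c : Continuous g1 := hk.cont.mul (by fun_prop)
  have hg1b : ∀ s, ‖g1 s‖ * (1 + |s|) ^ 3 ≤ C4 / L := by
    intro s
    rw [hg1]
    simp only
    rw [norm_mul, norm_mul, Complex.norm_I, one_mul, Complex.norm_real, Real.norm_eq_abs, abs_div,
      abs_of_pos hL]
    have h2 : ‖k s‖ * (|s| * (1 + |s|) ^ 3) ≤ C4 := by
      refine le_trans (mul_le_mul_of_nonneg_left ?_ (norm_nonneg _)) (hC4 s)
      have h3 := abs_nonneg s
      have h4 : (1 + |s|) ^ 4 = (1 + |s|) * (1 + |s|) ^ 3 := by ring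
      rw [h4]
      exact mul_le_mul_of_nonneg_right (by linarith) (by positivity)
    calc ‖k s‖ * (|s| / L) * (1 + |s|) ^ 3 = ‖k s‖ * (|s| * (1 + |s|) ^ 3) / L := by ring
      _ ≤ C4 / L := div_le_div_of_nonneg_right h2 hL.le
  set A : ℝ → ℂ := fun w => ∫ s, k s * KF_e (s / L * w) with hA
  set A' : ℝ → ℂ := fun w => ∫ s, g1 s * KF_e (s / L * w) with hA'
  have hdA : ∀ w, HasDerivAt A (A' w) w := fun w => KF_A k hk.cont C4 hC4' L w
  have hdA' : ∀ w, DifferentiableAt ℝ A' w := fun w =>
    (KF_A g1 hg1c _ hg1b L w).differentiableAt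
  have hcA' : Continuous A' := continuous_iff_continuousAt.2 fun w => (hdA' w).continuousAt
  have hGG : ∀ w : ℝ, (ψ (w / L) : ℂ) = A w := by
    intro w
    rw [hk.four, hA]
    simp only
    apply integral_congr_ae
    refine Filter.Eventually.of_forall fun s => ?_
    simp only
    unfold KF_e
    congr 3
    push_cast
    ring
  refine ⟨A', ?_, hcA', ?_⟩
  · intro w
    have h1 : (fun y : ℝ => (ψ (y / L) : ℂ)) = A := funext hGG
    rw [h1]
    exact hdA w
  · intro b y m _
    have hI0 : ∀ w, Integrable (fun s => k s * KF_e (s / L * w)) := fun w =>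
      KF_int _ (hk.cont.mul (KF_e_cont.comp (by fun_prop))) C4 fun s => by
        rw [norm_mul, KF_e_norm, mul_one]
        exact hC4'' s
    have hI1 : ∀ w, Integrable (fun s => g1 s * KF_e (s / L * w)) := fun w =>
      KF_int _ (hg1c.mul (KF_e_cont.comp (by fun_prop))) (C4 / L) fun s => by
        rw [norm_mul, KF_e_norm, mul_one]
        refine le_trans (mul_le_mul_of_nonneg_left ?_ (norm_nonneg _)) (hg1b s)
        exact pow_le_pow_right₀ (by have := abs_nonneg s; linarith) (by norm_num)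
    constructor
    · simp_rw [hGG]
      apply KF0_cc k L b (fun _ => 1) A
      intro w
      simp only [one_mul]
      exact ⟨hI0 w, rfl⟩
    · apply KF0_cc k L b (fun v => I * (v : ℂ)) A'
      intro w
      have h1 : ∀ s : ℝ, k s * (I * ((s / L : ℝ) : ℂ) * KF_e (s / L * w)) =
          g1 s * KF_e (s / L * w) := fun s => by
        rw [hg1]
        ring
      simp_rw [h1]
      exact ⟨hI1 w, rfl⟩

end

end HZS
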