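import Pool.Agent.Work.MP_c51bc2_nt.Interface

/-! # Block LF (helper96) -/

open Finset

namespace HZS

noncomputable section

/-- the multiplicative function -/
def LF_F (φ : ℕ → ℕ → ℝ) (m : ℕ) : ℝ := ∏ q ∈ m.primeFactors, φ q (m.factorization q)

theorem LF_nonneg (φ : ℕ → ℕ → ℝ) (h0 : ∀ p a, 0 ≤ φ p a) (m : ℕ) : 0 ≤ LF_F φ m :=
  Finset.prod_nonneg fun _ _ => h0 _ _

theorem LF_split (φ : ℕ → ℕ → ℝ) (m p : ℕ) (hp : p ∈ m.primeFactors) :
    LF_F φ m = φ p (m.factorization p) * LF_F φ (m / p ^ m.factorization p) := by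
  unfold LF_F
  rw [← Finset.mul_prod_erase _ _ hp]
  congr 1
  have h1 : (m / p ^ m.factorization p).factorization = m.factorization.erase p :=
    Nat.factorization_ordCompl m p
  have h2 : (m / p ^ m.factorization p).primeFactors = m.primeFactors.erase p := by
    rw [← Nat.support_factorization, h1, Finsupp.support_erase, Nat.support_factorization]
  rw [h2]
  refine Finset.prod_congr rfl fun q hq => ?_
  rw [h1, Finsupp.erase_ne (Finset.ne_of_mem_erase hq)]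

theorem LF_log (m : ℕ) :
    Real.log m = ∑ p ∈ m.primeFactors, (m.factorization p : ℝ) * Real.log p := by
  rw [Real.log_nat_eq_sum_factorization, Finsupp.sum, Nat.support_factorization]

/-- the sum with the logarithm -/
theorem LF_main (φ : ℕ → ℕ → ℝ) (h0 : ∀ p a, 0 ≤ φ p a) (z : ℝ) (hz : 2 ≤ z) :
    ∑ m ∈ Icc 1 ⌊z⌋₊, LF_F φ m * Real.log m ≤ ∑ n ∈ Icc 1 ⌊z⌋₊, LF_F φ n *
      ∑ p ∈ (Icc 1 ⌊z / n⌋₊).filter Nat.Prime,
        ∑ a ∈ (Icc 1 ⌊z / n⌋₊).filter (fun a => (p : ℝ) ^ a ≤ z / n),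
          φ p a * ((a : ℝ) * Real.log p) := by
  classical
  have hz0 : (0 : ℝ) ≤ z := by linarith
  set A : Finset (Σ _ : ℕ, ℕ) := (Icc 1 ⌊z⌋₊).sigma (fun m => m.primeFactors) with hA
  set Bs : Finset (Σ _ : ℕ, Σ _ : ℕ, ℕ) := (Icc 1 ⌊z⌋₊).sigma (fun n =>
    ((Icc 1 ⌊z / n⌋₊).filter Nat.Prime).sigma (fun p =>
      (Icc 1 ⌊z / n⌋₊).filter (fun a => (p : ℝ) ^ a ≤ z / n))) with hB
  have hL : ∑ m ∈ Icc 1 ⌊z⌋₊, LF_F φ m * Real.log m =
      ∑ x ∈ A, LF_F φ x.1 * ((x.1.factorization x.2 : ℝ) * Real.log x.2) := by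
    rw [hA, Finset.sum_sigma]
    refine Finset.sum_congr rfl fun m _ => ?_
    rw [LF_log m, Finset.mul_sum]
  have hR : ∑ n ∈ Icc 1 ⌊z⌋₊, LF_F φ n *
      ∑ p ∈ (Icc 1 ⌊z / n⌋₊).filter Nat.Prime,
        ∑ a ∈ (Icc 1 ⌊z / n⌋₊).filter (fun a => (p : ℝ) ^ a ≤ z / n),
          φ p a * ((a : ℝ) * Real.log p) =
      ∑ x ∈ Bs, LF_F φ x.1 * (φ x.2.1 x.2.2 * ((x.2.2 : ℝ) * Real.log x.2.1)) := by
    rw [hB, Finset.sum_sigma]
    refine Finset.sum_congr rfl fun n _ => ?_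
    rw [Finset.sum_sigma, Finset.mul_sum]
    refine Finset.sum_congr rfl fun p _ => ?_
    rw [Finset.mul_sum]
  rw [hL, hR]
  set g : (Σ _ : ℕ, ℕ) → (Σ _ : ℕ, Σ _ : ℕ, ℕ) := fun x =>
    ⟨x.1 / x.2 ^ x.1.factorization x.2, x.2, x.1.factorization x.2⟩ with hg
  have hinj : Set.InjOn g A := by
    rintro ⟨m, p⟩ _ ⟨m', p'⟩ _ hxy
    simp only [hg, Sigma.mk.injEq, heq_eq_eq] at hxy
    obtain ⟨h1, h2, h3⟩ := hxy
    subst h2
    have e1 := Nat.ordProj_mul_ordCompl_eq_self m p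
    have e2 := Nat.ordProj_mul_ordCompl_eq_self m' p
    have : m = m' := by
      rw [← e1, ← e2, h1, h3]
    rw [this]
  have hval : ∀ x ∈ A, LF_F φ x.1 * ((x.1.factorization x.2 : ℝ) * Real.log x.2) =
      LF_F φ (g x).1 * (φ (g x).2.1 (g x).2.2 * (((g x).2.2 : ℝ) * Real.log (g x).2.1)) := by
    rintro ⟨m, p⟩ hx
    rw [hA, Finset.mem_sigma] at hx
    simp only [hg]
    rw [LF_split φ m p hx.2]
    ring
  rw [Finset.sum_congr rfl hval,
    ← Finset.sum_image (f := fun y : (Σ _ : ℕ, Σ _ : ℕ, ℕ) =>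
      LF_F φ y.1 * (φ y.2.1 y.2.2 * ((y.2.2 : ℝ) * Real.log y.2.1))) hinj]
  refine Finset.sum_le_sum_of_subset_of_nonneg ?_ ?_
  · intro y hy
    obtain ⟨⟨m, p⟩, hx, rfl⟩ := Finset.mem_image.mp hy
    rw [hA, Finset.mem_sigma] at hx
    obtain ⟨hm, hp⟩ := hx
    simp only at hm hp
    rw [Finset.mem_Icc] at hm
    have hm0 : m ≠ 0 := by omega
    have hpp := Nat.prime_of_mem_primeFactors hp
    have hn0 : 0 < m / p ^ m.factorization p := Nat.ordCompl_pos p hm0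
    have hnm : m / p ^ m.factorization p ≤ m := Nat.div_le_self _ _
    have e1 := Nat.ordProj_mul_ordCompl_eq_self m p
    have hmz : (m : ℝ) ≤ z := le_trans (by exact_mod_cast hm.2) (Nat.floor_le hz0)
    have hnr : (0 : ℝ) < ((m / p ^ m.factorization p : ℕ) : ℝ) := by exact_mod_cast hn0
    have hpw : (p : ℝ) ^ m.factorization p ≤ z / ((m / p ^ m.factorization p : ℕ) : ℝ) := by
      rw [le_div_iff₀ hnr]
      calc (p : ℝ) ^ m.factorization p * ((m / p ^ m.factorization p : ℕ) : ℝ) = (m : ℝ) := by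
            exact_mod_cast e1
        _ ≤ z := hmz
    have ha : 1 ≤ m.factorization p :=
      (hpp.dvd_iff_one_le_factorization hm0).mp (Nat.dvd_of_mem_primeFactors hp)
    have hpf : p ^ m.factorization p ≤ ⌊z / ((m / p ^ m.factorization p : ℕ) : ℝ)⌋₊ := by
      refine Nat.le_floor ?_
      push_cast
      exact hpw
    have hple : p ≤ p ^ m.factorization p := Nat.le_self_pow (by omega) p
    have hale : m.factorization p ≤ p ^ m.factorization p := (Nat.lt_pow_self hpp.one_lt).le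
    rw [hB, Finset.mem_sigma, Finset.mem_sigma]
    simp only [hg, Finset.mem_Icc, Finset.mem_filter]
    exact ⟨⟨hn0, hnm.trans hm.2⟩, ⟨⟨hpp.one_lt.le, hple.trans hpf⟩, hpp⟩,
      ⟨ha, hale.trans hpf⟩, hpw⟩
  · intro y hy _
    rw [hB, Finset.mem_sigma, Finset.mem_sigma] at hy
    have hp1 := (Finset.mem_filter.mp hy.2.1).2
    exact mul_nonneg (LF_nonneg φ h0 _) (mul_nonneg (h0 _ _) (mul_nonneg (Nat.cast_nonneg _)
      (Real.log_nonneg (by exact_mod_cast hp1.one_lt.le))))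

theorem stmt_LF (hP : Stmt_LFP) (hE : Stmt_LFE) : Stmt_LF := by
  obtain ⟨C1, hC1, h1⟩ := hP
  obtain ⟨C2, hC2, h2⟩ := hE
  refine ⟨(C1 + 1) * C2, by positivity, ?_⟩
  intro φ h0 h16 h100 z hz
  have hz0 : (0 : ℝ) < z := by linarith
  have hlz : 0 < Real.log z := Real.log_pos (by linarith)
  have hb := h2 φ h0 h16 h100 z hz
  have hex : 0 < Real.exp (∑ p ∈ (Icc 1 ⌊z⌋₊).filter Nat.Prime, φ p 1 / (p : ℝ)) :=
    Real.exp_pos _
  refine ⟨?_, ?_⟩
  · have hm := LF_main φ h0 z hz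
    have h3 : ∑ n ∈ Icc 1 ⌊z⌋₊, LF_F φ n *
        ∑ p ∈ (Icc 1 ⌊z / n⌋₊).filter Nat.Prime,
          ∑ a ∈ (Icc 1 ⌊z / n⌋₊).filter (fun a => (p : ℝ) ^ a ≤ z / n),
            φ p a * ((a : ℝ) * Real.log p) ≤ ∑ n ∈ Icc 1 ⌊z⌋₊, C1 * z * (LF_F φ n / n) := by
      refine Finset.sum_le_sum fun n hn => ?_
      rw [Finset.mem_Icc] at hn
      have hn0 : (0 : ℝ) < n := by exact_mod_cast hn.1
      have hnz : (n : ℝ) ≤ z := le_trans (by exact_mod_cast hn.2) (Nat.floor_le hz0.le)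
      have hw : 1 ≤ z / n := by rw [le_div_iff₀ hn0]; linarith
      have h4 := h1 φ h0 h16 h100 (z / n) hw
      calc _ ≤ LF_F φ n * (C1 * (z / n)) := mul_le_mul_of_nonneg_left h4 (LF_nonneg φ h0 n)
        _ = C1 * z * (LF_F φ n / n) := by ring
    have h5 : Real.log z * ∑ m ∈ Icc 1 ⌊z⌋₊, LF_F φ m ≤
        (C1 + 1) * z * ∑ m ∈ Icc 1 ⌊z⌋₊, LF_F φ m / m := by
      have h6 : Real.log z * ∑ m ∈ Icc 1 ⌊z⌋₊, LF_F φ m ≤
          ∑ m ∈ Icc 1 ⌊z⌋₊, LF_F φ m * Real.log m + ∑ m ∈ Icc 1 ⌊z⌋₊, z * (LF_F φ m / m) := by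
        rw [Finset.mul_sum, ← Finset.sum_add_distrib]
        refine Finset.sum_le_sum fun m hm => ?_
        rw [Finset.mem_Icc] at hm
        have hm0 : (0 : ℝ) < m := by exact_mod_cast hm.1
        have h7 : Real.log z ≤ Real.log m + z / m := by
          have h8 : Real.log (z / m) ≤ z / m - 1 :=
            Real.log_le_sub_one_of_pos (div_pos hz0 hm0)
          rw [Real.log_div hz0.ne' hm0.ne'] at h8
          linarith
        calc Real.log z * LF_F φ m ≤ (Real.log m + z / m) * LF_F φ m :=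
              mul_le_mul_of_nonneg_right h7 (LF_nonneg φ h0 m)
          _ = LF_F φ m * Real.log m + z * (LF_F φ m / m) := by ring
      have h9 := hm.trans h3
      rw [← Finset.mul_sum] at h9 h6
      calc _ ≤ _ := h6
        _ ≤ C1 * z * ∑ m ∈ Icc 1 ⌊z⌋₊, LF_F φ m / m + z * ∑ m ∈ Icc 1 ⌊z⌋₊, LF_F φ m / m := by
            linarith
        _ = _ := by ring
    have h10 : ∑ m ∈ Icc 1 ⌊z⌋₊, LF_F φ m ≤
        (C1 + 1) * (z / Real.log z) * ∑ m ∈ Icc 1 ⌊z⌋₊, LF_F φ m / m := by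
      have : ∑ m ∈ Icc 1 ⌊z⌋₊, LF_F φ m =
          Real.log z * (∑ m ∈ Icc 1 ⌊z⌋₊, LF_F φ m) / Real.log z := by
        field_simp
      rw [this]
      calc _ ≤ (C1 + 1) * z * (∑ m ∈ Icc 1 ⌊z⌋₊, LF_F φ m / m) / Real.log z :=
            div_le_div_of_nonneg_right h5 hlz.le
        _ = _ := by ring
    have h11 : ∑ m ∈ Icc 1 ⌊z⌋₊, LF_F φ m / m ≤
        C2 * Real.exp (∑ p ∈ (Icc 1 ⌊z⌋₊).filter Nat.Prime, φ p 1 / (p : ℝ)) := hb
    calc _ ≤ (C1 + 1) * (z / Real.log z) * ∑ m ∈ Icc 1 ⌊z⌋₊, LF_F φ m / m := h10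
      _ ≤ (C1 + 1) * (z / Real.log z) *
          (C2 * Real.exp (∑ p ∈ (Icc 1 ⌊z⌋₊).filter Nat.Prime, φ p 1 / (p : ℝ))) :=
          mul_le_mul_of_nonneg_left h11 (by positivity)
      _ = _ := by ring
  · refine hb.trans ?_
    refine mul_le_mul_of_nonneg_right ?_ hex.le
    nlinarith

end

end HZS
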