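import Pool.Agent.Work.MP_c51bc2_nt.Interface

/-!
# Block LFP: the weight of the prime powers
-/

set_option autoImplicit false

open Finset Complex MeasureTheory

namespace HZS

theorem LFP_term {φ : ℕ → ℕ → ℝ} (h0 : ∀ p a, 0 ≤ φ p a)
    (h16 : ∀ p a, φ p a ≤ 16 * Real.exp a) (h1 : ∀ p ≤ 100, ∀ a, φ p a ≤ 1) {w : ℝ} (hw : 1 ≤ w)
    {p a : ℕ} (hp : p.Prime) (hpa : (p : ℝ) ^ a ≤ w) :
    φ p a * ((a : ℝ) * Real.log p) ≤ 16 * w ^ (1 / 4 : ℝ) * Real.log w := by
  have hp2 : (2 : ℝ) ≤ p := by exact_mod_cast hp.two_le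
  have hlp : 0 < Real.log p := Real.log_pos (by linarith)
  have hal : (a : ℝ) * Real.log p ≤ Real.log w := by
    rw [← Real.log_pow]
    exact Real.log_le_log (by positivity) hpa
  have hw4 : 1 ≤ w ^ (1 / 4 : ℝ) := Real.one_le_rpow hw (by norm_num)
  have hlw : 0 ≤ Real.log w := Real.log_nonneg hw
  have hφ : φ p a ≤ 16 * w ^ (1 / 4 : ℝ) := by
    by_cases hp100 : p ≤ 100
    · have := h1 p hp100 a
      linarith
    · refine (h16 p a).trans ?_
      have h2 : Real.exp a ≤ w ^ (1 / 4 : ℝ) := by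
        have hp' : (100 : ℝ) ≤ p := by
          push Not at hp100
          exact_mod_cast hp100.le
        have h3 : (4 : ℝ) ≤ Real.log p := by
          rw [Real.le_log_iff_exp_le (by linarith)]
          have h4 : Real.exp 4 = Real.exp 1 ^ 4 := by
            rw [← Real.exp_nat_mul]; norm_num
          have h5 := Real.exp_one_lt_d9
          have h6 : Real.exp 1 ^ 4 ≤ (2.7182818286 : ℝ) ^ 4 :=
            pow_le_pow_left₀ (Real.exp_pos 1).le h5.le 4
          rw [h4]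
          norm_num at h6 ⊢
          linarith
        rw [Real.rpow_def_of_pos (by linarith)]
        apply Real.exp_le_exp.2
        have ha : (0 : ℝ) ≤ a := Nat.cast_nonneg a
        nlinarith
      linarith
  have h5 : 0 ≤ (a : ℝ) * Real.log p := by positivity
  calc φ p a * ((a : ℝ) * Real.log p) ≤ (16 * w ^ (1 / 4 : ℝ)) * Real.log w := by
        apply mul_le_mul hφ hal h5
        positivity
    _ = _ := by ring

theorem LFP_card {w : ℝ} (hw : 1 ≤ w) {p : ℕ} (hp : p.Prime) :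
    ((((Icc 1 ⌊w⌋₊).filter (fun a => (p : ℝ) ^ a ≤ w)).filter (fun a => a ≠ 1)).card : ℝ) ≤
      if (p : ℝ) ^ 2 ≤ w then 2 * Real.log w else 0 := by
  have hp2 : (2 : ℝ) ≤ p := by exact_mod_cast hp.two_le
  have hlw : 0 ≤ Real.log w := Real.log_nonneg hw
  split_ifs with h
  · have h1 : (((Icc 1 ⌊w⌋₊).filter (fun a => (p : ℝ) ^ a ≤ w)).filter (fun a => a ≠ 1)) ⊆
        Icc 1 ⌊2 * Real.log w⌋₊ := by
      intro a ha
      rw [mem_filter, mem_filter, mem_Icc] at ha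
      obtain ⟨⟨⟨ha1, -⟩, ha2⟩, -⟩ := ha
      rw [mem_Icc]
      refine ⟨ha1, Nat.le_floor ?_⟩
      have h2 : (a : ℝ) * Real.log p ≤ Real.log w := by
        rw [← Real.log_pow]
        exact Real.log_le_log (by positivity) ha2
      have h3 : (1 : ℝ) / 2 ≤ Real.log p := by
        have := Real.log_two_gt_d9
        have h4 : Real.log 2 ≤ Real.log p := Real.log_le_log (by norm_num) hp2
        linarith
      have ha0 : (0 : ℝ) ≤ a := Nat.cast_nonneg a
      nlinarith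
    have h2 := card_le_card h1
    rw [Nat.card_Icc, Nat.add_sub_cancel] at h2
    have h3 : (⌊2 * Real.log w⌋₊ : ℝ) ≤ 2 * Real.log w := Nat.floor_le (by linarith)
    calc ((((Icc 1 ⌊w⌋₊).filter (fun a => (p : ℝ) ^ a ≤ w)).filter (fun a => a ≠ 1)).card : ℝ)
        ≤ (⌊2 * Real.log w⌋₊ : ℝ) := Nat.cast_le.2 h2
      _ ≤ _ := h3
  · have h1 : (((Icc 1 ⌊w⌋₊).filter (fun a => (p : ℝ) ^ a ≤ w)).filter (fun a => a ≠ 1)) = ∅ := by
      rw [Finset.eq_empty_iff_forall_notMem]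
      intro a ha
      rw [mem_filter, mem_filter, mem_Icc] at ha
      obtain ⟨⟨⟨ha1, -⟩, ha2⟩, ha3⟩ := ha
      apply h
      refine le_trans ?_ ha2
      exact pow_le_pow_right₀ (by linarith) (by omega)
    rw [h1]
    simp

theorem stmt_LFP : Stmt_LFP := by
  refine ⟨2144, by norm_num, ?_⟩
  intro φ h0 h16 h1 w hw
  have hlw : 0 ≤ Real.log w := Real.log_nonneg hw
  have hw4 : 0 ≤ w ^ (1 / 4 : ℝ) := by positivity
  -- the inner sum
  have hin : ∀ p ∈ (Icc 1 ⌊w⌋₊).filter Nat.Prime,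
      ∑ a ∈ (Icc 1 ⌊w⌋₊).filter (fun a => (p : ℝ) ^ a ≤ w), φ p a * ((a : ℝ) * Real.log p) ≤
      48 * Real.log p +
        (if (p : ℝ) ^ 2 ≤ w then 2 * Real.log w else 0) * (16 * w ^ (1 / 4 : ℝ) * Real.log w) := by
    intro p hp
    rw [mem_filter, mem_Icc] at hp
    obtain ⟨⟨hp1, hpw⟩, hpp⟩ := hp
    have hp2 : (2 : ℝ) ≤ p := by exact_mod_cast hpp.two_le
    have hlp : 0 < Real.log p := Real.log_pos (by linarith)
    rw [← Finset.sum_filter_add_sum_filter_not _ (fun a => a = 1)]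
    have hA : ∑ a ∈ ((Icc 1 ⌊w⌋₊).filter (fun a => (p : ℝ) ^ a ≤ w)).filter (fun a => a = 1),
        φ p a * ((a : ℝ) * Real.log p) ≤ 48 * Real.log p := by
      have h2 : ((Icc 1 ⌊w⌋₊).filter (fun a => (p : ℝ) ^ a ≤ w)).filter (fun a => a = 1) ⊆ {1} := by
        intro a ha
        rw [mem_filter] at ha
        rw [mem_singleton]
        exact ha.2
      have h3 : ∑ a ∈ ((Icc 1 ⌊w⌋₊).filter (fun a => (p : ℝ) ^ a ≤ w)).filter (fun a => a = 1),
          φ p a * ((a : ℝ) * Real.log p) ≤ ∑ a ∈ ({1} : Finset ℕ), φ p a * ((a : ℝ) * Real.log p) :=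
        Finset.sum_le_sum_of_subset_of_nonneg h2 (fun a _ _ => by
          have := h0 p a
          positivity)
      refine h3.trans ?_
      rw [Finset.sum_singleton]
      have h4 := h16 p 1
      have h5 := Real.exp_one_lt_d9
      push_cast at h4 ⊢
      have h6 : φ p 1 ≤ 48 := by linarith
      rw [one_mul]
      gcongr
    have hB : ∑ a ∈ ((Icc 1 ⌊w⌋₊).filter (fun a => (p : ℝ) ^ a ≤ w)).filter (fun a => ¬ a = 1),
        φ p a * ((a : ℝ) * Real.log p) ≤
        (if (p : ℝ) ^ 2 ≤ w then 2 * Real.log w else 0) *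
          (16 * w ^ (1 / 4 : ℝ) * Real.log w) := by
      have h2 : ∀ a ∈ ((Icc 1 ⌊w⌋₊).filter (fun a => (p : ℝ) ^ a ≤ w)).filter (fun a => ¬ a = 1),
          φ p a * ((a : ℝ) * Real.log p) ≤ 16 * w ^ (1 / 4 : ℝ) * Real.log w := by
        intro a ha
        rw [mem_filter, mem_filter] at ha
        exact LFP_term h0 h16 h1 hw hpp ha.1.2
      have h3 := Finset.sum_le_card_nsmul _ _ _ h2
      rw [nsmul_eq_mul] at h3
      refine h3.trans ?_
      apply mul_le_mul_of_nonneg_right (LFP_card hw hpp)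
      positivity
    linarith
  refine (Finset.sum_le_sum hin).trans ?_
  rw [Finset.sum_add_distrib, ← Finset.mul_sum, ← Finset.sum_mul]
  -- Chebyshev
  have hth : ∑ p ∈ (Icc 1 ⌊w⌋₊).filter Nat.Prime, Real.log p ≤ 2 * w := by
    have h2 := Chebyshev.theta_le_log4_mul_x (x := w) (by linarith)
    have h3 : Chebyshev.theta w = ∑ p ∈ (Icc 1 ⌊w⌋₊).filter Nat.Prime, Real.log p := by
      unfold Chebyshev.theta
      rfl
    rw [h3] at h2
    refine h2.trans ?_
    have h4 : Real.log 4 ≤ 2 := by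
      have h5 : Real.log 4 = 2 * Real.log 2 := by
        rw [show (4 : ℝ) = 2 ^ 2 by norm_num, Real.log_pow]; norm_num
      have h6 := Real.log_two_lt_d9
      rw [h5]
      linarith
    gcongr
  -- the number of primes up to the square root
  have hcnt : ∑ p ∈ (Icc 1 ⌊w⌋₊).filter Nat.Prime,
      (if (p : ℝ) ^ 2 ≤ w then 2 * Real.log w else 0) ≤ Real.sqrt w * (2 * Real.log w) := by
    rw [← Finset.sum_filter, Finset.sum_const, nsmul_eq_mul]
    apply mul_le_mul_of_nonneg_right _ (by linarith)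
    have h2 : ((Icc 1 ⌊w⌋₊).filter Nat.Prime).filter (fun p : ℕ => (p : ℝ) ^ 2 ≤ w) ⊆
        Icc 1 ⌊Real.sqrt w⌋₊ := by
      intro p hp
      rw [mem_filter, mem_filter, mem_Icc] at hp
      rw [mem_Icc]
      refine ⟨hp.1.1.1, Nat.le_floor ?_⟩
      exact Real.le_sqrt_of_sq_le hp.2
    have h3 := card_le_card h2
    rw [Nat.card_Icc, Nat.add_sub_cancel] at h3
    calc ((((Icc 1 ⌊w⌋₊).filter Nat.Prime).filter (fun p : ℕ => (p : ℝ) ^ 2 ≤ w)).card : ℝ)
        ≤ (⌊Real.sqrt w⌋₊ : ℝ) := by exact_mod_cast h3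
      _ ≤ _ := Nat.floor_le (Real.sqrt_nonneg w)
  have hlog : Real.log w ≤ 8 * w ^ (1 / 8 : ℝ) := by
    have h2 := Real.log_le_rpow_div (x := w) (by linarith) (show (0 : ℝ) < 1 / 8 by norm_num)
    linarith
  have hlog2 : Real.log w * Real.log w ≤ 64 * w ^ (1 / 4 : ℝ) := by
    have h2 : w ^ (1 / 8 : ℝ) * w ^ (1 / 8 : ℝ) = w ^ (1 / 4 : ℝ) := by
      rw [← Real.rpow_add (by linarith)]; norm_num
    calc Real.log w * Real.log w ≤ (8 * w ^ (1 / 8 : ℝ)) * (8 * w ^ (1 / 8 : ℝ)) := by gcongr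
      _ = 64 * (w ^ (1 / 8 : ℝ) * w ^ (1 / 8 : ℝ)) := by ring
      _ = _ := by rw [h2]
  have hpow : Real.sqrt w * w ^ (1 / 4 : ℝ) * w ^ (1 / 4 : ℝ) = w := by
    rw [Real.sqrt_eq_rpow, ← Real.rpow_add (by linarith), ← Real.rpow_add (by linarith)]
    norm_num
  have hmain : (∑ p ∈ (Icc 1 ⌊w⌋₊).filter Nat.Prime,
      (if (p : ℝ) ^ 2 ≤ w then 2 * Real.log w else 0)) * (16 * w ^ (1 / 4 : ℝ) * Real.log w) ≤
      2048 * w := by
    calc _ ≤ (Real.sqrt w * (2 * Real.log w)) * (16 * w ^ (1 / 4 : ℝ) * Real.log w) := by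
          apply mul_le_mul_of_nonneg_right hcnt
          positivity
      _ = 32 * (Real.sqrt w * w ^ (1 / 4 : ℝ)) * (Real.log w * Real.log w) := by ring
      _ ≤ 32 * (Real.sqrt w * w ^ (1 / 4 : ℝ)) * (64 * w ^ (1 / 4 : ℝ)) := by gcongr
      _ = 2048 * (Real.sqrt w * w ^ (1 / 4 : ℝ) * w ^ (1 / 4 : ℝ)) := by ring
      _ = 2048 * w := by rw [hpow]
  linarith

end HZS
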