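import Mathlib
import Pool.Agent.Work.MP_c51bc2_nt.Interface

open Finset Complex MeasureTheory

namespace HZS

lemma LOC1_cf_mul {a b : ℕ} (h : Nat.Coprime a b) (s : ℝ) : cf s (a * b) = cf s a * cf s b := by
  unfold cf
  rw [h.primeFactors_mul, Finset.prod_union h.disjoint_primeFactors]
  congr 1
  · refine Finset.prod_congr rfl (fun p hp => ?_)
    have h1 : b.factorization p = 0 := by
      apply Nat.factorization_eq_zero_of_not_dvd
      intro hpb
      have h2 := Nat.dvd_gcd (Nat.dvd_of_mem_primeFactors hp) hpb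
      rw [h] at h2
      exact (Nat.prime_of_mem_primeFactors hp).one_lt.ne' (Nat.dvd_one.1 h2)
    rw [Nat.factorization_mul_of_coprime h, Finsupp.add_apply, h1, add_zero]
  · refine Finset.prod_congr rfl (fun p hp => ?_)
    have h1 : a.factorization p = 0 := by
      apply Nat.factorization_eq_zero_of_not_dvd
      intro hpb
      have h2 := Nat.dvd_gcd hpb (Nat.dvd_of_mem_primeFactors hp)
      rw [h] at h2
      exact (Nat.prime_of_mem_primeFactors hp).one_lt.ne' (Nat.dvd_one.1 h2)
    rw [Nat.factorization_mul_of_coprime h, Finsupp.add_apply, h1, zero_add]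

/-- blocks are disjoint -/
lemma LOC1_disj {L : ℝ} {R : ℕ} {X lam : ℕ → ℝ} (hc : IsChain L R X lam) {i j : ℕ} (hij : i < j)
    (hj : j < R) {p : ℕ} (hp : p ∈ PB X i) : p ∉ PB X j := by
  intro hq
  unfold PB at hp hq
  rw [Finset.mem_filter, Finset.mem_Icc] at hp hq
  have h1 : (p : ℝ) ≤ X (i + 1) := by
    have hnn : 0 ≤ X (i + 1) := by
      by_contra hneg
      push Not at hneg
      have := Nat.floor_of_nonpos hneg.le
      omega
    exact (Nat.le_floor_iff hnn).1 hp.1.2
  have h2 : X (i + 1) ≤ X j := by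
    have key : ∀ k, i + 1 ≤ k → k ≤ R → X (i + 1) ≤ X k := by
      intro k hk
      induction k, hk using Nat.le_induction with
      | base => intro _; exact le_rfl
      | succ k hk ih => intro hkR; exact (ih (by omega)).trans (hc.mono k (by omega)).le
    exact key j hij hj.le
  linarith [hq.2.2]

lemma LOC1_coprime {a b : ℕ} (h : ∀ p, p.Prime → p ∣ a → p ∣ b → False) : Nat.Coprime a b := by
  by_contra hc
  obtain ⟨p, hp, h1⟩ := Nat.exists_prime_and_dvd hc
  exact h p hp (h1.trans (Nat.gcd_dvd_left a b)) (h1.trans (Nat.gcd_dvd_right a b))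

/-- the divisors with all primes in `P` and at most `K` prime factors -/
lemma LOC1_step {L : ℝ} {R : ℕ} {X lam : ℕ → ℝ} (hc : IsChain L R X lam) {j : ℕ} (hj : j < R)
    (v : ℂ) {m : ℕ} (hm : 1 ≤ m) :
    B (cM X lam (range (j + 1))) v m = B (cM X lam (range j)) v m * Bt X (KK lam j) j v m := by
  classical
  have e1 : ∀ S : Finset ℕ, B (cM X lam S) v m =
      ∑ d ∈ m.divisors.filter (fun d => Okd X lam S d), (cf (-1 / 2) d : ℂ) * (d : ℂ) ^ (I * v) := by
    intro S
    unfold B cM
    rw [Finset.sum_filter]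
    refine Finset.sum_congr rfl (fun d _ => ?_)
    split_ifs <;> simp
  rw [e1, e1]
  unfold Bt
  rw [Finset.sum_mul_sum, ← Finset.sum_product']
  symm
  refine Finset.sum_bij (fun x _ => x.1 * x.2) ?_ ?_ ?_ ?_
  · rintro ⟨a, b⟩ hab
    simp only [Finset.mem_product, Finset.mem_filter, Nat.mem_divisors] at hab
    obtain ⟨⟨⟨ha, hm0⟩, ha0, ha1, ha2⟩, ⟨hb, -⟩, hb1, hb2⟩ := hab
    have hb0 : b ≠ 0 := fun h => by rw [h] at hb; exact hm0 (Nat.eq_zero_of_zero_dvd hb)
    have hcop : Nat.Coprime a b := by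
      apply LOC1_coprime
      intro p hp hpa hpb
      obtain ⟨i, hi, hpi⟩ := ha1 p (Nat.mem_primeFactors.2 ⟨hp, hpa, ha0⟩)
      exact LOC1_disj hc (Finset.mem_range.1 hi) hj hpi (hb1 p (Nat.mem_primeFactors.2 ⟨hp, hpb, hb0⟩))
    simp only [Finset.mem_filter, Nat.mem_divisors]
    refine ⟨⟨hcop.mul_dvd_of_dvd_of_dvd ha hb, hm0⟩, mul_ne_zero ha0 hb0, ?_, ?_⟩
    · intro p hp
      rw [hcop.primeFactors_mul, Finset.mem_union] at hp
      rcases hp with hp | hp
      · obtain ⟨i, hi, hpi⟩ := ha1 p hp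
        exact ⟨i, Finset.mem_range.2 (by have := Finset.mem_range.1 hi; omega), hpi⟩
      · exact ⟨j, Finset.mem_range.2 (by omega), hb1 p hp⟩
    · intro i hi
      rw [Nat.factorization_mul_of_coprime hcop]
      simp only [Finsupp.add_apply, Finset.sum_add_distrib]
      rcases Nat.lt_succ_iff_lt_or_eq.1 (Finset.mem_range.1 hi) with hi' | rfl
      · have h0 : ∑ p ∈ PB X i, b.factorization p = 0 := by
          refine Finset.sum_eq_zero (fun p hp => ?_)
          by_contra hne
          have hpb : p ∈ b.primeFactors := by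
            rw [← Nat.support_factorization, Finsupp.mem_support_iff]
            exact hne
          exact LOC1_disj hc hi' hj hp (hb1 p hpb)
        rw [h0, add_zero]
        exact ha2 i (Finset.mem_range.2 hi')
      · have h0 : ∑ p ∈ PB X i, a.factorization p = 0 := by
          refine Finset.sum_eq_zero (fun p hp => ?_)
          by_contra hne
          have hpa : p ∈ a.primeFactors := by
            rw [← Nat.support_factorization, Finsupp.mem_support_iff]
            exact hne
          obtain ⟨k, hk, hpk⟩ := ha1 p hpa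
          exact LOC1_disj hc (Finset.mem_range.1 hk) hj hpk hp
        rw [h0, zero_add]
        exact hb2
  · rintro ⟨a, b⟩ hab ⟨a', b'⟩ hab' heq
    simp only [Finset.mem_product, Finset.mem_filter, Nat.mem_divisors] at hab hab'
    obtain ⟨⟨⟨ha, hm0⟩, ha0, ha1, ha2⟩, ⟨hb, -⟩, hb1, hb2⟩ := hab
    obtain ⟨⟨⟨ha', -⟩, ha0', ha1', ha2'⟩, ⟨hb', -⟩, hb1', hb2'⟩ := hab'
    have hb0 : b ≠ 0 := fun h => by rw [h] at hb; exact hm0 (Nat.eq_zero_of_zero_dvd hb)
    have hb0' : b' ≠ 0 := fun h => by rw [h] at hb'; exact hm0 (Nat.eq_zero_of_zero_dvd hb')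
    have heq' : a * b = a' * b' := heq
    have c1 : Nat.Coprime a b' := by
      apply LOC1_coprime
      intro p hp hpa hpb
      obtain ⟨i, hi, hpi⟩ := ha1 p (Nat.mem_primeFactors.2 ⟨hp, hpa, ha0⟩)
      exact LOC1_disj hc (Finset.mem_range.1 hi) hj hpi
        (hb1' p (Nat.mem_primeFactors.2 ⟨hp, hpb, hb0'⟩))
    have c2 : Nat.Coprime a' b := by
      apply LOC1_coprime
      intro p hp hpa hpb
      obtain ⟨i, hi, hpi⟩ := ha1' p (Nat.mem_primeFactors.2 ⟨hp, hpa, ha0'⟩)
      exact LOC1_disj hc (Finset.mem_range.1 hi) hj hpi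
        (hb1 p (Nat.mem_primeFactors.2 ⟨hp, hpb, hb0⟩))
    have d1 : a ∣ a' := c1.dvd_of_dvd_mul_right (by rw [← heq']; exact Dvd.intro _ rfl)
    have d2 : a' ∣ a := c2.dvd_of_dvd_mul_right (by rw [heq']; exact Dvd.intro _ rfl)
    have h1 : a = a' := Nat.dvd_antisymm d1 d2
    subst h1
    have h2 : b = b' := Nat.eq_of_mul_eq_mul_left (Nat.pos_of_ne_zero ha0) heq'
    rw [h2]
  · intro d hd
    simp only [Finset.mem_filter, Nat.mem_divisors] at hd
    obtain ⟨⟨hdm, hm0⟩, hd0, hd1, hd2⟩ := hd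
    set f := d.factorization with hf
    have hprime : ∀ p ∈ f.support, p.Prime := fun p hp => Nat.prime_of_mem_primeFactors hp
    set g1 := f.filter (fun p => p ∉ PB X j) with hg1
    set g2 := f.filter (fun p => p ∈ PB X j) with hg2
    set a := g1.prod (fun p k => p ^ k) with ha
    set b := g2.prod (fun p k => p ^ k) with hb
    have hab : a * b = d := by
      have h1 : g2.prod (fun p k => p ^ k) * g1.prod (fun p k => p ^ k) =
          f.prod (fun p k => p ^ k) :=
        Finsupp.prod_filter_mul_prod_filter_not _ _ _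
      rw [ha, hb, mul_comm, h1]
      exact Nat.prod_factorization_pow_eq_self hd0
    have fa : a.factorization = g1 := Nat.prod_pow_factorization_eq_self (fun p hp => by
      apply hprime
      rw [hg1, Finsupp.support_filter] at hp
      exact (Finset.mem_filter.1 hp).1)
    have fb : b.factorization = g2 := Nat.prod_pow_factorization_eq_self (fun p hp => by
      apply hprime
      rw [hg2, Finsupp.support_filter] at hp
      exact (Finset.mem_filter.1 hp).1)
    have ha0 : a ≠ 0 := fun h => hd0 (by rw [← hab, h, zero_mul])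
    have hb0 : b ≠ 0 := fun h => hd0 (by rw [← hab, h, mul_zero])
    refine ⟨(a, b), ?_, hab⟩
    simp only [Finset.mem_product, Finset.mem_filter, Nat.mem_divisors]
    have hsa : ∀ p ∈ a.primeFactors, p ∈ d.primeFactors ∧ p ∉ PB X j := by
      intro p hp
      rw [← Nat.support_factorization, fa, hg1, Finsupp.support_filter] at hp
      exact Finset.mem_filter.1 hp
    have hsb : ∀ p ∈ b.primeFactors, p ∈ d.primeFactors ∧ p ∈ PB X j := by
      intro p hp
      rw [← Nat.support_factorization, fb, hg2, Finsupp.support_filter] at hp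
      exact Finset.mem_filter.1 hp
    refine ⟨⟨⟨(Dvd.intro _ hab).trans hdm, hm0⟩, ha0, ?_, ?_⟩,
      ⟨(Dvd.intro_left _ hab).trans hdm, hm0⟩, fun p hp => (hsb p hp).2, ?_⟩
    · intro p hp
      obtain ⟨h1, h2⟩ := hsa p hp
      obtain ⟨i, hi, hpi⟩ := hd1 p h1
      refine ⟨i, ?_, hpi⟩
      rcases Nat.lt_succ_iff_lt_or_eq.1 (Finset.mem_range.1 hi) with hi' | rfl
      · exact Finset.mem_range.2 hi'
      · exact absurd hpi h2
    · intro i hi
      have hi' := Finset.mem_range.1 hi
      refine (Finset.sum_le_sum (fun p _ => ?_)).trans (hd2 i (Finset.mem_range.2 (by omega)))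
      rw [fa, hg1, Finsupp.filter_apply]
      split_ifs <;> first | exact le_rfl | exact Nat.zero_le _
    · refine (Finset.sum_le_sum (fun p _ => ?_)).trans (hd2 j (Finset.mem_range.2 (by omega)))
      rw [fb, hg2, Finsupp.filter_apply]
      split_ifs <;> first | exact le_rfl | exact Nat.zero_le _
  · rintro ⟨a, b⟩ hab
    simp only [Finset.mem_product, Finset.mem_filter, Nat.mem_divisors] at hab
    obtain ⟨⟨⟨ha, hm0⟩, ha0, ha1, ha2⟩, ⟨hb, -⟩, hb1, hb2⟩ := hab
    have hb0 : b ≠ 0 := fun h => by rw [h] at hb; exact hm0 (Nat.eq_zero_of_zero_dvd hb)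
    have hcop : Nat.Coprime a b := by
      apply LOC1_coprime
      intro p hp hpa hpb
      obtain ⟨i, hi, hpi⟩ := ha1 p (Nat.mem_primeFactors.2 ⟨hp, hpa, ha0⟩)
      exact LOC1_disj hc (Finset.mem_range.1 hi) hj hpi (hb1 p (Nat.mem_primeFactors.2 ⟨hp, hpb, hb0⟩))
    show (cf (-1 / 2) a : ℂ) * (a : ℂ) ^ (I * v) * ((cf (-1 / 2) b : ℂ) * (b : ℂ) ^ (I * v)) =
      (cf (-1 / 2) (a * b) : ℂ) * ((a * b : ℕ) : ℂ) ^ (I * v)
    rw [LOC1_cf_mul hcop, Nat.cast_mul, Complex.natCast_mul_natCast_cpow]
    push_cast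
    ring

theorem stmt_LOC1 : Stmt_LOC1 := by
  intro L R X lam hc j
  induction j with
  | zero =>
    intro _ v m hm
    classical
    simp only [Finset.range_zero, Finset.prod_empty]
    unfold B cM
    rw [Finset.sum_eq_single 1]
    · have h1 : Okd X lam ∅ 1 := ⟨one_ne_zero, by simp, by simp⟩
      rw [if_pos h1]
      simp [cf]
    · intro d hd hd1
      have h1 : ¬ Okd X lam ∅ d := by
        rintro ⟨h0, h2, -⟩
        apply hd1
        by_contra hne
        obtain ⟨p, hp, hpd⟩ := Nat.exists_prime_and_dvd hne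
        obtain ⟨i, hi, -⟩ := h2 p (Nat.mem_primeFactors.2 ⟨hp, hpd, h0⟩)
        simp at hi
      rw [if_neg h1, zero_mul]
    · intro h1
      exfalso
      apply h1
      rw [Nat.mem_divisors]
      exact ⟨one_dvd _, by omega⟩
  | succ j ih =>
    intro hj v m hm
    rw [Finset.prod_range_succ, ← ih (by omega) v m hm]
    exact LOC1_step hc (by omega) v hm

end HZS
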