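import Mathlib
import Pool.Agent.Work.MP_c51bc2_nt.Interface

/-! # MP_c51bc2_nt: block LOC2 (the local majorant of one factor) -/

open Finset Complex MeasureTheory

namespace HZS

lemma LOC2_cf_mul {a b : ℕ} (h : Nat.Coprime a b) (s : ℝ) : cf s (a * b) = cf s a * cf s b := by
  unfold cf
  rw [h.primeFactors_mul, Finset.prod_union h.disjoint_primeFactors]
  congr 1
  · refine Finset.prod_congr rfl (fun p hp => ?_)
    have h1 : b.factorization p = 0 := by
      apply Nat.factorization_eq_zero_of_not_dvd
      intro hpb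
      have h2 := Nat.dvd_gcd (Nat.dvd_of_mem_primeFactors hp) hpb
      rw [h] at h2
      exact (Nat.prime_of_mem_primeFactors hp).one_lt.ne' (Nat.dvd_one.1 h2)
    rw [Nat.factorization_mul_of_coprime h, Finsupp.add_apply, h1, add_zero]
  · refine Finset.prod_congr rfl (fun p hp => ?_)
    have h1 : a.factorization p = 0 := by
      apply Nat.factorization_eq_zero_of_not_dvd
      intro hpb
      have h2 := Nat.dvd_gcd hpb (Nat.dvd_of_mem_primeFactors hp)
      rw [h] at h2
      exact (Nat.prime_of_mem_primeFactors hp).one_lt.ne' (Nat.dvd_one.1 h2)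
    rw [Nat.factorization_mul_of_coprime h, Finsupp.add_apply, h1, zero_add]

/-- the sum of a multiplicative function over the divisors with all primes in `P` -/
lemma LOC2_prod {R : Type*} [CommRing R] (P : Finset ℕ) (f : ℕ → R) (h1 : f 1 = 1)
    (hf : ∀ a b : ℕ, Nat.Coprime a b → f (a * b) = f a * f b) (m : ℕ) (hm : 1 ≤ m) :
    ∑ d ∈ m.divisors.filter (fun d => ∀ p ∈ d.primeFactors, p ∈ P), f d =
      ∏ p ∈ m.primeFactors.filter (fun p => p ∈ P),
        ∑ k ∈ range (m.factorization p + 1), f (p ^ k) := by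
  classical
  let F : ArithmeticFunction R := ⟨fun d => if d = 0 then 0 else
    if (∀ p ∈ d.primeFactors, p ∈ P) then f d else 0, by simp⟩
  have hFd : ∀ d : ℕ, d ≠ 0 → F d = if (∀ p ∈ d.primeFactors, p ∈ P) then f d else 0 := by
    intro d hd
    show (if d = 0 then 0 else if (∀ p ∈ d.primeFactors, p ∈ P) then f d else 0) = _
    rw [if_neg hd]
  have hFm : F.IsMultiplicative := by
    rw [ArithmeticFunction.IsMultiplicative.iff_ne_zero]
    constructor
    · rw [hFd 1 one_ne_zero, if_pos (by simp), h1]
    · intro a b ha hb hab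
      rw [hFd _ (mul_ne_zero ha hb), hFd a ha, hFd b hb, hab.primeFactors_mul, hf a b hab]
      by_cases hA : ∀ p ∈ a.primeFactors, p ∈ P
      · by_cases hB : ∀ p ∈ b.primeFactors, p ∈ P
        · rw [if_pos hA, if_pos hB, if_pos]
          intro p hp
          rcases Finset.mem_union.1 hp with h | h
          · exact hA p h
          · exact hB p h
        · rw [if_neg hB, mul_zero, if_neg]
          intro h
          exact hB (fun p hp => h p (Finset.mem_union_right _ hp))
      · rw [if_neg hA, zero_mul, if_neg]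
        intro h
        exact hA (fun p hp => h p (Finset.mem_union_left _ hp))
  have hm0 : m ≠ 0 := by omega
  have hG : (F * (ArithmeticFunction.zeta : ArithmeticFunction R)).IsMultiplicative :=
    hFm.mul ArithmeticFunction.isMultiplicative_zeta.natCast
  have e1 : (F * (ArithmeticFunction.zeta : ArithmeticFunction R)) m =
      ∑ d ∈ m.divisors.filter (fun d => ∀ p ∈ d.primeFactors, p ∈ P), f d := by
    rw [ArithmeticFunction.coe_mul_zeta_apply, Finset.sum_filter]
    refine Finset.sum_congr rfl (fun d hd => ?_)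
    exact hFd d (Nat.pos_of_mem_divisors hd).ne'
  rw [← e1, hG.multiplicative_factorization _ hm0, Finsupp.prod, Nat.support_factorization,
    Finset.prod_filter]
  refine Finset.prod_congr rfl (fun p hp => ?_)
  have hpp := Nat.prime_of_mem_primeFactors hp
  rw [ArithmeticFunction.coe_mul_zeta_apply, Nat.sum_divisors_prime_pow hpp]
  split_ifs with hP
  · refine Finset.sum_congr rfl (fun k _ => ?_)
    rw [hFd _ (pow_ne_zero k hpp.ne_zero), if_pos]
    intro q hq
    have := (Nat.prime_dvd_prime_iff_eq (Nat.prime_of_mem_primeFactors hq) hpp).1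
      ((Nat.prime_of_mem_primeFactors hq).dvd_of_dvd_pow (Nat.dvd_of_mem_primeFactors hq))
    rw [this]
    exact hP
  · rw [Finset.sum_range_succ']
    rw [pow_zero, hFd 1 one_ne_zero, if_pos (by simp), h1]
    rw [Finset.sum_eq_zero, zero_add]
    intro k _
    rw [hFd _ (pow_ne_zero _ hpp.ne_zero), if_neg]
    intro h
    apply hP
    apply h
    rw [Nat.primeFactors_prime_pow (by omega) hpp]
    simp

/-- the summand is multiplicative -/
lemma LOC2_mul (v : ℂ) (a b : ℕ) (h : Nat.Coprime a b) :
    (cf (-1 / 2) (a * b) : ℂ) * ((a * b : ℕ) : ℂ) ^ (I * v) =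
      ((cf (-1 / 2) a : ℂ) * (a : ℂ) ^ (I * v)) * ((cf (-1 / 2) b : ℂ) * (b : ℂ) ^ (I * v)) := by
  rw [LOC2_cf_mul h, Nat.cast_mul, Complex.natCast_mul_natCast_cpow]
  push_cast
  ring

lemma LOC2_pow (v : ℂ) {p : ℕ} (hp : p.Prime) (k : ℕ) :
    (cf (-1 / 2) (p ^ k) : ℂ) * ((p ^ k : ℕ) : ℂ) ^ (I * v) =
      (-((p : ℂ) ^ (I * v)) / 2) ^ k / (k.factorial : ℂ) := by
  have e1 : ((p ^ k : ℕ) : ℂ) ^ (I * v) = ((p : ℂ) ^ (I * v)) ^ k := by
    induction k with
    | zero => simp
    | succ k ih =>
      rw [pow_succ, Nat.cast_mul, Complex.natCast_mul_natCast_cpow, ih, pow_succ]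
  rw [e1]
  rcases Nat.eq_zero_or_pos k with rfl | hk
  · simp [cf]
  · have e2 : cf (-1 / 2) (p ^ k) = (-1 / 2) ^ k / (k.factorial : ℝ) := by
      unfold cf
      rw [Nat.primeFactors_prime_pow (by omega) hp, Finset.prod_singleton,
        hp.factorization_pow]
      simp
    rw [e2]
    have e3 : (-((p : ℂ) ^ (I * v)) / 2) ^ k = (-1 / 2) ^ k * ((p : ℂ) ^ (I * v)) ^ k := by
      rw [← mul_pow]
      congr 1
      ring
    rw [e3]
    push_cast
    ring

lemma LOC2_ee : Real.exp (Real.exp 1) ≤ 16 := by
  have h1 : Real.exp 1 ≤ 4 * Real.log 2 := by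
    have a := Real.exp_one_lt_d9
    have b := Real.log_two_gt_d9
    linarith
  have h2 : Real.exp (4 * Real.log 2) = 16 := by
    have : 4 * Real.log 2 = Real.log (2 ^ (4 : ℕ)) := by
      rw [Real.log_pow]
      norm_num
    rw [this, Real.exp_log (by norm_num)]
    norm_num
  rw [← h2]
  exact Real.exp_le_exp.2 h1

theorem stmt_LOC2 : Stmt_LOC2 := by
  intro X K i v m x hx hX hv hm
  classical
  have hm0 : m ≠ 0 := by omega
  set P := PB X i with hP
  set f : ℕ → ℂ := fun d => (cf (-1 / 2) d : ℂ) * (d : ℂ) ^ (I * v) with hf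
  have hf1 : f 1 = 1 := by
    simp [hf, cf]
  have hfm : ∀ a b : ℕ, Nat.Coprime a b → f (a * b) = f a * f b := fun a b h => LOC2_mul v a b h
  have hHH : 0 ≤ Real.exp (-(K : ℝ)) * HH X i m := by
    unfold HH
    positivity
  have hFF : 0 ≤ FF X i v m := by
    unfold FF
    positivity
  by_cases hc : ∑ p ∈ P, m.factorization p ≤ K
  · have e1 : Bt X K i v m = ∏ p ∈ m.primeFactors.filter (fun p => p ∈ P),
        EP (m.factorization p) (-((p : ℂ) ^ (I * v)) / 2) := by
      have e2 : m.divisors.filter (fun d => (∀ p ∈ d.primeFactors, p ∈ PB X i) ∧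
          ∑ p ∈ PB X i, d.factorization p ≤ K) =
          m.divisors.filter (fun d => ∀ p ∈ d.primeFactors, p ∈ P) := by
        refine Finset.filter_congr (fun d hd => ?_)
        constructor
        · exact fun h => h.1
        · intro h
          refine ⟨h, le_trans ?_ hc⟩
          refine Finset.sum_le_sum (fun p _ => ?_)
          exact (Nat.factorization_le_iff_dvd (Nat.pos_of_mem_divisors hd).ne' hm0).2
            (Nat.dvd_of_mem_divisors hd) p
      unfold Bt
      rw [e2]
      rw [LOC2_prod P f hf1 hfm m hm]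
      refine Finset.prod_congr rfl (fun p hp => ?_)
      unfold EP
      refine Finset.sum_congr rfl (fun k _ => ?_)
      exact LOC2_pow v (Nat.prime_of_mem_primeFactors (Finset.mem_filter.1 hp).1) k
    have e3 : ‖Bt X K i v m‖ ^ 2 = FF X i v m := by
      rw [e1, norm_prod, ← Finset.prod_pow]
      rfl
    rw [e3]
    linarith
  · push Not at hc
    have hsub : m.divisors.filter (fun d => (∀ p ∈ d.primeFactors, p ∈ PB X i) ∧
          ∑ p ∈ PB X i, d.factorization p ≤ K) ⊆
          m.divisors.filter (fun d => ∀ p ∈ d.primeFactors, p ∈ P) := by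
      intro d hd
      rw [Finset.mem_filter] at hd ⊢
      exact ⟨hd.1, hd.2.1⟩
    have b1 : ‖Bt X K i v m‖ ≤
        ∑ d ∈ m.divisors.filter (fun d => ∀ p ∈ d.primeFactors, p ∈ P), ‖f d‖ := by
      unfold Bt
      refine (norm_sum_le _ _).trans ?_
      exact Finset.sum_le_sum_of_subset_of_nonneg hsub (fun _ _ _ => norm_nonneg _)
    have b2 := LOC2_prod P (fun d => ‖f d‖) (by simp [hf1])
      (fun a b h => by simp only [hfm a b h, norm_mul]) m hm
    have b3 : ∀ p ∈ m.primeFactors.filter (fun p => p ∈ P),
        ∑ k ∈ range (m.factorization p + 1), ‖f (p ^ k)‖ ≤ Real.exp (Real.exp 1 / 2) := by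
      intro p hp
      obtain ⟨hp1, hp2⟩ := Finset.mem_filter.1 hp
      have hpp := Nat.prime_of_mem_primeFactors hp1
      have hnorm : ‖(p : ℂ) ^ (I * v)‖ ≤ Real.exp 1 := by
        rw [Complex.norm_natCast_cpow_of_pos hpp.pos]
        have hre : (I * v).re = -v.im := by simp
        rw [hre, Real.rpow_def_of_pos (by exact_mod_cast hpp.pos)]
        apply Real.exp_le_exp.2
        have hpx : (p : ℝ) ≤ x := by
          rw [hP, PB, Finset.mem_filter, Finset.mem_Icc] at hp2
          have hnn : 0 ≤ X (i + 1) := by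
            by_contra hneg
            push Not at hneg
            have := Nat.floor_of_nonpos hneg.le
            omega
          exact ((Nat.le_floor_iff hnn).1 hp2.1.2).trans hX
        have hp1' : (1 : ℝ) ≤ p := by exact_mod_cast hpp.one_lt.le
        have hlp : 0 ≤ Real.log p := Real.log_nonneg hp1'
        have hlx : 0 < Real.log x := Real.log_pos hx
        have hlpx : Real.log p ≤ Real.log x := Real.log_le_log (by linarith) hpx
        have hvi : -v.im ≤ 1 / Real.log x := (neg_le_abs _).trans hv
        calc Real.log p * -v.im ≤ Real.log p * (1 / Real.log x) :=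
              mul_le_mul_of_nonneg_left hvi hlp
          _ ≤ Real.log x * (1 / Real.log x) :=
              mul_le_mul_of_nonneg_right hlpx (by positivity)
          _ = 1 := by field_simp
      have hterm : ∀ k, ‖f (p ^ k)‖ = (‖(p : ℂ) ^ (I * v)‖ / 2) ^ k / (k.factorial : ℝ) := by
        intro k
        have e1 : f (p ^ k) = (-((p : ℂ) ^ (I * v)) / 2) ^ k / (k.factorial : ℂ) :=
          LOC2_pow v hpp k
        rw [e1, norm_div, norm_pow, norm_div, norm_neg]
        simp
      simp_rw [hterm]
      refine (Real.sum_le_exp_of_nonneg (by positivity) _).trans ?_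
      apply Real.exp_le_exp.2
      linarith
    have b4 : ‖Bt X K i v m‖ ≤ ∏ p ∈ m.primeFactors.filter (fun p => p ∈ P),
        Real.exp (Real.exp 1 / 2) := by
      refine b1.trans ?_
      rw [b2]
      exact Finset.prod_le_prod (fun p _ => Finset.sum_nonneg (fun k _ => norm_nonneg _)) b3
    have b5 : ‖Bt X K i v m‖ ^ 2 ≤ ∏ p ∈ m.primeFactors.filter (fun p => p ∈ P), (16 : ℝ) := by
      refine (pow_le_pow_left₀ (norm_nonneg _) b4 2).trans ?_
      rw [← Finset.prod_pow]
      refine Finset.prod_le_prod (fun p _ => by positivity) (fun p _ => ?_)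
      rw [← Real.exp_nat_mul]
      refine le_trans (le_of_eq ?_) LOC2_ee
      congr 1
      push_cast
      ring
    have b6 : ∏ p ∈ m.primeFactors.filter (fun p => p ∈ P), (16 : ℝ) ≤
        Real.exp (-(K : ℝ)) * HH X i m := by
      unfold HH
      rw [Finset.prod_mul_distrib, ← Real.exp_sum]
      have hs : (K : ℝ) ≤ ∑ p ∈ m.primeFactors.filter (fun p => p ∈ PB X i),
          (m.factorization p : ℝ) := by
        have e1 : ∑ p ∈ P, m.factorization p =
            ∑ p ∈ m.primeFactors.filter (fun p => p ∈ PB X i), m.factorization p := by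
          symm
          apply Finset.sum_subset
          · intro p hp
            exact (Finset.mem_filter.1 hp).2
          · intro p hp hnot
            by_contra hne
            apply hnot
            rw [Finset.mem_filter]
            refine ⟨?_, hp⟩
            rw [← Nat.support_factorization, Finsupp.mem_support_iff]
            exact hne
        rw [e1] at hc
        exact_mod_cast hc.le
      have h1 : (1 : ℝ) ≤ Real.exp (-(K : ℝ)) *
          Real.exp (∑ p ∈ m.primeFactors.filter (fun p => p ∈ PB X i), (m.factorization p : ℝ)) := by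
        rw [← Real.exp_add]
        apply Real.one_le_exp
        linarith
      have h2 : (0 : ℝ) ≤ ∏ p ∈ m.primeFactors.filter (fun p => p ∈ P), (16 : ℝ) := by
        positivity
      calc ∏ p ∈ m.primeFactors.filter (fun p => p ∈ P), (16 : ℝ)
          = (∏ p ∈ m.primeFactors.filter (fun p => p ∈ P), (16 : ℝ)) * 1 := by rw [mul_one]
        _ ≤ (∏ p ∈ m.primeFactors.filter (fun p => p ∈ P), (16 : ℝ)) * (Real.exp (-(K : ℝ)) *
          Real.exp (∑ p ∈ m.primeFactors.filter (fun p => p ∈ PB X i),
            (m.factorization p : ℝ))) := mul_le_mul_of_nonneg_left h1 h2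
        _ = _ := by ring
    linarith

end HZS
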