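import Pool.Agent.Work.MP_c51bc2_nt.Interface

open Finset Complex MeasureTheory

namespace HZS

namespace MAINx

lemma cs {a b A B : ℝ} (hab : a ≤ b) {f g : ℝ → ℝ} (hf : Continuous f) (hg : Continuous g)
    (hA : 0 < A) (hB : 0 < B) (h1 : ∫ t in a..b, f t ^ 2 ≤ A) (h2 : ∫ t in a..b, g t ^ 2 ≤ B) :
    ∫ t in a..b, f t * g t ≤ Real.sqrt (A * B) := by
  set s := Real.sqrt (B / A) with hs
  have hs0 : 0 < s := Real.sqrt_pos.2 (div_pos hB hA)
  have hs2 : s ^ 2 = B / A := Real.sq_sqrt (div_pos hB hA).le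
  have hpt : ∀ t ∈ Set.Icc a b, f t * g t ≤ (s / 2) * f t ^ 2 + (1 / (2 * s)) * g t ^ 2 := by
    intro t _
    have h3 : 0 ≤ (s * f t - g t) ^ 2 / (2 * s) := by positivity
    have h4 : (s * f t - g t) ^ 2 / (2 * s) =
        (s / 2) * f t ^ 2 + (1 / (2 * s)) * g t ^ 2 - f t * g t := by
      field_simp
      ring
    linarith
  have h5 : ∫ t in a..b, f t * g t ≤
      ∫ t in a..b, ((s / 2) * f t ^ 2 + (1 / (2 * s)) * g t ^ 2) := by
    apply intervalIntegral.integral_mono_on hab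
    · exact (hf.mul hg).intervalIntegrable _ _
    · exact ((continuous_const.mul (hf.pow 2)).add (continuous_const.mul (hg.pow 2))).intervalIntegrable _ _
    · exact hpt
  have hi1 : IntervalIntegrable (fun t => s / 2 * f t ^ 2) volume a b :=
    (continuous_const.mul (hf.pow 2)).intervalIntegrable _ _
  have hi2 : IntervalIntegrable (fun t => 1 / (2 * s) * g t ^ 2) volume a b :=
    (continuous_const.mul (hg.pow 2)).intervalIntegrable _ _
  rw [intervalIntegral.integral_add hi1 hi2,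
    intervalIntegral.integral_const_mul, intervalIntegral.integral_const_mul] at h5
  have h6 : s / 2 * (∫ t in a..b, f t ^ 2) ≤ s / 2 * A := mul_le_mul_of_nonneg_left h1 (by positivity)
  have h7 : 1 / (2 * s) * (∫ t in a..b, g t ^ 2) ≤ 1 / (2 * s) * B :=
    mul_le_mul_of_nonneg_left h2 (by positivity)
  have h8 : s * A = Real.sqrt (A * B) := by
    rw [eq_comm, Real.sqrt_eq_iff_mul_self_eq (by positivity) (by positivity)]
    symm
    calc s * A * (s * A) = s ^ 2 * A ^ 2 := by ring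
      _ = A * B := by rw [hs2]; field_simp
  have h9 : 1 / (2 * s) * B = s / 2 * A := by
    have : B = s ^ 2 * A := by rw [hs2]; field_simp
    rw [this]; field_simp
  linarith

lemma x_ge {L : ℝ} {R : ℕ} {X lam : ℕ → ℝ} (hc : IsChain L R X lam) :
    ∀ j ≤ R, 100 ≤ X j := by
  intro j
  induction j with
  | zero => intro _; rw [hc.x0]
  | succ j ih =>
    intro hj
    have h1 := ih (by omega)
    have h2 := hc.mono j (by omega)
    linarith

lemma x_mono {L : ℝ} {R : ℕ} {X lam : ℕ → ℝ} (hc : IsChain L R X lam) {i j : ℕ} (hij : i ≤ j)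
    (hj : j ≤ R) : X i ≤ X j := by
  induction j, hij using Nat.le_induction with
  | base => exact le_rfl
  | succ j hij ih =>
    have h1 := ih (by omega)
    have h2 := hc.mono j (by omega)
    linarith

lemma cont_mo (n : ℕ) (hn : 1 ≤ n) : Continuous (mo n) := by
  unfold mo
  have hn0 : (n : ℂ) ≠ 0 := by exact_mod_cast (by omega : n ≠ 0)
  exact Continuous.const_cpow (by fun_prop) (Or.inl hn0)

lemma cont_PP (X : ℕ → ℝ) (j : ℕ) : Continuous (PP X j) := by
  unfold PP
  apply continuous_finsetSum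
  intro p hp
  apply cont_mo
  unfold PB at hp
  rw [Finset.mem_filter, Finset.mem_Icc] at hp
  exact hp.1.1

lemma cont_EP (K : ℕ) : Continuous (EP K) := by
  unfold EP
  fun_prop

lemma cont_MM (X lam : ℕ → ℝ) (S : Finset ℕ) : Continuous (MM X lam S) := by
  unfold MM
  apply continuous_finsetProd
  intro i _
  exact (cont_EP _).comp ((cont_PP X i).neg.div_const _)

lemma cont_NN (X lam : ℕ → ℝ) (S : Finset ℕ) : Continuous (NN X lam S) := by
  unfold NN
  apply continuous_finsetProd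
  intro i _
  exact (cont_EP _).comp ((cont_PP X i).div_const _)

lemma cont_J (hZ : Continuous Z) (h : ℝ) : Continuous (J h) := by
  have h1 : ∀ t, J h t = (∫ u in (0 : ℝ)..(t + h), Z u) - ∫ u in (0 : ℝ)..t, Z u := by
    intro t
    unfold J
    rw [intervalIntegral.integral_interval_sub_left]
    · exact hZ.intervalIntegrable _ _
    · exact hZ.intervalIntegrable _ _
  have h2 : Continuous (fun t : ℝ => ∫ u in (0 : ℝ)..t, Z u) :=
    intervalIntegral.continuous_primitive (fun a b => hZ.intervalIntegrable a b) 0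
  have h3 : J h = fun t => (∫ u in (0 : ℝ)..(t + h), Z u) - ∫ u in (0 : ℝ)..t, Z u := funext h1
  rw [h3]
  exact (h2.comp (continuous_id.add continuous_const)).sub h2

lemma weight {l : ℝ} (hl : 1 ≤ l) :
    ((⌈l⌉₊.factorial : ℝ) * l ^ ⌈l⌉₊) * ((5 / (⌈50 * l⌉₊ : ℝ)) ^ 2) ^ ⌈l⌉₊ ≤
      Real.exp (-(5 / 2) * l) := by
  set m := ⌈l⌉₊ with hm
  set K := ⌈50 * l⌉₊ with hK
  have hm1 : l ≤ m := Nat.le_ceil _
  have hm2 : (m : ℝ) ≤ 2 * l := by
    have := Nat.ceil_lt_add_one (show 0 ≤ l by linarith)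
    linarith
  have hK1 : 50 * l ≤ K := Nat.le_ceil _
  have hl0 : 0 < l := by linarith
  have hK0 : 0 < (K : ℝ) := by linarith
  have h1 : (m.factorial : ℝ) ≤ (m : ℝ) ^ m := by exact_mod_cast Nat.factorial_le_pow m
  have h2 : ((m.factorial : ℝ) * l ^ m) * ((5 / (K : ℝ)) ^ 2) ^ m ≤
      ((m : ℝ) * l * (5 / (K : ℝ)) ^ 2) ^ m := by
    rw [mul_pow, mul_pow]
    apply mul_le_mul_of_nonneg_right _ (by positivity)
    exact mul_le_mul_of_nonneg_right h1 (by positivity)
  have h3 : (m : ℝ) * l * (5 / (K : ℝ)) ^ 2 ≤ 1 / 50 := by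
    have h4 : (5 / (K : ℝ)) ^ 2 ≤ (5 / (50 * l)) ^ 2 := by
      apply pow_le_pow_left₀ (by positivity)
      exact div_le_div_of_nonneg_left (by norm_num) (by positivity) hK1
    calc (m : ℝ) * l * (5 / (K : ℝ)) ^ 2 ≤ (2 * l) * l * (5 / (50 * l)) ^ 2 := by
          apply mul_le_mul _ h4 (by positivity) (by positivity)
          exact mul_le_mul_of_nonneg_right hm2 hl0.le
      _ = 1 / 50 := by field_simp; norm_num
  have h5 : ((m : ℝ) * l * (5 / (K : ℝ)) ^ 2) ^ m ≤ (1 / 50 : ℝ) ^ m :=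
    pow_le_pow_left₀ (by positivity) h3 _
  have h6 : (1 / 50 : ℝ) ≤ Real.exp (-(5 / 2)) := by
    have h7 : Real.exp (5 / 2) ≤ 50 := by
      have h8 := Real.exp_one_lt_d9
      have h9 : Real.exp (5 / 2) ^ 2 = Real.exp 1 ^ 5 := by
        rw [← Real.exp_nat_mul, ← Real.exp_nat_mul]; norm_num
      have h10 : Real.exp 1 ^ 5 ≤ 2.7182818286 ^ 5 := pow_le_pow_left₀ (Real.exp_pos _).le h8.le 5
      have h11 : Real.exp (5 / 2) ^ 2 ≤ 50 ^ 2 := by rw [h9]; refine le_trans h10 (by norm_num)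
      exact le_of_sq_le_sq h11 (by norm_num)
    rw [Real.exp_neg, ← one_div]
    exact one_div_le_one_div_of_le (Real.exp_pos _) h7
  have h7 : (1 / 50 : ℝ) ^ m ≤ Real.exp (-(5 / 2)) ^ m := pow_le_pow_left₀ (by norm_num) h6 _
  have h8 : Real.exp (-(5 / 2)) ^ m ≤ Real.exp (-(5 / 2) * l) := by
    rw [← Real.exp_nat_mul]
    apply Real.exp_le_exp.2
    nlinarith
  exact le_trans h2 (le_trans h5 (le_trans h7 h8))

end MAINx

open MAINx in
theorem stmt_MAIN (hTW : Stmt_TW) (hMO : Stmt_MO) (hTEL : Stmt_TEL) (hZC : Stmt_ZC) :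
    Stmt_MAIN := by
  obtain ⟨C1, T1, hC1, hT1, h1⟩ := hTW
  obtain ⟨C2, T2, hC2, hT2, h2⟩ := hMO
  refine ⟨3 * Real.sqrt (C1 * C2), max T1 T2, by positivity, lt_max_of_lt_left hT1, ?_⟩
  intro T h R X lam hT hc hXR hh1 hh2 hh3
  have hT1' : T1 ≤ T := le_trans (le_max_left _ _) hT
  have hT2' : T2 ≤ T := le_trans (le_max_right _ _) hT
  have hTpos : 0 < T := by linarith
  have hTT : T ≤ 2 * T := by linarith
  have hlog : 0 < Real.log T := Real.log_pos (by linarith)
  have hh0 : 0 < h := lt_of_lt_of_le (div_pos one_pos hlog) hh1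
  have hlogR : Real.log (X R) = 1 / h := by rw [hXR, Real.log_exp]
  have hx := x_ge hc
  have hlogx : ∀ j ≤ R, 0 < Real.log (X j) := fun j hj => Real.log_pos (by have := hx j hj; linarith)
  have hlogmono : ∀ j ≤ R, Real.log (X j) ≤ 1 / h := by
    intro j hj
    rw [← hlogR]
    exact Real.log_le_log (by have := hx j hj; linarith) (x_mono hc hj le_rfl)
  have hcJ := cont_J hZC h
  have hA : ∀ j ≤ R, ∫ t in T..(2 * T), (|J h t| * ‖MM X lam (range j) t‖) ^ 2 ≤
      C1 * T * h * Real.log (X j) ^ (-(3 / 4) : ℝ) := by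
    intro j hj
    have h3 := h1 T R X lam hT1' hc j hj h hh1 hh2 (by
      have := hlogmono j hj
      calc h * Real.log (X j) ≤ h * (1 / h) := mul_le_mul_of_nonneg_left this hh0.le
        _ = 1 := by field_simp) (le_trans (hlogmono j hj) hh3)
    simp_rw [mul_pow]
    exact h3
  -- the first term
  have hfirst : ∫ t in T..(2 * T), (|J h t| * ‖MM X lam (range R) t‖) * ‖NN X lam (range R) t‖ ≤
      Real.sqrt (C1 * C2) * T * h ^ (3 / 4 : ℝ) := by
    have hAR := hA R le_rfl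
    have hBR := (h2 T R X lam hT2' hc R le_rfl).1
    have hlR := hlogx R le_rfl
    refine le_trans (cs hTT (hcJ.abs.mul (cont_MM X lam (range R)).norm)
      (cont_NN X lam (range R)).norm (by positivity) (by positivity) hAR hBR) ?_
    rw [hlogR]
    apply le_of_eq
    rw [Real.sqrt_eq_iff_mul_self_eq (by positivity) (by positivity)]
    have e1 : (1 / h) ^ (-(3 / 4) : ℝ) = h ^ (3 / 4 : ℝ) := by
      rw [one_div, Real.inv_rpow hh0.le, ← Real.rpow_neg hh0.le, neg_neg]
    have e2 : (1 / h) ^ (1 / 4 : ℝ) = h ^ (-(1 / 4) : ℝ) := by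
      rw [one_div, Real.inv_rpow hh0.le, ← Real.rpow_neg hh0.le]
    rw [e1, e2]
    have e3 : h ^ (3 / 4 : ℝ) * h ^ (3 / 4 : ℝ) = h * h ^ (3 / 4 : ℝ) * h ^ (-(1 / 4) : ℝ) := by
      rw [← Real.rpow_add hh0]
      nth_rewrite 2 [← Real.rpow_one h]
      rw [← Real.rpow_add hh0, ← Real.rpow_add hh0]
      norm_num
    symm
    calc Real.sqrt (C1 * C2) * T * h ^ (3 / 4 : ℝ) * (Real.sqrt (C1 * C2) * T * h ^ (3 / 4 : ℝ)) =
        (Real.sqrt (C1 * C2) * Real.sqrt (C1 * C2)) * T ^ 2 *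
          (h ^ (3 / 4 : ℝ) * h ^ (3 / 4 : ℝ)) := by ring
      _ = (C1 * C2) * T ^ 2 * (h * h ^ (3 / 4 : ℝ) * h ^ (-(1 / 4) : ℝ)) := by
        rw [Real.mul_self_sqrt (by positivity), e3]
      _ = _ := by ring
  -- the other terms
  have hother : ∀ j ∈ range R, ∫ t in T..(2 * T), (|J h t| * ‖MM X lam (range j) t‖) *
      (‖NN X lam (range j) t‖ * (5 * ‖PP X j t‖ / (KK lam j : ℝ)) ^ (mm lam j)) ≤
      Real.sqrt (C1 * C2) * T * h ^ (3 / 4 : ℝ) * Real.exp (-lam j) := by
    intro j hj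
    have hj' := Finset.mem_range.1 hj
    have hAj := hA j hj'.le
    have hBj := (h2 T R X lam hT2' hc j hj'.le).2 hj'
    have hlj := hlogx j hj'.le
    have hl1 := hc.lam1 j hj'
    have hw := weight hl1
    set w : ℝ := ((mm lam j).factorial : ℝ) * lam j ^ (mm lam j) with hwdef
    have hB2 : ∫ t in T..(2 * T), (‖NN X lam (range j) t‖ *
        (5 * ‖PP X j t‖ / (KK lam j : ℝ)) ^ (mm lam j)) ^ 2 ≤
        C2 * T * Real.log (X j) ^ (1 / 4 : ℝ) * Real.exp (-(5 / 2) * lam j) := by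
      have e1 : ∀ t, (‖NN X lam (range j) t‖ * (5 * ‖PP X j t‖ / (KK lam j : ℝ)) ^ (mm lam j)) ^ 2 =
          ((5 / (KK lam j : ℝ)) ^ 2) ^ (mm lam j) *
            (‖NN X lam (range j) t‖ ^ 2 * ‖PP X j t‖ ^ (2 * mm lam j)) := by
        intro t
        rw [mul_div_right_comm, mul_pow, mul_pow, mul_pow, ← pow_mul, ← pow_mul, ← pow_mul]
        rw [mul_comm (mm lam j) 2]
        ring
      simp_rw [e1]
      rw [intervalIntegral.integral_const_mul]
      calc ((5 / (KK lam j : ℝ)) ^ 2) ^ (mm lam j) * (∫ t in T..(2 * T),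
            ‖NN X lam (range j) t‖ ^ 2 * ‖PP X j t‖ ^ (2 * mm lam j)) ≤
          ((5 / (KK lam j : ℝ)) ^ 2) ^ (mm lam j) * (C2 * T * Real.log (X j) ^ (1 / 4 : ℝ) * w) :=
            mul_le_mul_of_nonneg_left hBj (by positivity)
        _ = C2 * T * Real.log (X j) ^ (1 / 4 : ℝ) * (w * ((5 / (KK lam j : ℝ)) ^ 2) ^ (mm lam j)) := by
            ring
        _ ≤ _ := mul_le_mul_of_nonneg_left hw (by positivity)
    have hcs := cs hTT (hcJ.abs.mul (cont_MM X lam (range j)).norm)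
      ((cont_NN X lam (range j)).norm.mul
        (((continuous_const.mul (cont_PP X j).norm).div_const _).pow (mm lam j)))
      (by positivity) (by positivity) hAj hB2
    refine le_trans hcs ?_
    apply Real.sqrt_le_iff.2
    refine ⟨by positivity, ?_⟩
    -- (log X_j)^{-1/2} ≤ h^{1/2} e^{lam/2}
    have htop := hc.top j hj'
    rw [hlogR] at htop
    have h3 : Real.log (X j) ^ (-(1 / 2) : ℝ) ≤ h ^ (1 / 2 : ℝ) * Real.exp (lam j / 2) := by
      have h4 : h⁻¹ * Real.exp (-lam j) ≤ Real.log (X j) := by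
        rw [Real.exp_neg]
        rw [one_div] at htop
        have : h⁻¹ * (Real.exp (lam j))⁻¹ ≤ (Real.exp (lam j) * Real.log (X j)) * (Real.exp (lam j))⁻¹ :=
          mul_le_mul_of_nonneg_right htop (by positivity)
        calc h⁻¹ * (Real.exp (lam j))⁻¹ ≤ _ := this
          _ = Real.log (X j) := by field_simp
      have h5 : Real.log (X j) ^ (-(1 / 2) : ℝ) ≤ (h⁻¹ * Real.exp (-lam j)) ^ (-(1 / 2) : ℝ) :=
        Real.rpow_le_rpow_of_nonpos (by positivity) h4 (by norm_num)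
      refine le_trans h5 (le_of_eq ?_)
      rw [Real.mul_rpow (by positivity) (Real.exp_pos _).le, Real.inv_rpow hh0.le,
        ← Real.rpow_neg hh0.le, neg_neg, ← Real.exp_mul]
      congr 2
      ring
    have e2 : Real.log (X j) ^ (-(3 / 4) : ℝ) * Real.log (X j) ^ (1 / 4 : ℝ) =
        Real.log (X j) ^ (-(1 / 2) : ℝ) := by
      rw [← Real.rpow_add hlj]; norm_num
    have e3 : h * h ^ (1 / 2 : ℝ) = (h ^ (3 / 4 : ℝ)) ^ 2 := by
      rw [← Real.rpow_natCast, ← Real.rpow_mul hh0.le]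
      nth_rewrite 1 [← Real.rpow_one h]
      rw [← Real.rpow_add hh0]
      norm_num
    calc C1 * T * h * Real.log (X j) ^ (-(3 / 4) : ℝ) *
          (C2 * T * Real.log (X j) ^ (1 / 4 : ℝ) * Real.exp (-(5 / 2) * lam j)) =
        C1 * C2 * T ^ 2 * h * (Real.log (X j) ^ (-(3 / 4) : ℝ) * Real.log (X j) ^ (1 / 4 : ℝ)) *
          Real.exp (-(5 / 2) * lam j) := by ring
      _ = C1 * C2 * T ^ 2 * h * Real.log (X j) ^ (-(1 / 2) : ℝ) * Real.exp (-(5 / 2) * lam j) := by
        rw [e2]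
      _ ≤ C1 * C2 * T ^ 2 * h * (h ^ (1 / 2 : ℝ) * Real.exp (lam j / 2)) *
          Real.exp (-(5 / 2) * lam j) := by
        apply mul_le_mul_of_nonneg_right _ (Real.exp_pos _).le
        exact mul_le_mul_of_nonneg_left h3 (by positivity)
      _ = C1 * C2 * T ^ 2 * (h * h ^ (1 / 2 : ℝ)) *
          (Real.exp (lam j / 2) * Real.exp (-(5 / 2) * lam j)) := by ring
      _ = C1 * C2 * T ^ 2 * (h ^ (3 / 4 : ℝ)) ^ 2 * (Real.exp (-lam j)) ^ 2 := by
        rw [e3, ← Real.exp_add, ← Real.exp_nat_mul]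
        congr 2
        push_cast
        ring
      _ = (Real.sqrt (C1 * C2) * T * h ^ (3 / 4 : ℝ) * Real.exp (-lam j)) ^ 2 := by
        rw [mul_pow, mul_pow, mul_pow, Real.sq_sqrt (by positivity)]
  -- assemble
  have hcR : Continuous (fun t => (|J h t| * ‖MM X lam (range R) t‖) * ‖NN X lam (range R) t‖) :=
    (hcJ.abs.mul (cont_MM X lam (range R)).norm).mul (cont_NN X lam (range R)).norm
  have hcj : ∀ j ∈ range R, Continuous (fun t => (|J h t| * ‖MM X lam (range j) t‖) *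
      (‖NN X lam (range j) t‖ * (5 * ‖PP X j t‖ / (KK lam j : ℝ)) ^ (mm lam j))) := fun j _ =>
    (hcJ.abs.mul (cont_MM X lam (range j)).norm).mul ((cont_NN X lam (range j)).norm.mul
        (((continuous_const.mul (cont_PP X j).norm).div_const _).pow (mm lam j)))
  have hcs : Continuous (fun t => ∑ j ∈ range R, (|J h t| * ‖MM X lam (range j) t‖) *
      (‖NN X lam (range j) t‖ * (5 * ‖PP X j t‖ / (KK lam j : ℝ)) ^ (mm lam j))) :=
    continuous_finsetSum _ hcj
  have hpt : ∀ t ∈ Set.Icc T (2 * T), |J h t| ≤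
      2 * ((|J h t| * ‖MM X lam (range R) t‖) * ‖NN X lam (range R) t‖) +
      2 * ∑ j ∈ range R, (|J h t| * ‖MM X lam (range j) t‖) *
      (‖NN X lam (range j) t‖ * (5 * ‖PP X j t‖ / (KK lam j : ℝ)) ^ (mm lam j)) := by
    intro t _
    have h3 := hTEL (Real.log T) R X lam hc t
    have h4 := mul_le_mul_of_nonneg_left h3 (abs_nonneg (J h t))
    rw [mul_one] at h4
    refine le_trans h4 (le_of_eq ?_)
    rw [mul_add, mul_left_comm, mul_left_comm (|J h t|) 2, Finset.mul_sum]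
    congr 1
    · ring
    · congr 1
      apply Finset.sum_congr rfl
      intro j _
      ring
  have hint : ∫ t in T..(2 * T), |J h t| ≤ ∫ t in T..(2 * T),
      (2 * ((|J h t| * ‖MM X lam (range R) t‖) * ‖NN X lam (range R) t‖) +
      2 * ∑ j ∈ range R, (|J h t| * ‖MM X lam (range j) t‖) *
      (‖NN X lam (range j) t‖ * (5 * ‖PP X j t‖ / (KK lam j : ℝ)) ^ (mm lam j))) := by
    apply intervalIntegral.integral_mono_on hTT
    · exact hcJ.abs.intervalIntegrable _ _
    · exact ((continuous_const.mul hcR).add (continuous_const.mul hcs)).intervalIntegrable _ _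
    · exact hpt
  have hi1 : IntervalIntegrable (fun t => 2 * ((|J h t| * ‖MM X lam (range R) t‖) *
      ‖NN X lam (range R) t‖)) volume T (2 * T) :=
    (continuous_const.mul hcR).intervalIntegrable _ _
  have hi2 : IntervalIntegrable (fun t => 2 * ∑ j ∈ range R, (|J h t| * ‖MM X lam (range j) t‖) *
      (‖NN X lam (range j) t‖ * (5 * ‖PP X j t‖ / (KK lam j : ℝ)) ^ (mm lam j))) volume T (2 * T) :=
    (continuous_const.mul hcs).intervalIntegrable _ _
  rw [intervalIntegral.integral_add hi1 hi2, intervalIntegral.integral_const_mul,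
    intervalIntegral.integral_const_mul, intervalIntegral.integral_finsetSum
      (fun j hj => (hcj j hj).intervalIntegrable _ _)] at hint
  have hsum := Finset.sum_le_sum hother
  rw [← Finset.mul_sum] at hsum
  have h8 := hc.sum
  have hS0 : 0 ≤ Real.sqrt (C1 * C2) * T * h ^ (3 / 4 : ℝ) := by positivity
  have h9 := mul_le_mul_of_nonneg_left h8 hS0
  calc ∫ t in T..(2 * T), |J h t| ≤ _ := hint
    _ ≤ 2 * (Real.sqrt (C1 * C2) * T * h ^ (3 / 4 : ℝ)) +
        2 * (Real.sqrt (C1 * C2) * T * h ^ (3 / 4 : ℝ) * (1 / 8)) := by linarith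
    _ ≤ 3 * Real.sqrt (C1 * C2) * T * h ^ (3 / 4 : ℝ) := by nlinarith

end HZS
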