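import Pool.Agent.Work.MP_c51bc2_nt.Interface
import Pool.Agent.Work.MP_b0c12c_nt_helper41.Mert

set_option autoImplicit false

open Finset

namespace HZS

theorem mers_floor {z : ℝ} (hz : 2 ≤ z) : 2 ≤ ⌊z⌋₊ := Nat.le_floor (by exact_mod_cast hz)

theorem mers_log2 : 0 < Real.log 2 := Real.log_pos (by norm_num)

/-- comparison of `loglog z` and `loglog ⌊z⌋` -/
theorem mers_ll {z : ℝ} (hz : 2 ≤ z) :
    0 < Real.log (⌊z⌋₊ : ℝ) ∧ Real.log (⌊z⌋₊ : ℝ) ≤ Real.log z ∧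
    Real.log (Real.log (⌊z⌋₊ : ℝ)) ≤ Real.log (Real.log z) ∧
    Real.log (Real.log z) ≤ Real.log (Real.log (⌊z⌋₊ : ℝ)) + Real.log 2 ∧
    Real.log 2 ≤ Real.log (⌊z⌋₊ : ℝ) := by
  have h2 := mers_floor hz
  have h2' : (2 : ℝ) ≤ (⌊z⌋₊ : ℝ) := by exact_mod_cast h2
  have hle : (⌊z⌋₊ : ℝ) ≤ z := Nat.floor_le (by linarith)
  have hl2 : Real.log 2 ≤ Real.log (⌊z⌋₊ : ℝ) := Real.log_le_log (by norm_num) h2'
  have h0 : 0 < Real.log (⌊z⌋₊ : ℝ) := mers_log2.trans_le hl2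
  have h1 : Real.log (⌊z⌋₊ : ℝ) ≤ Real.log z := Real.log_le_log (by linarith) hle
  refine ⟨h0, h1, Real.log_le_log h0 h1, ?_, hl2⟩
  have h3 : z ≤ 2 * (⌊z⌋₊ : ℝ) := by
    have := Nat.lt_floor_add_one z
    linarith
  have h4 : Real.log z ≤ Real.log 2 + Real.log (⌊z⌋₊ : ℝ) := by
    rw [← Real.log_mul (by norm_num) (by positivity)]
    exact Real.log_le_log (by linarith) h3
  have h5 : Real.log z ≤ Real.log (⌊z⌋₊ : ℝ) * 2 := by linarith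
  calc Real.log (Real.log z) ≤ Real.log (Real.log (⌊z⌋₊ : ℝ) * 2) :=
        Real.log_le_log (by linarith) h5
    _ = _ := Real.log_mul h0.ne' (by norm_num)

theorem mers_split (v : ℕ) (hv : 2 ≤ v) :
    ∑ p ∈ (Icc 1 v).filter Nat.Prime, 1 / (p : ℝ)
      = 1 / 2 + ∑ p ∈ (Ioc 2 v).filter Nat.Prime, 1 / (p : ℝ) := by
  have h3 : (Icc 1 v).filter Nat.Prime = insert 2 ((Ioc 2 v).filter Nat.Prime) := by
    ext p
    rw [Finset.mem_filter, Finset.mem_Icc, Finset.mem_insert, Finset.mem_filter, Finset.mem_Ioc]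
    constructor
    · rintro ⟨⟨h1, h2⟩, hp⟩
      have := hp.two_le
      rcases Nat.eq_or_lt_of_le this with h4 | h4
      · exact Or.inl h4.symm
      · exact Or.inr ⟨⟨h4, h2⟩, hp⟩
    · rintro (rfl | ⟨⟨h1, h2⟩, hp⟩)
      · exact ⟨⟨by norm_num, hv⟩, Nat.prime_two⟩
      · exact ⟨⟨by omega, h2⟩, hp⟩
  rw [h3, Finset.sum_insert (by simp)]
  norm_num

theorem stmt_MER : Stmt_MER := by
  obtain ⟨C, hC, h⟩ := Pool.Agent.Work.MP_b0c12c_nt_helper41.mertens2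
  refine ⟨1 / 2 - Real.log (Real.log 2) + C / Real.log 2, fun z hz => ?_⟩
  have h2 := mers_floor hz
  obtain ⟨a1, a2, a3, a4, a5⟩ := mers_ll hz
  have h1 := (abs_le.mp (h 2 ⌊z⌋₊ le_rfl h2)).2
  push_cast at h1
  rw [mers_split _ h2]
  linarith

theorem stmt_MERL : Stmt_MERL := by
  obtain ⟨C, hC, h⟩ := Pool.Agent.Work.MP_b0c12c_nt_helper41.mertens2
  refine ⟨Real.log 2 + Real.log (Real.log 2) + C / Real.log 2, fun z hz => ?_⟩
  have h2 := mers_floor hz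
  obtain ⟨a1, a2, a3, a4, a5⟩ := mers_ll hz
  have h1 := (abs_le.mp (h 2 ⌊z⌋₊ le_rfl h2)).1
  push_cast at h1
  rw [mers_split _ h2]
  linarith

theorem stmt_MER1 : Stmt_MER1 := by
  obtain ⟨C, hC, h⟩ := Pool.Agent.Work.MP_b0c12c_nt_helper41.mertens1
  refine ⟨C, fun z hz => ?_⟩
  have h2 : 1 ≤ ⌊z⌋₊ := Nat.le_floor (by exact_mod_cast hz)
  have h1 := (abs_le.mp (h ⌊z⌋₊ h2)).2
  unfold Pool.Agent.Work.MP_b0c12c_nt_helper41.FF at h1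
  have h3 : Real.log (⌊z⌋₊ : ℝ) ≤ Real.log z :=
    Real.log_le_log (by exact_mod_cast h2) (Nat.floor_le (by linarith))
  linarith

theorem stmt_MER2 : Stmt_MER2 := by
  obtain ⟨C, hC, h⟩ := Pool.Agent.Work.MP_b0c12c_nt_helper41.mertens2
  have hl := mers_log2
  refine ⟨Real.log 2 + C / Real.log 2, by positivity, fun z w hz hzw => ?_⟩
  have hw : 2 ≤ w := hz.trans hzw
  obtain ⟨a1, a2, a3, a4, a5⟩ := mers_ll hz
  obtain ⟨b1, b2, b3, b4, b5⟩ := mers_ll hw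
  have h1 := (abs_le.mp (h ⌊z⌋₊ ⌊w⌋₊ (mers_floor hz) (Nat.floor_le_floor hzw))).2
  have h3 : (Icc 1 ⌊w⌋₊).filter (fun p : ℕ => p.Prime ∧ z < (p : ℝ)) ⊆
      (Ioc ⌊z⌋₊ ⌊w⌋₊).filter Nat.Prime := by
    intro p hp
    rw [Finset.mem_filter, Finset.mem_Icc] at hp
    rw [Finset.mem_filter, Finset.mem_Ioc]
    refine ⟨⟨?_, hp.1.2⟩, hp.2.1⟩
    rw [Nat.floor_lt (by linarith)]
    exact hp.2.2
  have h4 : ∑ p ∈ (Icc 1 ⌊w⌋₊).filter (fun p : ℕ => p.Prime ∧ z < (p : ℝ)), (1 / (p : ℝ)) ≤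
      ∑ p ∈ (Ioc ⌊z⌋₊ ⌊w⌋₊).filter Nat.Prime, 1 / (p : ℝ) :=
    Finset.sum_le_sum_of_subset_of_nonneg h3 fun _ _ _ => by positivity
  have h5 : C / Real.log (⌊z⌋₊ : ℝ) ≤ C / Real.log 2 := by gcongr
  have h6 : Real.log (Real.log w / Real.log z) = Real.log (Real.log w) - Real.log (Real.log z) :=
    Real.log_div (by linarith) (by linarith)
  rw [h6]
  linarith

end HZS
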