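import Pool.Agent.Work.MP_c51bc2_nt.Interface

/-!
# Block MO: the moments of `N` and `P`
-/

open Finset Complex MeasureTheory

namespace HZS

/-- the integer with given exponents -/
theorem MO_fac (P : Finset ℕ) (hP : ∀ p ∈ P, p.Prime) (k : ℕ → ℕ) (q : ℕ) :
    (∏ p ∈ P, p ^ k p).factorization q = if q ∈ P then k q else 0 := by
  rw [Nat.factorization_prod (fun p hp => pow_ne_zero _ (hP p hp).ne_zero)]
  rw [Finsupp.finsetSum_apply]
  have : ∀ p ∈ P, (p ^ k p).factorization q = if p = q then k p else 0 := by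
    intro p hp
    rw [(hP p hp).factorization_pow, Finsupp.single_apply]
  rw [sum_congr rfl this, sum_ite_eq' P q]

theorem MO_self (P : Finset ℕ) (n : ℕ) (hn : n ≠ 0) (h : ∀ p ∈ n.primeFactors, p ∈ P) :
    ∏ p ∈ P, p ^ n.factorization p = n := by
  conv_rhs => rw [← Nat.prod_factorization_pow_eq_self hn]
  rw [Finsupp.prod, Nat.support_factorization]
  symm
  apply prod_subset h
  intro p _ hp
  rw [← Nat.support_factorization, Finsupp.notMem_support_iff] at hp
  rw [hp, pow_zero]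

theorem MO_cf (P : Finset ℕ) (s : ℝ) (n : ℕ) (h : ∀ p ∈ n.primeFactors, p ∈ P) :
    cf s n = ∏ p ∈ P, s ^ (n.factorization p) / ((n.factorization p).factorial : ℝ) := by
  unfold cf
  apply prod_subset h
  intro p _ hp
  rw [← Nat.support_factorization, Finsupp.notMem_support_iff] at hp
  rw [hp]
  simp

/-- the multinomial theorem on the real line -/
theorem MO_mult (P : Finset ℕ) (hP : ∀ p ∈ P, p.Prime) (m : ℕ) :
    ∑ e ∈ SE P m, (m.factorial : ℝ) * cf 1 e / (e : ℝ) = (∑ p ∈ P, (1 / (p : ℝ))) ^ m := by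
  classical
  rw [sum_pow_eq_sum_piAntidiag]
  refine sum_bij' (fun e _ => fun p => e.factorization p) (fun k _ => ∏ p ∈ P, p ^ (k p))
    ?_ ?_ ?_ ?_ ?_
  · intro e he
    unfold SE at he
    rw [mem_filter, mem_Icc] at he
    rw [mem_piAntidiag]
    refine ⟨he.2.2, fun i hi => he.2.1 i ?_⟩
    rw [← Nat.support_factorization, Finsupp.mem_support_iff]
    exact hi
  · intro k hk
    rw [mem_piAntidiag] at hk
    have hf : ∀ q, (∏ p ∈ P, p ^ k p).factorization q = k q := by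
      intro q
      rw [MO_fac P hP]
      split_ifs with h
      · rfl
      · by_contra hc
        exact h (hk.2 q (Ne.symm hc))
    unfold SE
    rw [mem_filter, mem_Icc]
    refine ⟨⟨?_, ?_⟩, ?_, ?_⟩
    · exact Nat.one_le_iff_ne_zero.2 (prod_ne_zero_iff.2 fun p hp => pow_ne_zero _ (hP p hp).ne_zero)
    · apply prod_le_prod' fun p hp => ?_
      apply Nat.pow_le_pow_right (hP p hp).pos
      rw [← hk.1]
      exact single_le_sum (fun _ _ => Nat.zero_le _) hp
    · intro q hq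
      rw [← Nat.support_factorization, Finsupp.mem_support_iff, hf] at hq
      exact hk.2 q hq
    · rw [← hk.1]
      exact sum_congr rfl fun q _ => hf q
  · intro e he
    unfold SE at he
    rw [mem_filter, mem_Icc] at he
    exact MO_self P e (by omega) he.2.1
  · intro k hk
    rw [mem_piAntidiag] at hk
    funext q
    show (∏ p ∈ P, p ^ k p).factorization q = k q
    rw [MO_fac P hP]
    split_ifs with h
    · rfl
    · by_contra hc
      exact h (hk.2 q (Ne.symm hc))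
  · intro e he
    unfold SE at he
    rw [mem_filter, mem_Icc] at he
    have hms := Nat.multinomial_spec P (fun p => e.factorization p)
    have h1 : (∏ p ∈ P, ((e.factorization p).factorial : ℝ)) *
        (Nat.multinomial P (fun p => e.factorization p) : ℝ) = (m.factorial : ℝ) := by
      rw [← he.2.2]
      exact_mod_cast hms
    have h0 : (∏ p ∈ P, ((e.factorization p).factorial : ℝ)) ≠ 0 := by
      apply prod_ne_zero_iff.2 fun p _ => ?_
      exact_mod_cast (Nat.factorial_pos _).ne'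
    rw [MO_cf P 1 e he.2.1]
    have h2 : (e : ℝ) = ∏ p ∈ P, (p : ℝ) ^ e.factorization p := by
      conv_lhs => rw [← MO_self P e (by omega) he.2.1]
      push_cast
      rfl
    have h3 : ∏ p ∈ P, (1 / (p : ℝ)) ^ e.factorization p = 1 / (e : ℝ) := by
      rw [h2]
      simp only [one_div, inv_pow, prod_inv_distrib]
    have h4 : ∏ p ∈ P, (1 : ℝ) ^ (e.factorization p) / ((e.factorization p).factorial : ℝ) =
        (∏ p ∈ P, ((e.factorization p).factorial : ℝ))⁻¹ := by
      simp only [one_pow, one_div, prod_inv_distrib]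
    rw [h3, h4, ← h1]
    field_simp


/-! ### Sizes -/

theorem MO_sum_lt (P : Finset ℕ) (n : ℕ) (hn : n ≠ 0) (h : ∀ p ∈ n.primeFactors, p ∈ P) :
    ∑ p ∈ P, n.factorization p < n := by
  have h1 : ∑ p ∈ P, n.factorization p = ∑ p ∈ n.primeFactors, n.factorization p := by
    symm
    apply sum_subset h
    intro p _ hp
    rw [← Nat.support_factorization, Finsupp.notMem_support_iff] at hp
    exact hp
  have h2 : 2 ^ (∑ p ∈ n.primeFactors, n.factorization p) ≤ n := by
    conv_rhs => rw [← Nat.prod_factorization_pow_eq_self hn]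
    rw [Finsupp.prod, Nat.support_factorization, ← prod_pow_eq_pow_sum]
    apply prod_le_prod' fun p hp => ?_
    exact Nat.pow_le_pow_left (Nat.prime_of_mem_primeFactors hp).two_le _
  rw [h1]
  exact lt_of_lt_of_le Nat.lt_two_pow_self h2

theorem MO_le_prod (P : Finset ℕ) (n K : ℕ) (hn : n ≠ 0) (h : ∀ p ∈ n.primeFactors, p ∈ P)
    (hP : ∀ p ∈ P, p.Prime) (hK : ∀ p ∈ P, n.factorization p ≤ K) : n ≤ ∏ p ∈ P, p ^ K := by
  calc n = ∏ p ∈ P, p ^ n.factorization p := (MO_self P n hn h).symm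
    _ ≤ ∏ p ∈ P, p ^ K := prod_le_prod' fun p hp => Nat.pow_le_pow_right (hP p hp).pos (hK p hp)

theorem MO_log_le (P : Finset ℕ) (n : ℕ) (x : ℝ) (hn : n ≠ 0)
    (h : ∀ p ∈ n.primeFactors, p ∈ P)
    (hP : ∀ p ∈ P, p.Prime) (hK : ∀ p ∈ P, Real.log p ≤ x) :
    Real.log n ≤ (∑ p ∈ P, n.factorization p : ℕ) * x := by
  have h2 : (n : ℝ) = ∏ p ∈ P, (p : ℝ) ^ n.factorization p := by
    conv_lhs => rw [← MO_self P n hn h]
    push_cast
    rfl
  rw [h2, Real.log_prod (fun p hp => pow_ne_zero _ (by exact_mod_cast (hP p hp).ne_zero))]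
  push_cast
  rw [sum_mul]
  apply sum_le_sum fun p hp => ?_
  rw [Real.log_pow]
  exact mul_le_mul_of_nonneg_left (hK p hp) (by positivity)

theorem MO_cf_nonneg (s : ℝ) (hs : 0 ≤ s) (n : ℕ) : 0 ≤ cf s n := by
  unfold cf
  exact prod_nonneg fun p _ => by positivity

theorem MO_cf_sq (n : ℕ) : (cf (1 / 2) n) ^ 2 ≤ cf (1 / 4) n := by
  unfold cf
  rw [← prod_pow]
  apply prod_le_prod (fun p _ => by positivity) fun p _ => ?_
  have h1 : (1 : ℝ) ≤ ((n.factorization p).factorial : ℝ) := by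
    exact_mod_cast Nat.factorial_pos _
  rw [div_pow, ← pow_mul, mul_comm, pow_mul]
  norm_num
  have : ((n.factorization p).factorial : ℝ) ≤ ((n.factorization p).factorial : ℝ) ^ 2 := by
    nlinarith
  gcongr

theorem MO_cf_le_one (n : ℕ) : cf 1 n ≤ 1 := by
  unfold cf
  apply prod_le_one (fun p _ => by positivity) fun p _ => ?_
  rw [one_pow, div_le_one (by positivity)]
  exact_mod_cast Nat.factorial_pos _

/-! ### The chain -/

theorem MO_X_mono {L : ℝ} {R : ℕ} {X lam : ℕ → ℝ} (hc : IsChain L R X lam) :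
    ∀ {i j : ℕ}, i ≤ j → j ≤ R → X i ≤ X j := by
  intro i j hij
  induction j, hij using Nat.le_induction with
  | base => intro _; exact le_rfl
  | succ n hn ih =>
    intro hR
    exact (ih (by omega)).trans (hc.mono n (by omega)).le

theorem MO_X_ge {L : ℝ} {R : ℕ} {X lam : ℕ → ℝ} (hc : IsChain L R X lam) {i : ℕ} (hi : i ≤ R) :
    100 ≤ X i := by
  have := MO_X_mono hc (Nat.zero_le i) hi
  rwa [hc.x0] at this

theorem MO_PB {X : ℕ → ℝ} {i p : ℕ} (h : p ∈ PB X i) (h0 : 0 ≤ X (i + 1)) :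
    p.Prime ∧ X i < p ∧ (p : ℝ) ≤ X (i + 1) := by
  unfold PB at h
  rw [mem_filter, mem_Icc] at h
  exact ⟨h.2.1, h.2.2, (Nat.le_floor_iff h0).1 h.1.2⟩

theorem MO_disj {L : ℝ} {R : ℕ} {X lam : ℕ → ℝ} (hc : IsChain L R X lam) {i j p : ℕ} (hi : i < R)
    (hj : j < R) (hpi : p ∈ PB X i) (hpj : p ∈ PB X j) : i = j := by
  have h1 := MO_PB hpi (by linarith [MO_X_ge hc (show i + 1 ≤ R by omega)])
  have h2 := MO_PB hpj (by linarith [MO_X_ge hc (show j + 1 ≤ R by omega)])
  rcases lt_trichotomy i j with h | h | h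
  · have := MO_X_mono hc (show i + 1 ≤ j by omega) (by omega)
    linarith [h1.2.2, h2.2.1]
  · exact h
  · have := MO_X_mono hc (show j + 1 ≤ i by omega) (by omega)
    linarith [h1.2.1, h2.2.2]

theorem MO_K_le {lam : ℕ → ℝ} {i : ℕ} (h : 1 ≤ lam i) : (KK lam i : ℝ) ≤ 51 * lam i := by
  unfold KK
  have := Nat.ceil_lt_add_one (show 0 ≤ 50 * lam i by linarith)
  linarith

theorem MO_m_le {lam : ℕ → ℝ} {i : ℕ} (h : 1 ≤ lam i) : (mm lam i : ℝ) ≤ 2 * lam i := by
  unfold mm
  have := Nat.ceil_lt_add_one (show 0 ≤ lam i by linarith)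
  linarith

theorem MO_PA_sum (hMER : Stmt_MER) : ∃ C : ℝ, 0 < C ∧ ∀ z : ℝ, 100 ≤ z →
    Real.exp (1 / 4 * ∑ p ∈ PA z, (1 / (p : ℝ))) ≤ C * Real.log z ^ (1 / 4 : ℝ) := by
  obtain ⟨C, hC⟩ := hMER
  refine ⟨Real.exp (C / 4), Real.exp_pos _, fun z hz => ?_⟩
  have h1 : ∑ p ∈ PA z, (1 / (p : ℝ)) ≤ Real.log (Real.log z) + C := by
    refine le_trans ?_ (hC z (by linarith))
    refine sum_le_sum_of_subset_of_nonneg ?_ fun _ _ _ => by positivity
    intro p hp
    unfold PA at hp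
    rw [mem_filter] at hp ⊢
    exact ⟨hp.1, hp.2.1⟩
  have hl : 0 < Real.log z := Real.log_pos (by linarith)
  rw [Real.rpow_def_of_pos hl, ← Real.exp_add]
  apply Real.exp_le_exp.2
  linarith

/-- the general moment -/
theorem MO_gen (hCO : Stmt_CO) (hSKE : Stmt_SKE) (hMVP : Stmt_MVP) (hMER : Stmt_MER) :
    ∃ C T0 : ℝ, 0 < C ∧ 1 < T0 ∧ ∀ (T : ℝ) (R : ℕ) (X lam : ℕ → ℝ), T0 ≤ T →
    IsChain (Real.log T) R X lam → ∀ r ≤ R, ∀ S ⊆ range r, ∀ (E : Finset ℕ) (e : ℕ → ℂ),
    (∀ y ∈ E, y ≠ 0 ∧ (∀ p ∈ y.primeFactors, ∀ i ∈ S, p ∉ PB X i) ∧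
      Real.log y + ∑ i ∈ S, (KK lam i : ℝ) * Real.log (X (i + 1)) ≤ Real.log T / 30) →
    ∫ t in T..(2 * T), ‖NN X lam S t‖ ^ 2 * ‖∑ y ∈ E, e y * mo y t‖ ^ 2 ≤
      C * T * Real.log (X r) ^ (1 / 4 : ℝ) * ∑ y ∈ E, ‖e y‖ ^ 2 / (y : ℝ) := by
  classical
  obtain ⟨C, hC0, hC⟩ := MO_PA_sum hMER
  refine ⟨2 * C, 576, by positivity, by norm_num, ?_⟩
  intro T R X lam hT hc r hr S hS E e hE
  have hT0 : 0 < T := by linarith
  have hSR : S ⊆ range R := hS.trans (range_subset_range.2 hr)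
  set G := ∑ i ∈ S, (KK lam i : ℝ) * Real.log (X (i + 1)) with hG
  have hG0 : 0 ≤ G := by
    apply sum_nonneg fun i hi => ?_
    have hi' := mem_range.1 (hSR hi)
    have := MO_X_ge hc (show i + 1 ≤ R by omega)
    exact mul_nonneg (by positivity) (Real.log_nonneg (by linarith))
  set Y := ⌈Real.exp G⌉₊ with hY
  have hYle : Real.exp G ≤ Y := Nat.le_ceil _
  have hYlt : (Y : ℝ) ≤ 2 * Real.exp G := by
    have h1 := Nat.ceil_lt_add_one (Real.exp_pos G).le
    have h2 : 1 ≤ Real.exp G := Real.one_le_exp hG0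
    linarith
  obtain ⟨-, hN, -, -⟩ := hCO (Real.log T) R X lam hc S hSR Y hYle
  set A := (Icc 1 Y).filter (fun d => Okd X lam S d) with hA
  have hNN : ∀ t, NN X lam S t = ∑ x ∈ A, cN X lam S x * mo x t := by
    intro t
    rw [hN t]
    unfold D
    rw [hA, sum_filter]
    apply sum_congr rfl fun x _ => ?_
    split_ifs with h
    · rfl
    · unfold cN
      rw [if_neg h, zero_mul]
  simp only [hNN]
  -- sizes
  set Y' := ⌊2 * T ^ (1 / 30 : ℝ)⌋₊ with hY'
  have hTp : 1 ≤ T ^ (1 / 30 : ℝ) := Real.one_le_rpow (by linarith) (by norm_num)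
  have hY'1 : 1 ≤ Y' := Nat.le_floor (by push_cast; linarith)
  have hY'le : (Y' : ℝ) ≤ 2 * T ^ (1 / 30 : ℝ) := Nat.floor_le (by positivity)
  have hsize : ∀ x ∈ A, ∀ y ∈ E, 1 ≤ x * y ∧ x * y ≤ Y' := by
    intro x hx y hy
    rw [hA, mem_filter, mem_Icc] at hx
    obtain ⟨hy0, -, hy2⟩ := hE y hy
    refine ⟨Nat.one_le_iff_ne_zero.2 (Nat.mul_ne_zero (by omega) hy0), ?_⟩
    apply Nat.le_floor
    push_cast
    have hy0' : (0 : ℝ) < y := by exact_mod_cast Nat.pos_of_ne_zero hy0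
    have h1 : (x : ℝ) ≤ 2 * Real.exp G := le_trans (by exact_mod_cast hx.1.2) hYlt
    calc (x : ℝ) * y ≤ (2 * Real.exp G) * y := by gcongr
      _ = 2 * Real.exp (Real.log y + G) := by
          rw [Real.exp_add, Real.exp_log hy0']
          ring
      _ ≤ 2 * Real.exp (Real.log T / 30) := by gcongr
      _ = 2 * T ^ (1 / 30 : ℝ) := by
          rw [Real.rpow_def_of_pos hT0]
          congr 2
          ring
  have hlen : 4 * (Y' : ℝ) * (1 + Real.log Y') ≤ T := by
    have h1 : Real.log Y' ≤ Y' := (Real.log_le_sub_one_of_pos (by positivity)).trans (by linarith)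
    have h2 : (T ^ (1 / 30 : ℝ)) ^ 2 ≤ T ^ (1 / 2 : ℝ) := by
      rw [← Real.rpow_natCast, ← Real.rpow_mul hT0.le]
      apply Real.rpow_le_rpow_of_exponent_le (by linarith)
      norm_num
    have h3 : 24 * T ^ (1 / 2 : ℝ) ≤ T := by
      have h4 : T ^ (1 / 2 : ℝ) * T ^ (1 / 2 : ℝ) = T := by
        rw [← Real.rpow_add hT0]
        norm_num
      have h5 : (24 : ℝ) ≤ T ^ (1 / 2 : ℝ) := by
        have h6 : (576 : ℝ) ^ (1 / 2 : ℝ) = 24 := by
          rw [show (576 : ℝ) = 24 ^ (2 : ℝ) by norm_num, ← Real.rpow_mul (by norm_num)]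
          norm_num
        rw [← h6]
        exact Real.rpow_le_rpow (by norm_num) hT (by norm_num)
      nlinarith
    have h7 : (0 : ℝ) ≤ Y' := by positivity
    calc 4 * (Y' : ℝ) * (1 + Real.log Y') ≤ 4 * (Y' : ℝ) * (1 + Y') := by gcongr
      _ ≤ 4 * (2 * T ^ (1 / 30 : ℝ)) * (1 + 2 * T ^ (1 / 30 : ℝ)) := by gcongr
      _ ≤ 4 * (2 * T ^ (1 / 30 : ℝ)) * (3 * T ^ (1 / 30 : ℝ)) := by
          gcongr
          linarith
      _ = 24 * (T ^ (1 / 30 : ℝ)) ^ 2 := by ring
      _ ≤ 24 * T ^ (1 / 2 : ℝ) := by gcongr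
      _ ≤ T := h3
  have hcop : ∀ x ∈ A, ∀ y ∈ E, Nat.Coprime x y := by
    intro x hx y hy
    rw [hA, mem_filter, mem_Icc] at hx
    obtain ⟨hy0, hy1, -⟩ := hE y hy
    rw [Nat.coprime_iff_gcd_eq_one]
    by_contra hg
    obtain ⟨p, hp, hpd⟩ := Nat.exists_prime_and_dvd hg
    have hpx : p ∈ x.primeFactors :=
      Nat.mem_primeFactors.2 ⟨hp, hpd.trans (Nat.gcd_dvd_left _ _), hx.2.1⟩
    have hpy : p ∈ y.primeFactors :=
      Nat.mem_primeFactors.2 ⟨hp, hpd.trans (Nat.gcd_dvd_right _ _), hy0⟩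
    obtain ⟨i, hi, hpi⟩ := hx.2.2.1 p hpx
    exact hy1 p hpy i hi hpi
  have huniq : ∀ x ∈ A, ∀ y ∈ E, ∀ x' ∈ A, ∀ y' ∈ E, x * y = x' * y' → x = x' ∧ y = y' := by
    intro x hx y hy x' hx' y' hy' h
    have h1 : x ∣ x' := by
      apply Nat.Coprime.dvd_of_dvd_mul_right (hcop x hx y' hy')
      exact ⟨y, h.symm⟩
    have h2 : x' ∣ x := by
      apply Nat.Coprime.dvd_of_dvd_mul_right (hcop x' hx' y hy)
      exact ⟨y', h⟩
    have h3 : x = x' := Nat.dvd_antisymm h1 h2
    refine ⟨h3, ?_⟩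
    have hx0 : 0 < x := by
      rw [hA, mem_filter, mem_Icc] at hx
      omega
    rw [← h3] at h
    exact Nat.eq_of_mul_eq_mul_left hx0 h
  have hmain := hMVP T Y' A E (cN X lam S) e hT0 hY'1 hsize huniq hlen
  refine hmain.trans ?_
  -- the diagonal
  have hP : ∀ p ∈ PA (X r), p.Prime := fun p hp => (mem_filter.1 hp).2.1
  have hdiag : ∑ x ∈ A, ‖cN X lam S x‖ ^ 2 / (x : ℝ) ≤ C * Real.log (X r) ^ (1 / 4 : ℝ) := by
    refine le_trans ?_ (hC (X r) (MO_X_ge hc hr))
    refine le_trans ?_ (hSKE (PA (X r)) hP Y (1 / 4) (by norm_num))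
    have hsub : A ⊆ SK (PA (X r)) Y := by
      intro x hx
      rw [hA, mem_filter, mem_Icc] at hx
      have hpf : ∀ p ∈ x.primeFactors, p ∈ PA (X r) := by
        intro p hp
        obtain ⟨i, hi, hpi⟩ := hx.2.2.1 p hp
        have hir := mem_range.1 (hS hi)
        have h1 := MO_PB hpi (by linarith [MO_X_ge hc (show i + 1 ≤ R by omega)])
        unfold PA
        rw [mem_filter, mem_Icc]
        refine ⟨⟨h1.1.one_lt.le, Nat.le_floor ?_⟩, h1.1, ?_⟩
        · exact h1.2.2.trans (MO_X_mono hc (by omega) hr)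
        · exact lt_of_le_of_lt (MO_X_ge hc (by omega)) h1.2.1
      have hsl := MO_sum_lt (PA (X r)) x hx.2.1 hpf
      have hsY : ∑ p ∈ PA (X r), x.factorization p ≤ Y := by omega
      unfold SK
      rw [mem_filter, mem_Icc]
      refine ⟨⟨hx.1.1, ?_⟩, hpf, hsY⟩
      apply MO_le_prod _ x Y hx.2.1 hpf hP
      intro p hp
      exact (single_le_sum (f := fun p => x.factorization p) (fun _ _ => Nat.zero_le _) hp).trans hsY
    refine le_trans ?_ (sum_le_sum_of_subset_of_nonneg hsub fun x _ _ => ?_)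
    · apply sum_le_sum fun x hx => ?_
      rw [hA, mem_filter, mem_Icc] at hx
      unfold cN
      rw [if_pos hx.2, Complex.norm_real, Real.norm_eq_abs, sq_abs]
      exact div_le_div_of_nonneg_right (MO_cf_sq x) (by positivity)
    · exact div_nonneg (MO_cf_nonneg _ (by norm_num) x) (by positivity)
  have hE0 : 0 ≤ ∑ y ∈ E, ‖e y‖ ^ 2 / (y : ℝ) := sum_nonneg fun y _ => by positivity
  calc 2 * T * ((∑ x ∈ A, ‖cN X lam S x‖ ^ 2 / (x : ℝ)) * ∑ y ∈ E, ‖e y‖ ^ 2 / (y : ℝ))
      ≤ 2 * T * ((C * Real.log (X r) ^ (1 / 4 : ℝ)) * ∑ y ∈ E, ‖e y‖ ^ 2 / (y : ℝ)) := by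
        gcongr
    _ = _ := by ring


theorem MO_len {L : ℝ} {R : ℕ} {X lam : ℕ → ℝ} (hc : IsChain L R X lam) (hL : 0 ≤ L) {S : Finset ℕ}
    (hS : S ⊆ range R) {j : ℕ} (hj : j < R) (hjS : j ∉ S) {c : ℝ} (hcj : c ≤ 53 * lam j) :
    c * Real.log (X (j + 1)) + ∑ i ∈ S, (KK lam i : ℝ) * Real.log (X (i + 1)) ≤ L / 30 := by
  classical
  have hlog : ∀ i < R, 0 ≤ Real.log (X (i + 1)) := fun i hi =>
    Real.log_nonneg (by linarith [MO_X_ge hc (show i + 1 ≤ R by omega)])
  have h1 : ∑ i ∈ S, (KK lam i : ℝ) * Real.log (X (i + 1)) ≤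
      ∑ i ∈ S, 53 * (lam i * Real.log (X (i + 1))) := by
    apply sum_le_sum fun i hi => ?_
    have hi' := mem_range.1 (hS hi)
    have h2 := MO_K_le (hc.lam1 i hi')
    have h3 := hc.lam1 i hi'
    calc (KK lam i : ℝ) * Real.log (X (i + 1)) ≤ (53 * lam i) * Real.log (X (i + 1)) :=
          mul_le_mul_of_nonneg_right (by linarith) (hlog i hi')
      _ = _ := by ring
  have h4 : c * Real.log (X (j + 1)) ≤ 53 * (lam j * Real.log (X (j + 1))) := by
    calc c * Real.log (X (j + 1)) ≤ (53 * lam j) * Real.log (X (j + 1)) :=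
          mul_le_mul_of_nonneg_right hcj (hlog j hj)
      _ = _ := by ring
  have h5 : 53 * (lam j * Real.log (X (j + 1))) + ∑ i ∈ S, 53 * (lam i * Real.log (X (i + 1))) =
      53 * ∑ i ∈ insert j S, lam i * Real.log (X (i + 1)) := by
    rw [sum_insert hjS, ← mul_sum, mul_add]
  have h6 : ∑ i ∈ insert j S, lam i * Real.log (X (i + 1)) ≤
      ∑ i ∈ range R, lam i * Real.log (X (i + 1)) := by
    apply sum_le_sum_of_subset_of_nonneg
    · exact insert_subset (mem_range.2 hj) hS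
    · intro i hi _
      have hi' := mem_range.1 hi
      exact mul_nonneg (by linarith [hc.lam1 i hi']) (hlog i hi')
  have h7 := hc.len
  linarith

theorem MO_one (t : ℝ) : mo 1 t = 1 := by
  unfold mo
  simp

theorem MO_SE_mem {P : Finset ℕ} {m y : ℕ} (h : y ∈ SE P m) :
    y ≠ 0 ∧ (∀ p ∈ y.primeFactors, p ∈ P) ∧ ∑ p ∈ P, y.factorization p = m := by
  unfold SE at h
  rw [mem_filter, mem_Icc] at h
  exact ⟨by omega, h.2.1, h.2.2⟩

theorem MO_SE_log {L : ℝ} {R : ℕ} {X lam : ℕ → ℝ} (hc : IsChain L R X lam) {j : ℕ} (hj : j < R)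
    {m y : ℕ} (h : y ∈ SE (PB X j) m) : Real.log y ≤ (m : ℝ) * Real.log (X (j + 1)) := by
  have h1 := MO_SE_mem h
  have hX := MO_X_ge hc (show j + 1 ≤ R by omega)
  have h2 := MO_log_le (PB X j) y (Real.log (X (j + 1))) h1.1 h1.2.1
    (fun p hp => (MO_PB hp (by linarith)).1) (fun p hp => by
      have h3 := MO_PB hp (by linarith)
      exact Real.log_le_log (by exact_mod_cast h3.1.pos) h3.2.2)
  rwa [h1.2.2] at h2

/-- block MO -/
theorem stmt_MO (hCO : Stmt_CO) (hPWR : Stmt_PWR) (hSKE : Stmt_SKE) (hMVP : Stmt_MVP)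
    (hMER : Stmt_MER) : Stmt_MO := by
  obtain ⟨C, T0, hC0, hT0, hgen⟩ := MO_gen hCO hSKE hMVP hMER
  refine ⟨C, T0, hC0, hT0, ?_⟩
  intro T R X lam hT hc j hj
  have hT1 : 1 < T := by linarith
  have hL : 0 ≤ Real.log T := (Real.log_pos hT1).le
  constructor
  · have h := hgen T R X lam hT hc j hj (range j) (Subset.refl _) {1} (fun _ => 1) (by
      intro y hy
      rw [mem_singleton] at hy
      subst hy
      refine ⟨by norm_num, by simp, ?_⟩
      rcases Nat.eq_zero_or_pos j with h0 | h0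
      · subst h0
        simp
        positivity
      · -- use index `j - 1`
        have h1 : range j = insert (j - 1) (range (j - 1)) := by
          ext i
          simp only [mem_range, mem_insert]
          omega
        rw [h1, sum_insert (by simp), Nat.cast_one, Real.log_one, zero_add]
        exact MO_len hc hL (range_subset_range.2 (by omega)) (by omega) (by simp) (by
          have := MO_K_le (hc.lam1 (j - 1) (by omega))
          have := hc.lam1 (j - 1) (by omega)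
          linarith))
    simpa [MO_one] using h
  · intro hjR
    set m := mm lam j with hm
    have hP : ∀ p ∈ PB X j, p.Prime := fun p hp => (mem_filter.1 hp).2.1
    have h := hgen T R X lam hT hc j hj (range j) (Subset.refl _) (SE (PB X j) m)
      (fun e => (((m.factorial : ℝ) * cf 1 e : ℝ) : ℂ)) (by
      intro y hy
      have h1 := MO_SE_mem hy
      refine ⟨h1.1, ?_, ?_⟩
      · intro p hp i hi hpi
        have := MO_disj hc (show i < R by have := mem_range.1 hi; omega) hjR hpi (h1.2.1 p hp)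
        have := mem_range.1 hi
        omega
      · have h2 := MO_SE_log hc hjR hy
        have h3 := MO_len hc hL (range_subset_range.2 hjR.le) hjR (by simp)
          (c := (m : ℝ)) (by
            have := MO_m_le (hc.lam1 j hjR)
            have := hc.lam1 j hjR
            linarith)
        linarith)
    have e1 : ∀ t, ‖NN X lam (range j) t‖ ^ 2 *
        ‖∑ y ∈ SE (PB X j) m, (((m.factorial : ℝ) * cf 1 y : ℝ) : ℂ) * mo y t‖ ^ 2 =
        ‖NN X lam (range j) t‖ ^ 2 * ‖PP X j t‖ ^ (2 * m) := by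
      intro t
      have := hPWR (PB X j) hP m t
      rw [← this]
      unfold PP
      rw [norm_pow, ← pow_mul, mul_comm m 2]
    simp only [e1] at h
    refine h.trans ?_
    have hs : ∑ y ∈ SE (PB X j) m, ‖((((m.factorial : ℝ) * cf 1 y : ℝ)) : ℂ)‖ ^ 2 / (y : ℝ) ≤
        (m.factorial : ℝ) * lam j ^ m := by
      calc ∑ y ∈ SE (PB X j) m, ‖((((m.factorial : ℝ) * cf 1 y : ℝ)) : ℂ)‖ ^ 2 / (y : ℝ)
          ≤ ∑ y ∈ SE (PB X j) m, (m.factorial : ℝ) * ((m.factorial : ℝ) * cf 1 y / (y : ℝ)) := by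
            apply sum_le_sum fun y hy => ?_
            rw [Complex.norm_real, Real.norm_eq_abs, sq_abs, ← mul_div_assoc]
            apply div_le_div_of_nonneg_right _ (by positivity)
            have h1 := MO_cf_le_one y
            have h2 := MO_cf_nonneg 1 (by norm_num) y
            have h3 : cf 1 y ^ 2 ≤ cf 1 y := by nlinarith
            calc ((m.factorial : ℝ) * cf 1 y) ^ 2 = (m.factorial : ℝ) ^ 2 * cf 1 y ^ 2 := by ring
              _ ≤ (m.factorial : ℝ) ^ 2 * cf 1 y := by gcongr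
              _ = _ := by ring
        _ = (m.factorial : ℝ) * (∑ p ∈ PB X j, (1 / (p : ℝ))) ^ m := by
            rw [← mul_sum, MO_mult _ hP]
        _ ≤ (m.factorial : ℝ) * lam j ^ m := by
            have := hc.sig j hjR
            gcongr
    have hX := MO_X_ge hc hj
    have hlX : 0 ≤ Real.log (X j) := Real.log_nonneg (by linarith)
    have : 0 ≤ C * T * Real.log (X j) ^ (1 / 4 : ℝ) := by positivity
    gcongr

end HZS
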