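import Pool.Agent.Work.MP_c51bc2_nt.B_MO

/-!
# Block MO2: the moments of `N_R` and `P_j`
-/

open Finset Complex MeasureTheory

namespace HZS

/-- coefficients of `EP K (P / 2) * P ^ m` -/
noncomputable def MO2_e (P : Finset ℕ) (m : ℕ) (y : ℕ) : ℝ :=
  (1 / 2) ^ (∑ p ∈ P, y.factorization p - m) /
    ((∑ p ∈ P, y.factorization p - m).factorial : ℝ) *
      (((∑ p ∈ P, y.factorization p).factorial : ℝ) * cf 1 y)

theorem MO2_e_eq {P : Finset ℕ} {m k y : ℕ} (h : y ∈ SE P (k + m)) :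
    MO2_e P m y = (1 / 2) ^ k / (k.factorial : ℝ) * (((k + m).factorial : ℝ) * cf 1 y) := by
  unfold MO2_e
  rw [(MO_SE_mem h).2.2]
  simp

/-- the integers of `EP K (P / 2) * P ^ m` -/
def MO2_E (P : Finset ℕ) (K m : ℕ) : Finset ℕ := (range (K + 1)).biUnion fun k => SE P (k + m)

theorem MO2_disj (P : Finset ℕ) (K m : ℕ) :
    Set.PairwiseDisjoint (↑(range (K + 1))) (fun k => SE P (k + m)) := by
  intro a _ b _ hab
  rw [Function.onFun, disjoint_left]
  intro y hya hyb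
  have h1 := (MO_SE_mem hya).2.2
  have h2 := (MO_SE_mem hyb).2.2
  exact hab (by omega)

theorem MO2_poly (hPWR : Stmt_PWR) (P : Finset ℕ) (hP : ∀ p ∈ P, p.Prime) (K m : ℕ) (t : ℝ) :
    EP K ((∑ p ∈ P, mo p t) / 2) * (∑ p ∈ P, mo p t) ^ m =
      ∑ y ∈ MO2_E P K m, (MO2_e P m y : ℂ) * mo y t := by
  unfold MO2_E
  rw [sum_biUnion (MO2_disj P K m)]
  unfold EP
  rw [sum_mul]
  apply sum_congr rfl fun k _ => ?_
  have h1 : ((∑ p ∈ P, mo p t) / 2) ^ k / (k.factorial : ℂ) * (∑ p ∈ P, mo p t) ^ m =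
      (1 / 2) ^ k / (k.factorial : ℂ) * (∑ p ∈ P, mo p t) ^ (k + m) := by
    rw [pow_add, div_pow, one_div, inv_pow]
    ring
  rw [h1, hPWR P hP, mul_sum]
  apply sum_congr rfl fun y hy => ?_
  rw [MO2_e_eq hy]
  push_cast
  ring

theorem MO2_fact (k m : ℕ) : ((k + m).factorial : ℝ) ≤
    2 ^ (k + m) * ((k.factorial : ℝ) * m.factorial) := by
  have h1 := Nat.add_choose_mul_factorial_mul_factorial k m
  have h2 : (k + m).choose m ≤ 2 ^ (k + m) := Nat.choose_le_two_pow _ _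
  have h3 : (k + m).factorial ≤ 2 ^ (k + m) * (k.factorial * m.factorial) := by
    rw [← h1, mul_assoc]
    exact Nat.mul_le_mul_right _ h2
  exact_mod_cast h3

theorem MO2_diag (P : Finset ℕ) (hP : ∀ p ∈ P, p.Prime) (K m : ℕ) (l : ℝ) (hl : 0 ≤ l)
    (hs : ∑ p ∈ P, (1 / (p : ℝ)) ≤ l) :
    ∑ y ∈ MO2_E P K m, ‖(MO2_e P m y : ℂ)‖ ^ 2 / (y : ℝ) ≤
      Real.exp (l / 2) * ((m.factorial : ℝ) * (2 * l) ^ m) := by
  unfold MO2_E
  rw [sum_biUnion (MO2_disj P K m)]
  have hs0 : 0 ≤ ∑ p ∈ P, (1 / (p : ℝ)) := sum_nonneg fun _ _ => by positivity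
  have h1 : ∀ k, ∑ y ∈ SE P (k + m), ‖(MO2_e P m y : ℂ)‖ ^ 2 / (y : ℝ) ≤
      ((m.factorial : ℝ) * (2 * l) ^ m) * ((l / 2) ^ k / (k.factorial : ℝ)) := by
    intro k
    have hk : (0 : ℝ) < k.factorial := by exact_mod_cast k.factorial_pos
    calc ∑ y ∈ SE P (k + m), ‖(MO2_e P m y : ℂ)‖ ^ 2 / (y : ℝ)
        ≤ ∑ y ∈ SE P (k + m), ((1 / 2) ^ k / (k.factorial : ℝ)) ^ 2 * ((k + m).factorial : ℝ) *
            (((k + m).factorial : ℝ) * cf 1 y / (y : ℝ)) := by
          apply sum_le_sum fun y hy => ?_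
          rw [Complex.norm_real, Real.norm_eq_abs, sq_abs, MO2_e_eq hy, ← mul_div_assoc]
          apply div_le_div_of_nonneg_right _ (by positivity)
          have h1 := MO_cf_le_one y
          have h2 := MO_cf_nonneg 1 (by norm_num) y
          have h3 : cf 1 y ^ 2 ≤ cf 1 y := by nlinarith
          calc ((1 / 2) ^ k / (k.factorial : ℝ) * (((k + m).factorial : ℝ) * cf 1 y)) ^ 2
              = ((1 / 2) ^ k / (k.factorial : ℝ)) ^ 2 * ((k + m).factorial : ℝ) ^ 2 *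
                  cf 1 y ^ 2 := by ring
            _ ≤ ((1 / 2) ^ k / (k.factorial : ℝ)) ^ 2 * ((k + m).factorial : ℝ) ^ 2 *
                  cf 1 y := by gcongr
            _ = _ := by ring
      _ = ((1 / 2) ^ k / (k.factorial : ℝ)) ^ 2 * ((k + m).factorial : ℝ) *
            (∑ p ∈ P, (1 / (p : ℝ))) ^ (k + m) := by
          rw [← mul_sum, MO_mult _ hP]
      _ ≤ ((1 / 2) ^ k / (k.factorial : ℝ)) ^ 2 *
            (2 ^ (k + m) * ((k.factorial : ℝ) * m.factorial)) * l ^ (k + m) := by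
          have := MO2_fact k m
          gcongr
      _ = _ := by
          have e1 : ((1 / 2 : ℝ) ^ k) ^ 2 * (2 ^ k * l ^ k) = (l / 2) ^ k := by
            rw [← pow_mul, mul_comm k 2, pow_mul, ← mul_pow, ← mul_pow]
            congr 1
            ring
          have e2 : (2 : ℝ) ^ m * l ^ m = (2 * l) ^ m := by rw [mul_pow]
          rw [← e1, ← e2]
          field_simp
          ring
  calc ∑ k ∈ range (K + 1), ∑ y ∈ SE P (k + m), ‖(MO2_e P m y : ℂ)‖ ^ 2 / (y : ℝ)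
      ≤ ∑ k ∈ range (K + 1), ((m.factorial : ℝ) * (2 * l) ^ m) *
          ((l / 2) ^ k / (k.factorial : ℝ)) := sum_le_sum fun k _ => h1 k
    _ = ((m.factorial : ℝ) * (2 * l) ^ m) * ∑ k ∈ range (K + 1), (l / 2) ^ k / (k.factorial : ℝ) :=
        by rw [mul_sum]
    _ ≤ ((m.factorial : ℝ) * (2 * l) ^ m) * Real.exp (l / 2) := by
        have := Real.sum_le_exp_of_nonneg (show 0 ≤ l / 2 by positivity) (K + 1)
        gcongr
    _ = _ := by ring

/-- block MO2 -/
theorem stmt_MO2 (hCO : Stmt_CO) (hPWR : Stmt_PWR) (hSKE : Stmt_SKE) (hMVP : Stmt_MVP)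
    (hMER : Stmt_MER) : Stmt_MO2 := by
  classical
  obtain ⟨C, T0, hC0, hT0, hgen⟩ := MO_gen hCO hSKE hMVP hMER
  refine ⟨C, T0, hC0, hT0, ?_⟩
  intro T R X lam hT hc j hjR
  have hT1 : 1 < T := by linarith
  have hL : 0 ≤ Real.log T := (Real.log_pos hT1).le
  set m := mm lam j with hm
  set K := KK lam j with hK
  have hP : ∀ p ∈ PB X j, p.Prime := fun p hp => (mem_filter.1 hp).2.1
  have h := hgen T R X lam hT hc R le_rfl ((range R).erase j) (erase_subset _ _)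
    (MO2_E (PB X j) K m) (fun y => (MO2_e (PB X j) m y : ℂ)) (by
    intro y hy
    unfold MO2_E at hy
    rw [mem_biUnion] at hy
    obtain ⟨k, hk, hy⟩ := hy
    have hk' := mem_range.1 hk
    have h1 := MO_SE_mem hy
    refine ⟨h1.1, ?_, ?_⟩
    · intro p hp i hi hpi
      rw [mem_erase, mem_range] at hi
      exact hi.1 (MO_disj hc hi.2 hjR hpi (h1.2.1 p hp))
    · have h2 := MO_SE_log hc hjR hy
      have h3 := MO_len hc hL (erase_subset j (range R)) hjR (by simp)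
        (c := ((k + m : ℕ) : ℝ)) (by
          have h4 := MO_m_le (hc.lam1 j hjR)
          have h5 := MO_K_le (hc.lam1 j hjR)
          have h6 : (k : ℝ) ≤ K := by exact_mod_cast (by omega : k ≤ K)
          push_cast
          linarith)
      linarith)
  have e1 : ∀ t, ‖NN X lam ((range R).erase j) t‖ ^ 2 *
      ‖∑ y ∈ MO2_E (PB X j) K m, (MO2_e (PB X j) m y : ℂ) * mo y t‖ ^ 2 =
      ‖NN X lam (range R) t‖ ^ 2 * ‖PP X j t‖ ^ (2 * m) := by
    intro t
    rw [← MO2_poly hPWR (PB X j) hP K m t]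
    have h2 : NN X lam (range R) t =
        NN X lam ((range R).erase j) t * EP K ((∑ p ∈ PB X j, mo p t) / 2) := by
      unfold NN
      rw [← prod_erase_mul (range R) _ (mem_range.2 hjR)]
      rfl
    rw [h2]
    unfold PP
    rw [norm_mul, norm_mul, norm_pow, pow_mul, mul_pow, mul_pow, ← pow_mul, ← pow_mul,
      mul_comm m 2]
    ring
  simp only [e1] at h
  refine h.trans ?_
  have hs := MO2_diag (PB X j) hP K m (lam j) (by linarith [hc.lam1 j hjR]) (hc.sig j hjR)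
  have hX := MO_X_ge hc (le_refl R)
  have hlX : 0 ≤ Real.log (X R) := Real.log_nonneg (by linarith)
  calc C * T * Real.log (X R) ^ (1 / 4 : ℝ) *
        ∑ y ∈ MO2_E (PB X j) K m, ‖(MO2_e (PB X j) m y : ℂ)‖ ^ 2 / (y : ℝ)
      ≤ C * T * Real.log (X R) ^ (1 / 4 : ℝ) *
        (Real.exp (lam j / 2) * ((m.factorial : ℝ) * (2 * lam j) ^ m)) := by gcongr
    _ = _ := by ring

end HZS
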