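import Pool.Agent.Work.MP_c51bc2_nt.Interface

open Finset Complex MeasureTheory

namespace HZS

theorem MSB_mono {L : ℝ} {R : ℕ} {X lam : ℕ → ℝ} (hc : IsChain L R X lam) {i j : ℕ}
    (hij : i ≤ j) (hj : j ≤ R) : X i ≤ X j := by
  induction j, hij using Nat.le_induction with
  | base => exact le_rfl
  | succ n hn ih => exact le_trans (ih (by omega)) (hc.mono n (by omega)).le

theorem MSB_ge {L : ℝ} {R : ℕ} {X lam : ℕ → ℝ} (hc : IsChain L R X lam) {j : ℕ}
    (hj : j ≤ R) : 100 ≤ X j := by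
  rw [← hc.x0]
  exact MSB_mono hc (Nat.zero_le _) hj

theorem MSB_mem {X : ℕ → ℝ} {i p : ℕ} (h : p ∈ PB X i) :
    p.Prime ∧ X i < (p : ℝ) ∧ (p : ℝ) ≤ X (i + 1) := by
  unfold PB at h
  rw [Finset.mem_filter, Finset.mem_Icc] at h
  refine ⟨h.2.1, h.2.2, ?_⟩
  have h1 := h.1.2
  have h2 : 0 < p := h.1.1
  exact (Nat.le_floor_iff' (by omega)).1 h1

theorem MSB_memi {X : ℕ → ℝ} {i p : ℕ} (h : p.Prime) (h1 : X i < (p : ℝ))
    (h2 : (p : ℝ) ≤ X (i + 1)) : p ∈ PB X i := by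
  unfold PB
  rw [Finset.mem_filter, Finset.mem_Icc]
  exact ⟨⟨h.one_lt.le, Nat.le_floor h2⟩, h, h1⟩

theorem MSB_disj {L : ℝ} {R : ℕ} {X lam : ℕ → ℝ} (hc : IsChain L R X lam) {i i' p : ℕ}
    (hi : i < R) (hi' : i' < R) (h : p ∈ PB X i) (h' : p ∈ PB X i') : i = i' := by
  obtain ⟨-, h1, h2⟩ := MSB_mem h
  obtain ⟨-, h3, h4⟩ := MSB_mem h'
  by_contra hne
  rcases Nat.lt_or_gt_of_ne hne with hlt | hlt
  · have h5 := MSB_mono hc (show i + 1 ≤ i' by omega) (by omega)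
    linarith
  · have h5 := MSB_mono hc (show i' + 1 ≤ i by omega) (by omega)
    linarith

open Classical in
/-- the local weight -/
noncomputable def MSB_phi (X : ℕ → ℝ) (t u : Finset ℕ) (v : ℂ) (p a : ℕ) : ℝ :=
  if ∃ i ∈ t, p ∈ PB X i then ‖EP a (-((p : ℂ) ^ (I * v)) / 2)‖ ^ 2
  else if ∃ i ∈ u, p ∈ PB X i then 16 * Real.exp a else 1

theorem MSB_phi_t {X : ℕ → ℝ} {t u : Finset ℕ} {v : ℂ} {p a i : ℕ} (hi : i ∈ t)
    (h : p ∈ PB X i) : MSB_phi X t u v p a = ‖EP a (-((p : ℂ) ^ (I * v)) / 2)‖ ^ 2 := by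
  unfold MSB_phi
  rw [if_pos ⟨i, hi, h⟩]

theorem MSB_phi_u {X : ℕ → ℝ} {t u : Finset ℕ} {v : ℂ} {p a i : ℕ} (hi : i ∈ u)
    (h : p ∈ PB X i) (ht : ∀ k ∈ t, p ∉ PB X k) :
    MSB_phi X t u v p a = 16 * Real.exp a := by
  unfold MSB_phi
  rw [if_neg, if_pos ⟨i, hi, h⟩]
  rintro ⟨k, hk, hk'⟩
  exact ht k hk hk'

theorem MSB_phi_n {X : ℕ → ℝ} {t u : Finset ℕ} {v : ℂ} {p a : ℕ}
    (hu : ∀ k ∈ u, p ∉ PB X k) (ht : ∀ k ∈ t, p ∉ PB X k) :
    MSB_phi X t u v p a = 1 := by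
  unfold MSB_phi
  rw [if_neg, if_neg]
  · rintro ⟨k, hk, hk'⟩
    exact hu k hk hk'
  · rintro ⟨k, hk, hk'⟩
    exact ht k hk hk'

/-- The three cases. -/
theorem MSB_cases {L : ℝ} {R : ℕ} {X lam : ℕ → ℝ} (hc : IsChain L R X lam) {t u : Finset ℕ}
    (ht : t ⊆ range R) (hu : u ⊆ range R) (hd : Disjoint t u) (p : ℕ) :
    (∃ i ∈ t, p ∈ PB X i ∧ (∀ k ∈ t, k ≠ i → p ∉ PB X k) ∧ ∀ k ∈ u, p ∉ PB X k) ∨
    (∃ i ∈ u, p ∈ PB X i ∧ (∀ k ∈ u, k ≠ i → p ∉ PB X k) ∧ ∀ k ∈ t, p ∉ PB X k) ∨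
    ((∀ k ∈ t, p ∉ PB X k) ∧ ∀ k ∈ u, p ∉ PB X k) := by
  classical
  by_cases h1 : ∃ i ∈ t, p ∈ PB X i
  · obtain ⟨i, hi, hp⟩ := h1
    refine Or.inl ⟨i, hi, hp, ?_, ?_⟩
    · intro k hk hne hk'
      exact hne (MSB_disj hc (Finset.mem_range.1 (ht hk)) (Finset.mem_range.1 (ht hi)) hk' hp)
    · intro k hk hk'
      have h2 := MSB_disj hc (Finset.mem_range.1 (hu hk)) (Finset.mem_range.1 (ht hi)) hk' hp
      subst h2
      exact Finset.disjoint_left.1 hd hi hk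
  · push Not at h1
    by_cases h2 : ∃ i ∈ u, p ∈ PB X i
    · obtain ⟨i, hi, hp⟩ := h2
      refine Or.inr (Or.inl ⟨i, hi, hp, ?_, h1⟩)
      intro k hk hne hk'
      exact hne (MSB_disj hc (Finset.mem_range.1 (hu hk)) (Finset.mem_range.1 (hu hi)) hk' hp)
    · push Not at h2
      exact Or.inr (Or.inr ⟨h1, h2⟩)

theorem MSB_phi_prod {L : ℝ} {R : ℕ} {X lam : ℕ → ℝ} (hc : IsChain L R X lam) {t u : Finset ℕ}
    (ht : t ⊆ range R) (hu : u ⊆ range R) (hd : Disjoint t u) (v : ℂ) (p a : ℕ) :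
    MSB_phi X t u v p a =
      (∏ i ∈ t, if p ∈ PB X i then ‖EP a (-((p : ℂ) ^ (I * v)) / 2)‖ ^ 2 else 1) *
        ∏ i ∈ u, if p ∈ PB X i then 16 * Real.exp a else 1 := by
  classical
  rcases MSB_cases hc ht hu hd p with ⟨i, hi, hp, h1, h2⟩ | ⟨i, hi, hp, h1, h2⟩ | ⟨h1, h2⟩
  · rw [MSB_phi_t hi hp, Finset.prod_eq_single i, if_pos hp, Finset.prod_eq_one, mul_one]
    · intro k hk
      rw [if_neg (h2 k hk)]
    · intro k hk hne
      rw [if_neg (h1 k hk hne)]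
    · intro h
      exact absurd hi h
  · rw [MSB_phi_u hi hp h2, Finset.prod_eq_one, one_mul, Finset.prod_eq_single i, if_pos hp]
    · intro k hk hne
      rw [if_neg (h1 k hk hne)]
    · intro h
      exact absurd hi h
    · intro k hk
      rw [if_neg (h2 k hk)]
  · rw [MSB_phi_n h2 h1, Finset.prod_eq_one, Finset.prod_eq_one, one_mul]
    · intro k hk
      rw [if_neg (h2 k hk)]
    · intro k hk
      rw [if_neg (h1 k hk)]

theorem MSB_phi_sum {L : ℝ} {R : ℕ} {X lam : ℕ → ℝ} (hc : IsChain L R X lam) {t u : Finset ℕ}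
    (ht : t ⊆ range R) (hu : u ⊆ range R) (hd : Disjoint t u) (v : ℂ) (p a : ℕ) :
    MSB_phi X t u v p a = 1 +
      (∑ i ∈ t, if p ∈ PB X i then ‖EP a (-((p : ℂ) ^ (I * v)) / 2)‖ ^ 2 - 1 else 0) +
        ∑ i ∈ u, if p ∈ PB X i then 16 * Real.exp a - 1 else 0 := by
  classical
  rcases MSB_cases hc ht hu hd p with ⟨i, hi, hp, h1, h2⟩ | ⟨i, hi, hp, h1, h2⟩ | ⟨h1, h2⟩
  · rw [MSB_phi_t hi hp, Finset.sum_eq_single i, if_pos hp, Finset.sum_eq_zero (s := u)]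
    · ring
    · intro k hk
      rw [if_neg (h2 k hk)]
    · intro k hk hne
      rw [if_neg (h1 k hk hne)]
    · intro h
      exact absurd hi h
  · rw [MSB_phi_u hi hp h2, Finset.sum_eq_zero (s := t), Finset.sum_eq_single i, if_pos hp]
    · ring
    · intro k hk hne
      rw [if_neg (h1 k hk hne)]
    · intro h
      exact absurd hi h
    · intro k hk
      rw [if_neg (h2 k hk)]
  · rw [MSB_phi_n h2 h1, Finset.sum_eq_zero, Finset.sum_eq_zero]
    · ring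
    · intro k hk
      rw [if_neg (h2 k hk)]
    · intro k hk
      rw [if_neg (h1 k hk)]

/-- The product over the blocks as a multiplicative function. -/
theorem MSB_mult {L : ℝ} {R : ℕ} {X lam : ℕ → ℝ} (hc : IsChain L R X lam) {t u : Finset ℕ}
    (ht : t ⊆ range R) (hu : u ⊆ range R) (hd : Disjoint t u) (v : ℂ) (m : ℕ) :
    (∏ i ∈ t, FF X i v m) * ∏ i ∈ u, HH X i m =
      ∏ p ∈ m.primeFactors, MSB_phi X t u v p (m.factorization p) := by
  classical
  rw [Finset.prod_congr rfl fun p _ => MSB_phi_prod hc ht hu hd v p (m.factorization p),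
    Finset.prod_mul_distrib, Finset.prod_comm, Finset.prod_comm (t := u)]
  congr 1
  · apply Finset.prod_congr rfl
    intro i _
    unfold FF
    rw [Finset.prod_filter]
  · apply Finset.prod_congr rfl
    intro i _
    unfold HH
    rw [Finset.prod_filter]

/-- The exponent. -/
noncomputable def MSB_a (X : ℕ → ℝ) (v : ℂ) (i : ℕ) : ℝ :=
  ∑ p ∈ PB X i, (‖1 - (p : ℂ) ^ (I * v) / 2‖ ^ 2 - 1) / (p : ℝ)

noncomputable def MSB_d (X : ℕ → ℝ) (i : ℕ) : ℝ :=
  ∑ p ∈ PB X i, (16 * Real.exp 1 - 1) / (p : ℝ)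

theorem MSB_EP1 (z : ℂ) : EP 1 z = 1 + z := by
  unfold EP
  rw [Finset.sum_range_succ, Finset.sum_range_one]
  simp

theorem MSB_exp {L : ℝ} {R : ℕ} {X lam : ℕ → ℝ} (hc : IsChain L R X lam) {t u : Finset ℕ}
    {j : ℕ} (hj : j ≤ R) (ht : t ⊆ range j) (hu : u ⊆ range j) (hd : Disjoint t u) (v : ℂ)
    (z : ℝ) (hz : X j ≤ z) :
    ∑ p ∈ (Icc 1 ⌊z⌋₊).filter Nat.Prime, MSB_phi X t u v p 1 / (p : ℝ) =
      ∑ p ∈ (Icc 1 ⌊z⌋₊).filter Nat.Prime, (1 / (p : ℝ)) + ∑ i ∈ t, MSB_a X v i +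
        ∑ i ∈ u, MSB_d X i := by
  classical
  have hjR : range j ⊆ range R := Finset.range_subset_range.2 hj
  have hsub : ∀ i ∈ range j, PB X i ⊆ (Icc 1 ⌊z⌋₊).filter Nat.Prime := by
    intro i hi p hp
    obtain ⟨h1, h2, h3⟩ := MSB_mem hp
    rw [Finset.mem_filter, Finset.mem_Icc]
    have h4 := MSB_mono hc (show i + 1 ≤ j from Finset.mem_range.1 hi) hj
    exact ⟨⟨h1.one_lt.le, Nat.le_floor (by linarith)⟩, h1⟩
  have key : ∀ i ∈ range j, ∀ f : ℕ → ℝ,
      ∑ p ∈ (Icc 1 ⌊z⌋₊).filter Nat.Prime, (if p ∈ PB X i then f p else 0) / (p : ℝ) =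
        ∑ p ∈ PB X i, f p / (p : ℝ) := by
    intro i hi f
    rw [← Finset.sum_filter_add_sum_filter_not _ (fun p => p ∈ PB X i)]
    rw [Finset.sum_eq_zero (s := ((Icc 1 ⌊z⌋₊).filter Nat.Prime).filter (fun p => ¬ p ∈ PB X i)),
      add_zero]
    · have e : ((Icc 1 ⌊z⌋₊).filter Nat.Prime).filter (fun p => p ∈ PB X i) = PB X i := by
        ext p
        rw [Finset.mem_filter]
        exact ⟨fun h => h.2, fun h => ⟨hsub i hi h, h⟩⟩
      rw [e]
      apply Finset.sum_congr rfl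
      intro p hp
      rw [if_pos hp]
    · intro p hp
      rw [if_neg (Finset.mem_filter.1 hp).2, zero_div]
  have e1 : ∀ p : ℕ, MSB_phi X t u v p 1 / (p : ℝ) = 1 / (p : ℝ) +
      (∑ i ∈ t, (if p ∈ PB X i then ‖1 - (p : ℂ) ^ (I * v) / 2‖ ^ 2 - 1 else 0) / (p : ℝ)) +
        ∑ i ∈ u, (if p ∈ PB X i then 16 * Real.exp 1 - 1 else 0) / (p : ℝ) := by
    intro p
    rw [MSB_phi_sum hc (ht.trans hjR) (hu.trans hjR) hd v p 1, add_div, add_div, Finset.sum_div,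
      Finset.sum_div]
    have e2 : ‖EP 1 (-((p : ℂ) ^ (I * v)) / 2)‖ = ‖1 - (p : ℂ) ^ (I * v) / 2‖ := by
      rw [MSB_EP1]
      congr 1
      ring
    rw [e2, Nat.cast_one]
  rw [Finset.sum_congr rfl fun p _ => e1 p, Finset.sum_add_distrib, Finset.sum_add_distrib,
    Finset.sum_comm, Finset.sum_comm (t := u)]
  congr 1
  · congr 1
    apply Finset.sum_congr rfl
    intro i hi
    rw [key i (ht hi) (fun p => ‖1 - (p : ℂ) ^ (I * v) / 2‖ ^ 2 - 1)]
    rfl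
  · apply Finset.sum_congr rfl
    intro i hi
    rw [key i (hu hi) (fun _ => 16 * Real.exp 1 - 1)]
    rfl

theorem MSB_EPn (K : ℕ) (z : ℂ) : ‖EP K z‖ ≤ Real.exp ‖z‖ := by
  unfold EP
  calc ‖∑ k ∈ range (K + 1), z ^ k / (k.factorial : ℂ)‖
      ≤ ∑ k ∈ range (K + 1), ‖z ^ k / (k.factorial : ℂ)‖ := norm_sum_le _ _
    _ = ∑ k ∈ range (K + 1), ‖z‖ ^ k / (k.factorial : ℝ) := by
        apply Finset.sum_congr rfl
        intro k _
        rw [norm_div, norm_pow, Complex.norm_natCast]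
    _ ≤ Real.exp ‖z‖ := Real.sum_le_exp_of_nonneg (norm_nonneg _) _

theorem MSB_e16 : Real.exp (Real.exp 1) ≤ 16 := by
  have h1 := Real.exp_one_lt_d9
  have h2 := Real.log_two_gt_d9
  have h3 : Real.exp 1 ≤ Real.log 16 := by
    rw [show (16 : ℝ) = 2 ^ 4 by norm_num, Real.log_pow]
    push_cast
    linarith
  calc Real.exp (Real.exp 1) ≤ Real.exp (Real.log 16) := Real.exp_le_exp.2 h3
    _ = 16 := Real.exp_log (by norm_num)

theorem MSB_pn {x : ℝ} (hx : 1 < x) {v : ℂ} (hv : |v.im| ≤ 1 / Real.log x) {p : ℕ} (hp : 1 ≤ p)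
    (hpx : (p : ℝ) ≤ x) : ‖(p : ℂ) ^ (I * v)‖ ≤ Real.exp 1 := by
  have hp0 : (0 : ℝ) < p := by exact_mod_cast hp
  rw [Complex.norm_natCast_cpow_of_pos hp]
  have h1 : (I * v).re = -v.im := by simp
  rw [h1, Real.rpow_def_of_pos hp0]
  apply Real.exp_le_exp.2
  have hlx : 0 < Real.log x := Real.log_pos hx
  have hlp : 0 ≤ Real.log p := Real.log_nonneg (by exact_mod_cast hp)
  have h2 : Real.log p ≤ Real.log x := Real.log_le_log hp0 hpx
  calc Real.log p * -v.im ≤ Real.log p * |v.im| :=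
        mul_le_mul_of_nonneg_left (neg_le_abs _) hlp
    _ ≤ Real.log x * (1 / Real.log x) := mul_le_mul h2 hv (abs_nonneg _) hlx.le
    _ = 1 := by field_simp

theorem MSB_phi_nonneg (X : ℕ → ℝ) (t u : Finset ℕ) (v : ℂ) (p a : ℕ) :
    0 ≤ MSB_phi X t u v p a := by
  unfold MSB_phi
  split_ifs <;> positivity

theorem MSB_phi_le {L : ℝ} {R : ℕ} {X lam : ℕ → ℝ} (hc : IsChain L R X lam) {t u : Finset ℕ}
    {j : ℕ} (hj : j ≤ R) (ht : t ⊆ range j) {v : ℂ} (hv : |v.im| ≤ 1 / Real.log (X j))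
    (p a : ℕ) : MSB_phi X t u v p a ≤ 16 * Real.exp a := by
  have h1 : (1 : ℝ) ≤ Real.exp a := Real.one_le_exp (Nat.cast_nonneg _)
  unfold MSB_phi
  split_ifs with h2 h3
  · obtain ⟨i, hi, hp⟩ := h2
    obtain ⟨g1, g2, g3⟩ := MSB_mem hp
    have h4 := MSB_mono hc (show i + 1 ≤ j from Finset.mem_range.1 (ht hi)) hj
    have h5 := MSB_ge hc hj
    have h6 := MSB_pn (by linarith) hv g1.one_lt.le (le_trans g3 h4)
    have h7 := MSB_EPn a (-((p : ℂ) ^ (I * v)) / 2)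
    have h8 : ‖-((p : ℂ) ^ (I * v)) / 2‖ ≤ Real.exp 1 / 2 := by
      rw [norm_div, norm_neg]
      simp only [Complex.norm_ofNat]
      linarith
    have h9 : ‖EP a (-((p : ℂ) ^ (I * v)) / 2)‖ ^ 2 ≤ 16 := by
      calc ‖EP a (-((p : ℂ) ^ (I * v)) / 2)‖ ^ 2 ≤ Real.exp (Real.exp 1 / 2) ^ 2 :=
            pow_le_pow_left₀ (norm_nonneg _) (le_trans h7 (Real.exp_le_exp.2 h8)) 2
        _ = Real.exp (Real.exp 1) := by
            rw [← Real.exp_nat_mul]
            congr 1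
            push_cast
            ring
        _ ≤ 16 := MSB_e16
    linarith
  · exact le_rfl
  · linarith

theorem MSB_phi_small {L : ℝ} {R : ℕ} {X lam : ℕ → ℝ} (hc : IsChain L R X lam) {t u : Finset ℕ}
    (ht : t ⊆ range R) (hu : u ⊆ range R) {v : ℂ} (p : ℕ) (hp : p ≤ 100) (a : ℕ) :
    MSB_phi X t u v p a ≤ 1 := by
  have h : ∀ k ∈ range R, p ∉ PB X k := by
    intro k hk hk'
    obtain ⟨-, h2, -⟩ := MSB_mem hk'
    have h3 := MSB_ge hc (Finset.mem_range.1 hk).le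
    have h4 : (p : ℝ) ≤ 100 := by exact_mod_cast hp
    linarith
  rw [MSB_phi_n (fun k hk => h k (hu hk)) (fun k hk => h k (ht hk))]

theorem MSB_suma {L : ℝ} {R : ℕ} {X lam : ℕ → ℝ} (hc : IsChain L R X lam) (g : ℕ → ℝ) :
    ∀ j ≤ R, ∑ i ∈ range j, ∑ p ∈ PB X i, g p = ∑ p ∈ PA (X j), g p := by
  classical
  intro j
  induction j with
  | zero =>
    intro _
    rw [Finset.sum_range_zero, Finset.sum_eq_zero]
    intro p hp
    exfalso
    unfold PA at hp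
    rw [Finset.mem_filter, Finset.mem_Icc, hc.x0] at hp
    obtain ⟨⟨h1, h2⟩, h3, h4⟩ := hp
    have h5 := (Nat.le_floor_iff' (by omega)).1 h2
    linarith
  | succ j ih =>
    intro hj
    rw [Finset.sum_range_succ, ih (by omega)]
    have e : PA (X (j + 1)) = PA (X j) ∪ PB X j := by
      ext p
      rw [Finset.mem_union]
      unfold PA PB
      rw [Finset.mem_filter, Finset.mem_filter, Finset.mem_filter, Finset.mem_Icc, Finset.mem_Icc]
      have h1 := hc.mono j (by omega)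
      have h2 := MSB_ge hc (show j ≤ R by omega)
      constructor
      · rintro ⟨⟨a1, a2⟩, a3, a4⟩
        by_cases h : X j < (p : ℝ)
        · exact Or.inr ⟨⟨a1, a2⟩, a3, h⟩
        · push Not at h
          exact Or.inl ⟨⟨a1, Nat.le_floor h⟩, a3, a4⟩
      · rintro (⟨⟨a1, a2⟩, a3, a4⟩ | ⟨⟨a1, a2⟩, a3, a4⟩)
        · exact ⟨⟨a1, le_trans a2 (Nat.floor_le_floor h1.le)⟩, a3, a4⟩
        · exact ⟨⟨a1, a2⟩, a3, by linarith⟩
    rw [e, Finset.sum_union]
    rw [Finset.disjoint_left]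
    intro p hp hp'
    unfold PA at hp
    rw [Finset.mem_filter, Finset.mem_Icc] at hp
    obtain ⟨⟨a1, a2⟩, a3, a4⟩ := hp
    have h5 := (Nat.le_floor_iff' (by omega)).1 a2
    obtain ⟨-, h6, -⟩ := MSB_mem hp'
    linarith

theorem MSB_gap {L : ℝ} {R : ℕ} {X lam : ℕ → ℝ} (hc : IsChain L R X lam) (v : ℂ) {i : ℕ}
    (hi : i < R) : -(KK lam i : ℝ) + MSB_d X i - MSB_a X v i ≤ -lam i := by
  have h1 := hc.sig i hi
  have h2 := hc.lam1 i hi
  have h3 : 50 * lam i ≤ (KK lam i : ℝ) := Nat.le_ceil _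
  have h4 : MSB_d X i - MSB_a X v i ≤ 16 * Real.exp 1 * ∑ p ∈ PB X i, (1 / (p : ℝ)) := by
    unfold MSB_d MSB_a
    rw [← Finset.sum_sub_distrib, Finset.mul_sum]
    apply Finset.sum_le_sum
    intro p hp
    have hp0 : (0 : ℝ) < p := by
      have := (MSB_mem hp).1.pos
      exact_mod_cast this
    rw [← sub_div, mul_one_div]
    apply div_le_div_of_nonneg_right _ hp0.le
    have := sq_nonneg ‖1 - (p : ℂ) ^ (I * v) / 2‖
    linarith
  have h5 := Real.exp_one_lt_d9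
  have h6 : 16 * Real.exp 1 * ∑ p ∈ PB X i, (1 / (p : ℝ)) ≤ 44 * lam i := by
    calc 16 * Real.exp 1 * ∑ p ∈ PB X i, (1 / (p : ℝ)) ≤ 16 * Real.exp 1 * lam i :=
          mul_le_mul_of_nonneg_left h1 (by positivity)
      _ ≤ 44 * lam i := by
          apply mul_le_mul_of_nonneg_right _ (by linarith)
          linarith
  linarith

theorem MSB_core (h1 : Stmt_LOC1) (h2 : Stmt_LOC2) {L : ℝ} {R : ℕ} {X lam : ℕ → ℝ}
    (hc : IsChain L R X lam) {j : ℕ} (hj : j ≤ R) {v : ℂ} (hv : |v.im| ≤ 1 / Real.log (X j))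
    (z : ℝ) (hz : X j ≤ z) (w : ℕ → ℝ) (hw : ∀ m, 0 ≤ w m) (A : ℝ) (hA : 0 ≤ A)
    (hb : ∀ t ⊆ range j, ∑ m ∈ Icc 1 ⌊z⌋₊,
      (∏ p ∈ m.primeFactors, MSB_phi X t (range j \ t) v p (m.factorization p)) * w m ≤
        A * Real.exp (∑ p ∈ (Icc 1 ⌊z⌋₊).filter Nat.Prime,
          MSB_phi X t (range j \ t) v p 1 / (p : ℝ))) :
    ∑ m ∈ Icc 1 ⌊z⌋₊, ‖B (cM X lam (range j)) v m‖ ^ 2 * w m ≤
      A * Real.exp (∑ p ∈ (Icc 1 ⌊z⌋₊).filter Nat.Prime, (1 / (p : ℝ))) *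
        Real.exp (∑ i ∈ range j, MSB_a X v i + 1) := by
  classical
  have hjR : range j ⊆ range R := Finset.range_subset_range.2 hj
  have hX := MSB_ge hc hj
  have s1 : ∀ m ∈ Icc 1 ⌊z⌋₊, ‖B (cM X lam (range j)) v m‖ ^ 2 * w m ≤
      ∑ t ∈ (range j).powerset, (∏ i ∈ range j \ t, Real.exp (-(KK lam i : ℝ))) *
        ((∏ p ∈ m.primeFactors, MSB_phi X t (range j \ t) v p (m.factorization p)) * w m) := by
    intro m hm
    have hm1 : 1 ≤ m := (Finset.mem_Icc.1 hm).1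
    have h3 : ‖B (cM X lam (range j)) v m‖ ^ 2 ≤
        ∏ i ∈ range j, (FF X i v m + Real.exp (-(KK lam i : ℝ)) * HH X i m) := by
      rw [h1 L R X lam hc j hj v m hm1, norm_prod, ← Finset.prod_pow]
      apply Finset.prod_le_prod
      · intro i _
        positivity
      · intro i hi
        exact h2 X (KK lam i) i v m (X j) (by linarith)
          (MSB_mono hc (show i + 1 ≤ j from Finset.mem_range.1 hi) hj) hv hm1
    rw [Finset.prod_add] at h3
    calc ‖B (cM X lam (range j)) v m‖ ^ 2 * w m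
        ≤ (∑ t ∈ (range j).powerset, (∏ i ∈ t, FF X i v m) *
            ∏ i ∈ range j \ t, Real.exp (-(KK lam i : ℝ)) * HH X i m) * w m :=
          mul_le_mul_of_nonneg_right h3 (hw m)
      _ = _ := by
          rw [Finset.sum_mul]
          apply Finset.sum_congr rfl
          intro t ht
          have ht' := Finset.mem_powerset.1 ht
          rw [← MSB_mult hc (ht'.trans hjR) (Finset.sdiff_subset.trans hjR)
            Finset.disjoint_sdiff v m, Finset.prod_mul_distrib]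
          ring
  refine le_trans (Finset.sum_le_sum s1) ?_
  rw [Finset.sum_comm]
  have s2 : ∀ t ∈ (range j).powerset, ∑ m ∈ Icc 1 ⌊z⌋₊,
      (∏ i ∈ range j \ t, Real.exp (-(KK lam i : ℝ))) *
        ((∏ p ∈ m.primeFactors, MSB_phi X t (range j \ t) v p (m.factorization p)) * w m) ≤
      A * Real.exp (∑ p ∈ (Icc 1 ⌊z⌋₊).filter Nat.Prime, (1 / (p : ℝ))) *
        ((∏ i ∈ t, Real.exp (MSB_a X v i)) *
          ∏ i ∈ range j \ t, Real.exp (-(KK lam i : ℝ)) * Real.exp (MSB_d X i)) := by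
    intro t ht
    have ht' := Finset.mem_powerset.1 ht
    rw [← Finset.mul_sum]
    have h4 := hb t ht'
    rw [MSB_exp hc hj ht' Finset.sdiff_subset Finset.disjoint_sdiff v z hz, Real.exp_add,
      Real.exp_add, Real.exp_sum t, Real.exp_sum (range j \ t)] at h4
    have h5 : 0 ≤ ∏ i ∈ range j \ t, Real.exp (-(KK lam i : ℝ)) :=
      Finset.prod_nonneg fun i _ => (Real.exp_pos _).le
    refine le_trans (mul_le_mul_of_nonneg_left h4 h5) (le_of_eq ?_)
    rw [Finset.prod_mul_distrib]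
    ring
  refine le_trans (Finset.sum_le_sum s2) ?_
  rw [← Finset.mul_sum, ← Finset.prod_add]
  apply mul_le_mul_of_nonneg_left _ (by positivity)
  have s3 : ∏ i ∈ range j, (Real.exp (MSB_a X v i) +
      Real.exp (-(KK lam i : ℝ)) * Real.exp (MSB_d X i)) ≤
      ∏ i ∈ range j, Real.exp (MSB_a X v i + Real.exp (-lam i)) := by
    apply Finset.prod_le_prod
    · intro i _
      positivity
    · intro i hi
      have hiR : i < R := Finset.mem_range.1 (hjR hi)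
      have h6 := MSB_gap hc v hiR
      have h7 : Real.exp (-(KK lam i : ℝ)) * Real.exp (MSB_d X i) ≤
          Real.exp (MSB_a X v i) * Real.exp (-lam i) := by
        rw [← Real.exp_add, ← Real.exp_add]
        apply Real.exp_le_exp.2
        linarith
      have h8 : 1 + Real.exp (-lam i) ≤ Real.exp (Real.exp (-lam i)) := by
        have := Real.add_one_le_exp (Real.exp (-lam i))
        linarith
      rw [Real.exp_add]
      calc Real.exp (MSB_a X v i) + Real.exp (-(KK lam i : ℝ)) * Real.exp (MSB_d X i)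
          ≤ Real.exp (MSB_a X v i) * (1 + Real.exp (-lam i)) := by linarith
        _ ≤ _ := mul_le_mul_of_nonneg_left h8 (Real.exp_pos _).le
  refine le_trans s3 ?_
  rw [← Real.exp_sum]
  apply Real.exp_le_exp.2
  rw [Finset.sum_add_distrib]
  have h9 : ∑ i ∈ range j, Real.exp (-lam i) ≤ ∑ i ∈ range R, Real.exp (-lam i) :=
    Finset.sum_le_sum_of_subset_of_nonneg hjR fun i _ _ => (Real.exp_pos _).le
  have h10 := hc.sum
  linarith

theorem stmt_MSB (h1 : Stmt_LOC1) (h2 : Stmt_LOC2) (h3 : Stmt_LF) (h4 : Stmt_FV)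
    (h5 : Stmt_MER) : Stmt_MSB := by
  classical
  obtain ⟨C1, hC1, hLF⟩ := h3
  obtain ⟨C3, hC3, hFV⟩ := h4
  obtain ⟨C2, hMER⟩ := h5
  refine ⟨C1 * Real.exp (C2 + C3 + 1), by positivity, ?_⟩
  intro L R X lam hc j hj v hv
  have hjR : range j ⊆ range R := Finset.range_subset_range.2 hj
  have hX := MSB_ge hc hj
  have hlX : 0 < Real.log (X j) := Real.log_pos (by linarith)
  set Y : ℝ := 1 + |v.re| * Real.log (X j) with hY
  have hY0 : 0 < Y := by
    have : 0 ≤ |v.re| * Real.log (X j) := by positivity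
    linarith
  have ha : ∑ i ∈ range j, MSB_a X v i ≤
      -(3 / 4) * Real.log (Real.log (X j)) + 6 * Real.log Y + C3 := by
    unfold MSB_a
    rw [MSB_suma hc (fun p => (‖1 - (p : ℂ) ^ (I * v) / 2‖ ^ 2 - 1) / (p : ℝ)) j hj]
    exact hFV (X j) hX v hv
  have hE : Real.exp (∑ i ∈ range j, MSB_a X v i + 1) ≤
      Real.exp (C3 + 1) * Real.log (X j) ^ (-(3 / 4) : ℝ) * Y ^ 6 := by
    calc Real.exp (∑ i ∈ range j, MSB_a X v i + 1)
        ≤ Real.exp ((C3 + 1) + Real.log (Real.log (X j)) * (-(3 / 4)) + 6 * Real.log Y) := by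
          apply Real.exp_le_exp.2
          linarith
      _ = _ := by
          rw [Real.exp_add, Real.exp_add, ← Real.rpow_def_of_pos hlX]
          congr 1
          rw [show (6 : ℝ) * Real.log Y = ((6 : ℕ) : ℝ) * Real.log Y by norm_num,
            Real.exp_nat_mul, Real.exp_log hY0]
  constructor
  · intro z hz
    have hz2 : 2 ≤ z := by linarith
    have hlz : 0 < Real.log z := Real.log_pos (by linarith)
    have h6 := MSB_core h1 h2 hc hj hv z hz (fun _ => 1) (fun _ => zero_le_one)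
      (C1 * (z / Real.log z)) (by positivity) (fun t ht => by
        have h7 := (hLF (MSB_phi X t (range j \ t) v) (MSB_phi_nonneg X _ _ v)
          (MSB_phi_le hc hj ht hv) (fun p hp a => MSB_phi_small hc (ht.trans hjR)
            (Finset.sdiff_subset.trans hjR) p hp a) z hz2).1
        simp only [mul_one]
        exact h7)
    simp only [mul_one] at h6
    have h8 : Real.exp (∑ p ∈ (Icc 1 ⌊z⌋₊).filter Nat.Prime, (1 / (p : ℝ))) ≤
        Real.log z * Real.exp C2 := by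
      calc Real.exp (∑ p ∈ (Icc 1 ⌊z⌋₊).filter Nat.Prime, (1 / (p : ℝ)))
          ≤ Real.exp (Real.log (Real.log z) + C2) := Real.exp_le_exp.2 (hMER z hz2)
        _ = _ := by rw [Real.exp_add, Real.exp_log hlz]
    refine le_trans h6 ?_
    calc C1 * (z / Real.log z) * Real.exp (∑ p ∈ (Icc 1 ⌊z⌋₊).filter Nat.Prime, (1 / (p : ℝ))) *
          Real.exp (∑ i ∈ range j, MSB_a X v i + 1)
        ≤ C1 * (z / Real.log z) * (Real.log z * Real.exp C2) *
          (Real.exp (C3 + 1) * Real.log (X j) ^ (-(3 / 4) : ℝ) * Y ^ 6) := by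
          gcongr
      _ = C1 * Real.exp (C2 + C3 + 1) * z * Real.log (X j) ^ (-(3 / 4) : ℝ) * Y ^ 6 := by
          rw [show C2 + C3 + 1 = C2 + (C3 + 1) by ring, Real.exp_add C2]
          field_simp
  · have hX2 : 2 ≤ X j := by linarith
    have h6 := MSB_core h1 h2 hc hj hv (X j) le_rfl (fun m => 1 / (m : ℝ))
      (fun m => by positivity) C1 hC1.le (fun t ht => by
        have h7 := (hLF (MSB_phi X t (range j \ t) v) (MSB_phi_nonneg X _ _ v)
          (MSB_phi_le hc hj ht hv) (fun p hp a => MSB_phi_small hc (ht.trans hjR)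
            (Finset.sdiff_subset.trans hjR) p hp a) (X j) hX2).2
        simp only [mul_one_div]
        exact h7)
    simp only [mul_one_div] at h6
    have h8 : Real.exp (∑ p ∈ (Icc 1 ⌊X j⌋₊).filter Nat.Prime, (1 / (p : ℝ))) ≤
        Real.log (X j) * Real.exp C2 := by
      calc Real.exp (∑ p ∈ (Icc 1 ⌊X j⌋₊).filter Nat.Prime, (1 / (p : ℝ)))
          ≤ Real.exp (Real.log (Real.log (X j)) + C2) := Real.exp_le_exp.2 (hMER (X j) hX2)
        _ = _ := by rw [Real.exp_add, Real.exp_log hlX]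
    have h9 : Real.log (X j) * Real.log (X j) ^ (-(3 / 4) : ℝ) =
        Real.log (X j) ^ (1 / 4 : ℝ) := by
      nth_rewrite 1 [← Real.rpow_one (Real.log (X j))]
      rw [← Real.rpow_add hlX]
      norm_num
    refine le_trans h6 ?_
    calc C1 * Real.exp (∑ p ∈ (Icc 1 ⌊X j⌋₊).filter Nat.Prime, (1 / (p : ℝ))) *
          Real.exp (∑ i ∈ range j, MSB_a X v i + 1)
        ≤ C1 * (Real.log (X j) * Real.exp C2) *
          (Real.exp (C3 + 1) * Real.log (X j) ^ (-(3 / 4) : ℝ) * Y ^ 6) := by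
          gcongr
      _ = C1 * (Real.exp C2 * Real.exp (C3 + 1)) *
          (Real.log (X j) * Real.log (X j) ^ (-(3 / 4) : ℝ)) * Y ^ 6 := by ring
      _ = C1 * Real.exp (C2 + C3 + 1) * Real.log (X j) ^ (1 / 4 : ℝ) * Y ^ 6 := by
          rw [h9, show C2 + C3 + 1 = C2 + (C3 + 1) by ring, Real.exp_add C2]

end HZS
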