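import Pool.Agent.Work.MP_c51bc2_nt.Interface
import Pool.Agent.Work.MP_e9b29d_nt.MV

/-!
# Block MVP: the mean value of a product with unique factorisation
-/

set_option autoImplicit false

open Finset Complex MeasureTheory

namespace HZS

namespace BMVP

open Pool.Agent.Work.MP_e9b29d_nt

theorem mo_mul (x y : ℕ) (t : ℝ) : mo (x * y) t = mo x t * mo y t := by
  unfold mo
  rw [Nat.cast_mul, Complex.natCast_mul_natCast_cpow]

theorem mo_eq {n : ℕ} (hn : 1 ≤ n) (t : ℝ) :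
    mo n t = ((1 / Real.sqrt n : ℝ) : ℂ) * cexp (((-Real.log n * t : ℝ) : ℂ) * I) := by
  have hn0 : (0 : ℝ) < n := by exact_mod_cast hn
  have hnc : (n : ℂ) ≠ 0 := by exact_mod_cast hn0.ne'
  unfold mo
  have h1 : (-(1 / 2 + I * (t : ℂ)) : ℂ) = ((-(1 / 2) : ℝ) : ℂ) + (-(I * t)) := by
    push_cast
    ring
  rw [h1, Complex.cpow_add _ _ hnc]
  congr 1
  · rw [← Complex.ofReal_natCast, ← Complex.ofReal_cpow hn0.le]
    congr 1
    rw [Real.rpow_neg hn0.le, ← Real.sqrt_eq_rpow, one_div]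
  · rw [Complex.cpow_def_of_ne_zero hnc]
    congr 1
    rw [← Complex.natCast_log]
    push_cast
    ring

theorem main (T : ℝ) (Y : ℕ) (A E : Finset ℕ) (a e : ℕ → ℂ) (hT : 0 < T) (hY : 1 ≤ Y)
    (h1 : ∀ x ∈ A, ∀ y ∈ E, 1 ≤ x * y ∧ x * y ≤ Y)
    (h2 : ∀ x ∈ A, ∀ y ∈ E, ∀ x' ∈ A, ∀ y' ∈ E, x * y = x' * y' → x = x' ∧ y = y')
    (h3 : 4 * (Y : ℝ) * (1 + Real.log Y) ≤ T) :
    ∫ t in T..(2 * T), ‖∑ x ∈ A, a x * mo x t‖ ^ 2 * ‖∑ y ∈ E, e y * mo y t‖ ^ 2 ≤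
      2 * T * ((∑ x ∈ A, ‖a x‖ ^ 2 / (x : ℝ)) * ∑ y ∈ E, ‖e y‖ ^ 2 / (y : ℝ)) := by
  classical
  set f : ℕ × ℕ → ℕ := fun p => p.1 * p.2 with hf
  have hinj : Set.InjOn f (A ×ˢ E : Finset (ℕ × ℕ)) := by
    rintro ⟨x, y⟩ hp ⟨x', y'⟩ hp' h
    rw [Finset.mem_coe, Finset.mem_product] at hp hp'
    obtain ⟨h4, h5⟩ := h2 x hp.1 y hp.2 x' hp'.1 y' hp'.2 h
    rw [Prod.mk.injEq]
    exact ⟨h4, h5⟩
  set S : Finset ℕ := (A ×ˢ E).image f with hS
  set c : ℕ → ℂ := fun n => (∑ p ∈ (A ×ˢ E).filter (fun p => f p = n), a p.1 * e p.2) *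
    ((1 / Real.sqrt n : ℝ) : ℂ) with hc
  have hcv : ∀ p ∈ A ×ˢ E, c (f p) = a p.1 * e p.2 * ((1 / Real.sqrt (f p : ℕ) : ℝ) : ℂ) := by
    intro p hp
    have h4 : (A ×ˢ E).filter (fun q => f q = f p) = {p} := by
      ext q
      rw [Finset.mem_filter, Finset.mem_singleton]
      constructor
      · rintro ⟨hq, h5⟩
        exact hinj (Finset.mem_coe.2 hq) (Finset.mem_coe.2 hp) h5
      · rintro rfl
        exact ⟨hp, rfl⟩
    simp only [hc]
    rw [h4, Finset.sum_singleton]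
  have hSY : S ⊆ Finset.Icc 1 Y := by
    intro n hn
    rw [hS, Finset.mem_image] at hn
    obtain ⟨p, hp, rfl⟩ := hn
    rw [Finset.mem_product] at hp
    rw [Finset.mem_Icc]
    exact h1 p.1 hp.1 p.2 hp.2
  have hprod : ∀ t : ℝ, (∑ x ∈ A, a x * mo x t) * (∑ y ∈ E, e y * mo y t) =
      ES S c (fun n => -Real.log n) t := by
    intro t
    unfold ES
    rw [hS, Finset.sum_image (fun p hp q hq h => hinj hp hq h), Finset.sum_mul_sum,
      ← Finset.sum_product']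
    refine Finset.sum_congr rfl fun p hp => ?_
    rw [hcv p hp]
    rw [Finset.mem_product] at hp
    have h6 := h1 p.1 hp.1 p.2 hp.2
    have h7 := mo_eq h6.1 t
    have h8 := mo_mul p.1 p.2 t
    rw [h7] at h8
    calc a p.1 * mo p.1 t * (e p.2 * mo p.2 t) = a p.1 * e p.2 * (mo p.1 t * mo p.2 t) := by ring
      _ = _ := by rw [← h8]; simp only [hf]; ring
  have hint : ∫ t in T..(2 * T), ‖∑ x ∈ A, a x * mo x t‖ ^ 2 * ‖∑ y ∈ E, e y * mo y t‖ ^ 2 =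
      ∫ t in T..(2 * T), ‖ES S c (fun n => -Real.log n) t‖ ^ 2 := by
    congr 1
    funext t
    rw [← hprod t, norm_mul, mul_pow]
  have hsum : ∑ j ∈ S, ‖c j‖ ^ 2 =
      (∑ x ∈ A, ‖a x‖ ^ 2 / (x : ℝ)) * ∑ y ∈ E, ‖e y‖ ^ 2 / (y : ℝ) := by
    rw [hS, Finset.sum_image (fun p hp q hq h => hinj hp hq h), Finset.sum_mul_sum,
      ← Finset.sum_product']
    refine Finset.sum_congr rfl fun p hp => ?_
    rw [hcv p hp]
    rw [Finset.mem_product] at hp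
    have h6 := h1 p.1 hp.1 p.2 hp.2
    have h7 : (0 : ℝ) < ((p.1 * p.2 : ℕ) : ℝ) := by exact_mod_cast h6.1
    have h8 : (0 : ℝ) < (p.1 : ℝ) := by
      have : 0 < p.1 := Nat.pos_of_ne_zero (by rintro h; rw [h] at h6; omega)
      exact_mod_cast this
    have h9 : (0 : ℝ) < (p.2 : ℝ) := by
      have : 0 < p.2 := Nat.pos_of_ne_zero (by rintro h; rw [h] at h6; omega)
      exact_mod_cast this
    rw [norm_mul, norm_mul, Complex.norm_real, mul_pow, mul_pow, Real.norm_eq_abs, sq_abs, div_pow,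
      one_pow, Real.sq_sqrt (by positivity)]
    simp only [hf]
    push_cast
    field_simp
  rw [hint, ← hsum]
  have h4 := mean_value_log hY hSY c (a := T) (b := 2 * T) (by linarith)
  refine h4.trans ?_
  apply mul_le_mul_of_nonneg_right _ (Finset.sum_nonneg fun _ _ => by positivity)
  linarith

end BMVP

theorem stmt_MVP : Stmt_MVP := by
  intro T Y A E a e hT hY h1 h2 h3
  exact BMVP.main T Y A E a e hT hY h1 h2 h3

end HZS
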