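import Pool.Agent.Work.MP_c51bc2_nt.Multi

/-!
# PWR: the multinomial theorem
-/

open Finset Complex MeasureTheory

namespace HZS

noncomputable section

theorem stmt_PWR : Stmt_PWR := by
  intro P hP m t
  refine Multi.pow_sum hP (fun n => mo n t) ?_ ?_ m
  · unfold mo
    simp
  · intro a b _ _
    unfold mo
    rw [Nat.cast_mul, Complex.natCast_mul_natCast_cpow]

end

end HZS
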