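import Pool.Agent.Work.MP_c51bc2_nt.Interface

/-! Block RZ: `e^{iθ(t)} ζ(1/2+it)` is real. -/

open Finset Complex MeasureTheory ComplexConjugate

namespace HZS

theorem RZ.gammaR_conj (s : ℂ) : Gammaℝ (conj s) = conj (Gammaℝ s) := by
  rw [Gammaℝ_def, Gammaℝ_def, map_mul, ← Complex.Gamma_conj]
  congr 1
  · have h := Complex.conj_cpow (Real.pi : ℂ) (-conj s / 2) (by
      rw [Complex.arg_ofReal_of_nonneg Real.pi_pos.le]; exact Real.pi_pos.ne)
    rw [Complex.conj_ofReal] at h
    rw [h]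
    congr 2
    rw [map_div₀, map_neg, Complex.conj_conj, Complex.conj_ofNat]
  · congr 1
    rw [map_div₀, Complex.conj_ofNat]

theorem stmt_RZ : Stmt_RZ := by
  intro t
  set s : ℂ := 1 / 2 + I * t with hs
  have hsre : s.re = 1 / 2 := by simp [hs]
  have hs0 : s ≠ 0 := by
    intro h
    rw [h] at hsre
    norm_num at hsre
  have hG : Gammaℝ s ≠ 0 := Gammaℝ_ne_zero_of_re_pos (by rw [hsre]; norm_num)
  have hcs : conj s = 1 - s := by
    apply Complex.ext
    · simp [hs]; norm_num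
    · simp [hs]
  have hcs0 : conj s ≠ 0 := by
    simpa using hs0
  have hζ : riemannZeta s = completedRiemannZeta s / Gammaℝ s := riemannZeta_def_of_ne_zero hs0
  have hΛ : conj (completedRiemannZeta s) = completedRiemannZeta s := by
    have h1 : completedRiemannZeta s = riemannZeta s * Gammaℝ s := by
      rw [hζ, div_mul_cancel₀ _ hG]
    have hG' : Gammaℝ (conj s) ≠ 0 := by
      rw [RZ.gammaR_conj]
      simpa using hG
    have h2 : completedRiemannZeta (conj s) = riemannZeta (conj s) * Gammaℝ (conj s) := by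
      rw [riemannZeta_def_of_ne_zero hcs0, div_mul_cancel₀ _ hG']
    calc conj (completedRiemannZeta s) = conj (riemannZeta s) * conj (Gammaℝ s) := by
          rw [h1, map_mul]
      _ = riemannZeta (conj s) * Gammaℝ (conj s) := by
          rw [riemannZeta_conj, RZ.gammaR_conj]
      _ = completedRiemannZeta (conj s) := h2.symm
      _ = completedRiemannZeta (1 - s) := by rw [hcs]
      _ = completedRiemannZeta s := completedRiemannZeta_one_sub s
  have hpi : (Real.pi : ℂ) ≠ 0 := by exact_mod_cast Real.pi_ne_zero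
  have hGG : Gammaℝ s = (Real.pi : ℂ) ^ (-(I * t / 2)) * (Real.pi : ℂ) ^ (-(1 / 4 : ℂ)) *
      Complex.Gamma (1 / 4 + I * t / 2) := by
    rw [Gammaℝ_def, ← Complex.cpow_add _ _ hpi]
    congr 2
    · rw [hs]; ring
    · rw [hs]; ring
  have hq : (Real.pi : ℂ) ^ (-(1 / 4 : ℂ)) = ((Real.pi ^ (-(1 / 4 : ℝ)) : ℝ) : ℂ) := by
    rw [Complex.ofReal_cpow Real.pi_pos.le]
    congr 1
    push_cast
    ring
  have hq0 : (0 : ℝ) < Real.pi ^ (-(1 / 4 : ℝ)) := Real.rpow_pos_of_pos Real.pi_pos _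
  have hqc : ((Real.pi ^ (-(1 / 4 : ℝ)) : ℝ) : ℂ) ≠ 0 := by
    exact_mod_cast hq0.ne'
  have key : ph t * riemannZeta s = completedRiemannZeta s /
      ((Real.pi ^ (-(1 / 4 : ℝ)) * ‖Complex.Gamma (1 / 4 + I * t / 2)‖ : ℝ) : ℂ) := by
    have hGm : Complex.Gamma (1 / 4 + I * t / 2) ≠ 0 := by
      intro h
      apply hG
      rw [hGG, h, mul_zero]
    have hn : (‖Complex.Gamma (1 / 4 + I * t / 2)‖ : ℂ) ≠ 0 := by
      exact_mod_cast (norm_ne_zero_iff.mpr hGm)
    have hpp : (Real.pi : ℂ) ^ (-(I * t / 2)) ≠ 0 := by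
      rw [Complex.cpow_ne_zero_iff]
      exact Or.inl hpi
    rw [hζ, hGG, hq, ph]
    push_cast at hqc ⊢
    generalize Complex.Gamma (1 / 4 + I * t / 2) = G at *
    field_simp
  rw [key]
  have hΛr : completedRiemannZeta s = ((completedRiemannZeta s).re : ℂ) :=
    (Complex.conj_eq_iff_re.mp hΛ).symm
  rw [hΛr, ← Complex.ofReal_div, Complex.ofReal_im]

end HZS
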