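import Pool.Agent.Work.MP_c51bc2_nt.Multi

/-!
# SKE: the diagonal sum
-/

open Finset Complex MeasureTheory

namespace HZS

noncomputable section

lemma SKE_pow {P : Finset ℕ} (hP : ∀ p ∈ P, p.Prime) (m : ℕ) :
    (∑ p ∈ P, (1 / (p : ℝ))) ^ m = ∑ e ∈ SE P m, ((m.factorial : ℝ) * cf 1 e) * (1 / (e : ℝ)) := by
  have h := Multi.pow_sum hP (fun n => (((1 / (n : ℝ) : ℝ)) : ℂ)) (by simp) (by
    intro a b _ _
    push_cast
    rw [one_div_mul_one_div]) m
  exact_mod_cast h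

theorem stmt_SKE : Stmt_SKE := by
  intro P hP K r hr
  rw [Multi.sum_SK hP]
  have h1 : ∀ k ∈ range (K + 1), ∑ d ∈ SE P k, cf r d / (d : ℝ) =
      (r * ∑ p ∈ P, (1 / (p : ℝ))) ^ k / (k.factorial : ℝ) := by
    intro k _
    rw [mul_pow, SKE_pow hP k, Finset.mul_sum, Finset.sum_div]
    refine Finset.sum_congr rfl fun e he => ?_
    obtain ⟨h1, h2, h3⟩ := (Multi.mem_SE hP).1 he
    rw [Multi.cf_pow h2 r, h3]
    have hk : ((k.factorial : ℕ) : ℝ) ≠ 0 := by exact_mod_cast Nat.factorial_ne_zero k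
    field_simp
  rw [Finset.sum_congr rfl h1]
  apply Real.sum_le_exp_of_nonneg
  apply mul_nonneg hr
  exact Finset.sum_nonneg fun p _ => by positivity

end

end HZS
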