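import Pool.Agent.Work.MP_c51bc2_nt.Interface

/-! # TF: the twisted first moment -/

open Finset Complex MeasureTheory

namespace HZS

noncomputable section

lemma TF_mo {n : ℕ} (hn : 1 ≤ n) (t : ℝ) :
    mo n t = ((1 / Real.sqrt n : ℝ) : ℂ) * cexp (((-Real.log n : ℝ) : ℂ) * I * t) := by
  have hn0 : (n : ℂ) ≠ 0 := by exact_mod_cast (by omega : n ≠ 0)
  have hnp : (0 : ℝ) < n := by exact_mod_cast hn
  have h1 : Real.exp (-(Real.log n) / 2) = 1 / Real.sqrt n := by
    rw [neg_div, Real.exp_neg, Real.exp_half, Real.exp_log hnp, one_div]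
  unfold mo
  rw [Complex.cpow_def_of_ne_zero hn0, ← h1, Complex.ofReal_exp, ← Complex.exp_add,
    ← Complex.natCast_log]
  congr 1
  push_cast
  ring

lemma TF_mo_norm {n : ℕ} (hn : 1 ≤ n) (t : ℝ) : ‖mo n t‖ = 1 / Real.sqrt n := by
  have e : ((-Real.log n : ℝ) : ℂ) * I * t = ((-Real.log n * t : ℝ) : ℂ) * I := by
    push_cast; ring
  rw [TF_mo hn, norm_mul, Complex.norm_real, e, Complex.norm_exp_ofReal_mul_I, mul_one,
    Real.norm_of_nonneg (by positivity)]

lemma TF_mo_le {n : ℕ} (hn : 1 ≤ n) (t : ℝ) : ‖mo n t‖ ≤ 1 := by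
  rw [TF_mo_norm hn]
  have h1 : (1 : ℝ) ≤ Real.sqrt n := by
    rw [Real.one_le_sqrt]; exact_mod_cast hn
  rw [div_le_one (by linarith)]
  exact h1

lemma TF_mo_cont {n : ℕ} (hn : 1 ≤ n) : Continuous (mo n) := by
  have : mo n = fun t : ℝ => ((1 / Real.sqrt n : ℝ) : ℂ) *
      cexp (((-Real.log n : ℝ) : ℂ) * I * t) := by
    funext t
    exact TF_mo hn t
  rw [this]
  fun_prop

/-- separation of logarithms of integers -/
lemma TF_log {a b Y : ℕ} (ha : 1 ≤ a) (hb : 1 ≤ b) (hY : b ≤ Y) (hab : a ≠ b) :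
    1 / (2 * (Y : ℝ)) ≤ |Real.log b - Real.log a| := by
  have ha0 : (0 : ℝ) < a := by exact_mod_cast ha
  have hb0 : (0 : ℝ) < b := by exact_mod_cast hb
  have hb1 : (1 : ℝ) ≤ b := by exact_mod_cast hb
  have hbY : (b : ℝ) ≤ Y := by exact_mod_cast hY
  have hY0 : (0 : ℝ) < Y := by linarith
  rcases lt_or_gt_of_ne hab with h | h
  · -- a < b
    have h1 : (a : ℝ) + 1 ≤ b := by exact_mod_cast h
    have h2 := Real.one_sub_inv_le_log_of_pos (div_pos hb0 ha0)
    rw [Real.log_div hb0.ne' ha0.ne'] at h2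
    have h3 : 1 / (2 * (Y : ℝ)) ≤ 1 - ((b : ℝ) / a)⁻¹ := by
      rw [inv_div, le_sub_iff_add_le, div_add_div _ _ (by positivity) (by positivity),
        div_le_one (by positivity)]
      nlinarith
    exact (h3.trans h2).trans (le_abs_self _)
  · have h1 : (b : ℝ) + 1 ≤ a := by exact_mod_cast h
    have h2 := Real.one_sub_inv_le_log_of_pos (div_pos ha0 hb0)
    rw [Real.log_div ha0.ne' hb0.ne'] at h2
    have h3 : 1 / (2 * (Y : ℝ)) ≤ 1 - ((a : ℝ) / b)⁻¹ := by
      rw [inv_div, le_sub_iff_add_le, div_add_div _ _ (by positivity) (by positivity),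
        div_le_one (by positivity)]
      nlinarith
    have h4 : Real.log a - Real.log b ≤ |Real.log b - Real.log a| := by
      rw [abs_sub_comm]; exact le_abs_self _
    exact (h3.trans h2).trans h4

/-- the triple product -/
lemma TF_prod {n m k : ℕ} (hn : 1 ≤ n) (hm : 1 ≤ m) (hk : 1 ≤ k) (t : ℝ) :
    mo n t * mo m t * (starRingEnd ℂ) (mo k t) =
      ((1 / Real.sqrt n * (1 / Real.sqrt m) * (1 / Real.sqrt k) : ℝ) : ℂ) *
        cexp ((((Real.log k - Real.log (n * m : ℕ) : ℝ) : ℂ) * I) * t) := by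
  have hn0 : (n : ℝ) ≠ 0 := by exact_mod_cast (by omega : n ≠ 0)
  have hm0 : (m : ℝ) ≠ 0 := by exact_mod_cast (by omega : m ≠ 0)
  rw [TF_mo hn, TF_mo hm, TF_mo hk, map_mul, Complex.conj_ofReal, ← Complex.exp_conj]
  have e1 : ∀ x : ℝ, (starRingEnd ℂ) (((-x : ℝ) : ℂ) * I * t) = ((x : ℝ) : ℂ) * I * t := by
    intro x
    simp
  rw [e1]
  have e2 : ∀ a b c : ℂ, ∀ x y z : ℂ, a * cexp x * (b * cexp y) * (c * cexp z) =
      (a * b * c) * cexp (x + y + z) := by
    intro a b c x y z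
    rw [Complex.exp_add, Complex.exp_add]; ring
  rw [e2]
  have hl : Real.log ((n * m : ℕ) : ℝ) = Real.log n + Real.log m := by
    push_cast
    exact Real.log_mul hn0 hm0
  rw [hl]
  generalize Real.log n = x
  generalize Real.log m = y
  generalize Real.log k = z
  push_cast
  congr 2
  ring

lemma TF_int_diag {n m k : ℕ} (hn : 1 ≤ n) (hm : 1 ≤ m) (hk : 1 ≤ k) (h : n * m = k) (T : ℝ) :
    ∫ t in T..(2 * T), mo n t * mo m t * (starRingEnd ℂ) (mo k t) = (T : ℂ) / (k : ℂ) := by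
  have e : ∀ t : ℝ, mo n t * mo m t * (starRingEnd ℂ) (mo k t) = ((1 / (k : ℝ) : ℝ) : ℂ) := by
    intro t
    rw [TF_prod hn hm hk, h, sub_self]
    simp only [Complex.ofReal_zero, zero_mul, Complex.exp_zero, mul_one]
    congr 1
    have hk0 : (0 : ℝ) ≤ k := Nat.cast_nonneg _
    have : Real.sqrt n * Real.sqrt m = Real.sqrt k := by
      rw [← Real.sqrt_mul (Nat.cast_nonneg _), ← h]
      push_cast
      rfl
    rw [one_div_mul_one_div, this, one_div_mul_one_div, Real.mul_self_sqrt hk0]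
  simp_rw [e]
  rw [intervalIntegral.integral_const]
  simp only [Complex.real_smul]
  push_cast
  ring

lemma TF_int_off {n m k Y : ℕ} (hn : 1 ≤ n) (hm : 1 ≤ m) (hk : 1 ≤ k) (hY : k ≤ Y)
    (h : n * m ≠ k) (T : ℝ) :
    ‖∫ t in T..(2 * T), mo n t * mo m t * (starRingEnd ℂ) (mo k t)‖ ≤
      1 / Real.sqrt n * (4 * Y) := by
  have hnm : 1 ≤ n * m := Nat.one_le_iff_ne_zero.mpr (by positivity)
  have hlog := TF_log hnm hk hY h
  set w : ℝ := Real.log k - Real.log (n * m : ℕ) with hw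
  have hYpos : (0 : ℝ) < Y := by exact_mod_cast (by omega : 0 < Y)
  have hw0 : w ≠ 0 := by
    intro h0
    rw [h0, abs_zero] at hlog
    have : (0 : ℝ) < 1 / (2 * Y) := by positivity
    linarith
  simp_rw [TF_prod hn hm hk]
  rw [intervalIntegral.integral_const_mul, norm_mul, Complex.norm_real]
  have hc : ((w : ℝ) : ℂ) * I ≠ 0 := mul_ne_zero (by exact_mod_cast hw0) I_ne_zero
  rw [← hw, integral_exp_mul_complex hc]
  have hsn : (1 : ℝ) ≤ Real.sqrt n := by rw [Real.one_le_sqrt]; exact_mod_cast hn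
  have hsm : (1 : ℝ) ≤ Real.sqrt m := by rw [Real.one_le_sqrt]; exact_mod_cast hm
  have hsk : (1 : ℝ) ≤ Real.sqrt k := by rw [Real.one_le_sqrt]; exact_mod_cast hk
  have h1 : ‖(1 / Real.sqrt n * (1 / Real.sqrt m) * (1 / Real.sqrt k) : ℝ)‖ ≤ 1 / Real.sqrt n := by
    rw [Real.norm_of_nonneg (by positivity)]
    have ha : 1 / Real.sqrt m ≤ 1 := by rw [div_le_one (by linarith)]; exact hsm
    have hb : 1 / Real.sqrt k ≤ 1 := by rw [div_le_one (by linarith)]; exact hsk
    have h0 : 0 ≤ 1 / Real.sqrt n := by positivity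
    calc 1 / Real.sqrt n * (1 / Real.sqrt m) * (1 / Real.sqrt k)
        ≤ 1 / Real.sqrt n * 1 * 1 := by gcongr
      _ = 1 / Real.sqrt n := by ring
  have h2 : ‖(cexp (((w : ℝ) : ℂ) * I * ((2 * T : ℝ) : ℂ)) - cexp (((w : ℝ) : ℂ) * I * (T : ℂ))) /
      (((w : ℝ) : ℂ) * I)‖ ≤ 4 * Y := by
    rw [norm_div, norm_mul, Complex.norm_I, mul_one, Complex.norm_real, Real.norm_eq_abs]
    have he : ∀ s : ℝ, ‖cexp (((w : ℝ) : ℂ) * I * (s : ℂ))‖ = 1 := by
      intro s
      rw [Complex.norm_exp]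
      simp
    have h3 : ‖cexp (((w : ℝ) : ℂ) * I * ((2 * T : ℝ) : ℂ)) - cexp (((w : ℝ) : ℂ) * I * (T : ℂ))‖ ≤ 2 := by
      calc _ ≤ ‖cexp (((w : ℝ) : ℂ) * I * ((2 * T : ℝ) : ℂ))‖ +
            ‖cexp (((w : ℝ) : ℂ) * I * (T : ℂ))‖ := norm_sub_le _ _
        _ = 2 := by rw [he, he]; norm_num
    have hwp : 0 < |w| := abs_pos.mpr hw0
    rw [div_le_iff₀ hwp]
    calc _ ≤ (2 : ℝ) := h3
      _ = 4 * Y * (1 / (2 * Y)) := by field_simp; norm_num
      _ ≤ 4 * Y * |w| := by gcongr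
  exact mul_le_mul h1 h2 (norm_nonneg _) (by positivity)

lemma TF_sqrt (N : ℕ) : ∑ n ∈ Icc 1 N, 1 / Real.sqrt n ≤ 2 * Real.sqrt N := by
  induction N with
  | zero => simp
  | succ N ih =>
    rw [Finset.sum_Icc_succ_top (by omega)]
    have h1 : Real.sqrt N ^ 2 = N := Real.sq_sqrt (Nat.cast_nonneg _)
    have h2 : Real.sqrt (N + 1 : ℕ) ^ 2 = (N : ℝ) + 1 := by
      rw [Real.sq_sqrt (Nat.cast_nonneg _)]; push_cast; ring
    have h0 : 0 ≤ Real.sqrt N := Real.sqrt_nonneg _
    have h3 : 0 < Real.sqrt (N + 1 : ℕ) := Real.sqrt_pos.mpr (by positivity)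
    have h4 : 1 / Real.sqrt (N + 1 : ℕ) ≤ 2 * Real.sqrt (N + 1 : ℕ) - 2 * Real.sqrt N := by
      rw [div_le_iff₀ h3]
      nlinarith [sq_nonneg (Real.sqrt (N + 1 : ℕ) - Real.sqrt N)]
    linarith

lemma TF_cf {s : ℝ} (hs : |s| ≤ 1) (d : ℕ) : |cf s d| ≤ 1 := by
  unfold cf
  rw [Finset.abs_prod]
  apply Finset.prod_le_one
  · intro p _; exact abs_nonneg _
  · intro p _
    rw [abs_div, abs_pow, Nat.abs_cast]
    have h1 : |s| ^ (d.factorization p) ≤ 1 := pow_le_one₀ (abs_nonneg _) hs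
    have h2 : (1 : ℝ) ≤ ((d.factorization p).factorial : ℝ) := by
      exact_mod_cast Nat.one_le_iff_ne_zero.mpr (Nat.factorial_ne_zero _)
    rw [div_le_one (by linarith)]
    linarith

lemma TF_cM (X lam : ℕ → ℝ) (S : Finset ℕ) (d : ℕ) : ‖cM X lam S d‖ ≤ 1 := by
  unfold cM
  split_ifs
  · rw [Complex.norm_real]
    exact TF_cf (by norm_num [abs_of_neg]) d
  · simp

lemma TF_cN (X lam : ℕ → ℝ) (S : Finset ℕ) (d : ℕ) : ‖cN X lam S d‖ ≤ 1 := by
  unfold cN
  split_ifs
  · rw [Complex.norm_real]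
    exact TF_cf (by norm_num [abs_of_pos]) d
  · simp

lemma TF_cN_conj (X lam : ℕ → ℝ) (S : Finset ℕ) (d : ℕ) :
    (starRingEnd ℂ) (cN X lam S d) = cN X lam S d := by
  unfold cN
  split_ifs
  · rw [Complex.conj_ofReal]
  · simp

lemma TF_D_norm {b : ℕ → ℂ} (hb : ∀ d, ‖b d‖ ≤ 1) (Y : ℕ) (t : ℝ) : ‖D b Y t‖ ≤ Y := by
  unfold D
  calc _ ≤ ∑ d ∈ Icc 1 Y, ‖b d * mo d t‖ := norm_sum_le _ _
    _ ≤ ∑ d ∈ Icc 1 Y, (1 : ℝ) := by
        apply Finset.sum_le_sum
        intro d hd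
        rw [Finset.mem_Icc] at hd
        rw [norm_mul]
        exact mul_le_one₀ (hb d) (norm_nonneg _) (TF_mo_le hd.1 t)
    _ = Y := by simp

lemma TF_D_cont (b : ℕ → ℂ) (Y : ℕ) : Continuous (D b Y) := by
  unfold D
  apply continuous_finsetSum
  intro d hd
  rw [Finset.mem_Icc] at hd
  exact continuous_const.mul (TF_mo_cont hd.1)

lemma TF_zeta_cont : Continuous (fun t : ℝ => riemannZeta (1 / 2 + I * t)) := by
  rw [continuous_iff_continuousAt]
  intro t
  have h1 : (1 / 2 + I * (t : ℂ)) ≠ 1 := by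
    intro h
    have := congrArg Complex.re h
    simp at this
  have h2 := (differentiableAt_riemannZeta h1).continuousAt
  exact ContinuousAt.comp (f := fun t : ℝ => (1 / 2 + I * (t : ℂ))) h2 (by fun_prop)

/-- the diagonal -/
lemma TF_diag (b c : ℕ → ℂ) (N Y : ℕ) (hYN : Y ≤ N) (T : ℝ) :
    ∑ k ∈ Icc 1 Y, ∑ m ∈ Icc 1 Y, ∑ n ∈ Icc 1 N,
      (b m * c k) * (if n * m = k then (T : ℂ) / (k : ℂ) else 0) =
      T * ∑ k ∈ Icc 1 Y, c k * B b 0 k / (k : ℂ) := by
  rw [Finset.mul_sum]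
  apply Finset.sum_congr rfl
  intro k hk
  rw [Finset.mem_Icc] at hk
  have h1 : ∀ m ∈ Icc 1 Y, ∑ n ∈ Icc 1 N,
      (b m * c k) * (if n * m = k then (T : ℂ) / (k : ℂ) else 0) =
      if m ∣ k then (b m * c k) * ((T : ℂ) / (k : ℂ)) else 0 := by
    intro m hm
    rw [Finset.mem_Icc] at hm
    by_cases hd : m ∣ k
    · rw [if_pos hd]
      obtain ⟨n, hn⟩ := hd
      have hn1 : 1 ≤ n := by
        rcases Nat.eq_zero_or_pos n with h | h
        · rw [h] at hn; omega
        · exact h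
      have hnk : n ≤ k := by
        rw [hn]; exact Nat.le_mul_of_pos_left n (by omega)
      rw [Finset.sum_eq_single n]
      · rw [if_pos (by rw [hn]; ring)]
      · intro n' _ hne
        rw [if_neg, mul_zero]
        intro h
        apply hne
        have : n' * m = n * m := by rw [h, hn]; ring
        exact Nat.eq_of_mul_eq_mul_right (by omega) this
      · intro h
        exfalso
        apply h
        rw [Finset.mem_Icc]
        omega
    · rw [if_neg hd]
      apply Finset.sum_eq_zero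
      intro n _
      rw [if_neg, mul_zero]
      intro h
      exact hd ⟨n, by rw [← h]; ring⟩
  rw [Finset.sum_congr rfl h1, ← Finset.sum_filter]
  have h2 : (Icc 1 Y).filter (fun m => m ∣ k) = k.divisors := by
    ext m
    rw [Finset.mem_filter, Finset.mem_Icc, Nat.mem_divisors]
    constructor
    · rintro ⟨_, h⟩; exact ⟨h, by omega⟩
    · rintro ⟨h, _⟩
      have := Nat.le_of_dvd (by omega) h
      have h3 := Nat.pos_of_dvd_of_pos h (by omega)
      exact ⟨⟨h3, by omega⟩, h⟩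
  rw [h2]
  unfold B
  rw [mul_comm (c k), Finset.sum_mul, Finset.sum_div, Finset.mul_sum]
  apply Finset.sum_congr rfl
  intro m _
  simp only [mul_zero, Complex.cpow_zero, mul_one]
  ring

theorem stmt_TF (hZS : Stmt_ZS) (hCO : Stmt_CO) : Stmt_TF := by
  obtain ⟨C, T0, hC, hT0, hZ⟩ := hZS
  refine ⟨C + 20, T0, by positivity, hT0, ?_⟩
  intro T R X lam hT hch Y hY1 hY2
  have hT1 : 1 < T := lt_of_lt_of_le hT0 hT
  have hTpos : 0 < T := by linarith
  have hLpos : 0 < Real.log T := Real.log_pos hT1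
  -- the length
  have hlen : Real.exp (∑ i ∈ range R, (KK lam i : ℝ) * Real.log (X (i + 1))) ≤ Y := by
    refine le_trans ?_ hY1
    rw [Real.rpow_def_of_pos hTpos]
    apply Real.exp_le_exp.mpr
    have hX : ∀ i ≤ R, 100 ≤ X i := by
      intro i
      induction i with
      | zero => intro _; rw [hch.x0]
      | succ i ih =>
        intro hi
        have := hch.mono i (by omega)
        have := ih (by omega)
        linarith
    have h1 : ∑ i ∈ range R, (KK lam i : ℝ) * Real.log (X (i + 1)) ≤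
        ∑ i ∈ range R, 51 * (lam i * Real.log (X (i + 1))) := by
      apply Finset.sum_le_sum
      intro i hi
      rw [Finset.mem_range] at hi
      have h2 : (KK lam i : ℝ) ≤ 51 * lam i := by
        unfold KK
        have h3 := hch.lam1 i hi
        have h4 := (Nat.ceil_lt_add_one (show 0 ≤ 50 * lam i by linarith)).le
        linarith
      have h5 : 0 ≤ Real.log (X (i + 1)) := Real.log_nonneg (by
        have := hX (i + 1) (by omega); linarith)
      nlinarith
    rw [← Finset.mul_sum] at h1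
    have h6 := hch.len
    linarith
  obtain ⟨hM, hN, -, -⟩ := hCO (Real.log T) R X lam hch (range R) (Finset.Subset.refl _) Y hlen
  have hY1' : (1 : ℝ) ≤ Y := le_trans (Real.one_le_rpow hT1.le (by norm_num)) hY1
  have hYpos : (0 : ℝ) < Y := by linarith
  set b := cM X lam (range R) with hb
  set c := cN X lam (range R) with hc
  set N := N0 T with hNdef
  have hYT : (Y : ℝ) ≤ T := le_trans hY2 (by
    calc T ^ (1 / 20 : ℝ) ≤ T ^ (1 : ℝ) := Real.rpow_le_rpow_of_exponent_le hT1.le (by norm_num)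
      _ = T := Real.rpow_one T)
  have hNle : (N : ℝ) ≤ 5 * T := by
    rw [hNdef]
    unfold N0
    push_cast
    have := (Nat.ceil_lt_add_one (show 0 ≤ 3 * T by linarith)).le
    linarith
  have hNge : 3 * T ≤ N := by
    rw [hNdef]
    unfold N0
    push_cast
    have := Nat.le_ceil (3 * T)
    linarith
  have hYN : Y ≤ N := by
    have : (Y : ℝ) ≤ N := by linarith
    exact_mod_cast this
  simp_rw [hM, hN]
  -- the partial sum of zeta
  set Sg : ℝ → ℂ := fun t => ∑ n ∈ Icc 1 N, mo n t with hSg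
  have hScont : Continuous Sg := by
    apply continuous_finsetSum
    intro n hn
    rw [Finset.mem_Icc] at hn
    exact TF_mo_cont hn.1
  have hDb := TF_D_cont b Y
  have hDc := TF_D_cont c Y
  have hzc := TF_zeta_cont
  have hcc : Continuous (fun t => (starRingEnd ℂ) (D c Y t)) := Complex.continuous_conj.comp hDc
  -- the error term of zeta
  have hE : ‖∫ t in T..(2 * T), (riemannZeta (1 / 2 + I * t) - Sg t) * D b Y t *
      (starRingEnd ℂ) (D c Y t)‖ ≤ (C / Real.sqrt T * Y * Y) * |2 * T - T| := by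
    apply intervalIntegral.norm_integral_le_of_norm_le_const
    intro t ht
    rw [Set.uIoc_of_le (by linarith)] at ht
    rw [norm_mul, norm_mul, RCLike.norm_conj]
    have h1 := hZ T t hT (by linarith [ht.1]) (by linarith [ht.2])
    have h2 := TF_D_norm (TF_cM X lam (range R)) Y t
    have h3 := TF_D_norm (TF_cN X lam (range R)) Y t
    gcongr
  have hsplit : (∫ t in T..(2 * T), riemannZeta (1 / 2 + I * t) * D b Y t *
      (starRingEnd ℂ) (D c Y t)) =
      (∫ t in T..(2 * T), (riemannZeta (1 / 2 + I * t) - Sg t) * D b Y t *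
      (starRingEnd ℂ) (D c Y t)) +
      ∫ t in T..(2 * T), Sg t * D b Y t * (starRingEnd ℂ) (D c Y t) := by
    rw [← intervalIntegral.integral_add]
    · apply intervalIntegral.integral_congr
      intro t _
      simp only
      ring
    · exact (((hzc.sub hScont).mul hDb).mul hcc).intervalIntegrable _ _
    · exact ((hScont.mul hDb).mul hcc).intervalIntegrable _ _
  -- expand
  have hexp : (∫ t in T..(2 * T), Sg t * D b Y t * (starRingEnd ℂ) (D c Y t)) =
      ∑ k ∈ Icc 1 Y, ∑ m ∈ Icc 1 Y, ∑ n ∈ Icc 1 N,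
        (b m * c k) * ∫ t in T..(2 * T), mo n t * mo m t * (starRingEnd ℂ) (mo k t) := by
    have h1 : ∀ t : ℝ, Sg t * D b Y t * (starRingEnd ℂ) (D c Y t) =
        ∑ k ∈ Icc 1 Y, ∑ m ∈ Icc 1 Y, ∑ n ∈ Icc 1 N,
          (b m * c k) * (mo n t * mo m t * (starRingEnd ℂ) (mo k t)) := by
      intro t
      simp only [hSg, D, map_sum, map_mul]
      rw [Finset.mul_sum]
      apply Finset.sum_congr rfl
      intro k _
      rw [hc, TF_cN_conj, Finset.sum_mul_sum, Finset.sum_comm, Finset.sum_mul]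
      apply Finset.sum_congr rfl
      intro m _
      rw [Finset.sum_mul]
      apply Finset.sum_congr rfl
      intro n _
      ring
    simp_rw [h1]
    have hint : ∀ k ∈ Icc 1 Y, ∀ m ∈ Icc 1 Y, ∀ n ∈ Icc 1 N, Continuous (fun t : ℝ =>
        (b m * c k) * (mo n t * mo m t * (starRingEnd ℂ) (mo k t))) := by
      intro k hk m hm n hn
      rw [Finset.mem_Icc] at hk hm hn
      exact continuous_const.mul (((TF_mo_cont hn.1).mul (TF_mo_cont hm.1)).mul
        (Complex.continuous_conj.comp (TF_mo_cont hk.1)))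
    rw [intervalIntegral.integral_finsetSum]
    · apply Finset.sum_congr rfl
      intro k hk
      rw [intervalIntegral.integral_finsetSum]
      · apply Finset.sum_congr rfl
        intro m hm
        rw [intervalIntegral.integral_finsetSum]
        · apply Finset.sum_congr rfl
          intro n hn
          rw [intervalIntegral.integral_const_mul]
        · intro n hn
          exact (hint k hk m hm n hn).intervalIntegrable _ _
      · intro m hm
        exact (continuous_finsetSum _ (fun n hn => hint k hk m hm n hn)).intervalIntegrable _ _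
    · intro k hk
      exact (continuous_finsetSum _ (fun m hm =>
        continuous_finsetSum _ (fun n hn => hint k hk m hm n hn))).intervalIntegrable _ _
  rw [hsplit, hexp, ← TF_diag b c N Y hYN T, add_sub_assoc, ← Finset.sum_sub_distrib]
  have hoff : ‖∑ k ∈ Icc 1 Y, ((∑ m ∈ Icc 1 Y, ∑ n ∈ Icc 1 N,
        (b m * c k) * ∫ t in T..(2 * T), mo n t * mo m t * (starRingEnd ℂ) (mo k t)) -
        ∑ m ∈ Icc 1 Y, ∑ n ∈ Icc 1 N,
        (b m * c k) * (if n * m = k then (T : ℂ) / (k : ℂ) else 0))‖ ≤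
      Y * (Y * (2 * Real.sqrt N * (4 * Y))) := by
    refine (norm_sum_le _ _).trans ?_
    have h1 : ∀ k ∈ Icc 1 Y, ‖((∑ m ∈ Icc 1 Y, ∑ n ∈ Icc 1 N,
        (b m * c k) * ∫ t in T..(2 * T), mo n t * mo m t * (starRingEnd ℂ) (mo k t)) -
        ∑ m ∈ Icc 1 Y, ∑ n ∈ Icc 1 N,
        (b m * c k) * (if n * m = k then (T : ℂ) / (k : ℂ) else 0))‖ ≤
        Y * (2 * Real.sqrt N * (4 * Y)) := by
      intro k hk
      rw [Finset.mem_Icc] at hk
      rw [← Finset.sum_sub_distrib]
      refine (norm_sum_le _ _).trans ?_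
      have h2 : ∀ m ∈ Icc 1 Y, ‖(∑ n ∈ Icc 1 N,
          (b m * c k) * ∫ t in T..(2 * T), mo n t * mo m t * (starRingEnd ℂ) (mo k t)) -
          ∑ n ∈ Icc 1 N,
          (b m * c k) * (if n * m = k then (T : ℂ) / (k : ℂ) else 0)‖ ≤
          2 * Real.sqrt N * (4 * Y) := by
        intro m hm
        rw [Finset.mem_Icc] at hm
        rw [← Finset.sum_sub_distrib]
        refine (norm_sum_le _ _).trans ?_
        have h3 : ∀ n ∈ Icc 1 N, ‖(b m * c k) * (∫ t in T..(2 * T), mo n t * mo m t *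
            (starRingEnd ℂ) (mo k t)) - (b m * c k) * (if n * m = k then (T : ℂ) / (k : ℂ) else 0)‖
            ≤ 1 / Real.sqrt n * (4 * Y) := by
          intro n hn
          rw [Finset.mem_Icc] at hn
          by_cases h : n * m = k
          · rw [if_pos h, TF_int_diag hn.1 hm.1 hk.1 h, sub_self, norm_zero]
            positivity
          · rw [if_neg h, mul_zero, sub_zero, norm_mul, norm_mul]
            have h4 := TF_int_off hn.1 hm.1 hk.1 hk.2 h T
            have h5 : ‖b m‖ * ‖c k‖ ≤ 1 :=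
              mul_le_one₀ (TF_cM X lam _ m) (norm_nonneg _) (TF_cN X lam _ k)
            calc _ ≤ 1 * (1 / Real.sqrt n * (4 * Y)) :=
                  mul_le_mul h5 h4 (norm_nonneg _) (by norm_num)
              _ = _ := one_mul _
        refine (Finset.sum_le_sum h3).trans ?_
        rw [← Finset.sum_mul]
        exact mul_le_mul_of_nonneg_right (TF_sqrt N) (by positivity)
      refine (Finset.sum_le_sum h2).trans ?_
      simp
    refine (Finset.sum_le_sum h1).trans ?_
    simp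
  refine (norm_add_le _ _).trans ?_
  refine (add_le_add hE hoff).trans ?_
  -- final numerics
  have hY3 : (Y : ℝ) ^ 2 ≤ T ^ (1 / 10 : ℝ) := by
    calc (Y : ℝ) ^ 2 ≤ (T ^ (1 / 20 : ℝ)) ^ 2 := by gcongr
      _ = T ^ (1 / 10 : ℝ) := by
        rw [← Real.rpow_natCast, ← Real.rpow_mul hTpos.le]; norm_num
  have hY4 : (Y : ℝ) ^ 3 ≤ T ^ (3 / 20 : ℝ) := by
    calc (Y : ℝ) ^ 3 ≤ (T ^ (1 / 20 : ℝ)) ^ 3 := by gcongr
      _ = T ^ (3 / 20 : ℝ) := by
        rw [← Real.rpow_natCast, ← Real.rpow_mul hTpos.le]; norm_num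
  have hsT : 0 < Real.sqrt T := Real.sqrt_pos.mpr hTpos
  have hTs : T / Real.sqrt T = T ^ (1 / 2 : ℝ) := by
    rw [← Real.sqrt_eq_rpow, Real.div_sqrt]
  have hsN : Real.sqrt N ≤ 5 / 2 * T ^ (1 / 2 : ℝ) := by
    rw [← Real.sqrt_eq_rpow]
    rw [Real.sqrt_le_left (by positivity), mul_pow, Real.sq_sqrt hTpos.le]
    nlinarith
  have e1 : (C / Real.sqrt T * Y * Y) * |2 * T - T| ≤ C * T ^ (9 / 10 : ℝ) := by
    rw [show 2 * T - T = T by ring, abs_of_pos hTpos]
    calc C / Real.sqrt T * Y * Y * T = C * ((Y : ℝ) ^ 2 * (T / Real.sqrt T)) := by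
          field_simp
      _ ≤ C * (T ^ (1 / 10 : ℝ) * T ^ (1 / 2 : ℝ)) := by rw [hTs]; gcongr
      _ = C * T ^ (1 / 10 + 1 / 2 : ℝ) := by rw [Real.rpow_add hTpos]
      _ ≤ C * T ^ (9 / 10 : ℝ) := by
          gcongr
          · exact hT1.le
          · norm_num
  have e2 : (Y : ℝ) * (Y * (2 * Real.sqrt N * (4 * Y))) ≤ 20 * T ^ (9 / 10 : ℝ) := by
    calc (Y : ℝ) * (Y * (2 * Real.sqrt N * (4 * Y))) = 8 * ((Y : ℝ) ^ 3 * Real.sqrt N) := by ring
      _ ≤ 8 * (T ^ (3 / 20 : ℝ) * (5 / 2 * T ^ (1 / 2 : ℝ))) := by gcongr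
      _ = 20 * T ^ (3 / 20 + 1 / 2 : ℝ) := by rw [Real.rpow_add hTpos]; ring
      _ ≤ 20 * T ^ (9 / 10 : ℝ) := by
          gcongr
          · exact hT1.le
          · norm_num
  calc _ ≤ C * T ^ (9 / 10 : ℝ) + 20 * T ^ (9 / 10 : ℝ) := add_le_add e1 e2
    _ = (C + 20) * T ^ (9 / 10 : ℝ) := by ring

end

end HZS
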