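import Pool.Agent.Work.MP_c51bc2_nt.Interface

open Finset Complex MeasureTheory

namespace HZS

namespace TRx

lemma tail_le (r : ℝ) (hr : 0 ≤ r) (n : ℕ) :
    Real.exp r - ∑ m ∈ range n, r ^ m / (m.factorial : ℝ) ≤
      Real.exp (-(2 * n : ℝ)) * Real.exp (Real.exp 2 * r) := by
  have hs : HasSum (fun m : ℕ => r ^ m / (m.factorial : ℝ)) (Real.exp r) := by
    have := NormedSpace.expSeries_div_hasSum_exp (r : ℝ)
    rwa [← Real.exp_eq_exp_ℝ] at this
  have ht := hs.tendsto_sum_nat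
  have ht2 : Filter.Tendsto (fun N : ℕ => ∑ m ∈ range N, r ^ m / (m.factorial : ℝ) -
      ∑ m ∈ range n, r ^ m / (m.factorial : ℝ)) Filter.atTop
      (nhds (Real.exp r - ∑ m ∈ range n, r ^ m / (m.factorial : ℝ))) := ht.sub_const _
  refine le_of_tendsto ht2 ?_
  filter_upwards [Filter.eventually_ge_atTop n] with N hN
  rw [← Finset.sum_range_add_sum_Ico _ hN, add_sub_cancel_left]
  have h1 : ∑ m ∈ Ico n N, r ^ m / (m.factorial : ℝ) ≤
      ∑ m ∈ Ico n N, Real.exp (-(2 * n : ℝ)) * ((Real.exp 2 * r) ^ m / (m.factorial : ℝ)) := by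
    apply Finset.sum_le_sum
    intro m hm
    have hm' := (Finset.mem_Ico.1 hm).1
    have h2 : 1 ≤ Real.exp (-(2 * n : ℝ)) * Real.exp 2 ^ m := by
      rw [← Real.exp_nat_mul, ← Real.exp_add]
      apply Real.one_le_exp
      have : (n : ℝ) ≤ m := by exact_mod_cast hm'
      linarith
    have h3 : 0 ≤ r ^ m / (m.factorial : ℝ) := by positivity
    calc r ^ m / (m.factorial : ℝ) ≤ (Real.exp (-(2 * n : ℝ)) * Real.exp 2 ^ m) *
          (r ^ m / (m.factorial : ℝ)) := le_mul_of_one_le_left h3 h2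
      _ = _ := by rw [mul_pow]; ring
  refine le_trans h1 ?_
  rw [← Finset.mul_sum]
  apply mul_le_mul_of_nonneg_left _ (Real.exp_pos _).le
  have hr2 : 0 ≤ Real.exp 2 * r := by positivity
  calc ∑ m ∈ Ico n N, (Real.exp 2 * r) ^ m / (m.factorial : ℝ) ≤
        ∑ m ∈ range N, (Real.exp 2 * r) ^ m / (m.factorial : ℝ) := by
          apply Finset.sum_le_sum_of_subset_of_nonneg
          · intro m hm
            exact Finset.mem_range.2 (Finset.mem_Ico.1 hm).2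
          · intro m _ _; positivity
    _ ≤ Real.exp (Real.exp 2 * r) := Real.sum_le_exp_of_nonneg hr2 N

lemma exp_two_le : Real.exp 2 ≤ 8 := by
  have h1 := Real.exp_one_lt_d9
  have h2 : Real.exp 2 = Real.exp 1 ^ 2 := by
    rw [← Real.exp_nat_mul]; norm_num
  rw [h2]
  nlinarith [Real.exp_pos 1]

/-- the truncated exponential is close to the exponential -/
theorem ep_close (K : ℕ) (z : ℂ) (hz : ‖z‖ ≤ K / 10) :
    ‖cexp z - EP K z‖ ≤ Real.exp (-(K : ℝ)) * ‖cexp z‖ := by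
  have h1 := Complex.norm_exp_sub_sum_le_exp_norm_sub_sum z (K + 1)
  have h2 := tail_le ‖z‖ (norm_nonneg z) (K + 1)
  have h3 : Real.exp (-‖z‖) ≤ ‖cexp z‖ := by
    rw [Complex.norm_exp]
    apply Real.exp_le_exp.2
    have := Complex.abs_re_le_norm z
    have := neg_abs_le z.re
    linarith
  have h4 : Real.exp (-(2 * ((K + 1 : ℕ) : ℝ))) * Real.exp (Real.exp 2 * ‖z‖) ≤
      Real.exp (-(K : ℝ)) * Real.exp (-‖z‖) := by
    rw [← Real.exp_add, ← Real.exp_add]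
    apply Real.exp_le_exp.2
    have h5 := exp_two_le
    have hK : (0 : ℝ) ≤ K := Nat.cast_nonneg K
    push_cast
    have h6 : Real.exp 2 * ‖z‖ ≤ 8 * (K / 10) := by
      apply mul_le_mul h5 hz (norm_nonneg z) (by norm_num)
    linarith
  unfold EP
  calc ‖cexp z - ∑ k ∈ range (K + 1), z ^ k / (k.factorial : ℂ)‖ ≤ _ := h1
    _ ≤ _ := h2
    _ ≤ _ := h4
    _ ≤ _ := mul_le_mul_of_nonneg_left h3 (Real.exp_pos _).le

lemma ep_lower (K : ℕ) (z : ℂ) (hz : ‖z‖ ≤ K / 10) :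
    (1 - Real.exp (-(K : ℝ))) * ‖cexp z‖ ≤ ‖EP K z‖ := by
  have h := ep_close K z hz
  have h2 : ‖cexp z‖ ≤ ‖cexp z - EP K z‖ + ‖EP K z‖ := by
    have := norm_add_le (cexp z - EP K z) (EP K z)
    rwa [sub_add_cancel] at this
  linarith

lemma ep_upper (K : ℕ) (z : ℂ) (hz : ‖z‖ ≤ K / 10) :
    ‖EP K z‖ ≤ (1 + Real.exp (-(K : ℝ))) * ‖cexp z‖ := by
  have h := ep_close K z hz
  have h2 : ‖EP K z‖ ≤ ‖cexp z‖ + ‖cexp z - EP K z‖ := by
    have := norm_sub_le (cexp z) (cexp z - EP K z)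
    rwa [sub_sub_cancel] at this
  linarith

lemma norm_exp_mul (z : ℂ) : ‖cexp (-z)‖ * ‖cexp z‖ = 1 := by
  rw [← norm_mul, ← Complex.exp_add, neg_add_cancel, Complex.exp_zero, norm_one]

end TRx

open TRx in
theorem stmt_TR : Stmt_TR := by
  intro K z hK hz
  have h1 := ep_lower K z hz
  have h2 := ep_lower K (-z) (by rwa [norm_neg])
  have h0 : 0 ≤ 1 - Real.exp (-(K : ℝ)) := by
    have : Real.exp (-(K : ℝ)) ≤ 1 := by
      rw [Real.exp_le_one_iff]
      have : (0 : ℝ) ≤ K := Nat.cast_nonneg K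
      linarith
    linarith
  calc (1 - Real.exp (-(K : ℝ))) ^ 2 = ((1 - Real.exp (-(K : ℝ))) * ‖cexp (-z)‖) *
        ((1 - Real.exp (-(K : ℝ))) * ‖cexp z‖) := by
        have := norm_exp_mul z
        calc (1 - Real.exp (-(K : ℝ))) ^ 2 =
            (1 - Real.exp (-(K : ℝ))) ^ 2 * (‖cexp (-z)‖ * ‖cexp z‖) := by rw [this, mul_one]
          _ = _ := by ring
    _ ≤ ‖EP K (-z)‖ * ‖EP K z‖ := mul_le_mul h2 h1 (by positivity) (norm_nonneg _)

end HZS
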