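import Pool.Agent.Work.MP_c51bc2_nt.Interface

/-! # TU: the pointwise upper bound -/

open Finset Complex MeasureTheory

namespace HZS

noncomputable section

lemma TU_exp21 : Real.exp (21 / 10) ≤ 10 := by
  have h1 : Real.exp (21 / 10) ^ 10 = Real.exp 1 ^ 21 := by
    rw [← Real.exp_nat_mul, ← Real.exp_nat_mul]
    norm_num
  have h2 : Real.exp 1 ^ 21 ≤ (10 : ℝ) ^ 10 := by
    calc Real.exp 1 ^ 21 ≤ (2.7182818286 : ℝ) ^ 21 := by
          gcongr
          exact Real.exp_one_lt_d9.le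
      _ ≤ (10 : ℝ) ^ 10 := by norm_num
  have h3 : Real.exp (21 / 10) ^ 10 ≤ (10 : ℝ) ^ 10 := by rw [h1]; exact h2
  exact le_of_pow_le_pow_left₀ (by norm_num) (by norm_num) h3

lemma TU_bound (K : ℕ) (z : ℂ) (hz : ‖z‖ ≤ K / 10) :
    ‖EP K z‖ ≤ ‖cexp z‖ * (1 + Real.exp (-(K : ℝ))) := by
  have hK0 : (0 : ℝ) ≤ K := Nat.cast_nonneg _
  have h1 : ‖cexp z - ∑ m ∈ range (K + 1), z ^ m / (m.factorial : ℂ)‖ ≤
      ‖z‖ ^ (K + 1) / ((K + 1).factorial : ℝ) * 2 := by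
    apply Complex.exp_bound'
    rw [div_le_iff₀ (by positivity)]
    push_cast
    linarith
  have h2 : ‖z‖ ^ (K + 1) / ((K + 1).factorial : ℝ) ≤ Real.exp K / 10 ^ (K + 1) := by
    rw [le_div_iff₀ (by positivity)]
    have h3 := Real.pow_div_factorial_le_exp (10 * ‖z‖) (by positivity) (K + 1)
    calc ‖z‖ ^ (K + 1) / ((K + 1).factorial : ℝ) * 10 ^ (K + 1) =
          (10 * ‖z‖) ^ (K + 1) / ((K + 1).factorial : ℝ) := by rw [mul_pow]; ring
      _ ≤ Real.exp (10 * ‖z‖) := h3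
      _ ≤ Real.exp K := Real.exp_le_exp.mpr (by linarith)
  have h4 : Real.exp (K : ℝ) / 10 ^ (K + 1) * 2 ≤ Real.exp (-(K : ℝ)) * Real.exp (-(K / 10 : ℝ)) := by
    have h5 : Real.exp (21 / 10 * (K : ℝ)) ≤ 10 ^ K := by
      rw [mul_comm, Real.exp_nat_mul]
      exact pow_le_pow_left₀ (Real.exp_pos _).le TU_exp21 K
    rw [← Real.exp_add, div_mul_eq_mul_div, div_le_iff₀ (by positivity)]
    have h6 : Real.exp (K : ℝ) = Real.exp (-(K : ℝ) + -(K / 10 : ℝ)) * Real.exp (21 / 10 * (K : ℝ)) := by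
      rw [← Real.exp_add]
      congr 1
      ring
    rw [h6, mul_assoc]
    refine mul_le_mul_of_nonneg_left ?_ (Real.exp_pos _).le
    rw [pow_succ]
    have : (0 : ℝ) ≤ 10 ^ K := by positivity
    linarith
  have h7 : Real.exp (-(K / 10 : ℝ)) ≤ ‖cexp z‖ := by
    rw [Complex.norm_exp]
    apply Real.exp_le_exp.mpr
    have := (abs_le.mp (Complex.abs_re_le_norm z)).1
    linarith
  have h8 : ‖EP K z‖ ≤ ‖cexp z‖ + ‖cexp z - EP K z‖ := by
    calc ‖EP K z‖ = ‖cexp z - (cexp z - EP K z)‖ := by congr 1; ring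
      _ ≤ _ := norm_sub_le _ _
  have h9 : ‖cexp z - EP K z‖ ≤ Real.exp (-(K : ℝ)) * ‖cexp z‖ := by
    unfold EP
    calc _ ≤ ‖z‖ ^ (K + 1) / ((K + 1).factorial : ℝ) * 2 := h1
      _ ≤ Real.exp (K : ℝ) / 10 ^ (K + 1) * 2 := by gcongr
      _ ≤ Real.exp (-(K : ℝ)) * Real.exp (-(K / 10 : ℝ)) := h4
      _ ≤ _ := by gcongr
  linarith

lemma TU_pair (K : ℕ) (z : ℂ) (hz : ‖z‖ ≤ K / 10) :
    ‖EP K (-z)‖ * ‖EP K z‖ ≤ Real.exp (2 * Real.exp (-(K : ℝ))) := by
  have h1 := TU_bound K z hz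
  have h2 := TU_bound K (-z) (by rwa [norm_neg])
  have h3 : ‖cexp (-z)‖ * ‖cexp z‖ = 1 := by
    rw [← norm_mul, ← Complex.exp_add]; simp
  have h4 : 1 + Real.exp (-(K : ℝ)) ≤ Real.exp (Real.exp (-(K : ℝ))) := by
    have := Real.add_one_le_exp (Real.exp (-(K : ℝ)))
    linarith
  have h5 : (0 : ℝ) ≤ 1 + Real.exp (-(K : ℝ)) := by positivity
  calc ‖EP K (-z)‖ * ‖EP K z‖ ≤ (‖cexp (-z)‖ * (1 + Real.exp (-(K : ℝ)))) *
        (‖cexp z‖ * (1 + Real.exp (-(K : ℝ)))) := by gcongr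
    _ = (‖cexp (-z)‖ * ‖cexp z‖) * ((1 + Real.exp (-(K : ℝ))) * (1 + Real.exp (-(K : ℝ)))) := by ring
    _ = (1 + Real.exp (-(K : ℝ))) * (1 + Real.exp (-(K : ℝ))) := by rw [h3, one_mul]
    _ ≤ Real.exp (Real.exp (-(K : ℝ))) * Real.exp (Real.exp (-(K : ℝ))) := by gcongr
    _ = Real.exp (2 * Real.exp (-(K : ℝ))) := by rw [← Real.exp_add]; congr 1; ring

theorem stmt_TU : Stmt_TU := by
  intro L R X lam hch t
  have hprod : ‖MM X lam (range R) t‖ * ‖NN X lam (range R) t‖ =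
      ∏ i ∈ range R, (‖EP (KK lam i) (-(PP X i t / 2))‖ * ‖EP (KK lam i) (PP X i t / 2)‖) := by
    unfold MM NN
    rw [norm_prod, norm_prod, ← Finset.prod_mul_distrib]
    apply Finset.prod_congr rfl
    intro i _
    rw [neg_div]
  have hK : ∀ i < R, 50 * lam i ≤ (KK lam i : ℝ) := by
    intro i _
    exact Nat.le_ceil _
  by_cases hall : ∀ i < R, ‖PP X i t‖ ≤ (KK lam i : ℝ) / 5
  · have h1 : ‖MM X lam (range R) t‖ * ‖NN X lam (range R) t‖ ≤
        ∏ i ∈ range R, Real.exp (2 * Real.exp (-(KK lam i : ℝ))) := by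
      rw [hprod]
      apply Finset.prod_le_prod
      · intro i _; positivity
      · intro i hi
        rw [Finset.mem_range] at hi
        apply TU_pair
        rw [norm_div]
        have := hall i hi
        simp only [Complex.norm_ofNat]
        linarith
    rw [← Real.exp_sum] at h1
    have h2 : ∑ i ∈ range R, 2 * Real.exp (-(KK lam i : ℝ)) ≤ ∑ i ∈ range R, 2 * Real.exp (-lam i) := by
      apply Finset.sum_le_sum
      intro i hi
      rw [Finset.mem_range] at hi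
      have h3 := hK i hi
      have h4 := hch.lam1 i hi
      have : Real.exp (-(KK lam i : ℝ)) ≤ Real.exp (-lam i) := Real.exp_le_exp.mpr (by linarith)
      linarith
    rw [← Finset.mul_sum _ (fun i => Real.exp (-lam i))] at h2
    have h5 := hch.sum
    have h6 : Real.exp (∑ i ∈ range R, 2 * Real.exp (-(KK lam i : ℝ))) ≤ 2 := by
      have h7 : ∑ i ∈ range R, 2 * Real.exp (-(KK lam i : ℝ)) ≤ Real.log 2 := by
        have := Real.log_two_gt_d9
        linarith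
      calc _ ≤ Real.exp (Real.log 2) := Real.exp_le_exp.mpr h7
        _ = 2 := Real.exp_log (by norm_num)
    have h8 : 0 ≤ ∑ j ∈ range R, ‖MM X lam (range R) t‖ * ‖NN X lam (range R) t‖ *
        (5 * ‖PP X j t‖ / (KK lam j : ℝ)) ^ (mm lam j) := by positivity
    linarith
  · push Not at hall
    obtain ⟨i, hi, hPi⟩ := hall
    have hKi : (0 : ℝ) < KK lam i := by
      have := hK i hi
      have := hch.lam1 i hi
      linarith
    have h1 : (1 : ℝ) ≤ (5 * ‖PP X i t‖ / (KK lam i : ℝ)) ^ (mm lam i) := by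
      apply one_le_pow₀
      rw [le_div_iff₀ hKi]
      linarith
    have h2 : ‖MM X lam (range R) t‖ * ‖NN X lam (range R) t‖ *
        (5 * ‖PP X i t‖ / (KK lam i : ℝ)) ^ (mm lam i) ≤ ∑ j ∈ range R,
        ‖MM X lam (range R) t‖ * ‖NN X lam (range R) t‖ *
        (5 * ‖PP X j t‖ / (KK lam j : ℝ)) ^ (mm lam j) := by
      apply Finset.single_le_sum (f := fun j => ‖MM X lam (range R) t‖ * ‖NN X lam (range R) t‖ *
        (5 * ‖PP X j t‖ / (KK lam j : ℝ)) ^ (mm lam j))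
      · intro j _; positivity
      · rw [Finset.mem_range]; exact hi
    have h3 : 0 ≤ ‖MM X lam (range R) t‖ * ‖NN X lam (range R) t‖ := by positivity
    nlinarith

end

end HZS
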