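import Pool.Agent.Work.MP_c51bc2_nt.Interface

/-! Block WT of MP_c51bc2_nt: the weighted sum. -/

open Finset Complex MeasureTheory

namespace HZS

theorem wt_rho (h a b : ℝ) (hh0 : 0 ≤ h) (hh : h ≤ 1) (hab : |a - b| ≤ 1) :
    1 + h ^ 2 * a ^ 2 ≤ 3 * (1 + h ^ 2 * b ^ 2) := by
  have h1 : (a - b) ^ 2 ≤ 1 := by
    have := abs_le.1 hab
    nlinarith
  have h2 : a ^ 2 ≤ 2 * b ^ 2 + 2 * (a - b) ^ 2 := by nlinarith [sq_nonneg (a - 2 * b)]
  have h3 : h ^ 2 ≤ 1 := by nlinarith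
  have h4 : h ^ 2 * a ^ 2 ≤ h ^ 2 * (2 * b ^ 2 + 2 * 1) :=
    mul_le_mul_of_nonneg_left (by linarith) (sq_nonneg h)
  have h5 : 0 ≤ h ^ 2 * b ^ 2 := by positivity
  nlinarith

theorem wt_arctan (h x : ℝ) (k : ℕ) (hh0 : 0 < h) (hh : h ≤ 1) :
    1 / (1 + h ^ 2 * (x - k) ^ 2) ≤
      3 / h * (Real.arctan (h * (((k + 1 : ℕ) : ℝ) - x)) - Real.arctan (h * ((k : ℝ) - x))) := by
  have hlt : h * ((k : ℝ) - x) < h * (((k + 1 : ℕ) : ℝ) - x) := by
    push_cast
    nlinarith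
  obtain ⟨c, hc, hc2⟩ := exists_hasDerivAt_eq_slope Real.arctan (fun y => 1 / (1 + y ^ 2)) hlt
    Real.continuous_arctan.continuousOn (fun y _ => Real.hasDerivAt_arctan y)
  have e1 : h * (((k + 1 : ℕ) : ℝ) - x) - h * ((k : ℝ) - x) = h := by
    push_cast
    ring
  rw [e1] at hc2
  have hc3 : Real.arctan (h * (((k + 1 : ℕ) : ℝ) - x)) - Real.arctan (h * ((k : ℝ) - x)) =
      h * (1 / (1 + c ^ 2)) := by
    rw [hc2]
    field_simp
  rw [hc3]
  have e2 : 3 / h * (h * (1 / (1 + c ^ 2))) = 3 / (1 + c ^ 2) := by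
    field_simp
  rw [e2]
  have hcd : c = h * (c / h) := by field_simp
  have habs : |c / h - ((k : ℝ) - x)| ≤ 1 := by
    have hc' := hc
    rw [Set.mem_Ioo] at hc'
    obtain ⟨ha, hb⟩ := hc'
    have ha' : (k : ℝ) - x < c / h := by
      rw [lt_div_iff₀ hh0]
      linarith
    have hb' : c / h < ((k + 1 : ℕ) : ℝ) - x := by
      rw [div_lt_iff₀ hh0]
      linarith
    push_cast at hb'
    rw [abs_le]
    constructor <;> linarith
  have h1 := wt_rho h (c / h) ((k : ℝ) - x) hh0.le hh habs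
  have h2 : h ^ 2 * (c / h) ^ 2 = c ^ 2 := by
    rw [← mul_pow, ← hcd]
  have h3 : ((k : ℝ) - x) ^ 2 = (x - k) ^ 2 := by ring
  rw [h2, h3] at h1
  rw [div_le_div_iff₀ (by positivity) (by positivity)]
  linarith

theorem wt_sum (h x : ℝ) (hh0 : 0 < h) (hh : h ≤ 1) (K : ℕ) :
    ∑ k ∈ range K, 1 / (1 + h ^ 2 * (x - k) ^ 2) ≤ 12 / h := by
  have h1 : ∑ k ∈ range K, 1 / (1 + h ^ 2 * (x - k) ^ 2) ≤
      ∑ k ∈ range K, 3 / h * (Real.arctan (h * (((k + 1 : ℕ) : ℝ) - x)) -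
        Real.arctan (h * ((k : ℝ) - x))) :=
    Finset.sum_le_sum fun k _ => wt_arctan h x k hh0 hh
  have h2 : ∑ k ∈ range K, 3 / h * (Real.arctan (h * (((k + 1 : ℕ) : ℝ) - x)) -
        Real.arctan (h * ((k : ℝ) - x))) =
      3 / h * (Real.arctan (h * ((K : ℝ) - x)) - Real.arctan (h * (((0 : ℕ) : ℝ) - x))) := by
    rw [← Finset.mul_sum]
    congr 1
    exact Finset.sum_range_sub (fun k : ℕ => Real.arctan (h * ((k : ℝ) - x))) K
  rw [h2] at h1
  refine h1.trans ?_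
  have h3 := Real.arctan_lt_pi_div_two (h * ((K : ℝ) - x))
  have h4 := Real.neg_pi_div_two_lt_arctan (h * (((0 : ℕ) : ℝ) - x))
  have h5 := Real.pi_lt_four
  have h6 : Real.arctan (h * ((K : ℝ) - x)) - Real.arctan (h * (((0 : ℕ) : ℝ) - x)) ≤ 4 := by
    push_cast at h4 ⊢
    linarith
  have h7 : 0 ≤ 3 / h := by positivity
  calc 3 / h * (Real.arctan (h * ((K : ℝ) - x)) - Real.arctan (h * (((0 : ℕ) : ℝ) - x)))
      ≤ 3 / h * 4 := mul_le_mul_of_nonneg_left h6 h7
    _ = 12 / h := by ring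

theorem stmt_WT : Stmt_WT := by
  refine ⟨200, by norm_num, ?_⟩
  intro b β X L h x M hb hβ hX hXL hLh hh1 hx hz hs
  have hX0 : 0 < X := by linarith
  have hlogX : 0 < Real.log X := Real.log_pos (by linarith)
  have hL : 0 < L := by linarith
  have hh0 : 0 < h := lt_of_lt_of_le (by positivity) hLh
  have hLh1 : 1 ≤ h * L := by
    rwa [div_le_iff₀ hL] at hLh
  have hx1 := (abs_le.1 hx).1
  -- the small integers
  have hsmall : ∑ m ∈ (Icc 1 M).filter (fun m : ℕ => (m : ℝ) ≤ X),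
      b m / ((m : ℝ) * (1 + h ^ 2 * (x - Real.log m) ^ 2)) ≤ 2 * β / h := by
    have t1 : ∀ m ∈ (Icc 1 M).filter (fun m : ℕ => (m : ℝ) ≤ X),
        b m / ((m : ℝ) * (1 + h ^ 2 * (x - Real.log m) ^ 2)) ≤
          16 / (h ^ 2 * L ^ 2) * (b m / (m : ℝ)) := by
      intro m hm
      rw [mem_filter, mem_Icc] at hm
      obtain ⟨⟨hm1, _⟩, hmX⟩ := hm
      have hm0 : (0 : ℝ) < m := by exact_mod_cast hm1
      have hlm : Real.log m ≤ Real.log X := Real.log_le_log hm0 hmX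
      have hge : L / 4 ≤ x - Real.log m := by linarith
      have hsq : L ^ 2 / 16 ≤ (x - Real.log m) ^ 2 := by nlinarith
      have hge2 : h ^ 2 * (L ^ 2 / 16) ≤ 1 + h ^ 2 * (x - Real.log m) ^ 2 := by
        have := mul_le_mul_of_nonneg_left hsq (sq_nonneg h)
        linarith
      have hpos : 0 < h ^ 2 * (L ^ 2 / 16) := by positivity
      have e : 16 / (h ^ 2 * L ^ 2) * (b m / (m : ℝ)) = b m / (m : ℝ) / (h ^ 2 * (L ^ 2 / 16)) := by
        field_simp
      rw [e, ← div_div]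
      exact div_le_div_of_nonneg_left (div_nonneg (hb m) hm0.le) hpos hge2
    have t2 : (Icc 1 M).filter (fun m : ℕ => (m : ℝ) ≤ X) ⊆ Icc 1 ⌊X⌋₊ := by
      intro m hm
      rw [mem_filter, mem_Icc] at hm
      rw [mem_Icc]
      exact ⟨hm.1.1, Nat.le_floor hm.2⟩
    have t3 : ∑ m ∈ (Icc 1 M).filter (fun m : ℕ => (m : ℝ) ≤ X), b m / (m : ℝ) ≤
        ∑ m ∈ Icc 1 ⌊X⌋₊, b m / (m : ℝ) :=
      Finset.sum_le_sum_of_subset_of_nonneg t2 fun m _ _ => div_nonneg (hb m) (Nat.cast_nonneg m)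
    have t4 : ∑ m ∈ (Icc 1 M).filter (fun m : ℕ => (m : ℝ) ≤ X), b m / (m : ℝ) ≤ β * (L / 8) := by
      have : β * Real.log X ≤ β * (L / 8) := mul_le_mul_of_nonneg_left hXL hβ
      linarith
    refine (Finset.sum_le_sum t1).trans ?_
    rw [← Finset.mul_sum]
    have hc : (0 : ℝ) ≤ 16 / (h ^ 2 * L ^ 2) := by positivity
    refine (mul_le_mul_of_nonneg_left t4 hc).trans ?_
    have e : 16 / (h ^ 2 * L ^ 2) * (β * (L / 8)) = 2 * β / h * (1 / (h * L)) := by
      field_simp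
      ring
    rw [e]
    have hle : 1 / (h * L) ≤ 1 := by
      rw [div_le_one (by positivity)]
      exact hLh1
    have hnn : 0 ≤ 2 * β / h := by positivity
    calc 2 * β / h * (1 / (h * L)) ≤ 2 * β / h * 1 := mul_le_mul_of_nonneg_left hle hnn
      _ = 2 * β / h := by ring
  -- the large integers
  have hlarge : ∑ m ∈ (Icc 1 M).filter (fun m : ℕ => ¬ (m : ℝ) ≤ X),
      b m / ((m : ℝ) * (1 + h ^ 2 * (x - Real.log m) ^ 2)) ≤ 9 * β * (12 / h) := by
    have hmap : ∀ m ∈ (Icc 1 M).filter (fun m : ℕ => ¬ (m : ℝ) ≤ X),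
        ⌊Real.log (m : ℝ)⌋₊ ∈ range (⌊Real.log (M : ℝ)⌋₊ + 1) := by
      intro m hm
      rw [mem_filter, mem_Icc] at hm
      rw [mem_range]
      refine Nat.lt_succ_of_le (Nat.floor_le_floor ?_)
      exact Real.log_le_log (by exact_mod_cast hm.1.1) (by exact_mod_cast hm.1.2)
    rw [← Finset.sum_fiberwise_of_maps_to hmap]
    have hfib : ∀ k ∈ range (⌊Real.log (M : ℝ)⌋₊ + 1),
        ∑ m ∈ ((Icc 1 M).filter (fun m : ℕ => ¬ (m : ℝ) ≤ X)).filter
          (fun m : ℕ => ⌊Real.log (m : ℝ)⌋₊ = k),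
          b m / ((m : ℝ) * (1 + h ^ 2 * (x - Real.log m) ^ 2)) ≤
        9 * β * (1 / (1 + h ^ 2 * (x - k) ^ 2)) := by
      intro k _
      set F := ((Icc 1 M).filter (fun m : ℕ => ¬ (m : ℝ) ≤ X)).filter
          (fun m : ℕ => ⌊Real.log (m : ℝ)⌋₊ = k) with hF
      have hρ : 0 ≤ 1 / (1 + h ^ 2 * (x - k) ^ 2) := by positivity
      rcases F.eq_empty_or_nonempty with he | hne
      · rw [he, Finset.sum_empty]
        positivity
      have hbd : ∀ m ∈ F, (k : ℝ) ≤ Real.log m ∧ Real.log m < k + 1 ∧ 1 ≤ m ∧ X < m := by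
        intro m hm
        rw [hF, mem_filter, mem_filter, mem_Icc] at hm
        obtain ⟨⟨⟨hm1, _⟩, hmX⟩, hk⟩ := hm
        have hlm : 0 ≤ Real.log m := Real.log_nonneg (by exact_mod_cast hm1)
        refine ⟨?_, ?_, hm1, not_le.1 hmX⟩
        · rw [← hk]
          exact Nat.floor_le hlm
        · rw [← hk]
          exact Nat.lt_floor_add_one _
      have hterm : ∀ m ∈ F, b m / ((m : ℝ) * (1 + h ^ 2 * (x - Real.log m) ^ 2)) ≤
          3 * Real.exp (-(k : ℝ)) * (1 / (1 + h ^ 2 * (x - k) ^ 2)) * b m := by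
        intro m hm
        obtain ⟨hk1, hk2, hm1, _⟩ := hbd m hm
        have hm0 : (0 : ℝ) < m := by exact_mod_cast hm1
        have hem : Real.exp (k : ℝ) ≤ m := by
          rw [← Real.le_log_iff_exp_le hm0]
          exact hk1
        have hr := wt_rho h (x - k) (x - Real.log m) hh0.le hh1 (by
          rw [abs_le]; constructor <;> linarith)
        have hprod : Real.exp (k : ℝ) * (1 + h ^ 2 * (x - k) ^ 2) / 3 ≤
            (m : ℝ) * (1 + h ^ 2 * (x - Real.log m) ^ 2) := by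
          have q1 : Real.exp (k : ℝ) * (1 + h ^ 2 * (x - k) ^ 2) ≤
              m * (3 * (1 + h ^ 2 * (x - Real.log m) ^ 2)) :=
            mul_le_mul hem hr (by positivity) hm0.le
          linarith
        have hpos : 0 < Real.exp (k : ℝ) * (1 + h ^ 2 * (x - k) ^ 2) / 3 := by positivity
        have q2 := div_le_div_of_nonneg_left (hb m) hpos hprod
        refine q2.trans (le_of_eq ?_)
        rw [Real.exp_neg]
        field_simp
      refine (Finset.sum_le_sum hterm).trans ?_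
      rw [← Finset.mul_sum]
      have hXk : X ≤ Real.exp ((k : ℝ) + 1) := by
        obtain ⟨m, hm⟩ := hne
        obtain ⟨_, hk2, hm1, hmX⟩ := hbd m hm
        have hm0 : (0 : ℝ) < m := by exact_mod_cast hm1
        have : (m : ℝ) < Real.exp ((k : ℝ) + 1) := by
          rw [← Real.log_lt_iff_lt_exp hm0]
          exact hk2
        linarith
      have hsub : F ⊆ Icc 1 ⌊Real.exp ((k : ℝ) + 1)⌋₊ := by
        intro m hm
        obtain ⟨_, hk2, hm1, _⟩ := hbd m hm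
        have hm0 : (0 : ℝ) < m := by exact_mod_cast hm1
        rw [mem_Icc]
        refine ⟨hm1, Nat.le_floor ?_⟩
        have : (m : ℝ) < Real.exp ((k : ℝ) + 1) := by
          rw [← Real.log_lt_iff_lt_exp hm0]
          exact hk2
        exact this.le
      have hsumb : ∑ m ∈ F, b m ≤ β * Real.exp ((k : ℝ) + 1) :=
        (Finset.sum_le_sum_of_subset_of_nonneg hsub fun m _ _ => hb m).trans
          (hz _ hXk)
      have hc : 0 ≤ 3 * Real.exp (-(k : ℝ)) * (1 / (1 + h ^ 2 * (x - k) ^ 2)) := by positivity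
      refine (mul_le_mul_of_nonneg_left hsumb hc).trans ?_
      have e : 3 * Real.exp (-(k : ℝ)) * (1 / (1 + h ^ 2 * (x - k) ^ 2)) *
          (β * Real.exp ((k : ℝ) + 1)) =
          3 * Real.exp 1 * (β * (1 / (1 + h ^ 2 * (x - k) ^ 2))) := by
        rw [Real.exp_add, Real.exp_neg]
        field_simp
      rw [e]
      have he1 : Real.exp 1 ≤ 3 := by
        have := Real.exp_one_lt_d9
        linarith
      have hnn : 0 ≤ β * (1 / (1 + h ^ 2 * (x - k) ^ 2)) := by positivity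
      nlinarith
    refine (Finset.sum_le_sum hfib).trans ?_
    rw [← Finset.mul_sum]
    exact mul_le_mul_of_nonneg_left (wt_sum h x hh0 hh1 _) (by positivity)
  rw [← Finset.sum_filter_add_sum_filter_not (Icc 1 M) (fun m : ℕ => (m : ℝ) ≤ X)]
  have hfin : 2 * β / h + 9 * β * (12 / h) ≤ 200 * β / h := by
    have e : 2 * β / h + 9 * β * (12 / h) = 110 * β / h := by ring
    rw [e]
    have : 110 * β ≤ 200 * β := by linarith
    exact div_le_div_of_nonneg_right this hh0.le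
  linarith

end HZS
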