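import Pool.Agent.Work.MP_c51bc2_nt.Interface
import Pool.Agent.Work.MP_e9b29d_nt.ZA

/-!
# Block ZS (MP_c51bc2_nt): the zeta function is a finite sum on the window

Written by helper55.
-/

open Finset Complex MeasureTheory

namespace HZS

theorem stmt_ZS : Stmt_ZS := by
  refine ⟨300, 2, by norm_num, by norm_num, fun T t hT h1 h2 => ?_⟩
  have hT0 : (0 : ℝ) < T := by linarith
  set N : ℕ := ⌈3 * T⌉₊ with hN
  have hNle : 3 * T ≤ N := Nat.le_ceil _
  have hNlt : (N : ℝ) < 3 * T + 1 := Nat.ceil_lt_add_one (by linarith)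
  have hN6 : 6 ≤ N := by
    have : (6 : ℝ) ≤ N := by linarith
    exact_mod_cast this
  have h := Pool.Agent.Work.MP_e9b29d_nt.zeta_approx_N (σ := 1 / 2) (t := t) (by norm_num)
    (by norm_num) hN6 (by linarith) (by linarith)
  have hs : (((1 / 2 : ℝ) : ℂ) + t * I) = 1 / 2 + I * t := by
    push_cast
    ring
  rw [hs] at h
  have hsum : ∑ n ∈ Icc 1 (N0 T), mo n t =
      ∑ n ∈ range (N + 1), ((n : ℂ) + 1) ^ (-(1 / 2 + I * (t : ℂ))) := by
    have h3 : Icc 1 (N0 T) = Ico 1 (N + 1 + 1) := by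
      ext n
      simp only [mem_Icc, mem_Ico, N0]
      omega
    rw [h3, Finset.sum_Ico_eq_sum_range]
    apply Finset.sum_congr (by simp)
    intro n _
    unfold mo
    congr 1
    push_cast
    ring
  rw [hsum]
  refine h.trans ?_
  have hN0 : (0 : ℝ) < N := by linarith
  have h4 : (N : ℝ) ^ (-(1 / 2 : ℝ)) ≤ 1 / Real.sqrt T := by
    rw [Real.rpow_neg hN0.le, ← Real.sqrt_eq_rpow, ← one_div]
    apply one_div_le_one_div_of_le (Real.sqrt_pos.2 hT0)
    exact Real.sqrt_le_sqrt (by linarith)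
  calc 300 * (N : ℝ) ^ (-(1 / 2 : ℝ)) ≤ 300 * (1 / Real.sqrt T) := by gcongr
    _ = 300 / Real.sqrt T := by ring

end HZS
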