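import Pool.Agent.Work.MP_c51bc2_nt.Fin
import Pool.Agent.Work.MP_c51bc2_nt.B_AFE
import Pool.Agent.Work.MP_c51bc2_nt.B_CM
import Pool.Agent.Work.MP_c51bc2_nt.B_CM0
import Pool.Agent.Work.MP_c51bc2_nt.B_CO
import Pool.Agent.Work.MP_c51bc2_nt.B_CO1
import Pool.Agent.Work.MP_c51bc2_nt.B_DB
import Pool.Agent.Work.MP_c51bc2_nt.B_DL
import Pool.Agent.Work.MP_c51bc2_nt.B_FINA
import Pool.Agent.Work.MP_c51bc2_nt.B_FINB
import Pool.Agent.Work.MP_c51bc2_nt.B_FINC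
import Pool.Agent.Work.MP_c51bc2_nt.B_FIND
import Pool.Agent.Work.MP_c51bc2_nt.B_FRZ
import Pool.Agent.Work.MP_c51bc2_nt.B_FV
import Pool.Agent.Work.MP_c51bc2_nt.B_HP
import Pool.Agent.Work.MP_c51bc2_nt.B_JF
import Pool.Agent.Work.MP_c51bc2_nt.B_KER
import Pool.Agent.Work.MP_c51bc2_nt.B_KF
import Pool.Agent.Work.MP_c51bc2_nt.B_KF0
import Pool.Agent.Work.MP_c51bc2_nt.B_LBF
import Pool.Agent.Work.MP_c51bc2_nt.B_LF
import Pool.Agent.Work.MP_c51bc2_nt.B_LFE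
import Pool.Agent.Work.MP_c51bc2_nt.B_LFP
import Pool.Agent.Work.MP_c51bc2_nt.B_LOC1
import Pool.Agent.Work.MP_c51bc2_nt.B_LOC2
import Pool.Agent.Work.MP_c51bc2_nt.B_MAIN
import Pool.Agent.Work.MP_c51bc2_nt.B_MERS
import Pool.Agent.Work.MP_c51bc2_nt.B_MO
import Pool.Agent.Work.MP_c51bc2_nt.B_MO2
import Pool.Agent.Work.MP_c51bc2_nt.B_MSB
import Pool.Agent.Work.MP_c51bc2_nt.B_MVP
import Pool.Agent.Work.MP_c51bc2_nt.B_PAR
import Pool.Agent.Work.MP_c51bc2_nt.B_PHS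
import Pool.Agent.Work.MP_c51bc2_nt.B_PWR
import Pool.Agent.Work.MP_c51bc2_nt.B_RZ
import Pool.Agent.Work.MP_c51bc2_nt.B_SKE
import Pool.Agent.Work.MP_c51bc2_nt.B_TEL
import Pool.Agent.Work.MP_c51bc2_nt.B_TF
import Pool.Agent.Work.MP_c51bc2_nt.B_TR
import Pool.Agent.Work.MP_c51bc2_nt.B_TU
import Pool.Agent.Work.MP_c51bc2_nt.B_TW
import Pool.Agent.Work.MP_c51bc2_nt.B_TW0
import Pool.Agent.Work.MP_c51bc2_nt.B_WT
import Pool.Agent.Work.MP_c51bc2_nt.B_ZC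
import Pool.Agent.Work.MP_c51bc2_nt.B_ZS

/-! All the blocks together. -/

namespace HZS

theorem all_RZ : Stmt_RZ := stmt_RZ
theorem all_ZC : Stmt_ZC := stmt_ZC stmt_PHS
theorem all_AFE : Stmt_AFE := stmt_AFE stmt_PHS stmt_RZ stmt_ZS all_ZC
theorem all_JF : Stmt_JF := stmt_JF all_AFE all_ZC stmt_PHS
theorem all_FRZ : Stmt_FRZ := stmt_FRZ stmt_PHS
theorem all_CO : Stmt_CO := stmt_CO (stmt_CO1 stmt_PWR)
theorem all_LF : Stmt_LF := stmt_LF stmt_LFP stmt_LFE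
theorem all_FV : Stmt_FV := stmt_FV stmt_MER stmt_MERL stmt_MER1 stmt_MER2
theorem all_MSB : Stmt_MSB := stmt_MSB stmt_LOC1 stmt_LOC2 all_LF all_FV stmt_MER
theorem all_CM : Stmt_CM := stmt_CM all_MSB stmt_DB stmt_WT stmt_HP
theorem all_TW : Stmt_TW := stmt_TW all_JF all_FRZ stmt_KF all_CM all_CO stmt_KER all_ZC stmt_PHS
theorem all_MO : Stmt_MO := stmt_MO all_CO stmt_PWR stmt_SKE stmt_MVP stmt_MER
theorem all_MAIN : Stmt_MAIN := stmt_MAIN all_TW all_MO (stmt_TEL stmt_TR) all_ZC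
theorem all_PAR : Stmt_PAR := p_PAR stmt_MER stmt_MER2
theorem all_FINA : Stmt_FINA := stmt_FINA all_MAIN all_PAR
theorem all_FINB : Stmt_FINB := stmt_FINB all_FINA all_ZC
theorem all_CM0 : Stmt_CM0 := stmt_CM0 all_MSB
theorem all_TW0 : Stmt_TW0 :=
  stmt_TW0 all_AFE all_FRZ stmt_KF0 all_CM0 all_CO stmt_KER all_ZC stmt_PHS
theorem all_MO2 : Stmt_MO2 := stmt_MO2 all_CO stmt_PWR stmt_SKE stmt_MVP stmt_MER
theorem all_TF : Stmt_TF := stmt_TF stmt_ZS all_CO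
theorem all_DL : Stmt_DL := stmt_DL stmt_MERL
theorem all_LBF : Stmt_LBF :=
  stmt_LBF all_TW0 all_MO2 all_TF all_DL stmt_TU all_CO all_PAR stmt_RZ stmt_PHS all_ZC
theorem all_FINC : Stmt_FINC := stmt_FINC all_FINA all_LBF stmt_ZS stmt_PHS all_ZC
theorem all_FIND : Stmt_FIND := stmt_FIND all_FINB all_LBF

end HZS
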