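import Pool.Agent.Work.MP_c51bc2_nt.Interface

/-! # Block FINC: balance of the positive and the negative part (helper18) -/

open Finset Complex MeasureTheory

namespace HZS

theorem FINC_mo (n : ℕ) (hn : 1 ≤ n) (t : ℝ) : ‖mo n t‖ ≤ 1 := by
  have hn0 : (0 : ℝ) < n := by exact_mod_cast hn
  have h1 : mo n t = ((n : ℝ) : ℂ) ^ (-(1 / 2 + I * t)) := by
    rw [mo]; norm_num
  rw [h1, Complex.norm_cpow_eq_rpow_re_of_pos hn0]
  have h2 : (-(1 / 2 + I * (t : ℂ))).re = -(1 / 2) := by
    simp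
  rw [h2]
  apply Real.rpow_le_one_of_one_le_of_nonpos
  · exact_mod_cast hn
  · norm_num

/-- A trivial bound for `Z`. -/
theorem FINC_bound (hZS : Stmt_ZS) (hPH : Stmt_PHS) : ∃ C T0 : ℝ, 0 < C ∧ 1 < T0 ∧
    ∀ T t : ℝ, T0 ≤ T → T ≤ t → t ≤ 3 * T → |Z t| ≤ 3 * T + C := by
  obtain ⟨C, T0, hC, hT0, h⟩ := hZS
  obtain ⟨-, -, hph, -⟩ := hPH
  refine ⟨C + 2, T0, by linarith, hT0, fun T t hT hTt ht => ?_⟩
  have hT1 : 1 ≤ T := by linarith
  have h1 : |Z t| ≤ ‖riemannZeta (1 / 2 + I * t)‖ := by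
    unfold Z
    calc |(ph t * riemannZeta (1 / 2 + I * t)).re| ≤ ‖ph t * riemannZeta (1 / 2 + I * t)‖ :=
          Complex.abs_re_le_norm _
      _ = ‖riemannZeta (1 / 2 + I * t)‖ := by rw [norm_mul, hph, one_mul]
  have h2 := h T t hT (by linarith) ht
  have h3 : ‖∑ n ∈ Icc 1 (N0 T), mo n t‖ ≤ (N0 T : ℝ) := by
    calc ‖∑ n ∈ Icc 1 (N0 T), mo n t‖ ≤ ∑ n ∈ Icc 1 (N0 T), ‖mo n t‖ := norm_sum_le _ _
      _ ≤ ∑ n ∈ Icc 1 (N0 T), (1 : ℝ) := Finset.sum_le_sum fun n hn =>
          FINC_mo n (Finset.mem_Icc.mp hn).1 t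
      _ = (N0 T : ℝ) := by simp
  have h4 : (N0 T : ℝ) ≤ 3 * T + 2 := by
    have h5 := (Nat.ceil_lt_add_one (show (0 : ℝ) ≤ 3 * T by linarith)).le
    rw [N0]
    push_cast
    linarith
  have h5 : C / Real.sqrt T ≤ C := by
    apply div_le_self hC.le
    rw [Real.one_le_sqrt]
    exact hT1
  have h6 : ‖riemannZeta (1 / 2 + I * t)‖ ≤
      ‖riemannZeta (1 / 2 + I * t) - ∑ n ∈ Icc 1 (N0 T), mo n t‖ +
        ‖∑ n ∈ Icc 1 (N0 T), mo n t‖ := by
    have := norm_add_le (riemannZeta (1 / 2 + I * t) - ∑ n ∈ Icc 1 (N0 T), mo n t)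
      (∑ n ∈ Icc 1 (N0 T), mo n t)
    rwa [sub_add_cancel] at this
  linarith

/-- Averages of short integrals from below, without Fubini. -/
theorem FINC_avg (g : ℝ → ℝ) (hg : Continuous g) (hg0 : ∀ x, 0 ≤ g x) (T h : ℝ)
    (hh : 0 ≤ h) :
    h * ((∫ u in T..(2 * T), g u) - ∫ u in T..(T + h), g u) ≤
      ∫ t in T..(2 * T), ∫ u in t..(t + h), g u := by
  have hint : ∀ a b : ℝ, IntervalIntegrable g volume a b := fun a b => hg.intervalIntegrable a b
  set F : ℝ → ℝ := fun x => ∫ u in T..x, g u with hF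
  have hFc : Continuous F := intervalIntegral.continuous_primitive hint T
  have hFm : Monotone F := by
    intro x y hxy
    have h1 : F y - F x = ∫ u in x..y, g u := by
      rw [hF]
      simp only
      rw [← intervalIntegral.integral_add_adjacent_intervals (hint T x) (hint x y)]
      ring
    have h2 : 0 ≤ ∫ u in x..y, g u :=
      intervalIntegral.integral_nonneg hxy fun u _ => hg0 u
    linarith
  have hFi : ∀ a b : ℝ, IntervalIntegrable F volume a b := fun a b => hFc.intervalIntegrable a b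
  have e1 : ∀ t, ∫ u in t..(t + h), g u = F (t + h) - F t := by
    intro t
    rw [hF]
    simp only
    rw [← intervalIntegral.integral_add_adjacent_intervals (hint T t) (hint t (t + h))]
    ring
  have e2 : ∫ t in T..(2 * T), ∫ u in t..(t + h), g u =
      (∫ t in (2 * T)..(2 * T + h), F t) - ∫ t in T..(T + h), F t := by
    rw [intervalIntegral.integral_congr (g := fun t => F (t + h) - F t) (fun t _ => e1 t)]
    rw [intervalIntegral.integral_sub]
    · rw [intervalIntegral.integral_comp_add_right (fun x => F x) h]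
      have e3 := intervalIntegral.integral_add_adjacent_intervals (hFi (T + h) (2 * T))
        (hFi (2 * T) (2 * T + h))
      have e4 := intervalIntegral.integral_add_adjacent_intervals (hFi T (T + h))
        (hFi (T + h) (2 * T))
      rw [← e3, ← e4]
      ring
    · exact (hFc.comp (continuous_add_const h)).intervalIntegrable _ _
    · exact hFi _ _
  rw [e2]
  have l1 : h * F (2 * T) ≤ ∫ t in (2 * T)..(2 * T + h), F t := by
    have : ∫ t in (2 * T)..(2 * T + h), F (2 * T) = h * F (2 * T) := by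
      rw [intervalIntegral.integral_const, smul_eq_mul]
      ring
    rw [← this]
    apply intervalIntegral.integral_mono_on (by linarith) (by simp) (hFi _ _)
    intro x hx
    exact hFm hx.1
  have l2 : ∫ t in T..(T + h), F t ≤ h * F (T + h) := by
    have : ∫ t in T..(T + h), F (T + h) = h * F (T + h) := by
      rw [intervalIntegral.integral_const, smul_eq_mul]
      ring
    rw [← this]
    apply intervalIntegral.integral_mono_on (by linarith) (hFi _ _) (by simp)
    intro x hx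
    exact hFm hx.2
  have l3 : h * ((∫ u in T..(2 * T), g u) - ∫ u in T..(T + h), g u) =
      h * F (2 * T) - h * F (T + h) := by
    rw [hF]
    ring
  rw [l3]
  linarith

theorem FINC_pow (h L : ℝ) (hh : 0 < h) (hL : 0 < L) :
    h ^ (3 / 4 : ℝ) = (h * L) ^ (-(1 / 4) : ℝ) * (h * L ^ (1 / 4 : ℝ)) := by
  rw [Real.mul_rpow hh.le hL.le]
  have e1 : L ^ (-(1 / 4) : ℝ) * L ^ (1 / 4 : ℝ) = 1 := by
    rw [← Real.rpow_add hL]
    norm_num
  have e2 : h ^ (-(1 / 4) : ℝ) * h = h ^ (3 / 4 : ℝ) := by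
    nth_rewrite 2 [← Real.rpow_one h]
    rw [← Real.rpow_add hh]
    norm_num
  calc h ^ (3 / 4 : ℝ) = (h ^ (-(1 / 4) : ℝ) * h) * (L ^ (-(1 / 4) : ℝ) * L ^ (1 / 4 : ℝ)) := by
        rw [e1, e2, mul_one]
    _ = h ^ (-(1 / 4) : ℝ) * L ^ (-(1 / 4) : ℝ) * (h * L ^ (1 / 4 : ℝ)) := by ring

theorem stmt_FINC (hA : Stmt_FINA) (hLB : Stmt_LBF) (hZS : Stmt_ZS) (hPH : Stmt_PHS)
    (hZC : Stmt_ZC) : Stmt_FINC := by
  obtain ⟨C1, T1, W1, hC1, hT1, hW1, h1⟩ := hA
  obtain ⟨c, T2, hc, hT2, h2⟩ := hLB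
  obtain ⟨C3, T3, hC3, hT3, h3⟩ := FINC_bound hZS hPH
  refine ⟨2 * C1 / c, max (max T1 T2) (max (max T3 C3) (Real.exp ((2 / c) ^ 4))), W1,
    by positivity, lt_of_lt_of_le hT1 ((le_max_left _ _).trans (le_max_left _ _)), hW1, ?_⟩
  intro T h hT hWh hh
  have hTT1 : T1 ≤ T := ((le_max_left _ _).trans (le_max_left _ _)).trans hT
  have hTT2 : T2 ≤ T := ((le_max_right _ _).trans (le_max_left _ _)).trans hT
  have hTT3 : T3 ≤ T :=
    (((le_max_left _ _).trans (le_max_left _ _)).trans (le_max_right _ _)).trans hT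
  have hTC3 : C3 ≤ T :=
    (((le_max_right _ _).trans (le_max_left _ _)).trans (le_max_right _ _)).trans hT
  have hTe : Real.exp ((2 / c) ^ 4) ≤ T :=
    ((le_max_right _ _).trans (le_max_right _ _)).trans hT
  have hT0 : 1 < T := by linarith
  have hTpos : 0 < T := by linarith
  have hlog : 0 < Real.log T := Real.log_pos hT0
  have hh0 : 0 < h := lt_of_lt_of_le (div_pos hW1 hlog) hWh
  have hLc : (2 / c) ^ 4 ≤ Real.log T := by
    rw [← Real.log_exp ((2 / c) ^ 4)]
    exact Real.log_le_log (Real.exp_pos _) hTe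
  have hL4 : 2 / c ≤ Real.log T ^ (1 / 4 : ℝ) := by
    have e : 2 / c = ((2 / c) ^ 4) ^ (1 / 4 : ℝ) := by
      rw [← Real.rpow_natCast, ← Real.rpow_mul (by positivity)]
      norm_num
    rw [e]
    exact Real.rpow_le_rpow (by positivity) hLc (by norm_num)
  have hZi : ∀ a b : ℝ, IntervalIntegrable Z volume a b := fun a b => hZC.intervalIntegrable a b
  have hmaxc : Continuous fun u => max (Z u) 0 := hZC.max continuous_const
  have hminc : Continuous fun u => min (Z u) 0 := hZC.min continuous_const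
  have eJ : ∀ t, Ip t h + Im t h = J h t := by
    intro t
    unfold Ip Im J
    rw [← intervalIntegral.integral_add (hmaxc.intervalIntegrable _ _)
      (hminc.intervalIntegrable _ _)]
    apply intervalIntegral.integral_congr
    intro u _
    simp only
    rw [add_comm, min_add_max, add_zero]
  have eA : ∀ t, Ip t h - Im t h = ∫ u in t..(t + h), |Z u| := by
    intro t
    unfold Ip Im
    rw [← intervalIntegral.integral_sub (hmaxc.intervalIntegrable _ _)
      (hminc.intervalIntegrable _ _)]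
    apply intervalIntegral.integral_congr
    intro u _
    simp only
    rw [max_sub_min_eq_abs, zero_sub, abs_neg]
  have e1 : ∫ t in T..(2 * T), |Ip t h + Im t h| = ∫ t in T..(2 * T), |J h t| :=
    intervalIntegral.integral_congr fun t _ => by simp only [eJ]
  have e2 : ∫ t in T..(2 * T), (Ip t h - Im t h) =
      ∫ t in T..(2 * T), ∫ u in t..(t + h), |Z u| :=
    intervalIntegral.integral_congr fun t _ => by simp only [eA]
  rw [e1, e2]
  have g1 := h1 T h hTT1 hWh hh
  have g2 := h2 T hTT2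
  have g3 := FINC_avg (fun u => |Z u|) hZC.abs (fun u => abs_nonneg _) T h hh0.le
  have g4 : ∫ u in T..(T + h), |Z u| ≤ T := by
    have g5 : ∫ u in T..(T + h), |Z u| ≤ ∫ u in T..(T + h), (3 * T + C3) := by
      apply intervalIntegral.integral_mono_on (by linarith) (hZC.abs.intervalIntegrable _ _)
        (by simp)
      intro u hu
      exact h3 T u hTT3 hu.1 (by linarith [hu.2])
    rw [intervalIntegral.integral_const, smul_eq_mul] at g5
    refine g5.trans ?_
    have : T + h - T = h := by ring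
    rw [this]
    have g6 : 3 * T + C3 ≤ 4 * T := by linarith
    calc h * (3 * T + C3) ≤ 1 / 5 * (4 * T) := by
          apply mul_le_mul hh g6 (by linarith) (by norm_num)
      _ ≤ T := by linarith
  have g7 : T ≤ c / 2 * T * Real.log T ^ (1 / 4 : ℝ) := by
    have : 1 ≤ c / 2 * Real.log T ^ (1 / 4 : ℝ) := by
      rw [div_le_iff₀ hc] at hL4
      linarith
    calc T = T * 1 := (mul_one _).symm
      _ ≤ T * (c / 2 * Real.log T ^ (1 / 4 : ℝ)) := mul_le_mul_of_nonneg_left this hTpos.le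
      _ = c / 2 * T * Real.log T ^ (1 / 4 : ℝ) := by ring
  set A : ℝ := ∫ t in T..(2 * T), ∫ u in t..(t + h), |Z u| with hAdef
  have g8 : h * (c / 2 * T * Real.log T ^ (1 / 4 : ℝ)) ≤ A := by
    refine le_trans ?_ g3
    apply mul_le_mul_of_nonneg_left _ hh0.le
    linarith
  have hP : 0 ≤ (h * Real.log T) ^ (-(1 / 4) : ℝ) := by positivity
  calc ∫ t in T..(2 * T), |J h t| ≤ C1 * T * h ^ (3 / 4 : ℝ) := g1
    _ = 2 * C1 / c * (h * Real.log T) ^ (-(1 / 4) : ℝ) *
        (h * (c / 2 * T * Real.log T ^ (1 / 4 : ℝ))) := by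
        rw [FINC_pow h (Real.log T) hh0 hlog]
        field_simp
    _ ≤ 2 * C1 / c * (h * Real.log T) ^ (-(1 / 4) : ℝ) * A := by
        apply mul_le_mul_of_nonneg_left g8
        positivity

end HZS
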