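import Pool.Agent.Work.MP_c51bc2_nt.Interface

/-! # Block LFE: the Euler product bound -/

open Finset

namespace HZS

noncomputable section

theorem LFE_geo (p K r : ℝ) (ψ : ℕ → ℝ) (hp : 0 < p) (hr0 : 0 ≤ r) (hr1 : r < 1)
    (h0 : ∀ a, 0 ≤ ψ a) (h : ∀ a : ℕ, ψ a / p ^ a ≤ K * r ^ a) :
    Summable (fun a : ℕ => ψ a / p ^ a) ∧
      ∑' a : ℕ, ψ (a + 2) / p ^ (a + 2) ≤ K * r ^ 2 / (1 - r) := by
  have hg : Summable (fun a : ℕ => K * r ^ a) := (summable_geometric_of_lt_one hr0 hr1).mul_left K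
  have hs : Summable (fun a : ℕ => ψ a / p ^ a) := by
    refine Summable.of_nonneg_of_le (fun a => ?_) h hg
    have := h0 a
    positivity
  refine ⟨hs, ?_⟩
  have h2 : HasSum (fun a : ℕ => K * r ^ 2 * r ^ a) (K * r ^ 2 / (1 - r)) := by
    rw [div_eq_mul_inv]
    exact (hasSum_geometric_of_lt_one hr0 hr1).mul_left _
  rw [← h2.tsum_eq]
  refine Summable.tsum_le_tsum (fun a => ?_) ((summable_nat_add_iff 2).mpr hs) h2.summable
  calc ψ (a + 2) / p ^ (a + 2) ≤ K * r ^ (a + 2) := h (a + 2)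
    _ = K * r ^ 2 * r ^ a := by rw [pow_add]; ring

theorem LFE_tail (p : ℕ) (hp : 2 ≤ p) (ψ : ℕ → ℝ) (h0 : ∀ a, 0 ≤ ψ a)
    (h1 : ∀ a : ℕ, ψ a ≤ 16 * Real.exp a) (h2 : p ≤ 100 → ∀ a, ψ a ≤ 1) :
    Summable (fun a : ℕ => ψ a / (p : ℝ) ^ a) ∧
      ∑' a : ℕ, ψ (a + 2) / (p : ℝ) ^ (a + 2) ≤ 200 / (p : ℝ) ^ 2 := by
  have hp2 : (2 : ℝ) ≤ p := by exact_mod_cast hp
  have hp0 : (0 : ℝ) < p := by linarith
  rcases le_or_gt p 100 with hc | hc
  · have hr1 : 1 / (p : ℝ) < 1 := by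
      rw [div_lt_one hp0]
      linarith
    obtain ⟨a1, a2⟩ := LFE_geo p 1 (1 / p) ψ hp0 (by positivity) hr1 h0 (fun a => by
      rw [one_mul, one_div, inv_pow, div_eq_mul_inv]
      have : 0 ≤ ((p : ℝ) ^ a)⁻¹ := by positivity
      have := h2 hc a
      nlinarith)
    refine ⟨a1, a2.trans ?_⟩
    have h3 : (1 : ℝ) / 2 ≤ 1 - 1 / p := by
      have : 1 / (p : ℝ) ≤ 1 / 2 := one_div_le_one_div_of_le (by norm_num) hp2
      linarith
    rw [one_mul, one_div, inv_pow, div_le_div_iff₀ (by linarith [one_div (p : ℝ)]) (by positivity),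
      inv_mul_cancel₀ (by positivity)]
    have h4 : (1 : ℝ) / 2 ≤ 1 - (p : ℝ)⁻¹ := by
      rw [← one_div (p : ℝ)]
      exact h3
    linarith
  · have hp100 : (100 : ℝ) < p := by exact_mod_cast hc
    have he : Real.exp 1 ≤ 3 := by linarith [Real.exp_one_lt_d9]
    have he0 : 0 < Real.exp 1 := Real.exp_pos 1
    have hr3 : Real.exp 1 / p ≤ 3 / 100 := by
      rw [div_le_div_iff₀ hp0 (by norm_num)]
      nlinarith
    obtain ⟨a1, a2⟩ := LFE_geo p 16 (Real.exp 1 / p) ψ hp0 (by positivity) (by linarith) h0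
      (fun a => by
        rw [div_pow, Real.exp_one_pow, ← mul_div_assoc]
        exact div_le_div_of_nonneg_right (h1 a) (by positivity))
    refine ⟨a1, a2.trans ?_⟩
    rw [div_pow, ← mul_div_assoc, div_div, div_le_div_iff₀ (by
      have : 0 < 1 - Real.exp 1 / p := by linarith
      positivity) (by positivity)]
    have h4 : (97 : ℝ) / 100 ≤ 1 - Real.exp 1 / p := by linarith
    have h5 : Real.exp 1 ^ 2 ≤ 9 := by nlinarith
    have h6 : 0 < (p : ℝ) ^ 2 := by positivity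
    calc 16 * Real.exp 1 ^ 2 * (p : ℝ) ^ 2 ≤ 16 * 9 * (p : ℝ) ^ 2 := by gcongr
      _ ≤ 200 * ((p : ℝ) ^ 2 * (97 / 100)) := by linarith
      _ ≤ _ := by gcongr

theorem stmt_LFE : Stmt_LFE := by
  classical
  refine ⟨Real.exp (200 * ∑' n : ℕ, 1 / (n : ℝ) ^ 2), Real.exp_pos _, ?_⟩
  intro φ h0 h1 h2 z hz
  set N := ⌊z⌋₊ with hN
  let f : ℕ → ℝ := fun m => (m.factorization.prod fun p a => φ p a) / (m : ℝ)
  have hf0 : ∀ m, 0 ≤ f m := by
    intro m
    refine div_nonneg (Finset.prod_nonneg fun p _ => h0 _ _) (Nat.cast_nonneg m)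
  have hf1 : f 1 = 1 := by
    show (Nat.factorization 1).prod (fun p a => φ p a) / ((1 : ℕ) : ℝ) = 1
    simp
  have hmul : ∀ {m n : ℕ}, Nat.Coprime m n → f (m * n) = f m * f n := by
    intro m n hmn
    show ((m * n).factorization.prod fun p a => φ p a) / ((m * n : ℕ) : ℝ) =
      (m.factorization.prod fun p a => φ p a) / (m : ℝ) *
        ((n.factorization.prod fun p a => φ p a) / (n : ℝ))
    rw [Nat.factorization_mul_of_coprime hmn, Finsupp.prod_add_index_of_disjoint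
      (by simpa using hmn.disjoint_primeFactors)]
    push_cast
    rw [div_mul_div_comm]
  have hpp : ∀ {p : ℕ}, p.Prime → ∀ n : ℕ, 1 ≤ n → f (p ^ n) = φ p n / (p : ℝ) ^ n := by
    intro p hp n hn
    show ((p ^ n).factorization.prod fun p a => φ p a) / ((p ^ n : ℕ) : ℝ) = _
    have hne : n ≠ 0 := by omega
    rw [hp.factorization_pow]
    push_cast
    congr 1
    unfold Finsupp.prod
    rw [Finsupp.support_single _ hne, Finset.prod_singleton, Finsupp.single_eq_same]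
  have hsumm : ∀ {p : ℕ}, p.Prime → Summable (fun n : ℕ => ‖f (p ^ n)‖) := by
    intro p hp
    have h3 := (LFE_tail p hp.two_le (φ p) (h0 p) (h1 p) (fun h a => h2 p h a)).1
    rw [← summable_nat_add_iff 1] at h3 ⊢
    refine h3.congr fun n => ?_
    rw [Real.norm_of_nonneg (hf0 _), hpp hp (n + 1) (by omega)]
  have hloc : ∀ {p : ℕ}, p.Prime → ∑' n : ℕ, f (p ^ n) ≤
      Real.exp (φ p 1 / (p : ℝ) + 200 / (p : ℝ) ^ 2) := by
    intro p hp
    have h3 := LFE_tail p hp.two_le (φ p) (h0 p) (h1 p) (fun h a => h2 p h a)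
    have h4 : Summable (fun n : ℕ => f (p ^ n)) := by
      refine (hsumm hp).congr fun n => ?_
      rw [Real.norm_of_nonneg (hf0 _)]
    rw [← h4.sum_add_tsum_nat_add 2, Finset.sum_range_succ, Finset.sum_range_one, pow_zero, hf1,
      hpp hp 1 le_rfl, pow_one]
    have h5 : ∑' n : ℕ, f (p ^ (n + 2)) ≤ 200 / (p : ℝ) ^ 2 := by
      refine le_trans (le_of_eq (tsum_congr fun n => ?_)) h3.2
      exact hpp hp (n + 2) (by omega)
    have h6 := Real.add_one_le_exp (φ p 1 / (p : ℝ) + 200 / (p : ℝ) ^ 2)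
    linarith
  have hmain := EulerProduct.summable_and_hasSum_smoothNumbers_prod_primesBelow_tsum
    (f := f) hf1 hmul hsumm (N + 1)
  have hle : ∑ m ∈ Icc 1 N, f m ≤ ∏ p ∈ (N + 1).primesBelow, ∑' n : ℕ, f (p ^ n) := by
    have hmem : ∀ m ∈ Icc 1 N, m ∈ (N + 1).smoothNumbers := by
      intro m hm
      rw [Finset.mem_Icc] at hm
      rw [Nat.mem_smoothNumbers']
      intro p _ hpm
      have := Nat.le_of_dvd (by omega) hpm
      omega
    rw [← Finset.sum_subtype_of_mem f hmem]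
    exact sum_le_hasSum _ (fun m _ => hf0 m) hmain.2
  have hprimes : (N + 1).primesBelow = (Icc 1 N).filter Nat.Prime := by
    ext p
    rw [Nat.mem_primesBelow, Finset.mem_filter, Finset.mem_Icc]
    constructor
    · rintro ⟨a, b⟩
      exact ⟨⟨b.one_le, by omega⟩, b⟩
    · rintro ⟨⟨a, b⟩, c⟩
      exact ⟨by omega, c⟩
  have hsq : Summable (fun n : ℕ => 1 / (n : ℝ) ^ 2) := Real.summable_one_div_nat_pow.mpr one_lt_two
  calc ∑ m ∈ Icc 1 N, (∏ p ∈ m.primeFactors, φ p (m.factorization p)) / (m : ℝ)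
      = ∑ m ∈ Icc 1 N, f m := rfl
    _ ≤ ∏ p ∈ (N + 1).primesBelow, ∑' n : ℕ, f (p ^ n) := hle
    _ ≤ ∏ p ∈ (N + 1).primesBelow, Real.exp (φ p 1 / (p : ℝ) + 200 / (p : ℝ) ^ 2) := by
        refine Finset.prod_le_prod (fun p _ => tsum_nonneg fun n => hf0 _) fun p hp => ?_
        exact hloc (Nat.prime_of_mem_primesBelow hp)
    _ = Real.exp (∑ p ∈ (N + 1).primesBelow, φ p 1 / (p : ℝ) +
          200 * ∑ p ∈ (N + 1).primesBelow, 1 / (p : ℝ) ^ 2) := by
        rw [← Real.exp_sum, Finset.sum_add_distrib, Finset.mul_sum]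
        congr 2
        exact Finset.sum_congr rfl fun p _ => by ring
    _ ≤ Real.exp (∑ p ∈ (N + 1).primesBelow, φ p 1 / (p : ℝ) +
          200 * ∑' n : ℕ, 1 / (n : ℝ) ^ 2) := by
        refine Real.exp_le_exp.mpr ?_
        have : ∑ p ∈ (N + 1).primesBelow, 1 / (p : ℝ) ^ 2 ≤ ∑' n : ℕ, 1 / (n : ℝ) ^ 2 :=
          hsq.sum_le_tsum _ fun n _ => by positivity
        linarith
    _ = _ := by rw [Real.exp_add, hprimes, mul_comm]

end

end HZS
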