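import Pool.Agent.Work.MP_c51bc2_nt.Interface
import Pool.Agent.Work.MP_99218a_nt.DIG

/-!
# Block PHS: the phase of Hardy's function is locally linear
-/

set_option autoImplicit false

open Finset Complex MeasureTheory

namespace HZS

noncomputable section

theorem PHS_re (t : ℝ) : (1 / 4 + I * (t : ℂ) / 2).re = 1 / 4 := by
  have h : (1 / 4 + I * (t : ℂ) / 2) = ((1 / 4 : ℝ) : ℂ) + ((t / 2 : ℝ) : ℂ) * I := by
    push_cast; ring
  rw [h, Complex.add_re, Complex.ofReal_re, Complex.re_ofReal_mul, Complex.I_re]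
  ring

theorem PHS_im (t : ℝ) : (1 / 4 + I * (t : ℂ) / 2).im = t / 2 := by
  have h : (1 / 4 + I * (t : ℂ) / 2) = ((1 / 4 : ℝ) : ℂ) + ((t / 2 : ℝ) : ℂ) * I := by
    push_cast; ring
  rw [h, Complex.add_im, Complex.ofReal_im, Complex.im_ofReal_mul, Complex.I_im]
  ring

theorem PHS_pos (t : ℝ) : 0 < (1 / 4 + I * (t : ℂ) / 2).re := by
  rw [PHS_re]; norm_num

/-- telescoping bound -/
theorem PHS_sum {c : ℝ} (hc : 1 / 2 < c) :
    Summable (fun n : ℕ => 1 / ((n : ℝ) + c) ^ 2) ∧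
      ∑' n : ℕ, 1 / ((n : ℝ) + c) ^ 2 ≤ 1 / (c - 1 / 2) := by
  have h0 : ∀ n : ℕ, 0 ≤ 1 / ((n : ℝ) + c) ^ 2 := fun n => by positivity
  have h1 : ∀ n : ℕ, ∑ i ∈ range n, 1 / ((i : ℝ) + c) ^ 2 ≤
      1 / (c - 1 / 2) - 1 / ((n : ℝ) + c - 1 / 2) := by
    intro n
    induction n with
    | zero => simp
    | succ n ih =>
      rw [sum_range_succ]
      have hn : (0 : ℝ) ≤ n := Nat.cast_nonneg n
      have h2 : 1 / ((n : ℝ) + c) ^ 2 ≤ 1 / ((n : ℝ) + c - 1 / 2) - 1 / ((n : ℝ) + c + 1 / 2) := by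
        have e1 : 0 < (n : ℝ) + c - 1 / 2 := by linarith
        have e2 : 0 < (n : ℝ) + c + 1 / 2 := by linarith
        have e3 : 1 / ((n : ℝ) + c - 1 / 2) - 1 / ((n : ℝ) + c + 1 / 2) =
            1 / (((n : ℝ) + c - 1 / 2) * ((n : ℝ) + c + 1 / 2)) := by
          rw [div_sub_div _ _ e1.ne' e2.ne']
          congr 1
          ring
        rw [e3]
        apply one_div_le_one_div_of_le (by positivity)
        nlinarith
      have e4 : ((n + 1 : ℕ) : ℝ) + c - 1 / 2 = (n : ℝ) + c + 1 / 2 := by push_cast; ring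
      rw [e4]
      linarith
  have h3 : ∀ n : ℕ, ∑ i ∈ range n, 1 / ((i : ℝ) + c) ^ 2 ≤ 1 / (c - 1 / 2) := by
    intro n
    have hn : (0 : ℝ) ≤ n := Nat.cast_nonneg n
    have h4 : 0 ≤ 1 / ((n : ℝ) + c - 1 / 2) := by
      apply one_div_nonneg.2
      linarith
    have := h1 n
    linarith
  exact ⟨summable_of_sum_range_le h0 h3, Real.tsum_le_of_sum_range_le h0 h3⟩

/-- Lipschitz bound for the digamma function -/
theorem PHS_lip {z z' : ℂ} (hz : 0 < z.re) (hz' : 0 < z'.re) {c : ℝ} (hc : 1 / 2 < c)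
    (h : ∀ n : ℕ, ((n : ℝ) + c) ^ 2 ≤ 2 * ‖(n : ℂ) + z‖ ^ 2)
    (h' : ∀ n : ℕ, ((n : ℝ) + c) ^ 2 ≤ 2 * ‖(n : ℂ) + z'‖ ^ 2) :
    ‖Complex.digamma z - Complex.digamma z'‖ ≤ ‖z - z'‖ * (2 / (c - 1 / 2)) := by
  have hs := Pool.Agent.AQ.tm_summable hz
  have hs' := Pool.Agent.AQ.tm_summable hz'
  rw [Pool.Agent.AQ.series hz, Pool.Agent.AQ.series hz']
  have e1 : (Complex.digamma 1 + ∑' n, Pool.Agent.AQ.tm n z) -
      (Complex.digamma 1 + ∑' n, Pool.Agent.AQ.tm n z') =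
      ∑' n, (Pool.Agent.AQ.tm n z - Pool.Agent.AQ.tm n z') := by
    rw [hs.tsum_sub hs']
    ring
  rw [e1]
  obtain ⟨hS1, hS2⟩ := PHS_sum hc
  have hb : ∀ n : ℕ, ‖Pool.Agent.AQ.tm n z - Pool.Agent.AQ.tm n z'‖ ≤
      (‖z - z'‖ * 2) * (1 / ((n : ℝ) + c) ^ 2) := by
    intro n
    have hn : (0 : ℝ) ≤ n := Nat.cast_nonneg n
    have hne : ∀ w : ℂ, 0 < w.re → (n : ℂ) + w ≠ 0 := by
      intro w hw h
      have := congrArg Complex.re h
      rw [add_re, natCast_re, zero_re] at this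
      linarith
    have h1 := hne z hz
    have h2 := hne z' hz'
    have e2 : Pool.Agent.AQ.tm n z - Pool.Agent.AQ.tm n z' =
        (z - z') / (((n : ℂ) + z) * ((n : ℂ) + z')) := by
      unfold Pool.Agent.AQ.tm
      field_simp
      ring
    rw [e2, norm_div, norm_mul]
    set A := ‖(n : ℂ) + z‖
    set A' := ‖(n : ℂ) + z'‖
    have hA : 0 < A := norm_pos_iff.2 h1
    have hA' : 0 < A' := norm_pos_iff.2 h2
    have hc0 : 0 < (n : ℝ) + c := by linarith
    have h3 : ((n : ℝ) + c) ^ 2 ≤ 2 * (A * A') := by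
      have h4 := h n
      have h5 := h' n
      have h6 : (((n : ℝ) + c) ^ 2) ^ 2 ≤ (2 * (A * A')) ^ 2 := by
        calc (((n : ℝ) + c) ^ 2) ^ 2 = ((n : ℝ) + c) ^ 2 * ((n : ℝ) + c) ^ 2 := by ring
          _ ≤ (2 * A ^ 2) * (2 * A' ^ 2) := by gcongr
          _ = (2 * (A * A')) ^ 2 := by ring
      exact le_of_sq_le_sq h6 (by positivity)
    rw [div_le_iff₀ (by positivity)]
    have h7 : (1 : ℝ) ≤ 2 * (A * A') / ((n : ℝ) + c) ^ 2 := by
      rw [le_div_iff₀ (by positivity), one_mul]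
      exact h3
    calc ‖z - z'‖ = ‖z - z'‖ * 1 := (mul_one _).symm
      _ ≤ ‖z - z'‖ * (2 * (A * A') / ((n : ℝ) + c) ^ 2) := by gcongr
      _ = (‖z - z'‖ * 2) * (1 / ((n : ℝ) + c) ^ 2) * (A * A') := by ring
  have h8 := tsum_of_norm_bounded (hS1.mul_left (‖z - z'‖ * 2)).hasSum hb
  rw [tsum_mul_left] at h8
  calc ‖∑' n, (Pool.Agent.AQ.tm n z - Pool.Agent.AQ.tm n z')‖
      ≤ (‖z - z'‖ * 2) * ∑' n : ℕ, 1 / ((n : ℝ) + c) ^ 2 := h8
    _ ≤ (‖z - z'‖ * 2) * (1 / (c - 1 / 2)) := by gcongr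
    _ = ‖z - z'‖ * (2 / (c - 1 / 2)) := by ring

theorem PHS_low (t m : ℝ) (hm : 0 ≤ m) (hmt : m ≤ t) (n : ℕ) :
    ((n : ℝ) + (1 / 4 + m / 2)) ^ 2 ≤ 2 * ‖(n : ℂ) + (1 / 4 + I * (t : ℂ) / 2)‖ ^ 2 := by
  have hn : (0 : ℝ) ≤ n := Nat.cast_nonneg n
  rw [← Complex.normSq_eq_norm_sq, Complex.normSq_apply, Complex.add_re, Complex.add_im, PHS_re,
    PHS_im, natCast_re, natCast_im]
  nlinarith [sq_nonneg ((n : ℝ) + 1 / 4 - t / 2)]

theorem PHS_dthlip (m s t : ℝ) (hm : 1 ≤ m) (hs : m ≤ s) (ht : m ≤ t) :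
    |dth s - dth t| ≤ 2 * |s - t| / m := by
  have h1 := PHS_lip (PHS_pos s) (PHS_pos t) (c := 1 / 4 + m / 2) (by linarith)
    (PHS_low s m (by linarith) hs) (PHS_low t m (by linarith) ht)
  have e1 : (1 / 4 + I * (s : ℂ) / 2) - (1 / 4 + I * (t : ℂ) / 2) = I * ((s - t : ℝ) : ℂ) / 2 := by
    push_cast; ring
  have e2 : ‖I * ((s - t : ℝ) : ℂ) / 2‖ = |s - t| / 2 := by
    rw [norm_div, norm_mul, Complex.norm_I, Complex.norm_real, Real.norm_eq_abs, one_mul]
    norm_num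
  rw [e1, e2] at h1
  have h2 : |dth s - dth t| ≤
      ‖Complex.digamma (1 / 4 + I * (s : ℂ) / 2) - Complex.digamma (1 / 4 + I * (t : ℂ) / 2)‖ / 2 := by
    have h3 := Complex.abs_re_le_norm (Complex.digamma (1 / 4 + I * (s : ℂ) / 2) -
      Complex.digamma (1 / 4 + I * (t : ℂ) / 2))
    rw [Complex.sub_re] at h3
    have e3 : dth s - dth t = ((Complex.digamma (1 / 4 + I * (s : ℂ) / 2)).re -
        (Complex.digamma (1 / 4 + I * (t : ℂ) / 2)).re) / 2 := by
      unfold dth; ring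
    rw [e3, abs_div, abs_two]
    linarith
  have h4 : 2 / (1 / 4 + m / 2 - 1 / 2) ≤ 8 / m := by
    rw [div_le_div_iff₀ (by linarith) (by linarith)]
    linarith
  have h5 : 0 ≤ |s - t| := abs_nonneg _
  calc |dth s - dth t| ≤ (|s - t| / 2 * (2 / (1 / 4 + m / 2 - 1 / 2))) / 2 := by linarith
    _ ≤ (|s - t| / 2 * (8 / m)) / 2 := by gcongr
    _ = 2 * |s - t| / m := by ring

theorem PHS_dthlog (t : ℝ) (ht : 1 ≤ t) :
    |dth t - Real.log t / 2| ≤ Real.log Real.pi / 2 + 9 := by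
  have hz' : 0 < ((t : ℂ)).re := by rw [ofReal_re]; linarith
  have h1 := PHS_lip (PHS_pos t) hz' (c := 1 / 4 + t / 2) (by linarith)
    (PHS_low t t (by linarith) le_rfl) (by
      intro n
      have hn : (0 : ℝ) ≤ n := Nat.cast_nonneg n
      have e1 : (n : ℂ) + (t : ℂ) = ((n + t : ℝ) : ℂ) := by push_cast; ring
      rw [e1, Complex.norm_real, Real.norm_eq_abs, sq_abs]
      nlinarith)
  have h2 : ‖(1 / 4 + I * (t : ℂ) / 2) - (t : ℂ)‖ ≤ 2 * t := by
    have h3 := Complex.norm_le_abs_re_add_abs_im ((1 / 4 + I * (t : ℂ) / 2) - (t : ℂ))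
    rw [Complex.sub_re, Complex.sub_im, PHS_re, PHS_im, ofReal_re, ofReal_im] at h3
    have h4 : |(1 : ℝ) / 4 - t| = t - 1 / 4 := by
      rw [abs_of_nonpos (by linarith)]; ring
    have h5 : |t / 2 - 0| = t / 2 := by
      rw [sub_zero, abs_of_nonneg (by linarith)]
    rw [h4, h5] at h3
    linarith
  have h4 : 2 / (1 / 4 + t / 2 - 1 / 2) ≤ 8 / t := by
    rw [div_le_div_iff₀ (by linarith) (by linarith)]
    linarith
  have h6 : ‖Complex.digamma (1 / 4 + I * (t : ℂ) / 2) - Complex.digamma (t : ℂ)‖ ≤ 16 := by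
    calc ‖Complex.digamma (1 / 4 + I * (t : ℂ) / 2) - Complex.digamma (t : ℂ)‖
        ≤ ‖(1 / 4 + I * (t : ℂ) / 2) - (t : ℂ)‖ * (2 / (1 / 4 + t / 2 - 1 / 2)) := h1
      _ ≤ (2 * t) * (8 / t) := by
          gcongr
          apply div_nonneg (by norm_num)
          linarith
      _ = 16 := by field_simp; norm_num
  have h7 := Complex.abs_re_le_norm (Complex.digamma (1 / 4 + I * (t : ℂ) / 2) -
      Complex.digamma (t : ℂ))
  rw [Complex.sub_re] at h7
  have h8 := Pool.Agent.AQ.pr_le_log (show 0 < t by linarith)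
  have h9 := Pool.Agent.AQ.pr_ge (show 0 < t by linarith)
  unfold Pool.Agent.AQ.pr at h8 h9
  have h10 : 1 / t ≤ 1 := by
    rw [div_le_one (by linarith)]; exact ht
  have h11 := abs_le.1 (h7.trans h6)
  have h12 : 0 ≤ Real.log Real.pi := Real.log_nonneg (by linarith [Real.pi_gt_three])
  unfold dth
  rw [abs_le]
  constructor
  · linarith [h11.1]
  · linarith [h11.2]

theorem PHS_contdig : Continuous (fun t : ℝ => Complex.digamma (1 / 4 + I * (t : ℂ) / 2)) := by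
  rw [continuous_iff_continuousAt]
  intro t
  have h1 := (Pool.Agent.AQ.diff_digamma (PHS_pos t)).continuousAt
  have h2 : ContinuousAt (fun t : ℝ => 1 / 4 + I * (t : ℂ) / 2) t := by fun_prop
  exact ContinuousAt.comp (f := fun t : ℝ => 1 / 4 + I * (t : ℂ) / 2) h1 h2

theorem PHS_contdth : Continuous dth := by
  unfold dth
  exact continuous_const.add ((Complex.continuous_re.comp PHS_contdig).div_const 2)

/-- the function before normalisation -/
def PHS_g (t : ℝ) : ℂ :=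
  (Real.pi : ℂ) ^ (-(I * t / 2)) * Complex.Gamma (1 / 4 + I * t / 2)

theorem PHS_normpi (t : ℝ) : ‖(Real.pi : ℂ) ^ (-(I * (t : ℂ) / 2))‖ = 1 := by
  rw [Complex.norm_cpow_eq_rpow_re_of_pos Real.pi_pos]
  have : (-(I * (t : ℂ) / 2)).re = 0 := by
    have h : (-(I * (t : ℂ) / 2)) = ((-(t / 2) : ℝ) : ℂ) * I := by push_cast; ring
    rw [h, Complex.re_ofReal_mul, Complex.I_re, mul_zero]
  rw [this, Real.rpow_zero]

theorem PHS_Gne (t : ℝ) : Complex.Gamma (1 / 4 + I * (t : ℂ) / 2) ≠ 0 :=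
  Complex.Gamma_ne_zero (Pool.Agent.AQ.ne_neg_nat (PHS_pos t))

theorem PHS_ph (t : ℝ) : ph t = PHS_g t / (‖PHS_g t‖ : ℂ) := by
  unfold ph PHS_g
  rw [norm_mul, PHS_normpi, one_mul]

theorem PHS_gne (t : ℝ) : PHS_g t ≠ 0 := by
  unfold PHS_g
  refine mul_ne_zero ?_ (PHS_Gne t)
  rw [← norm_pos_iff, PHS_normpi]
  exact one_pos

/-- the derivative -/
theorem PHS_gderiv (t : ℝ) : HasDerivAt PHS_g
    (PHS_g t * ((((-(Complex.digamma (1 / 4 + I * (t : ℂ) / 2)).im / 2 : ℝ)) : ℂ) +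
      I * ((dth t : ℝ) : ℂ))) t := by
  have hpi : (Real.pi : ℂ) ≠ 0 := by
    rw [Complex.ofReal_ne_zero]; exact Real.pi_pos.ne'
  have h1 : HasDerivAt (fun s : ℂ => -(I * s / 2)) (-(I / 2)) (t : ℂ) := by
    have := ((hasDerivAt_id (t : ℂ)).const_mul (I)).div_const 2
    have h0 : HasDerivAt (fun s : ℂ => I * s / 2) (I / 2) (t : ℂ) := by simpa using this
    exact h0.fun_neg
  have h2 : HasDerivAt (fun s : ℂ => (Real.pi : ℂ) ^ (-(I * s / 2)))
      ((Real.pi : ℂ) ^ (-(I * (t : ℂ) / 2)) * Complex.log (Real.pi : ℂ) * (-(I / 2))) (t : ℂ) :=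
    h1.const_cpow (Or.inl hpi)
  have h3 : HasDerivAt (fun s : ℂ => 1 / 4 + I * s / 2) (I / 2) (t : ℂ) := by
    have := (((hasDerivAt_id (t : ℂ)).const_mul (I)).div_const 2).const_add (1 / 4 : ℂ)
    simpa using this
  have h4 : HasDerivAt Complex.Gamma (deriv Complex.Gamma (1 / 4 + I * (t : ℂ) / 2))
      (1 / 4 + I * (t : ℂ) / 2) :=
    (Complex.differentiableAt_Gamma _ (Pool.Agent.AQ.ne_neg_nat (PHS_pos t))).hasDerivAt
  have h5 := HasDerivAt.comp (t : ℂ) h4 h3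
  have h6 := (h2.mul h5).comp_ofReal
  have e1 : deriv Complex.Gamma (1 / 4 + I * (t : ℂ) / 2) =
      Complex.digamma (1 / 4 + I * (t : ℂ) / 2) * Complex.Gamma (1 / 4 + I * (t : ℂ) / 2) := by
    rw [Complex.digamma_def, logDeriv_apply, div_mul_cancel₀ _ (PHS_Gne t)]
  refine h6.congr_deriv ?_
  have e2 : Complex.digamma (1 / 4 + I * (t : ℂ) / 2) =
      (((Complex.digamma (1 / 4 + I * (t : ℂ) / 2)).re : ℝ) : ℂ) +
      (((Complex.digamma (1 / 4 + I * (t : ℂ) / 2)).im : ℝ) : ℂ) * I := (Complex.re_add_im _).symm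
  have e3 : Complex.log (Real.pi : ℂ) = ((Real.log Real.pi : ℝ) : ℂ) := by
    rw [Complex.ofReal_log Real.pi_pos.le]
  rw [e1, e3]
  unfold dth PHS_g
  simp only [Function.comp_apply]
  push_cast
  rw [e2]
  simp only [Complex.add_re, Complex.add_im, Complex.ofReal_re, Complex.ofReal_im,
    Complex.re_ofReal_mul, Complex.im_ofReal_mul, Complex.I_re, Complex.I_im, mul_zero, mul_one,
    add_zero, zero_add]
  ring_nf
  simp only [Complex.I_sq]
  ring

theorem PHS_formula (t : ℝ) :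
    ph t = ph 0 * cexp (I * ((∫ s in (0 : ℝ)..t, dth s : ℝ) : ℂ)) := by
  set a : ℝ → ℝ := fun t => -(Complex.digamma (1 / 4 + I * (t : ℂ) / 2)).im / 2 with ha
  have hac : Continuous a := by
    rw [ha]
    exact ((Complex.continuous_im.comp PHS_contdig).neg).div_const 2
  set FA : ℝ → ℝ := fun t => ∫ s in (0 : ℝ)..t, a s with hFA
  set FB : ℝ → ℝ := fun t => ∫ s in (0 : ℝ)..t, dth s with hFB
  have hA : ∀ t, HasDerivAt FA (a t) t := fun t => (hac.integral_hasStrictDerivAt 0 t).hasDerivAt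
  have hB : ∀ t, HasDerivAt FB (dth t) t := fun t =>
    (PHS_contdth.integral_hasStrictDerivAt 0 t).hasDerivAt
  set H : ℝ → ℂ := fun t => PHS_g t * cexp (-((FA t : ℂ) + I * (FB t : ℂ))) with hH
  have hHd : ∀ t, HasDerivAt H 0 t := by
    intro t
    have h1 : HasDerivAt (fun t : ℝ => -((FA t : ℂ) + I * (FB t : ℂ)))
        (-((a t : ℂ) + I * (dth t : ℂ))) t :=
      ((hA t).ofReal_comp.add ((hB t).ofReal_comp.const_mul I)).neg
    have h2 := (PHS_gderiv t).mul h1.cexp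
    refine h2.congr_deriv ?_
    rw [ha]
    ring
  have hconst : H t = H 0 := is_const_of_deriv_eq_zero (fun t => (hHd t).differentiableAt)
    (fun t => (hHd t).deriv) t 0
  have h0 : H 0 = PHS_g 0 := by
    rw [hH]
    simp [hFA, hFB]
  have hg : PHS_g t = PHS_g 0 * cexp ((FA t : ℂ) + I * (FB t : ℂ)) := by
    rw [← h0, ← hconst, hH]
    simp only
    rw [mul_assoc, ← Complex.exp_add]
    simp
  have hn : ‖PHS_g t‖ = ‖PHS_g 0‖ * Real.exp (FA t) := by
    rw [hg, norm_mul, Complex.norm_exp]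
    congr 2
    rw [Complex.add_re, Complex.ofReal_re, mul_comm I, Complex.re_ofReal_mul, Complex.I_re]
    ring
  rw [PHS_ph t, PHS_ph 0, hn, hg, Complex.exp_add]
  have hne : ((‖PHS_g 0‖ : ℝ) : ℂ) ≠ 0 := by
    rw [Complex.ofReal_ne_zero, norm_ne_zero_iff]
    exact PHS_gne 0
  have hne2 : cexp ((FA t : ℝ) : ℂ) ≠ 0 := Complex.exp_ne_zero _
  push_cast
  field_simp
  rfl

theorem stmt_PHS : Stmt_PHS := by
  have hcont : Continuous ph := by
    have h1 : ph = fun t => ph 0 * cexp (I * ((∫ s in (0 : ℝ)..t, dth s : ℝ) : ℂ)) := by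
      funext t
      exact PHS_formula t
    rw [h1]
    have h2 : Continuous (fun t : ℝ => ∫ s in (0 : ℝ)..t, dth s) := by
      rw [continuous_iff_continuousAt]
      intro t
      exact (PHS_contdth.integral_hasStrictDerivAt 0 t).hasDerivAt.continuousAt
    fun_prop
  have hnorm : ∀ t : ℝ, ‖ph t‖ = 1 := by
    intro t
    rw [PHS_ph, norm_div, Complex.norm_real, norm_norm, div_self]
    rw [norm_ne_zero_iff]
    exact PHS_gne t
  refine ⟨hcont, PHS_contdth, hnorm, Real.log Real.pi / 2 + 9, ?_, ?_, ?_⟩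
  · have h12 : 0 ≤ Real.log Real.pi := Real.log_nonneg (by linarith [Real.pi_gt_three])
    linarith
  · exact PHS_dthlog
  · intro t u ht hu
    have h12 : 0 ≤ Real.log Real.pi := Real.log_nonneg (by linarith [Real.pi_gt_three])
    have hint : ∀ a b : ℝ, IntervalIntegrable dth volume a b := fun a b =>
      PHS_contdth.intervalIntegrable a b
    have e1 : (∫ s in (0 : ℝ)..(t + u), dth s) = (∫ s in (0 : ℝ)..t, dth s) +
        ∫ s in t..(t + u), dth s := by
      rw [intervalIntegral.integral_add_adjacent_intervals (hint _ _) (hint _ _)]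
    set A := ∫ s in t..(t + u), dth s with hA
    have e2 : ph (t + u) = ph t * cexp (I * ((A : ℝ) : ℂ)) := by
      rw [PHS_formula (t + u), PHS_formula t, e1, mul_assoc, ← Complex.exp_add]
      congr 2
      push_cast
      ring
    have e3 : ph (t + u) - ph t * cexp (I * ((u * dth t : ℝ) : ℂ)) =
        ph t * cexp (I * ((u * dth t : ℝ) : ℂ)) *
          (cexp (I * ((A - u * dth t : ℝ) : ℂ)) - 1) := by
      rw [e2, mul_sub, mul_one, mul_assoc (ph t), ← Complex.exp_add]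
      congr 3
      push_cast
      ring
    rw [e3, norm_mul, norm_mul, hnorm, one_mul]
    have e4 : ‖cexp (I * ((u * dth t : ℝ) : ℂ))‖ = 1 := by
      rw [mul_comm]
      exact Complex.norm_exp_ofReal_mul_I _
    rw [e4, one_mul]
    have h1 := Real.norm_exp_I_mul_ofReal_sub_one_le (x := A - u * dth t)
    refine h1.trans ?_
    have e5 : A - u * dth t = ∫ s in t..(t + u), (dth s - dth t) := by
      rw [intervalIntegral.integral_sub (hint _ _) (intervalIntegrable_const),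
        intervalIntegral.integral_const]
      simp [hA]
    rw [e5]
    have habs := abs_le.1 hu
    have h2 : ∀ s ∈ Set.uIoc t (t + u), ‖dth s - dth t‖ ≤ 4 * |u| / t := by
      intro s hs
      have hs1 : |s - t| ≤ |u| := by
        rcases le_total 0 u with h0 | h0
        · rw [Set.uIoc_of_le (by linarith)] at hs
          rw [abs_of_nonneg h0, abs_le]
          constructor <;> linarith [hs.1, hs.2]
        · rw [Set.uIoc_of_ge (by linarith)] at hs
          rw [abs_of_nonpos h0, abs_le]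
          constructor <;> linarith [hs.1, hs.2]
      have hs2 := abs_le.1 hs1
      have h3 := PHS_dthlip (t / 2) s t (by linarith) (by linarith [hs2.1]) (by linarith)
      rw [Real.norm_eq_abs]
      calc |dth s - dth t| ≤ 2 * |s - t| / (t / 2) := h3
        _ ≤ 2 * |u| / (t / 2) := by gcongr
        _ = 4 * |u| / t := by field_simp; ring
    have h3 := intervalIntegral.norm_integral_le_of_norm_le_const h2
    have e6 : |t + u - t| = |u| := by congr 1; ring
    rw [e6] at h3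
    calc ‖∫ s in t..(t + u), (dth s - dth t)‖ ≤ 4 * |u| / t * |u| := h3
      _ = 4 * u ^ 2 / t := by
        rw [← sq_abs u]; ring
      _ ≤ (Real.log Real.pi / 2 + 9) * u ^ 2 / t := by
        gcongr
        linarith

end

end HZS
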