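import Pool.Agent.Work.MP_c51bc2_nt.Interface

/-!
# Block ZC (helper87): Hardy's function is continuous
-/

set_option autoImplicit false

open Finset Complex MeasureTheory

namespace HZS

theorem stmt_ZC (hPHS : Stmt_PHS) : Stmt_ZC := by
  have h2 : Continuous fun t : ℝ => riemannZeta (1 / 2 + I * (t : ℂ)) := by
    rw [continuous_iff_continuousAt]
    intro t
    have hne : (1 / 2 + I * (t : ℂ)) ≠ 1 := by
      intro h
      have h3 := congrArg Complex.re h
      simp at h3
    have h4 : ContinuousAt (fun t : ℝ => 1 / 2 + I * (t : ℂ)) t := by fun_prop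
    exact ContinuousAt.comp (f := fun t : ℝ => 1 / 2 + I * (t : ℂ)) (g := riemannZeta)
      (differentiableAt_riemannZeta hne).continuousAt h4
  exact Complex.continuous_re.comp (hPHS.1.mul h2)

end HZS
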