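import Pool.Agent.Work.MP_c51bc2_nt.Interface

/-! The final statements of MP_c51bc2_nt from the blocks. -/

open Finset Complex MeasureTheory

namespace HZS

theorem zspec (hRZ : Stmt_RZ) (t : ℝ) : (Z t : ℂ) =
    (Real.pi : ℂ) ^ (-(I * t / 2)) * Complex.Gamma (1 / 4 + I * t / 2) /
      (‖Complex.Gamma (1 / 4 + I * t / 2)‖ : ℂ) * riemannZeta (1 / 2 + I * t) := by
  have h := hRZ t
  apply Complex.ext
  · rw [Complex.ofReal_re]; rfl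
  · rw [Complex.ofReal_im]; exact h.symm

theorem finC (hRZ : Stmt_RZ) (hC : Stmt_FINC) :
    ∃ Z : ℝ → ℝ,
      (∀ t : ℝ, (Z t : ℂ) =
        (Real.pi : ℂ) ^ (-(I * t / 2)) * Complex.Gamma (1 / 4 + I * t / 2) /
          (‖Complex.Gamma (1 / 4 + I * t / 2)‖ : ℂ) * riemannZeta (1 / 2 + I * t)) ∧
      ∃ C T₀ W₀ : ℝ, 0 < C ∧ 1 < T₀ ∧ 0 < W₀ ∧
        ∀ T h : ℝ, T₀ ≤ T → W₀ / Real.log T ≤ h → h ≤ 1 / 5 →
          ∫ t in T..(2 * T), |(∫ u in t..(t + h), max (Z u) 0) + ∫ u in t..(t + h), min (Z u) 0| ≤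
            C * (h * Real.log T) ^ (-(1 / 4) : ℝ) * ∫ t in T..(2 * T),
              ((∫ u in t..(t + h), max (Z u) 0) - ∫ u in t..(t + h), min (Z u) 0) :=
  ⟨Z, zspec hRZ, hC⟩

theorem finD (hRZ : Stmt_RZ) (hD : Stmt_FIND) :
    ∃ Z : ℝ → ℝ,
      (∀ t : ℝ, (Z t : ℂ) =
        (Real.pi : ℂ) ^ (-(I * t / 2)) * Complex.Gamma (1 / 4 + I * t / 2) /
          (‖Complex.Gamma (1 / 4 + I * t / 2)‖ : ℂ) * riemannZeta (1 / 2 + I * t)) ∧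
      ∃ C T₀ W₀ : ℝ, 0 < C ∧ 1 < T₀ ∧ 0 < W₀ ∧
        ∀ T h : ℝ, T₀ ≤ T → W₀ / Real.log T ≤ h → h ≤ 1 / 5 →
          ∫ t in {u : ℝ | u ∈ Set.Icc T (2 * T) ∧
              ((∀ x : ℝ, |x - u| < h → 0 ≤ Z x) ∨ (∀ x : ℝ, |x - u| < h → Z x ≤ 0))}, |Z t| ≤
            C * (h * Real.log T) ^ (-(1 / 4) : ℝ) * ∫ t in T..(2 * T), |Z t| :=
  ⟨Z, zspec hRZ, hD⟩

end HZS
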