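import Pool.Agent.Work.MP_c51bc2_nt.Interface

/-!
# The multinomial theorem for completely multiplicative functions
-/

open Finset Complex MeasureTheory

namespace HZS

noncomputable section

namespace Multi

/-- the integer with given exponents -/
def nu (P : Finset ℕ) (k : ℕ → ℕ) : ℕ := ∏ p ∈ P, p ^ k p

lemma nu_ne_zero {P : Finset ℕ} (hP : ∀ p ∈ P, p.Prime) (k : ℕ → ℕ) : nu P k ≠ 0 := by
  unfold nu
  rw [Finset.prod_ne_zero_iff]
  intro p hp
  exact pow_ne_zero _ (hP p hp).ne_zero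

lemma nu_fac {P : Finset ℕ} (hP : ∀ p ∈ P, p.Prime) (k : ℕ → ℕ) (q : ℕ) :
    (nu P k).factorization q = if q ∈ P then k q else 0 := by
  unfold nu
  rw [Nat.factorization_prod (fun p hp => pow_ne_zero _ (hP p hp).ne_zero), Finsupp.finsetSum_apply]
  have h1 : ∀ p ∈ P, ((p ^ k p).factorization) q = if p = q then k p else 0 := by
    intro p hp
    rw [(hP p hp).factorization_pow, Finsupp.single_apply]
  rw [Finset.sum_congr rfl h1, Finset.sum_ite_eq' P q k]

lemma nu_primeFactors {P : Finset ℕ} (hP : ∀ p ∈ P, p.Prime) (k : ℕ → ℕ) :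
    ∀ p ∈ (nu P k).primeFactors, p ∈ P := by
  intro q hq
  by_contra hcon
  rw [← Nat.support_factorization, Finsupp.mem_support_iff, nu_fac hP, if_neg hcon] at hq
  exact hq rfl

lemma eq_nu {P : Finset ℕ} {e : ℕ} (he : e ≠ 0) (hP : ∀ p ∈ e.primeFactors, p ∈ P) :
    nu P (fun p => e.factorization p) = e := by
  conv_rhs => rw [← Nat.prod_factorization_pow_eq_self he]
  unfold nu Finsupp.prod
  rw [Nat.support_factorization]
  symm
  apply Finset.prod_subset hP
  intro p _ hp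
  have : e.factorization p = 0 := by
    rwa [← Finsupp.notMem_support_iff, Nat.support_factorization]
  rw [this]
  exact pow_zero p

lemma mem_SE {P : Finset ℕ} (hP : ∀ p ∈ P, p.Prime) {K d : ℕ} : d ∈ SE P K ↔
    d ≠ 0 ∧ (∀ p ∈ d.primeFactors, p ∈ P) ∧ ∑ p ∈ P, d.factorization p = K := by
  unfold SE
  rw [Finset.mem_filter, Finset.mem_Icc]
  constructor
  · rintro ⟨⟨h1, _⟩, h2, h3⟩
    exact ⟨by omega, h2, h3⟩
  · rintro ⟨h1, h2, h3⟩
    refine ⟨⟨Nat.one_le_iff_ne_zero.2 h1, ?_⟩, h2, h3⟩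
    conv_lhs => rw [← eq_nu h1 h2]
    unfold nu
    refine Finset.prod_le_prod' fun p hp => Nat.pow_le_pow_right (hP p hp).pos ?_
    rw [← h3]
    exact Finset.single_le_sum (f := fun p => d.factorization p) (fun _ _ => Nat.zero_le _) hp

lemma mem_SK {P : Finset ℕ} (hP : ∀ p ∈ P, p.Prime) {K d : ℕ} : d ∈ SK P K ↔
    d ≠ 0 ∧ (∀ p ∈ d.primeFactors, p ∈ P) ∧ ∑ p ∈ P, d.factorization p ≤ K := by
  unfold SK
  rw [Finset.mem_filter, Finset.mem_Icc]
  constructor
  · rintro ⟨⟨h1, _⟩, h2, h3⟩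
    exact ⟨by omega, h2, h3⟩
  · rintro ⟨h1, h2, h3⟩
    refine ⟨⟨Nat.one_le_iff_ne_zero.2 h1, ?_⟩, h2, h3⟩
    conv_lhs => rw [← eq_nu h1 h2]
    unfold nu
    refine Finset.prod_le_prod' fun p hp => Nat.pow_le_pow_right (hP p hp).pos ?_
    exact (Finset.single_le_sum (f := fun p => d.factorization p) (fun _ _ => Nat.zero_le _)
      hp).trans h3

lemma SK_eq {P : Finset ℕ} (hP : ∀ p ∈ P, p.Prime) (K : ℕ) :
    SK P K = (range (K + 1)).biUnion (fun k => SE P k) := by
  ext d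
  rw [mem_SK hP, Finset.mem_biUnion]
  constructor
  · rintro ⟨h1, h2, h3⟩
    exact ⟨_, Finset.mem_range.2 (by omega), (mem_SE hP).2 ⟨h1, h2, rfl⟩⟩
  · rintro ⟨k, hk, hd⟩
    rw [Finset.mem_range] at hk
    obtain ⟨h1, h2, h3⟩ := (mem_SE hP).1 hd
    exact ⟨h1, h2, by omega⟩

lemma sum_SK {P : Finset ℕ} (hP : ∀ p ∈ P, p.Prime) {β : Type*} [AddCommMonoid β] (K : ℕ)
    (g : ℕ → β) : ∑ d ∈ SK P K, g d = ∑ k ∈ range (K + 1), ∑ d ∈ SE P k, g d := by
  rw [SK_eq hP, Finset.sum_biUnion]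
  intro i _ j _ hij
  rw [Function.onFun, Finset.disjoint_left]
  intro d hd hd'
  have h1 := ((mem_SE hP).1 hd).2.2
  have h2 := ((mem_SE hP).1 hd').2.2
  exact hij (h1.symm.trans h2)

lemma cf_eq {P : Finset ℕ} {d : ℕ} (hP : ∀ p ∈ d.primeFactors, p ∈ P) (s : ℝ) :
    cf s d = ∏ p ∈ P, s ^ (d.factorization p) / ((d.factorization p).factorial : ℝ) := by
  unfold cf
  apply Finset.prod_subset hP
  intro p _ hp
  have : d.factorization p = 0 := by
    rwa [← Finsupp.notMem_support_iff, Nat.support_factorization]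
  rw [this]
  simp

lemma cf_pow {P : Finset ℕ} {d : ℕ} (hP : ∀ p ∈ d.primeFactors, p ∈ P) (s : ℝ) :
    cf s d = s ^ (∑ p ∈ P, d.factorization p) * cf 1 d := by
  rw [cf_eq hP, cf_eq hP, ← Finset.prod_pow_eq_pow_sum, ← Finset.prod_mul_distrib]
  refine Finset.prod_congr rfl fun p _ => ?_
  rw [one_pow]
  ring

lemma multinomial_eq {P : Finset ℕ} {d k : ℕ} (hP : ∀ p ∈ d.primeFactors, p ∈ P)
    (hk : ∑ p ∈ P, d.factorization p = k) :
    ((Nat.multinomial P (fun p => d.factorization p) : ℕ) : ℝ) = (k.factorial : ℝ) * cf 1 d := by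
  have h1 := Nat.multinomial_spec P (fun p => d.factorization p)
  rw [hk] at h1
  have h2 : (∏ p ∈ P, ((d.factorization p).factorial : ℝ)) *
      (Nat.multinomial P (fun p => d.factorization p) : ℕ) = (k.factorial : ℝ) := by
    rw [← h1]
    push_cast
    rfl
  have hne : (∏ p ∈ P, ((d.factorization p).factorial : ℝ)) ≠ 0 := by
    rw [Finset.prod_ne_zero_iff]
    intro p _
    exact_mod_cast Nat.factorial_ne_zero _
  rw [cf_eq hP, ← h2]
  have h3 : (∏ p ∈ P, (1 : ℝ) ^ (d.factorization p) / ((d.factorization p).factorial : ℝ)) =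
      (∏ p ∈ P, ((d.factorization p).factorial : ℝ))⁻¹ := by
    rw [← Finset.prod_inv_distrib]
    refine Finset.prod_congr rfl fun p _ => ?_
    rw [one_pow, one_div]
  rw [h3]
  field_simp

/-- the multinomial theorem for a completely multiplicative function -/
lemma pow_sum {P : Finset ℕ} (hP : ∀ p ∈ P, p.Prime) (f : ℕ → ℂ) (h1 : f 1 = 1)
    (hmul : ∀ a b : ℕ, a ≠ 0 → b ≠ 0 → f (a * b) = f a * f b) (m : ℕ) :
    (∑ p ∈ P, f p) ^ m = ∑ e ∈ SE P m, (((m.factorial : ℝ) * cf 1 e : ℝ) : ℂ) * f e := by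
  have hpow : ∀ (p : ℕ), p ≠ 0 → ∀ k : ℕ, f (p ^ k) = f p ^ k := by
    intro p hp k
    induction k with
    | zero => simp [h1]
    | succ k ih => rw [pow_succ, hmul _ _ (pow_ne_zero _ hp) hp, ih, pow_succ]
  have hprod : ∀ Q ⊆ P, ∀ k : ℕ → ℕ, f (∏ p ∈ Q, p ^ k p) = ∏ p ∈ Q, f p ^ k p := by
    intro Q
    induction Q using Finset.induction_on with
    | empty => intro _ k; simp [h1]
    | insert a Q ha ih =>
      intro hQ k
      have haP := hQ (Finset.mem_insert_self a Q)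
      have hQP : Q ⊆ P := (Finset.subset_insert a Q).trans hQ
      rw [Finset.prod_insert ha, Finset.prod_insert ha,
        hmul _ _ (pow_ne_zero _ (hP a haP).ne_zero)
          (Finset.prod_ne_zero_iff.2 fun p hp => pow_ne_zero _ (hP p (hQP hp)).ne_zero),
        ih hQP k, hpow a (hP a haP).ne_zero]
  rw [Finset.sum_pow_eq_sum_piAntidiag]
  refine Finset.sum_bij' (fun k _ => nu P k) (fun e _ => fun p => e.factorization p) ?_ ?_ ?_ ?_ ?_
  · intro k hk
    rw [Finset.mem_piAntidiag] at hk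
    rw [mem_SE hP]
    refine ⟨nu_ne_zero hP k, nu_primeFactors hP k, ?_⟩
    rw [← hk.1]
    refine Finset.sum_congr rfl fun p hp => ?_
    rw [nu_fac hP, if_pos hp]
  · intro e he
    rw [mem_SE hP] at he
    rw [Finset.mem_piAntidiag]
    refine ⟨he.2.2, fun p hp => he.2.1 p ?_⟩
    rw [← Nat.support_factorization, Finsupp.mem_support_iff]
    exact hp
  · intro k hk
    rw [Finset.mem_piAntidiag] at hk
    funext q
    rw [nu_fac hP]
    split_ifs with h
    · rfl
    · by_contra hcon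
      exact h (hk.2 q (Ne.symm hcon))
  · intro e he
    rw [mem_SE hP] at he
    exact eq_nu he.1 he.2.1
  · intro k hk
    rw [Finset.mem_piAntidiag] at hk
    have hfac : ∀ p ∈ P, (nu P k).factorization p = k p := fun p hp => by
      rw [nu_fac hP, if_pos hp]
    have hsum : ∑ p ∈ P, (nu P k).factorization p = m := by
      rw [← hk.1]
      exact Finset.sum_congr rfl hfac
    have hm := multinomial_eq (nu_primeFactors hP k) hsum
    have hmm : Nat.multinomial P (fun p => (nu P k).factorization p) = Nat.multinomial P k :=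
      Nat.multinomial_congr hfac
    rw [hmm] at hm
    rw [← hm, ← hprod P (Finset.Subset.refl P) k]
    push_cast
    rfl

end Multi

end

end HZS
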