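import Pool.Agent.Work.MP_c51bc2_nt.All

/-!
# MP_c51bc2: the mass of Hardy's function lies close to its sign changes

The points of `[T, 2T]` around which `Z` keeps its sign on a window of radius `h` carry at most
`C (h log T)^{-1/4}` of `∫_T^{2T} |Z|`, for `W₀ / log T ≤ h ≤ 1/5`.
-/

set_option autoImplicit false

namespace Pool.Agent.Results.MP_c51bc2_nt.NearSignChanges

open Complex MeasureTheory

/-- Hardy's function `Z(t) = π^{-it/2} Γ(1/4+it/2)/|Γ(1/4+it/2)| ζ(1/2+it)` is real, and there are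
constants `C, T₀, W₀` such that for all `T ≥ T₀` and `W₀ / log T ≤ h ≤ 1/5` the integral of `|Z|`
over the set of the `u ∈ [T, 2T]` such that `Z ≥ 0` on all of `(u-h, u+h)` or `Z ≤ 0` on all of
`(u-h, u+h)` is at most `C (h log T)^{-1/4}` times the integral of `|Z|` over `[T, 2T]`. -/
theorem result :
    ∃ Z : ℝ → ℝ,
      (∀ t : ℝ, (Z t : ℂ) =
        (Real.pi : ℂ) ^ (-(I * t / 2)) * Complex.Gamma (1 / 4 + I * t / 2) /
          (‖Complex.Gamma (1 / 4 + I * t / 2)‖ : ℂ) * riemannZeta (1 / 2 + I * t)) ∧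
      ∃ C T₀ W₀ : ℝ, 0 < C ∧ 1 < T₀ ∧ 0 < W₀ ∧
        ∀ T h : ℝ, T₀ ≤ T → W₀ / Real.log T ≤ h → h ≤ 1 / 5 →
          ∫ t in {u : ℝ | u ∈ Set.Icc T (2 * T) ∧
              ((∀ x : ℝ, |x - u| < h → 0 ≤ Z x) ∨ (∀ x : ℝ, |x - u| < h → Z x ≤ 0))}, |Z t| ≤
            C * (h * Real.log T) ^ (-(1 / 4) : ℝ) * ∫ t in T..(2 * T), |Z t| :=
  HZS.finD HZS.all_RZ HZS.all_FIND

end Pool.Agent.Results.MP_c51bc2_nt.NearSignChanges
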